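import Mathlib

/-! Basic tools about palindromic and periodic stretches of a two-sided sequence. -/

set_option autoImplicit false

namespace Pool.Agent.H173.PL

variable {α : Type*} {w : ℤ → α}

/-- the stretch `[a,b)` of `w` is a palindrome -/
def Pal (w : ℤ → α) (a b : ℤ) : Prop := ∀ i, a ≤ i → i < b → w i = w (a + b - 1 - i)

/-- `d` is a period of the stretch `[a,b)` of `w` -/
def Per (w : ℤ → α) (a b d : ℤ) : Prop := ∀ i, a ≤ i → i + d < b → w i = w (i + d)

/-- letters at positions with sum congruent to `κ` modulo `d` agree -/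
def Sym (w : ℤ → α) (a b d κ : ℤ) : Prop :=
  ∀ i j, a ≤ i → i < b → a ≤ j → j < b → d ∣ (i + j - κ) → w i = w j

/-- `d` is the least positive period of the stretch `[a,b)` -/
def MinPer (w : ℤ → α) (a b d : ℤ) : Prop :=
  1 ≤ d ∧ Per w a b d ∧ ∀ e, 1 ≤ e → Per w a b e → d ≤ e

theorem Per.mono {a b d a' b' : ℤ} (h : Per w a b d) (ha : a ≤ a') (hb : b' ≤ b) :
    Per w a' b' d := fun i h1 h2 => h i (by omega) (by omega)

theorem Per.natmul {a b d : ℤ} (hd : 0 ≤ d) (h : Per w a b d) (k : ℕ) :
    Per w a b (k * d) := by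
  induction k with
  | zero => intro i _ _; simp
  | succ k ih =>
    intro i h1 h2
    have e : ((k + 1 : ℕ) : ℤ) * d = k * d + d := by push_cast; ring
    rw [e] at h2 ⊢
    have hk : 0 ≤ (k : ℤ) * d := by positivity
    rw [ih i h1 (by omega), ← add_assoc]
    exact h (i + k * d) (by omega) (by omega)

theorem Per.mod {a b d i j : ℤ} (hd : 0 < d) (h : Per w a b d) (hi : a ≤ i) (hib : i < b)
    (hj : a ≤ j) (hjb : j < b) (hdvd : d ∣ (j - i)) : w i = w j := by
  obtain ⟨k, hk⟩ := hdvd
  rcases le_total 0 k with h0 | h0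
  · obtain ⟨n, rfl⟩ := Int.eq_ofNat_of_zero_le h0
    have hj' : j = i + n * d := by
      have : d * (n : ℤ) = n * d := mul_comm _ _
      linarith
    subst hj'
    exact Per.natmul hd.le h n i hi hjb
  · obtain ⟨n, hn⟩ := Int.eq_ofNat_of_zero_le (show 0 ≤ -k by omega)
    have hk' : k = -(n : ℤ) := by omega
    subst hk'
    have hi' : i = j + n * d := by
      have : d * (-(n : ℤ)) = -(n * d) := by ring
      linarith
    subst hi'
    exact (Per.natmul hd.le h n j hj hib).symm

theorem Per.union {a b c e d : ℤ} (h1 : Per w a b d) (h2 : Per w c e d) (h : c + d ≤ b) :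
    Per w a e d := by
  intro i hi hid
  rcases lt_or_ge i c with hc | hc
  · exact h1 i hi (by omega)
  · exact h2 i hc hid

/-- representative of a residue class in a window -/
theorem exists_rep {c d i : ℤ} (hd : 0 < d) : ∃ i', c ≤ i' ∧ i' < c + d ∧ d ∣ (i' - i) := by
  refine ⟨c + (i - c) % d, ?_, ?_, ?_⟩
  · have := Int.emod_nonneg (i - c) hd.ne'
    omega
  · have := Int.emod_lt_of_pos (i - c) hd
    omega
  · have h := Int.emod_add_mul_ediv (i - c) d
    refine ⟨-((i - c) / d), ?_⟩
    have : d * -((i - c) / d) = - (d * ((i - c) / d)) := by ring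
    rw [this]
    omega

theorem Per.of_dvd_sub {a b d c e f : ℤ} (hd : 0 < d) (h : Per w a b d) (he : 0 < e)
    (hed : e ∣ d) (h' : Per w c f e) (hac : a ≤ c) (hfb : f ≤ b) (hlen : d ≤ f - c) :
    Per w a b e := by
  intro i hi hie
  obtain ⟨i1, h1a, h1b, h1c⟩ := exists_rep (c := c) (i := i) hd
  obtain ⟨i2, h2a, h2b, h2c⟩ := exists_rep (c := c) (i := i + e) hd
  have e1 : w i = w i1 := h.mod hd hi (by omega) (by omega) (by omega) h1c
  have e2 : w (i + e) = w i2 := h.mod hd (by omega) (by omega) (by omega) (by omega) h2c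
  have e3 : w i1 = w i2 := by
    refine h'.mod he h1a (by omega) h2a (by omega) ?_
    have : i2 - i1 = (i2 - (i + e)) - (i1 - i) + e := by ring
    rw [this]
    exact dvd_add (dvd_sub (hed.trans h2c) (hed.trans h1c)) dvd_rfl
  rw [e1, e2, e3]

/-- Fine and Wilf, weak length bound. -/
theorem Per.gcd_aux (n : ℕ) : ∀ (p q : ℕ), p + q ≤ n → 0 < p → 0 < q → ∀ a b : ℤ,
    Per w a b p → Per w a b q → (p : ℤ) + q ≤ b - a → Per w a b (Nat.gcd p q : ℕ) := by
  induction n with
  | zero => intro p q h hp; omega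
  | succ n ih =>
    have key : ∀ (p q : ℕ), p + q ≤ n + 1 → 0 < p → p < q → ∀ a b : ℤ,
        Per w a b p → Per w a b q → (p : ℤ) + q ≤ b - a → Per w a b (Nat.gcd p q : ℕ) := by
      intro p q h hp hpq a b h1 h2 hl
      have h3 : Per w a (b - p) ((q - p : ℕ) : ℤ) := by
        intro i hi hib
        have hc : ((q - p : ℕ) : ℤ) = q - p := by omega
        rw [hc] at hib ⊢
        have e1 := h2 i hi (by omega)
        have e2 := h1 (i + (q - p)) (by omega) (by omega)
        rw [e1, e2]
        congr 1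
        ring
      have h4 := ih p (q - p) (by omega) hp (by omega) a (b - p)
        (h1.mono le_rfl (by omega)) h3 (by omega)
      have hg : Nat.gcd p (q - p) = Nat.gcd p q := Nat.gcd_sub_self_right hpq.le
      rw [hg] at h4
      refine Per.of_dvd_sub (by exact_mod_cast hp) h1 ?_ ?_ h4 le_rfl (by omega) (by omega)
      · exact_mod_cast Nat.gcd_pos_of_pos_left q hp
      · exact_mod_cast Nat.gcd_dvd_left p q
    intro p q h hp hq a b h1 h2 hl
    rcases lt_trichotomy p q with hlt | heq | hgt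
    · exact key p q h hp hlt a b h1 h2 hl
    · subst heq
      rw [Nat.gcd_self]
      exact h1
    · rw [Nat.gcd_comm]
      exact key q p (by omega) hq hgt a b h2 h1 (by omega)

/-- Fine and Wilf in the form used: if `p` is the least period of `[a,b)` and `q` is another
period with `p + q ≤ b - a`, then `p ∣ q`. -/
theorem MinPer.dvd {a b p q : ℤ} (h : MinPer w a b p) (hq : 1 ≤ q) (h2 : Per w a b q)
    (hl : p + q ≤ b - a) : p ∣ q := by
  obtain ⟨hp, h1, hmin⟩ := h
  obtain ⟨p', rfl⟩ := Int.eq_ofNat_of_zero_le (show 0 ≤ p by omega)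
  obtain ⟨q', rfl⟩ := Int.eq_ofNat_of_zero_le (show 0 ≤ q by omega)
  have h3 := Per.gcd_aux (w := w) (p' + q') p' q' le_rfl (by omega) (by omega) a b h1 h2 hl
  have hg : 1 ≤ ((Nat.gcd p' q' : ℕ) : ℤ) := by
    have : 0 < Nat.gcd p' q' := Nat.gcd_pos_of_pos_left _ (by omega)
    exact_mod_cast this
  have h4 := hmin _ hg h3
  have h5 : Nat.gcd p' q' ≤ p' := Nat.gcd_le_left _ (by omega)
  have h6 : Nat.gcd p' q' = p' := by
    have : p' ≤ Nat.gcd p' q' := by exact_mod_cast h4
    omega
  have : p' ∣ q' := by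
    rw [← h6]
    exact Nat.gcd_dvd_right p' q'
  exact_mod_cast this

/-- Fine and Wilf: periods `p` of `[a,b)`, and `q` of `[c,f)` with large intersection; the
minimal one divides. -/
theorem MinPer.dvd_of_overlap {a b c f p q : ℤ} (h : MinPer w a b p) (hq : 1 ≤ q)
    (h2 : Per w c f q) (hac : a ≤ c) (hfb : f ≤ b) (hl : p + q ≤ f - c) : p ∣ q := by
  obtain ⟨hp, h1, hmin⟩ := h
  obtain ⟨p', rfl⟩ := Int.eq_ofNat_of_zero_le (show 0 ≤ p by omega)
  obtain ⟨q', rfl⟩ := Int.eq_ofNat_of_zero_le (show 0 ≤ q by omega)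
  have h3 := Per.gcd_aux (w := w) (p' + q') p' q' le_rfl (by omega) (by omega) c f
    (h1.mono hac hfb) h2 hl
  have hg : 1 ≤ ((Nat.gcd p' q' : ℕ) : ℤ) := by
    have : 0 < Nat.gcd p' q' := Nat.gcd_pos_of_pos_left _ (by omega)
    exact_mod_cast this
  have h3' : Per w a b ((Nat.gcd p' q' : ℕ) : ℤ) := by
    refine Per.of_dvd_sub (by omega) h1 (by omega) ?_ h3 hac hfb (by omega)
    exact_mod_cast Nat.gcd_dvd_left p' q'
  have h4 := hmin _ hg h3'
  have h5 : Nat.gcd p' q' ≤ p' := Nat.gcd_le_left _ (by omega)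
  have h6 : Nat.gcd p' q' = p' := by
    have : p' ≤ Nat.gcd p' q' := by exact_mod_cast h4
    omega
  have : p' ∣ q' := by
    rw [← h6]
    exact Nat.gcd_dvd_right p' q'
  exact_mod_cast this

theorem MinPer.unique {a b p q : ℤ} (h : MinPer w a b p) (h' : MinPer w a b q) : p = q :=
  le_antisymm (h.2.2 q h'.1 h'.2.1) (h'.2.2 p h.1 h.2.1)

theorem Per.of_ge {a b d : ℤ} (h : b - a ≤ d) : Per w a b d := by
  intro i h1 h2
  omega

theorem MinPer.exists {a b : ℤ} (hab : a < b) : ∃ d, MinPer w a b d ∧ d ≤ b - a := by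
  classical
  have hex : ∃ n : ℕ, 1 ≤ n ∧ Per w a b n := ⟨(b - a).toNat, by omega, Per.of_ge (by omega)⟩
  refine ⟨(Nat.find hex : ℕ), ⟨?_, (Nat.find_spec hex).2, ?_⟩, ?_⟩
  · exact_mod_cast (Nat.find_spec hex).1
  · intro e he hper
    have : Nat.find hex ≤ e.toNat := by
      apply Nat.find_min'
      refine ⟨by omega, ?_⟩
      have : ((e.toNat : ℕ) : ℤ) = e := by omega
      rw [this]
      exact hper
    omega
  · have : Nat.find hex ≤ (b - a).toNat := by
      apply Nat.find_min'
      exact ⟨by omega, Per.of_ge (by omega)⟩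
    omega

theorem MinPer.le_length {a b d : ℤ} (hab : a < b) (h : MinPer w a b d) : d ≤ b - a := by
  obtain ⟨d', h1, h2⟩ := MinPer.exists (w := w) hab
  rw [h.unique h1]
  exact h2

/-- minimal periods grow with the stretch -/
theorem MinPer.mono {a b a' b' d d' : ℤ} (h : MinPer w a b d) (h' : MinPer w a' b' d')
    (ha : a ≤ a') (hb : b' ≤ b) : d' ≤ d :=
  h'.2.2 d h.1 (h.2.1.mono ha hb)

/-! ### palindromes -/

theorem Pal.nil (a : ℤ) : Pal w a a := by
  intro i h1 h2
  omega

theorem Pal.single (a : ℤ) : Pal w a (a + 1) := by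
  intro i h1 h2
  congr 1
  omega

theorem Pal.shrink {a b k : ℤ} (h : Pal w a b) (hk : 0 ≤ k) : Pal w (a + k) (b - k) := by
  intro i h1 h2
  rw [h i (by omega) (by omega)]
  congr 1
  ring

theorem Pal.per {a b b' : ℤ} (h : Pal w a b) (h' : Pal w a b') (hbb : b ≤ b') :
    Per w a b' (b' - b) := by
  intro i h1 h2
  rw [h i h1 (by omega), h' _ (by omega) (by omega)]
  congr 1
  ring

theorem Pal.per_left {a a' b : ℤ} (h : Pal w a b) (h' : Pal w a' b) (haa : a' ≤ a) :
    Per w a' b (a - a') := by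
  intro i h1 h2
  rw [h' i h1 (by omega), h _ (by omega) (by omega)]
  congr 1
  ring

theorem Pal.cut {a b d : ℤ} (h : Pal w a b) (hp : Per w a b d) (hd : 0 ≤ d) :
    Pal w a (b - d) := by
  intro i h1 h2
  rw [hp i h1 (by omega), h (i + d) (by omega) (by omega)]
  congr 1
  ring

theorem Pal.cut_left {a b d : ℤ} (h : Pal w a b) (hp : Per w a b d) (hd : 0 ≤ d) :
    Pal w (a + d) b := by
  intro i h1 h2
  rw [h i (by omega) (by omega)]
  rw [hp (a + b - 1 - i) (by omega) (by omega)]
  congr 1
  ring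

theorem Pal.mirror_per {u v a b d : ℤ} (h : Pal w u v) (hp : Per w a b d) (hu : u ≤ a)
    (hv : b ≤ v) (hd : 0 ≤ d) : Per w (u + v - b) (u + v - a) d := by
  intro i h1 h2
  rw [h i (by omega) (by omega), h (i + d) (by omega) (by omega)]
  have := hp (u + v - 1 - (i + d)) (by omega) (by omega)
  rw [this]
  congr 1
  ring

/-! ### symmetric stretches -/

theorem Sym.mono {a b d κ a' b' : ℤ} (h : Sym w a b d κ) (ha : a ≤ a') (hb : b' ≤ b) :
    Sym w a' b' d κ := fun i j h1 h2 h3 h4 h5 => h i j (by omega) (by omega) (by omega) (by omega) h5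

theorem Sym.of_pal {u v d : ℤ} (h : Pal w u v) (hp : Per w u v d) (hd : 0 < d) :
    Sym w u v d (u + v - 1) := by
  intro i j h1 h2 h3 h4 h5
  rw [h i h1 h2]
  refine hp.mod hd (by omega) (by omega) h3 h4 ?_
  have : j - (u + v - 1 - i) = i + j - (u + v - 1) := by ring
  rw [this]
  exact h5

theorem Sym.extend {a b d κ a' b' : ℤ} (h : Sym w a b d κ) (hp : Per w a' b' d) (hd : 0 < d)
    (ha : a' ≤ a) (hb : b ≤ b') (hl : d ≤ b - a) : Sym w a' b' d κ := by
  intro i j h1 h2 h3 h4 h5
  obtain ⟨i', hi1, hi2, hi3⟩ := exists_rep (c := a) (i := i) hd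
  obtain ⟨j', hj1, hj2, hj3⟩ := exists_rep (c := a) (i := j) hd
  have e1 : w i = w i' := hp.mod hd h1 h2 (by omega) (by omega) hi3
  have e2 : w j = w j' := hp.mod hd h3 h4 (by omega) (by omega) hj3
  rw [e1, e2]
  refine h i' j' hi1 (by omega) hj1 (by omega) ?_
  have : i' + j' - κ = (i' - i) + (j' - j) + (i + j - κ) := by ring
  rw [this]
  exact dvd_add (dvd_add hi3 hj3) h5

theorem Sym.mirror {a b d κ u v : ℤ} (h : Sym w a b d κ) (hp : Pal w u v) (hu : u ≤ a)
    (hv : b ≤ v) : Sym w (u + v - b) (u + v - a) d (2 * (u + v - 1) - κ) := by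
  intro i j h1 h2 h3 h4 h5
  rw [hp i (by omega) (by omega), hp j (by omega) (by omega)]
  refine h _ _ (by omega) (by omega) (by omega) (by omega) ?_
  have : u + v - 1 - i + (u + v - 1 - j) - κ = -(i + j - (2 * (u + v - 1) - κ)) := by ring
  rw [this]
  exact (dvd_neg).2 h5

theorem Sym.per {a b d κ : ℤ} (h : Sym w a b d κ) (hd : 0 < d) (_hl : d ≤ b - a) :
    Per w a b d := by
  intro i h1 h2
  obtain ⟨j, hj1, hj2, hj3⟩ := exists_rep (c := a) (i := κ - i) hd
  have e1 : w i = w j := by
    refine h i j h1 (by omega) hj1 (by omega) ?_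
    have : i + j - κ = j - (κ - i) := by ring
    rw [this]
    exact hj3
  have e2 : w (i + d) = w j := by
    refine h (i + d) j (by omega) h2 hj1 (by omega) ?_
    have : i + d + j - κ = j - (κ - i) + d := by ring
    rw [this]
    exact dvd_add hj3 dvd_rfl
  rw [e1, e2]

theorem Sym.pal {a b d κ u v : ℤ} (h : Sym w a b d κ) (hu : a ≤ u) (hv : v ≤ b)
    (hd : d ∣ (u + v - 1 - κ)) : Pal w u v := by
  intro i h1 h2
  refine h _ _ (by omega) (by omega) (by omega) (by omega) ?_
  have : i + (u + v - 1 - i) - κ = u + v - 1 - κ := by ring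
  rw [this]
  exact hd

/-- shifting a palindrome inside a run -/
theorem Pal.translate {a b d ε : ℤ} (h : Pal w a b) (hε : ε = 1 ∨ ε = -1) (hd : 0 ≤ d)
    (hp : Per w (a - d) (b + d) d) : Pal w (a + ε * d) (b + ε * d) := by
  rcases hε with rfl | rfl
  · intro i h1 h2
    have e1 := hp (i - d) (by omega) (by omega)
    have e2 := h (i - d) (by omega) (by omega)
    have e3 := hp (a + b - 1 - (i - d)) (by omega) (by omega)
    rw [sub_add_cancel] at e1
    rw [← e1, e2, e3]
    congr 1
    ring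
  · intro i h1 h2
    have e1 := hp i (by omega) (by omega)
    have e2 := h (i + d) (by omega) (by omega)
    have e3 := hp (a + b - 1 - (i + d) - d) (by omega) (by omega)
    rw [sub_add_cancel] at e3
    rw [e1, e2, ← e3]
    congr 1
    ring

/-- growing a palindrome on both sides by `d` when both ends are locally `d`-periodic -/
theorem Pal.grow {a b d : ℤ} (h : Pal w a b) (hl : d ≤ b - a)
    (h1 : Per w (a - d) (a + d) d) (h2 : Per w (b - d) (b + d) d) : Pal w (a - d) (b + d) := by
  intro i hi1 hi2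
  rcases lt_or_ge i a with h3 | h3
  · have e1 := h1 i (by omega) (by omega)
    have e2 := h (i + d) (by omega) (by omega)
    have e3 := h2 (a + b - 1 - (i + d)) (by omega) (by omega)
    rw [e1, e2, e3]
    congr 1
    ring
  · rcases lt_or_ge i b with h4 | h4
    · rw [h i h3 h4]
      congr 1
      ring
    · have e1 := h2 (i - d) (by omega) (by omega)
      have e2 := h (i - d) (by omega) (by omega)
      have e3 := h1 (a + b - 1 - (i - d) - d) (by omega) (by omega)
      rw [sub_add_cancel] at e1 e3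
      rw [← e1, e2, ← e3]
      congr 1
      ring

/-! ### reaching by palindromes -/

/-- `b` is reached from `a` by `q` (possibly empty) palindromic steps -/
def Reach (w : ℤ → α) : ℕ → ℤ → ℤ → Prop
  | 0, a, b => a = b
  | q + 1, a, b => ∃ c, a ≤ c ∧ Pal w a c ∧ Reach w q c b

theorem Reach.le {q : ℕ} : ∀ {a b : ℤ}, Reach w q a b → a ≤ b := by
  induction q with
  | zero => intro a b h; exact le_of_eq h
  | succ q ih =>
    rintro a b ⟨c, h1, h2, h3⟩
    exact h1.trans (ih h3)

theorem Reach.cons {q : ℕ} {a b c : ℤ} (h1 : a ≤ c) (h2 : Pal w a c) (h3 : Reach w q c b) :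
    Reach w (q + 1) a b := ⟨c, h1, h2, h3⟩

theorem Reach.succ {q : ℕ} {a b : ℤ} (h : Reach w q a b) : Reach w (q + 1) a b :=
  ⟨a, le_rfl, Pal.nil a, h⟩

theorem Reach.mono {q q' : ℕ} {a b : ℤ} (h : Reach w q a b) (hq : q ≤ q') : Reach w q' a b := by
  obtain ⟨k, rfl⟩ := Nat.exists_eq_add_of_le hq
  clear hq
  induction k with
  | zero => exact h
  | succ k ih => exact ih.succ

/-- Saarela's observation: two palindromes from a common start can be exchanged for two
palindromes between their ends. -/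
theorem pal_triangle {m u v : ℤ} (h1 : Pal w m u) (h2 : Pal w m v) (hmu : m ≤ u) (huv : u ≤ v) :
    ∃ c, u ≤ c ∧ c ≤ v ∧ Pal w u c ∧ Pal w c v := by
  rcases eq_or_lt_of_le huv with rfl | huv'
  · exact ⟨u, le_rfl, le_rfl, Pal.nil u, Pal.nil u⟩
  have hp : Per w m v (v - u) := Pal.per h1 h2 huv
  set p := v - u with hpdef
  have hp0 : 0 < p := by omega
  set r := (u - m) % p with hr
  have hr0 : 0 ≤ r := Int.emod_nonneg _ hp0.ne'
  have hrp : r < p := Int.emod_lt_of_pos _ hp0
  have hsym : Sym w m v p (m + v - 1) := Sym.of_pal h2 hp hp0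
  have hdvd : p ∣ (u - m) - r := by
    rw [hr]
    exact Int.dvd_self_sub_emod
  obtain ⟨k, hk⟩ := hdvd
  refine ⟨v - r, by omega, by omega, ?_, ?_⟩
  · refine hsym.pal hmu (by omega) ?_
    refine ⟨k, ?_⟩
    rw [← hk]
    ring
  · refine hsym.pal (by omega) le_rfl ?_
    refine ⟨k + 1, ?_⟩
    have : p * (k + 1) = p * k + p := by ring
    rw [this, ← hk]
    omega

/-- straightening of V-shaped walks -/
theorem reach_of_reach_aux (N : ℕ) : ∀ (n s t : ℕ) (m i j : ℤ), s + t ≤ n → (i - m).toNat ≤ N →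
    Reach w s m i → Reach w t m j → i ≤ j → Reach w (s + t) i j := by
  induction N with
  | zero =>
    intro n s t m i j _ hN h1 h2 hij
    have : m = i := by
      have := h1.le
      omega
    subst this
    exact h2.mono (by omega)
  | succ N ih =>
    intro n
    induction n with
    | zero =>
      intro s t m i j hn hN h1 h2 hij
      obtain rfl : s = 0 := by omega
      have : m = i := h1
      subst this
      exact h2.mono (by omega)
    | succ n ihn =>
      intro s t m i j hn hN h1 h2 hij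
      rcases eq_or_lt_of_le h1.le with h0 | hmi
      · subst h0
        exact h2.mono (by omega)
      cases s with
      | zero =>
        have : m = i := h1
        omega
      | succ s =>
        cases t with
        | zero =>
          have : m = j := h2
          omega
        | succ t =>
          obtain ⟨a, ha1, ha2, ha3⟩ := h1
          obtain ⟨b, hb1, hb2, hb3⟩ := h2
          rcases eq_or_lt_of_le ha1 with rfl | ha
          · have h := ihn s (t + 1) m i j (by omega) hN ha3 ⟨b, hb1, hb2, hb3⟩ hij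
            exact h.mono (by omega)
          rcases eq_or_lt_of_le hb1 with rfl | hb
          · have h := ihn (s + 1) t m i j (by omega) hN ⟨a, ha1, ha2, ha3⟩ hb3 hij
            exact h.mono (by omega)
          rcases le_or_gt a b with hab | hab
          · obtain ⟨c, hc1, hc2, hc3, hc4⟩ := pal_triangle ha2 hb2 ha1 hab
            have h := ih (s + (t + 2)) s (t + 2) a i j le_rfl (by have := ha3.le; omega) ha3
              ⟨c, hc1, hc3, b, hc2, hc4, hb3⟩ hij
            exact h.mono (by omega)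
          · obtain ⟨c, hc1, hc2, hc3, hc4⟩ := pal_triangle hb2 ha2 hb1 hab.le
            have h := ih (s + 2 + t) (s + 2) t b i j le_rfl (by have := ha3.le; omega)
              ⟨c, hc1, hc3, a, hc2, hc4, ha3⟩ hb3 hij
            exact h.mono (by omega)

theorem reach_of_reach {s t : ℕ} {m i j : ℤ} (h1 : Reach w s m i) (h2 : Reach w t m j)
    (hij : i ≤ j) : Reach w (s + t) i j :=
  reach_of_reach_aux (i - m).toNat (s + t) s t m i j le_rfl le_rfl h1 h2 hij

end Pool.Agent.H173.PL
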