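import Mathlib

/-! Small covering sets of integers: a calculus for crude counting. -/

set_option autoImplicit false

namespace Pool.Agent.H173.PL

/-- the integers with property `P` are contained in a finite set with at most `N` elements -/
def Cov (P : ℤ → Prop) (N : ℕ) : Prop := ∃ S : Finset ℤ, S.card ≤ N ∧ ∀ a, P a → a ∈ S

theorem Cov.mono {P P' : ℤ → Prop} {N N' : ℕ} (h : Cov P N) (hP : ∀ a, P' a → P a)
    (hN : N ≤ N') : Cov P' N' := by
  obtain ⟨S, h1, h2⟩ := h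
  exact ⟨S, h1.trans hN, fun a ha => h2 a (hP a ha)⟩

theorem Cov.or {P P' : ℤ → Prop} {N N' : ℕ} (h : Cov P N) (h' : Cov P' N') :
    Cov (fun a => P a ∨ P' a) (N + N') := by
  classical
  obtain ⟨S, h1, h2⟩ := h
  obtain ⟨S', h1', h2'⟩ := h'
  refine ⟨S ∪ S', (Finset.card_union_le _ _).trans (by omega), ?_⟩
  rintro a (ha | ha)
  · exact Finset.mem_union_left _ (h2 a ha)
  · exact Finset.mem_union_right _ (h2' a ha)

theorem Cov.bind {P : ℤ → Prop} {R : ℤ → ℤ → Prop} {N M : ℕ} (h : Cov P N)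
    (h' : ∀ v, P v → Cov (R v) M) : Cov (fun a => ∃ v, P v ∧ R v a) (N * M) := by
  classical
  obtain ⟨S, h1, h2⟩ := h
  have h3 : ∀ v, ∃ T : Finset ℤ, T.card ≤ M ∧ (P v → ∀ a, R v a → a ∈ T) := by
    intro v
    by_cases hv : P v
    · obtain ⟨T, hT1, hT2⟩ := h' v hv
      exact ⟨T, hT1, fun _ => hT2⟩
    · exact ⟨∅, by simp, fun h => absurd h hv⟩
  choose T hT1 hT2 using h3
  refine ⟨S.biUnion T, ?_, ?_⟩
  · calc (S.biUnion T).card ≤ ∑ v ∈ S, (T v).card := Finset.card_biUnion_le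
      _ ≤ ∑ v ∈ S, M := Finset.sum_le_sum (fun v _ => hT1 v)
      _ = S.card * M := by simp
      _ ≤ N * M := Nat.mul_le_mul_right M h1
  · rintro a ⟨v, hv, ha⟩
    exact Finset.mem_biUnion.2 ⟨v, h2 v hv, hT2 v hv a ha⟩

theorem Cov.subsingleton {P : ℤ → Prop} (h : ∀ a b, P a → P b → a = b) : Cov P 1 := by
  by_cases hP : ∃ a, P a
  · obtain ⟨a, ha⟩ := hP
    exact ⟨{a}, by simp, fun b hb => by simp [h b a hb ha]⟩
  · exact ⟨∅, by simp, fun b hb => absurd ⟨b, hb⟩ hP⟩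

theorem Cov.image {P : ℤ → Prop} {N : ℕ} (h : Cov P N) (f : ℤ → ℤ) :
    Cov (fun a => ∃ v, P v ∧ a = f v) N := by
  have := h.bind (R := fun v a => a = f v) (M := 1)
    (fun v _ => Cov.subsingleton (fun a b ha hb => ha.trans hb.symm))
  exact this.mono (fun _ h => h) (by omega)

theorem Cov.interval (u v : ℤ) : Cov (fun a => u ≤ a ∧ a < v) (v - u).toNat := by
  refine ⟨Finset.Ico u v, by simp, fun a ha => Finset.mem_Ico.2 ha⟩

theorem Cov.false {P : ℤ → Prop} (h : ∀ a, ¬ P a) (N : ℕ) : Cov P N :=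
  ⟨∅, by simp, fun a ha => absurd ha (h a)⟩

/-- cardinality transfer -/
theorem Cov.card_le {P : ℤ → Prop} {N : ℕ} (h : Cov P N) (T : Finset ℤ) (hT : ∀ a ∈ T, P a) :
    T.card ≤ N := by
  obtain ⟨S, h1, h2⟩ := h
  exact (Finset.card_le_card (fun a ha => h2 a (hT a ha))).trans h1

end Pool.Agent.H173.PL
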