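import Pool.Agent.H173.PLSlide
import Pool.Agent.H173.PLCover

/-! The chain of least periods of the palindromes starting at a position. -/

set_option autoImplicit false

namespace Pool.Agent.H173.PL

variable {α : Type*} {w : ℤ → α}

theorem exists_least_int' {P : ℤ → Prop} {a : ℤ} (h : ∃ c, P c) (hb : ∀ c, P c → a ≤ c) :
    ∃ c, P c ∧ ∀ c', P c' → c ≤ c' := by
  classical
  obtain ⟨c0, hc0⟩ := h
  have hex : ∃ m : ℕ, P (a + m) := ⟨(c0 - a).toNat, by
    have h1 := hb c0 hc0
    have : a + ((c0 - a).toNat : ℤ) = c0 := by omega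
    rw [this]
    exact hc0⟩
  refine ⟨a + (Nat.find hex : ℕ), Nat.find_spec hex, ?_⟩
  intro c' hc'
  have h1 := hb c' hc'
  have : Nat.find hex ≤ (c' - a).toNat := by
    apply Nat.find_min'
    have : a + ((c' - a).toNat : ℤ) = c' := by omega
    rw [this]
    exact hc'
  omega

/-- the least periods of the palindromes of length at most `n` starting at `x` -/
def MPs (w : ℤ → α) (n x : ℤ) (p : ℤ) : Prop :=
  ∃ b, x < b ∧ b - x ≤ n ∧ Pal w x b ∧ MinPer w x b p

/-- A chain of palindromes starting at `x`: `A j` is the last one with least period `p j`, and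
`A j + p (j+1)` the next one, whose least period is `p (j+1)`. -/
structure Chain (w : ℤ → α) (n x : ℤ) (G : ℕ) (p A : ℕ → ℤ) : Prop where
  p1 : p 1 = 1
  A0 : A 0 = 0
  palA : ∀ j, j ≤ G → Pal w x (x + A j)
  palB : ∀ j, j ≤ G → Pal w x (x + (A j + p (j + 1)))
  minB : ∀ j, j ≤ G → MinPer w x (x + (A j + p (j + 1))) (p (j + 1))
  minA : ∀ j, 1 ≤ j → j ≤ G → MinPer w x (x + A j) (p j)
  gap : ∀ j, j ≤ G → ∀ l, Pal w x (x + l) → l < A j + p (j + 1) → l ≤ A j
  mult : ∀ j, j + 1 ≤ G → ∃ m : ℤ, 0 ≤ m ∧ A (j + 1) = A j + p (j + 1) + m * p (j + 1)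
  lt : ∀ j, 1 ≤ j → j ≤ G → p j < p (j + 1)
  len : A G + p (G + 1) ≤ n

theorem chain_zero {n x : ℤ} (hn : 1 ≤ n) : Chain w n x 0 (fun _ => 1) (fun _ => 0) where
  p1 := rfl
  A0 := rfl
  palA := fun _ _ => by
    show Pal w x (x + 0)
    rw [add_zero]
    exact Pal.nil x
  palB := fun _ _ => by
    show Pal w x (x + (0 + 1))
    rw [zero_add]
    exact Pal.single x
  minB := fun _ _ => by
    refine ⟨le_rfl, Per.of_ge ?_, fun e he _ => he⟩
    show x + (0 + 1) - x ≤ 1
    omega
  minA := fun j h1 h2 => by omega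
  gap := fun _ _ l _ h => by
    show l ≤ 0
    have : l < 0 + 1 := h
    omega
  mult := fun j h => by omega
  lt := fun j h1 h2 => by omega
  len := by
    show (0 : ℤ) + 1 ≤ n
    omega

namespace Chain

variable {n x : ℤ} {G : ℕ} {p A : ℕ → ℤ}

theorem pos (h : Chain w n x G p A) {j : ℕ} (h1 : 1 ≤ j) (h2 : j ≤ G + 1) : 1 ≤ p j := by
  obtain ⟨j, rfl⟩ : ∃ i, j = i + 1 := ⟨j - 1, by omega⟩
  exact (h.minB j (by omega)).1

theorem step_le (h : Chain w n x G p A) {j : ℕ} (h1 : j + 1 ≤ G) :
    A j + p (j + 1) ≤ A (j + 1) := by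
  obtain ⟨m, hm, he⟩ := h.mult j h1
  have := h.pos (j := j + 1) (by omega) (by omega)
  have : 0 ≤ m * p (j + 1) := mul_nonneg hm (by omega)
  omega

theorem A_nonneg (h : Chain w n x G p A) : ∀ {j : ℕ}, j ≤ G → 0 ≤ A j := by
  intro j
  induction j with
  | zero => intro _; rw [h.A0]
  | succ j ih =>
    intro hj
    have h1 := ih (by omega)
    have h2 := h.step_le hj
    have h3 := h.pos (j := j + 1) (by omega) (by omega)
    omega

theorem A_pos (h : Chain w n x G p A) {j : ℕ} (h1 : 1 ≤ j) (h2 : j ≤ G) : p j ≤ A j := by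
  obtain ⟨j, rfl⟩ : ∃ i, j = i + 1 := ⟨j - 1, by omega⟩
  have h1 := h.A_nonneg (j := j) (by omega)
  have h2 := h.step_le h2
  omega

/-- the key length bound -/
theorem A_lt (h : Chain w n x G p A) {j : ℕ} (h1 : 1 ≤ j) (h2 : j ≤ G) :
    A j < p j + p (j + 1) := by
  by_contra hcon
  have hp := h.pos h1 (by omega)
  have hp' := h.pos (j := j + 1) (by omega) (by omega)
  have hB := h.minB j h2
  have hA := h.minA j h1 h2
  have hlt := h.lt j h1 h2
  have hdvd : p j ∣ p (j + 1) := hA.dvd hp' (hB.2.1.mono le_rfl (by omega)) (by omega)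
  have hper : Per w x (x + (A j + p (j + 1))) (p j) :=
    Per.of_dvd_sub (by omega) hB.2.1 (by omega) hdvd hA.2.1 le_rfl (by omega) (by omega)
  have := hB.2.2 _ hp hper
  omega

theorem A_lt' (h : Chain w n x G p A) {j : ℕ} (h2 : j ≤ G) : A j < 2 * p (j + 1) := by
  have hp' := h.pos (j := j + 1) (by omega) (by omega)
  rcases Nat.eq_zero_or_pos j with rfl | h1
  · rw [h.A0]
    omega
  · have h3 := h.A_lt h1 h2
    have h4 := h.lt j h1 h2
    omega

/-- the break of `p j`-periodicity after `A j` -/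
theorem brk (h : Chain w n x G p A) {j : ℕ} (h1 : 1 ≤ j) (h2 : j ≤ G) :
    ∃ ρ, A j ≤ ρ ∧ ρ < A j + p j ∧ w (x + ρ) ≠ w (x + (ρ - p j)) := by
  by_contra hcon
  have hcon' : ∀ ρ, A j ≤ ρ → ρ < A j + p j → w (x + ρ) = w (x + (ρ - p j)) := by
    intro ρ h3 h4
    by_contra h5
    exact hcon ⟨ρ, h3, h4, h5⟩
  have hp := h.pos h1 (by omega)
  have hA := h.minA j h1 h2
  have hper : Per w x (x + A j + p j) (p j) := by
    intro i hi1 hi2
    rcases lt_or_ge (i + p j) (x + A j) with h3 | h3
    · exact hA.2.1 i hi1 h3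
    · have := hcon' (i + p j - x) (by omega) (by omega)
      have e1 : x + (i + p j - x) = i + p j := by ring
      have e2 : x + (i + p j - x - p j) = i := by ring
      rw [e1, e2] at this
      exact this.symm
  have hsym := (Sym.of_pal (h.palA j h2) hA.2.1 (by omega)).extend hper (by omega) le_rfl
    (by omega) (by have := h.A_pos h1 h2; omega)
  have hpal : Pal w x (x + (A j + p j)) := by
    refine hsym.pal le_rfl (by omega) ⟨1, by ring⟩
  have h5 := h.gap j h2 _ hpal (by have := h.lt j h1 h2; omega)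
  omega

/-- the least periods not exceeding `p (G+1)` are all in the chain -/
theorem mem_of_le (h : Chain w n x G p A) {e l : ℤ} (hl : 0 < l) (hpal : Pal w x (x + l))
    (hmin : MinPer w x (x + l) e) (he : e ≤ p (G + 1)) : ∃ j, 1 ≤ j ∧ j ≤ G + 1 ∧ e = p j := by
  classical
  have hex : ∃ j, 1 ≤ j ∧ e ≤ p j := ⟨G + 1, by omega, he⟩
  obtain ⟨hj1, hj2⟩ := Nat.find_spec hex
  have hjG : Nat.find hex ≤ G + 1 := Nat.find_min' hex ⟨by omega, he⟩
  have hmn : ∀ i, i < Nat.find hex → ¬ (1 ≤ i ∧ e ≤ p i) := fun i hi => Nat.find_min hex hi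
  set j := Nat.find hex with hj
  clear_value j
  refine ⟨j, hj1, hjG, ?_⟩
  obtain ⟨i, rfl⟩ : ∃ i, j = i + 1 := ⟨j - 1, by omega⟩
  rcases Nat.eq_zero_or_pos i with rfl | hi
  · have h1 : p (0 + 1) = 1 := h.p1
    rw [h1] at hj2 ⊢
    have := hmin.1
    omega
  · have h1 : p i < e := by
      have := hmn i (by omega)
      by_contra hcon
      exact this ⟨hi, by omega⟩
    have h2 : A i < l := by
      by_contra hcon
      have := (h.minA i hi (by omega)).mono hmin le_rfl (by omega)
      omega
    have h3 : A i + p (i + 1) ≤ l := by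
      by_contra hcon
      have := h.gap i (by omega) l hpal (by omega)
      omega
    have h4 := hmin.mono (h.minB i (by omega)) le_rfl (by omega)
    omega

/-- prolonging a chain -/
theorem succ (h : Chain w n x G p A) {e : ℤ} (he : MPs w n x e) (hlt : p (G + 1) < e) :
    ∃ p' A' : ℕ → ℤ, Chain w n x (G + 1) p' A' := by
  classical
  obtain ⟨b, hb1, hb2, hb3, hb4⟩ := he
  have hP := h.pos (j := G + 1) (by omega) le_rfl
  obtain ⟨l, ⟨hl0, hlpal, e', hle', hlmin⟩, hleast⟩ := exists_least_int'
    (P := fun l => 0 < l ∧ Pal w x (x + l) ∧ ∃ e', p (G + 1) < e' ∧ MinPer w x (x + l) e')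
    (a := 0) ⟨b - x, by omega, by rw [show x + (b - x) = b by ring]; exact hb3, e, hlt,
      by rw [show x + (b - x) = b by ring]; exact hb4⟩ (fun c hc => hc.1.le)
  have hln : l ≤ n := by
    have := hleast (b - x) ⟨by omega, by rw [show x + (b - x) = b by ring]; exact hb3, e, hlt,
      by rw [show x + (b - x) = b by ring]; exact hb4⟩
    omega
  have hBl : A G + p (G + 1) < l := by
    by_contra hcon
    have := (h.minB G le_rfl).mono hlmin le_rfl (by omega)
    omega
  have hgapnew : ∀ l', Pal w x (x + l') → l' < l → l' ≤ l - e' := by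
    intro l' h1 h2
    have h3 := Pal.per h1 hlpal (by omega)
    have h4 := hlmin.2.2 _ (by omega) h3
    omega
  have hBA := hgapnew _ (h.palB G le_rfl) hBl
  have hApal : Pal w x (x + (l - e')) := by
    have := hlpal.cut hlmin.2.1 (by omega)
    rw [show x + (l - e') = x + l - e' by ring]
    exact this
  have hAG := h.A_nonneg (j := G) le_rfl
  obtain ⟨e'', he'', _⟩ := MinPer.exists (w := w) (a := x) (b := x + (l - e')) (by omega)
  have he1 : e'' = p (G + 1) := by
    have h1 : e'' ≤ p (G + 1) := by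
      by_contra hcon
      have := hleast (l - e') ⟨by omega, hApal, e'', by omega, he''⟩
      omega
    have h2 := he''.mono (h.minB G le_rfl) le_rfl (by omega)
    omega
  rw [he1] at he''
  have hmult : ∃ m : ℤ, 0 ≤ m ∧ l - e' = A G + p (G + 1) + m * p (G + 1) := by
    have hd1 := Int.ediv_mul_le (l - e' - A G - 1) (b := p (G + 1)) (by omega)
    have hd2 := Int.lt_ediv_add_one_mul_self (l - e' - A G - 1) (b := p (G + 1)) (by omega)
    have hd3 : 0 ≤ (l - e' - A G - 1) / p (G + 1) := Int.ediv_nonneg (by omega) (by omega)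
    set k := (l - e' - A G - 1) / p (G + 1) with hk
    have hk2 : (k + 1) * p (G + 1) = k * p (G + 1) + p (G + 1) := by ring
    have hsym := Sym.of_pal hApal he''.2.1 (by omega)
    have hpal : Pal w x (x + (l - e' - k * p (G + 1))) := by
      refine hsym.pal le_rfl ?_ ⟨-k, by ring⟩
      have : 0 ≤ k * p (G + 1) := mul_nonneg hd3 (by omega)
      omega
    have h1 : A G + p (G + 1) ≤ l - e' - k * p (G + 1) := by
      by_contra hcon
      have := h.gap G le_rfl _ hpal (by omega)
      omega
    exact ⟨k, hd3, by omega⟩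
  refine ⟨fun j => if j ≤ G + 1 then p j else e', fun j => if j ≤ G then A j else l - e', ?_⟩
  have hpj : ∀ j, j ≤ G + 1 → (if j ≤ G + 1 then p j else e') = p j := fun j hj => if_pos hj
  have hpt : (if G + 1 + 1 ≤ G + 1 then p (G + 1 + 1) else e') = e' := if_neg (by omega)
  have hAj : ∀ j, j ≤ G → (if j ≤ G then A j else l - e') = A j := fun j hj => if_pos hj
  have hAt : (if G + 1 ≤ G then A (G + 1) else l - e') = l - e' := if_neg (by omega)
  have hcase : ∀ j, j ≤ G + 1 → j ≤ G ∨ j = G + 1 := fun j hj => by omega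
  have hll : l - e' + e' = l := by ring
  constructor
  · show (if 1 ≤ G + 1 then p 1 else e') = 1
    rw [hpj 1 (by omega)]
    exact h.p1
  · show (if 0 ≤ G then A 0 else l - e') = 0
    rw [hAj 0 (by omega)]
    exact h.A0
  · intro j hj
    rcases hcase j hj with hj | rfl
    · show Pal w x (x + (if j ≤ G then A j else l - e'))
      rw [hAj j hj]
      exact h.palA j hj
    · show Pal w x (x + (if G + 1 ≤ G then A (G + 1) else l - e'))
      rw [hAt]
      exact hApal
  · intro j hj
    rcases hcase j hj with hj | rfl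
    · show Pal w x (x + ((if j ≤ G then A j else l - e') + (if j + 1 ≤ G + 1 then p (j + 1) else e')))
      rw [hAj j hj, hpj (j + 1) (by omega)]
      exact h.palB j hj
    · show Pal w x (x + ((if G + 1 ≤ G then A (G + 1) else l - e') +
        (if G + 1 + 1 ≤ G + 1 then p (G + 1 + 1) else e')))
      rw [hAt, hpt, hll]
      exact hlpal
  · intro j hj
    rcases hcase j hj with hj | rfl
    · show MinPer w x (x + ((if j ≤ G then A j else l - e') +
        (if j + 1 ≤ G + 1 then p (j + 1) else e'))) (if j + 1 ≤ G + 1 then p (j + 1) else e')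
      rw [hAj j hj, hpj (j + 1) (by omega)]
      exact h.minB j hj
    · show MinPer w x (x + ((if G + 1 ≤ G then A (G + 1) else l - e') +
        (if G + 1 + 1 ≤ G + 1 then p (G + 1 + 1) else e')))
        (if G + 1 + 1 ≤ G + 1 then p (G + 1 + 1) else e')
      rw [hAt, hpt, hll]
      exact hlmin
  · intro j hj1 hj
    rcases hcase j hj with hj | rfl
    · show MinPer w x (x + (if j ≤ G then A j else l - e')) (if j ≤ G + 1 then p j else e')
      rw [hAj j hj, hpj j (by omega)]
      exact h.minA j hj1 hj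
    · show MinPer w x (x + (if G + 1 ≤ G then A (G + 1) else l - e'))
        (if G + 1 ≤ G + 1 then p (G + 1) else e')
      rw [hAt, hpj (G + 1) le_rfl]
      exact he''
  · intro j hj l' h1 h2
    rcases hcase j hj with hj | rfl
    · show l' ≤ (if j ≤ G then A j else l - e')
      have h2' : l' < (if j ≤ G then A j else l - e') + (if j + 1 ≤ G + 1 then p (j + 1) else e') :=
        h2
      rw [hAj j hj, hpj (j + 1) (by omega)] at h2'
      rw [hAj j hj]
      exact h.gap j hj l' h1 h2'
    · show l' ≤ (if G + 1 ≤ G then A (G + 1) else l - e')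
      have h2' : l' < (if G + 1 ≤ G then A (G + 1) else l - e') +
        (if G + 1 + 1 ≤ G + 1 then p (G + 1 + 1) else e') := h2
      rw [hAt, hpt, hll] at h2'
      rw [hAt]
      exact hgapnew l' h1 h2'
  · intro j hj
    rcases hcase (j + 1) hj with hj | hj
    · show ∃ m : ℤ, 0 ≤ m ∧ (if j + 1 ≤ G then A (j + 1) else l - e') =
        (if j ≤ G then A j else l - e') + (if j + 1 ≤ G + 1 then p (j + 1) else e') +
          m * (if j + 1 ≤ G + 1 then p (j + 1) else e')
      rw [hAj (j + 1) hj, hAj j (by omega), hpj (j + 1) (by omega)]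
      exact h.mult j hj
    · have : j = G := by omega
      subst this
      show ∃ m : ℤ, 0 ≤ m ∧ (if j + 1 ≤ j then A (j + 1) else l - e') =
        (if j ≤ j then A j else l - e') + (if j + 1 ≤ j + 1 then p (j + 1) else e') +
          m * (if j + 1 ≤ j + 1 then p (j + 1) else e')
      rw [hAt, hAj j le_rfl, hpj (j + 1) le_rfl]
      exact hmult
  · intro j hj1 hj
    rcases hcase j hj with hj | rfl
    · show (if j ≤ G + 1 then p j else e') < (if j + 1 ≤ G + 1 then p (j + 1) else e')
      rw [hpj j (by omega), hpj (j + 1) (by omega)]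
      exact h.lt j hj1 hj
    · show (if G + 1 ≤ G + 1 then p (G + 1) else e') <
        (if G + 1 + 1 ≤ G + 1 then p (G + 1 + 1) else e')
      rw [hpt, hpj (G + 1) le_rfl]
      exact hle'
  · show (if G + 1 ≤ G then A (G + 1) else l - e') +
      (if G + 1 + 1 ≤ G + 1 then p (G + 1 + 1) else e') ≤ n
    rw [hAt, hpt, hll]
    exact hln

end Chain

/-- many least periods give a long chain -/
theorem exists_chain {n x : ℤ} (hn : 1 ≤ n) (G : ℕ) (h : ¬ Cov (MPs w n x) G) :
    ∃ p A : ℕ → ℤ, Chain w n x G p A := by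
  classical
  induction G with
  | zero => exact ⟨_, _, chain_zero hn⟩
  | succ G ih =>
    obtain ⟨p, A, hC⟩ := ih (fun hc => h (hc.mono (fun _ h => h) (by omega)))
    by_cases hex : ∃ e, MPs w n x e ∧ p (G + 1) < e
    · obtain ⟨e, he1, he2⟩ := hex
      exact hC.succ he1 he2
    · exfalso
      apply h
      refine ⟨(Finset.Icc 1 (G + 1)).image p, ?_, ?_⟩
      · refine Finset.card_image_le.trans ?_
        simp
      · rintro e ⟨b, h1, h2, h3, h4⟩
        have hle : e ≤ p (G + 1) := by
          by_contra hcon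
          exact hex ⟨e, ⟨b, h1, h2, h3, h4⟩, by omega⟩
        have e1 : x + (b - x) = b := by ring
        obtain ⟨j, hj1, hj2, hj3⟩ := hC.mem_of_le (l := b - x) (e := e) (by omega)
          (by rw [e1]; exact h3) (by rw [e1]; exact h4) hle
        exact Finset.mem_image.2 ⟨j, Finset.mem_Icc.2 ⟨hj1, hj2⟩, hj3.symm⟩

end Pool.Agent.H173.PL
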