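import Pool.Agent.H173.PLSlide
import Pool.Agent.H173.PLCover

/-! Counting anchored points of a run. -/

set_option autoImplicit false

namespace Pool.Agent.H173.PL

variable {α : Type*} {w : ℤ → α}

/-- standing assumptions: every periodic stretch ends on both sides, and every position has at
most `g` least periods of palindromes of length at most `n` starting there -/
structure Env (w : ℤ → α) (n : ℤ) (g : ℕ) : Prop where
  brR : ∀ z p : ℤ, 0 < p → ∃ r, z + p ≤ r ∧ w r ≠ w (r - p) ∧ Per w z r p
  brL : ∀ z p : ℤ, 0 < p → ∃ l, l < z ∧ w l ≠ w (l + p) ∧ Per w (l + 1) (z + p) p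
  few : ∀ z : ℤ, Cov (fun p => ∃ b, z < b ∧ b - z ≤ n ∧ Pal w z b ∧ MinPer w z b p) g

theorem sameper_gap {z b b' p : ℤ} (hbb : b < b') (h : Pal w z b) (h' : Pal w z b')
    (hp' : MinPer w z b' p) : p ≤ b' - b :=
  hp'.2.2 _ (by omega) (Pal.per h h' hbb.le)

theorem sameper_eq {z b b' p u : ℤ} (h : Pal w z b) (h' : Pal w z b')
    (hp : MinPer w z b p) (hp' : MinPer w z b' p) (h1 : u ≤ b) (h2 : b < u + p)
    (h3 : u ≤ b') (h4 : b' < u + p) : b = b' := by
  rcases lt_trichotomy b b' with hlt | heq | hgt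
  · have := sameper_gap hlt h h' hp'
    omega
  · exact heq
  · have := sameper_gap hgt h' h hp
    omega

theorem ediv_bounds {a p : ℤ} (hp : 0 < p) : (a / p) * p ≤ a ∧ a < (a / p) * p + p := by
  constructor
  · exact Int.ediv_mul_le a hp.ne'
  · have := Int.lt_ediv_add_one_mul_self a hp
    linarith

theorem le_ediv_of {a p v : ℤ} (hp : 0 < p) (h : v * p ≤ a) : v ≤ a / p :=
  (Int.le_ediv_iff_mul_le hp).2 h

theorem ediv_lt_of {a p v : ℤ} (hp : 0 < p) (h : a < v * p) : a / p < v :=
  (Int.ediv_lt_iff_lt_mul hp).2 h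

theorem cov_simple {n : ℤ} {g : ℕ} (E : Env w n g) (z : ℤ) :
    Cov (fun b => ∃ p, z < b ∧ b - z ≤ n ∧ Pal w z b ∧ MinPer w z b p ∧ b - z < 5 * p)
      (g * 4) := by
  have key : ∀ p, (∃ b, z < b ∧ b - z ≤ n ∧ Pal w z b ∧ MinPer w z b p) →
      Cov (fun b => z < b ∧ Pal w z b ∧ MinPer w z b p ∧ b - z < 5 * p) 4 := by
    rintro p ⟨b0, _, _, _, hb0⟩
    have hp : 0 < p := by have := hb0.1; omega
    have h1 := (Cov.interval 1 5).bind (M := 1)
      (R := fun v b => Pal w z b ∧ MinPer w z b p ∧ z + v * p ≤ b ∧ b < z + v * p + p)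
      (by
        intro v _
        refine Cov.subsingleton ?_
        rintro a b ⟨ha1, ha2, ha3, ha4⟩ ⟨hb1, hb2, hb3, hb4⟩
        exact sameper_eq ha1 hb1 ha2 hb2 ha3 ha4 hb3 hb4)
    refine h1.mono ?_ (by norm_num)
    rintro b ⟨hb1, hb2, hb3, hb4⟩
    have hle := hb3.le_length hb1
    have hd := ediv_bounds (a := b - z) hp
    refine ⟨(b - z) / p, ⟨le_ediv_of hp (by omega), ediv_lt_of hp (by omega)⟩, hb2, hb3,
      by omega, by omega⟩
  refine ((E.few z).bind key).mono ?_ le_rfl
  rintro b ⟨p, h1, h2, h3, h4, h5⟩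
  exact ⟨p, ⟨b, h1, h2, h3, h4⟩, h1, h3, h4, h5⟩

/-- hypothesis on a predicate: few indices inside each run -/
def Few (w : ℤ → α) (prev : ℤ → ℤ → Prop) (F : ℕ) : Prop :=
  ∀ p r : ℤ, 1 ≤ p → w r ≠ w (r - p) →
    Cov (fun v => ∃ y, y ≤ r ∧ Per w (y - 5 * p) r p ∧ prev y p ∧ v = (r - y) / p) F

theorem cov_centers {n : ℤ} {g : ℕ} (E : Env w n g) {prev : ℤ → ℤ → Prop} {F : ℕ}
    (hprev : Few w prev F) {D r : ℤ} (hD : 1 ≤ D) (hr : w r ≠ w (r - D)) :
    Cov (fun c => ∃ y y', c = y + y' ∧ y + 5 * D ≤ r ∧ Per w y r D ∧ r < y' ∧ y' - y ≤ n ∧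
      Pal w y y' ∧ ∀ p, D < p → MinPer w y y' p → 5 * p ≤ y' - y → prev y' p)
      (g * 4 + g * 1 + g * (F * 2)) := by
  set z := r - 5 * D with hz
  have C1 := (cov_simple E z).image (fun b => z + b)
  have C2 : Cov (fun c => ∃ p, (∃ b, z < b ∧ b - z ≤ n ∧ Pal w z b ∧ MinPer w z b p) ∧
      ∃ y y', c = y + y' ∧ y ≤ z ∧ Pal w y y' ∧ MinPer w z (c - z) p ∧ 5 * p ≤ c - z - z ∧
        ¬ Per w y y' p) (g * 1) := by
    refine (E.few z).bind ?_
    rintro p ⟨b0, _, _, _, hb0⟩
    have hp : 0 < p := by have := hb0.1; omega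
    obtain ⟨s, hs1, hs2, hs3⟩ := E.brR z p hp
    obtain ⟨l, hl1, hl2, hl3⟩ := E.brL z p hp
    have key : ∀ c, (∃ y y', c = y + y' ∧ y ≤ z ∧ Pal w y y' ∧ MinPer w z (c - z) p ∧
        5 * p ≤ c - z - z ∧ ¬ Per w y y' p) → c = l + s + 1 := by
      rintro c ⟨y, y', rfl, hy, hpal, hmin, hlen, hnot⟩
      -- the right break lies inside the palindrome
      have h1 : y + y' - z ≤ s := Per.le_break hmin.2.1 hs2 hs1
      have h2 : s < y' := by
        by_contra hcon
        apply hnot
        have h3 : Per w z y' p := hs3.mono le_rfl (by omega)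
        have h4 := hpal.mirror_per h3 hy le_rfl hp.le
        have e1 : y + y' - y' = y := by ring
        rw [e1] at h4
        exact h4.union h3 (by omega)
      -- its mirror image is the left break
      have h5 := hpal.mirror_per hs3 hy h2.le hp.le
      have e2 : w (y + y' - 1 - s) = w s := by
        rw [hpal s (by omega) h2]
      have e3 : w (y + y' - 1 - s + p) = w (s - p) := by
        rw [hpal (s - p) (by omega) (by omega)]
        congr 1
        ring
      have h6 : w (y + y' - 1 - s) ≠ w (y + y' - 1 - s + p) := by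
        rw [e2, e3]
        exact hs2
      have h7 : l ≤ y + y' - 1 - s := by
        by_contra hcon
        exact hl2 (h5 l (by omega) (by omega))
      have h8 : y + y' - 1 - s ≤ l := by
        by_contra hcon
        exact h6 (hl3 (y + y' - 1 - s) (by omega) (by omega))
      omega
    exact Cov.subsingleton (fun a b ha hb => (key a ha).trans (key b hb).symm)
  have C3 : Cov (fun c => ∃ p, (∃ b, z < b ∧ b - z ≤ n ∧ Pal w z b ∧ MinPer w z b p) ∧
      ∃ y y', c = y + y' ∧ z - p < y ∧ y ≤ z ∧ Pal w z (c - z) ∧ Per w y y' p ∧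
        5 * p ≤ y' - y ∧ MinPer w z (c - z) p ∧ prev y' p) (g * (F * 2)) := by
    refine (E.few z).bind ?_
    rintro p ⟨b0, _, _, _, hb0⟩
    have hp : 0 < p := by have := hb0.1; omega
    obtain ⟨s, hs1, hs2, hs3⟩ := E.brR z p hp
    have h1 := (hprev p s hp hs2).bind (M := 2)
      (R := fun v c => Pal w z (c - z) ∧ MinPer w z (c - z) p ∧ z + s - v * p - 2 * p + 1 ≤ c ∧
        c < z + s - v * p + 1)
      (by
        intro v _
        have h2 := (Cov.interval 0 2).bind (M := 1)
          (R := fun u c => Pal w z (c - z) ∧ MinPer w z (c - z) p ∧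
            z + s - v * p - 2 * p + 1 + u * p ≤ c ∧ c < z + s - v * p - 2 * p + 1 + u * p + p)
          (by
            intro u _
            refine Cov.subsingleton ?_
            rintro a b ⟨ha1, ha2, ha3, ha4⟩ ⟨hb1, hb2, hb3, hb4⟩
            have := sameper_eq (u := s - v * p - 2 * p + 1 + u * p) ha1 hb1 ha2 hb2
              (by omega) (by omega) (by omega) (by omega)
            omega)
        refine h2.mono ?_ (by norm_num)
        rintro c ⟨hc1, hc2, hc3, hc4⟩
        have hd := ediv_bounds (a := c - (z + s - v * p - 2 * p + 1)) hp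
        refine ⟨(c - (z + s - v * p - 2 * p + 1)) / p,
          ⟨le_ediv_of hp (by omega), ediv_lt_of hp (by omega)⟩, hc1, hc2, by omega, by omega⟩)
    refine h1.mono ?_ le_rfl
    rintro c ⟨y, y', rfl, hy1, hy2, hpal, hper, hlen, hmin, hpr⟩
    have hs4 : y' ≤ s := Per.le_break (hper.mono hy2 le_rfl) hs2 hs1
    have hper' : Per w y s p := hper.union hs3 (by omega)
    have hd := ediv_bounds (a := s - y') hp
    refine ⟨(s - y') / p, ⟨y', hs4, hper'.mono (by omega) le_rfl, hpr, rfl⟩, hpal, hmin,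
      by omega, by omega⟩
  refine ((C1.or C2).or C3).mono ?_ (by omega)
  rintro c ⟨y, y', rfl, hy, hper, hry, hlen, hpal, hpr⟩
  have hc := exit_center hpal hper hr hD (by omega) hry
  have hyz : y ≤ z := by omega
  have hzz : z < y + y' - z := by omega
  have hpalz : Pal w z (y + y' - z) := by
    have := hpal.shrink (k := z - y) (by omega)
    have e1 : y + (z - y) = z := by ring
    have e2 : y' - (z - y) = y + y' - z := by ring
    rw [e1, e2] at this
    exact this
  obtain ⟨p, hp1, hp2⟩ := MinPer.exists (w := w) hzz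
  have hp : 0 < p := by have := hp1.1; omega
  rcases lt_or_ge (y + y' - z - z) (5 * p) with h5 | h5
  · left; left
    exact ⟨y + y' - z, ⟨p, hzz, by omega, hpalz, hp1, by omega⟩, by ring⟩
  · by_cases hperp : Per w y y' p
    · right
      have hminp : MinPer w y y' p := by
        obtain ⟨p', hp', _⟩ := MinPer.exists (w := w) (a := y) (b := y') (by omega)
        have h1 : p ≤ p' := hp'.mono hp1 hyz (by omega)
        have h2 : p' ≤ p := hp'.2.2 p hp1.1 hperp
        have : p = p' := by omega
        rw [this]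
        exact hp'
      have hshort : r - y < p + D := by
        by_contra hcon
        have hdvd := hminp.dvd_of_overlap hD hper le_rfl hry.le (by omega)
        apply hr
        refine (hperp.mod hp (by omega) (by omega) (by omega) hry ?_).symm
        have : r - (r - D) = D := by ring
        rw [this]
        exact hdvd
      exact ⟨p, ⟨y + y' - z, hzz, by omega, hpalz, hp1⟩, y, y', rfl, by omega, hyz, hpalz,
        hperp, by omega, hp1, hpr p (by omega) hminp (by omega)⟩
    · left; right
      exact ⟨p, ⟨y + y' - z, hzz, by omega, hpalz, hp1⟩, y, y', rfl, hyz, hpal, hp1, by omega,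
        hperp⟩

/-- anchored points: from `y` one leaves the deep part of `D`-periodic stretches within `k`
palindromic steps, none of them a long `D`-periodic one, and the steps which are long with a
least period `p > D` end in a point satisfying `prev` for `p` -/
def AchAux (w : ℤ → α) (n : ℤ) (prev : ℤ → ℤ → Prop) : ℕ → ℤ → ℤ → Prop
  | 0, y, D => ¬ Deep w y D
  | k + 1, y, D => ¬ Deep w y D ∨ ∃ y', y ≤ y' ∧ y' - y ≤ n ∧ Pal w y y' ∧
      ¬ (Per w y y' D ∧ 5 * D ≤ y' - y) ∧ AchAux w n prev k y' D ∧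
      ∀ p, D < p → MinPer w y y' p → 5 * p ≤ y' - y → prev y' p

/-- the bound for anchored points -/
def FAux (g F : ℕ) : ℕ → ℕ
  | 0 => 5
  | k + 1 => 5 + FAux g F k * 6 + (g * 4 + g * 1 + g * (F * 2)) * (FAux g F k * 2)

theorem few_achAux {n : ℤ} {g : ℕ} (E : Env w n g) {prev : ℤ → ℤ → Prop} {F : ℕ}
    (hprev : Few w prev F) (k : ℕ) : Few w (AchAux w n prev k) (FAux g F k) := by
  -- points that are not deep
  have base : ∀ D r : ℤ, 1 ≤ D → 
      Cov (fun v => ∃ y, y ≤ r ∧ Per w (y - 5 * D) r D ∧ ¬ Deep w y D ∧ v = (r - y) / D) 5 := by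
    intro D r hD
    refine (Cov.interval 0 5).mono ?_ (by norm_num)
    rintro v ⟨y, hy, hper, hnd, rfl⟩
    have hlt : r - y < 5 * D := by
      by_contra hcon
      exact hnd (hper.mono le_rfl (by omega))
    exact ⟨le_ediv_of (by omega) (by omega), ediv_lt_of (by omega) (by omega)⟩
  induction k with
  | zero => 
    intro D r hD hr
    exact (base D r hD).mono (fun v h => h) le_rfl
  | succ k ih =>
    intro D r hD hr
    have B1 := base D r hD
    -- steps staying in the run
    have B2 : Cov (fun v => ∃ v', (∃ y, y ≤ r ∧ Per w (y - 5 * D) r D ∧ AchAux w n prev k y D ∧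
        v' = (r - y) / D) ∧ (v' ≤ v ∧ v < v' + 6)) (FAux g F k * 6) :=
      (ih D r hD hr).bind (fun v' _ => (Cov.interval v' (v' + 6)).mono (fun _ h => h) (by omega))
    -- steps leaving the run
    have B3 : Cov (fun v => ∃ c, (∃ y y', c = y + y' ∧ y + 5 * D ≤ r ∧ Per w y r D ∧ r < y' ∧
        y' - y ≤ n ∧ Pal w y y' ∧ ∀ p, D < p → MinPer w y y' p → 5 * p ≤ y' - y → prev y' p) ∧
        ∃ y, c = y + (c - y) ∧ y + 5 * D ≤ r ∧ Per w y r D ∧ r < c - y ∧ Pal w y (c - y) ∧
          AchAux w n prev k (c - y) D ∧ v = (r - y) / D)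
        ((g * 4 + g * 1 + g * (F * 2)) * (FAux g F k * 2)) := by
      refine (cov_centers E hprev hD hr).bind ?_
      rintro c -
      obtain ⟨s, hs1, hs2, hs3⟩ := E.brR (c - r) D (by omega)
      have h1 := (ih D s hD hs2).bind (M := 2)
        (R := fun v' v => (r + s - c) / D - v' - 1 ≤ v ∧ v < (r + s - c) / D - v' + 1)
        (fun v' _ => (Cov.interval _ _).mono (fun _ h => h) (by omega))
      refine h1.mono ?_ le_rfl
      rintro v ⟨y, hc, hy, hper, hry, hpal, hach, rfl⟩
      -- the mirrored run starts at `c - r`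
      have h2 := hpal.mirror_per hper le_rfl hry.le (by omega)
      have e1 : y + (c - y) - r = c - r := by ring
      have e2 : y + (c - y) - y = c - y := by ring
      rw [e1, e2] at h2
      have h3 : c - y ≤ s := Per.le_break h2 hs2 hs1
      have hd1 := ediv_bounds (a := s - (c - y)) (p := D) (by omega)
      have hd2 := ediv_bounds (a := r - y) (p := D) (by omega)
      have hd3 := ediv_bounds (a := r + s - c) (p := D) (by omega)
      refine ⟨(s - (c - y)) / D, ⟨c - y, h3, hs3.mono (by omega) le_rfl, hach, rfl⟩, ?_, ?_⟩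
      · by_contra hcon
        have h4 : ((r - y) / D + (s - (c - y)) / D + 2) * D ≤ ((r + s - c) / D) * D :=
          mul_le_mul_of_nonneg_right (by omega) (by omega)
        have e3 : ((r - y) / D + (s - (c - y)) / D + 2) * D =
          ((r - y) / D) * D + ((s - (c - y)) / D) * D + 2 * D := by ring
        omega
      · by_contra hcon
        have h4 : ((r + s - c) / D + 1) * D ≤ ((r - y) / D + (s - (c - y)) / D) * D :=
          mul_le_mul_of_nonneg_right (by omega) (by omega)
        have e3 : ((r - y) / D + (s - (c - y)) / D) * D =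
          ((r - y) / D) * D + ((s - (c - y)) / D) * D := by ring
        have e4 : ((r + s - c) / D + 1) * D = ((r + s - c) / D) * D + D := by ring
        omega
    refine ((B1.or B2).or B3).mono ?_ le_rfl
    rintro v ⟨y, hy, hper, hach, rfl⟩
    by_cases hdeep : Deep w y D
    · have hbr := hdeep.le_break (by omega) hr hy
      rcases hach with h | ⟨y', hyy, hlen, hpal, hnot, hach', hpr⟩
      · exact absurd hdeep h
      rcases le_or_gt y' r with h1 | h1
      · left; right
        have h2 : y' - y < 5 * D := by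
          by_contra hcon
          exact hnot ⟨hper.mono (by omega) h1, by omega⟩
        have hd1 := ediv_bounds (a := r - y) (p := D) (by omega)
        have hd2 := ediv_bounds (a := r - y') (p := D) (by omega)
        refine ⟨(r - y') / D, ⟨y', h1, hper.mono (by omega) le_rfl, hach', rfl⟩, ?_, ?_⟩
        · exact Int.ediv_le_ediv (by omega) (by omega)
        · refine ediv_lt_of (by omega) ?_
          have : ((r - y') / D + 6) * D = ((r - y') / D) * D + 6 * D := by ring
          omega
      · right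
        have e : y + y' - y = y' := by ring
        refine ⟨y + y', ⟨y, y', rfl, hbr, hper.mono (by omega) le_rfl, h1, hlen, hpal, hpr⟩,
          y, by ring, hbr, hper.mono (by omega) le_rfl, ?_, ?_, ?_, rfl⟩
        · omega
        · rw [e]; exact hpal
        · rw [e]; exact hach'
    · left; left
      exact ⟨y, hy, hper, hdeep, rfl⟩

/-- iterated anchoredness with `Q` steps at each stage -/
def Ach (w : ℤ → α) (n : ℤ) (Q : ℕ) : ℕ → ℤ → ℤ → Prop
  | 0 => AchAux w n (fun _ _ => False) Q
  | t + 1 => AchAux w n (Ach w n Q t) Q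

def FF (g Q : ℕ) : ℕ → ℕ
  | 0 => FAux g 0 Q
  | t + 1 => FAux g (FF g Q t) Q

theorem few_ach {n : ℤ} {g : ℕ} (E : Env w n g) (Q t : ℕ) :
    Few w (Ach w n Q t) (FF g Q t) := by
  induction t with
  | zero =>
    refine few_achAux E ?_ Q
    intro p r _ _
    exact Cov.false (by rintro v ⟨y, _, _, h, _⟩; exact h) 0
  | succ t ih => exact few_achAux E ih Q

theorem AchAux.mono {n : ℤ} {prev prev' : ℤ → ℤ → Prop} (h : ∀ y p, prev y p → prev' y p) :
    ∀ (k k' : ℕ) (y D : ℤ), k ≤ k' → AchAux w n prev k y D → AchAux w n prev' k' y D := by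
  intro k
  induction k with
  | zero =>
    intro k' y D _ ha
    cases k' with
    | zero => exact ha
    | succ k' => exact Or.inl ha
  | succ k ih =>
    intro k' y D hk ha
    obtain ⟨k', rfl⟩ : ∃ j, k' = j + 1 := ⟨k' - 1, by omega⟩
    rcases ha with ha | ⟨y', h1, h2, h3, h4, h5, h6⟩
    · exact Or.inl ha
    · exact Or.inr ⟨y', h1, h2, h3, h4, ih k' y' D (by omega) h5,
        fun p hp1 hp2 hp3 => h _ _ (h6 p hp1 hp2 hp3)⟩

theorem Ach.succ {n : ℤ} {Q : ℕ} (t : ℕ) : ∀ {y D : ℤ}, Ach w n Q t y D →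
    Ach w n Q (t + 1) y D := by
  induction t with
  | zero =>
    intro y D h
    exact AchAux.mono (fun _ _ h => h.elim) Q Q y D le_rfl h
  | succ t ih =>
    intro y D h
    exact AchAux.mono (fun _ _ h => ih h) Q Q y D le_rfl h

theorem Ach.mono {n : ℤ} {Q t t' : ℕ} (htt : t ≤ t') {y D : ℤ} (h : Ach w n Q t y D) :
    Ach w n Q t' y D := by
  obtain ⟨k, rfl⟩ := Nat.exists_eq_add_of_le htt
  clear htt
  induction k with
  | zero => exact h
  | succ k ih => exact Ach.succ _ ih

end Pool.Agent.H173.PL
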