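import Pool.Agent.H173.PLCount

/-! The bound is polynomial in the number of least periods. -/

set_option autoImplicit false

namespace Pool.Agent.H173.PL

/-- polynomially bounded functions -/
def PB (f : ℕ → ℕ) : Prop := ∃ C e : ℕ, ∀ g, 1 ≤ g → f g ≤ C * g ^ e

theorem PB.const (c : ℕ) : PB (fun _ => c) := ⟨c, 0, fun g _ => by simp⟩

theorem PB.id : PB (fun g => g) := ⟨1, 1, fun g _ => by simp⟩

theorem PB.add {f f' : ℕ → ℕ} (h : PB f) (h' : PB f') : PB (fun g => f g + f' g) := by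
  obtain ⟨C, e, h⟩ := h
  obtain ⟨C', e', h'⟩ := h'
  refine ⟨C + C', e + e', ?_⟩
  intro g hg
  have h1 := h g hg
  have h2 := h' g hg
  have h3 : g ^ e ≤ g ^ (e + e') := Nat.pow_le_pow_right hg (by omega)
  have h4 : g ^ e' ≤ g ^ (e + e') := Nat.pow_le_pow_right hg (by omega)
  calc f g + f' g ≤ C * g ^ e + C' * g ^ e' := by omega
    _ ≤ C * g ^ (e + e') + C' * g ^ (e + e') :=
      Nat.add_le_add (Nat.mul_le_mul_left C h3) (Nat.mul_le_mul_left C' h4)
    _ = (C + C') * g ^ (e + e') := by ring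

theorem PB.mul {f f' : ℕ → ℕ} (h : PB f) (h' : PB f') : PB (fun g => f g * f' g) := by
  obtain ⟨C, e, h⟩ := h
  obtain ⟨C', e', h'⟩ := h'
  refine ⟨C * C', e + e', ?_⟩
  intro g hg
  calc f g * f' g ≤ (C * g ^ e) * (C' * g ^ e') := Nat.mul_le_mul (h g hg) (h' g hg)
    _ = C * C' * g ^ (e + e') := by rw [pow_add]; ring

theorem PB.pow {f : ℕ → ℕ} (h : PB f) (k : ℕ) : PB (fun g => f g ^ k) := by
  induction k with
  | zero => simpa using PB.const 1
  | succ k ih => simpa [pow_succ] using ih.mul h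

theorem pb_FAux {f : ℕ → ℕ} (h : PB f) (k : ℕ) : PB (fun g => FAux g (f g) k) := by
  induction k with
  | zero => exact PB.const 5
  | succ k ih =>
    exact ((PB.const 5).add (ih.mul (PB.const 6))).add
      ((((PB.id.mul (PB.const 4)).add (PB.id.mul (PB.const 1))).add
        (PB.id.mul (h.mul (PB.const 2)))).mul (ih.mul (PB.const 2)))

theorem pb_FF (Q t : ℕ) : PB (fun g => FF g Q t) := by
  induction t with
  | zero => exact pb_FAux (f := fun _ => 0) (PB.const 0) Q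
  | succ t ih => exact pb_FAux ih Q

theorem PB.lt_two_pow {f : ℕ → ℕ} (h : PB f) : ∃ g0, ∀ g, g0 ≤ g → f g < 2 ^ (g / 2) := by
  obtain ⟨C, e, h⟩ := h
  have h1 := tendsto_pow_const_div_const_pow_of_one_lt e (r := (2 : ℝ)) (by norm_num)
  have hpos : (0 : ℝ) < 1 / (C * 3 ^ e + 1) := by positivity
  have h2 := (h1.eventually (gt_mem_nhds hpos))
  obtain ⟨m0, hm0⟩ := Filter.eventually_atTop.1 h2
  refine ⟨2 * (m0 + 1), ?_⟩
  intro g hg
  have hm : m0 ≤ g / 2 := by omega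
  have h3 := hm0 (g / 2) hm
  have h4 : (0 : ℝ) < 2 ^ (g / 2) := by positivity
  rw [div_lt_iff₀ h4] at h3
  have h5 : (0 : ℝ) < C * 3 ^ e + 1 := by positivity
  have h6 : (C * 3 ^ e + 1) * ((g / 2 : ℕ) : ℝ) ^ e < 2 ^ (g / 2) := by
    have := mul_lt_mul_of_pos_left h3 h5
    have e1 : (C * 3 ^ e + 1 : ℝ) * (1 / (C * 3 ^ e + 1) * 2 ^ (g / 2)) = 2 ^ (g / 2) := by
      field_simp
    rw [e1] at this
    exact this
  have h7 : (C * 3 ^ e + 1) * (g / 2) ^ e < 2 ^ (g / 2) := by exact_mod_cast h6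
  have h8 : g ≤ 3 * (g / 2) := by omega
  calc f g ≤ C * g ^ e := h g (by omega)
    _ ≤ C * (3 * (g / 2)) ^ e := Nat.mul_le_mul_left C (Nat.pow_le_pow_left h8 e)
    _ = (C * 3 ^ e) * (g / 2) ^ e := by rw [mul_pow]; ring
    _ ≤ (C * 3 ^ e + 1) * (g / 2) ^ e := Nat.mul_le_mul_right _ (by omega)
    _ < 2 ^ (g / 2) := h7

theorem growth (Q : ℕ) : ∃ g0, ∀ g, g0 ≤ g → (1 + g * 4 + g * FF g Q Q) ^ Q < 2 ^ (g / 2) :=
  PB.lt_two_pow ((((PB.const 1).add (PB.id.mul (PB.const 4))).add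
    (PB.id.mul (pb_FF Q Q))).pow Q)

end Pool.Agent.H173.PL
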