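import Pool.Agent.H173.PLChain

/-! Many end points that are not deep inside symmetric stretches. -/

set_option autoImplicit false

namespace Pool.Agent.H173.PL

variable {α : Type*} {w : ℤ → α}

/-- reading from the cut `a` in direction `ε` one sees the first `L` letters of the word
starting at `x` -/
def Anc (w : ℤ → α) (x ε a L : ℤ) : Prop :=
  ∀ i, 0 ≤ i → i < L → w (a + ε * i + (ε - 1) / 2) = w (x + i)

/-- `s` lies in the last part of a copy (possibly reversed) of the palindrome of level `j` which
is followed by the break of level `j` -/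
def Near (w : ℤ → α) (x : ℤ) (p A : ℕ → ℤ) (j : ℕ) (s : ℤ) : Prop :=
  ∃ ε t : ℤ, (ε = 1 ∨ ε = -1) ∧ A j - A (j - 1) - p j ≤ t ∧ t ≤ A j ∧
    Anc w x ε (s - ε * t) (A j + p (j + 1))

theorem Per.of_copy {x b L d : ℤ} (h : ∀ i, 0 ≤ i → i < L → w (b + i) = w (x + i))
    (hd : 0 ≤ d) (hper : Per w x (x + L) d) : Per w b (b + L) d := by
  intro i h1 h2
  have e1 := h (i - b) (by omega) (by omega)
  have e2 := h (i + d - b) (by omega) (by omega)
  have e3 := hper (x + (i - b)) (by omega) (by omega)
  have e4 : b + (i - b) = i := by ring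
  have e5 : b + (i + d - b) = i + d := by ring
  have e6 : x + (i - b) + d = x + (i + d - b) := by ring
  rw [e4] at e1
  rw [e5] at e2
  rw [e1, e2, e3, e6]

theorem MinPer.of_copy {x b L d : ℤ} (h : ∀ i, 0 ≤ i → i < L → w (b + i) = w (x + i))
    (hper : MinPer w x (x + L) d) : MinPer w b (b + L) d := by
  refine ⟨hper.1, Per.of_copy h (by have := hper.1; omega) hper.2.1, ?_⟩
  intro e he hb
  exact hper.2.2 e he (Per.of_copy (fun i h1 h2 => (h i h1 h2).symm) (by omega) hb)

namespace Chain

variable {n x : ℤ} {G : ℕ} {p A : ℕ → ℤ}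

/-- the copy of the palindrome of level `j` around `s` -/
theorem block (h : Chain w n x G p A) {j : ℕ} (h1 : 1 ≤ j) (h2 : j ≤ G) {s : ℤ}
    (hs : Near w x p A j s) : ∃ b, b ≤ s ∧ s ≤ b + A j ∧ MinPer w b (b + A j) (p j) := by
  obtain ⟨ε, t, hε, ht1, ht2, hanc⟩ := hs
  have hp' := h.pos (j := j + 1) (by omega) (by omega)
  have hst : 0 ≤ A j - A (j - 1) - p j := by
    obtain ⟨j, rfl⟩ : ∃ i, j = i + 1 := ⟨j - 1, by omega⟩
    have := h.step_le h2
    simp only [Nat.add_sub_cancel]
    omega
  rcases hε with rfl | rfl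
  · refine ⟨s - t, by omega, by omega, MinPer.of_copy ?_ (h.minA j h1 h2)⟩
    intro i hi1 hi2
    have := hanc i hi1 (by omega)
    rw [← this]
    congr 1
    omega
  · refine ⟨s + t - A j, by omega, by omega, MinPer.of_copy ?_ (h.minA j h1 h2)⟩
    intro i hi1 hi2
    have e1 := hanc (A j - 1 - i) (by omega) (by omega)
    have e2 := h.palA j h2 (x + i) (by omega) (by omega)
    have e3 : s - -1 * t + -1 * (A j - 1 - i) + (-1 - 1) / 2 = s + t - A j + i := by omega
    have e4 : x + (x + A j) - 1 - (x + i) = x + (A j - 1 - i) := by ring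
    rw [e3] at e1
    rw [e4] at e2
    rw [e1, e2]

/-- no target is deep in a `p j`-periodic stretch -/
theorem shallow (h : Chain w n x G p A) {j : ℕ} (h1 : 1 ≤ j) (h2 : j ≤ G) {s : ℤ}
    (hs : Near w x p A j s) : ¬ Deep w s (p j) := by
  intro hdeep
  obtain ⟨ε, t, hε, ht1, ht2, hanc⟩ := hs
  obtain ⟨ρ, hρ1, hρ2, hρ3⟩ := h.brk h1 h2
  have hp := h.pos h1 (by omega)
  have hlt := h.lt j h1 h2
  have hA := h.A_pos h1 h2
  have hA' : A (j - 1) < 2 * p j := by
    have := h.A_lt' (j := j - 1) (by omega)
    have e : j - 1 + 1 = j := by omega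
    rw [e] at this
    exact this
  have e1 := hanc ρ (by omega) (by omega)
  have e2 := hanc (ρ - p j) (by omega) (by omega)
  apply hρ3
  rw [← e1, ← e2]
  rcases hε with rfl | rfl
  · have := hdeep (s - 1 * t + 1 * (ρ - p j) + (1 - 1) / 2) (by omega) (by omega)
    rw [this]
    congr 1
    ring
  · have := hdeep (s - -1 * t + -1 * ρ + (-1 - 1) / 2) (by omega) (by omega)
    rw [this]
    congr 1
    ring

/-- targets are not deep in symmetric stretches -/
theorem not_symDeep (h : Chain w n x G p A) {s : ℤ}
    (hs : ∀ j, 1 ≤ j → j ≤ G → Near w x p A j s) {D : ℤ} (hD : 1 ≤ D) (hDA : 5 * D ≤ A G) :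
    ¬ SymDeep w s D := by
  classical
  rintro ⟨κ, hκ⟩
  have hwin : Per w (s - 5 * D) (s + 5 * D) D := hκ.per (by omega) (by omega)
  have hex : ∃ j, 5 * D ≤ A j := ⟨G, hDA⟩
  have hj1 := Nat.find_spec hex
  have hjG : Nat.find hex ≤ G := Nat.find_min' hex hDA
  have hmn : ∀ i, i < Nat.find hex → ¬ (5 * D ≤ A i) := fun i hi => Nat.find_min hex hi
  set j := Nat.find hex with hj
  clear_value j
  have hj0 : 1 ≤ j := by
    by_contra hcon
    have : j = 0 := by omega
    rw [this, h.A0] at hj1
    omega
  obtain ⟨b, hb1, hb2, hb3⟩ := h.block hj0 hjG (hs j hj0 hjG)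
  have hpj := h.pos hj0 (by omega)
  rcases le_or_gt (p j) (4 * D) with hc | hc
  · -- the window and the copy of `A j` overlap in at least `5D` letters
    have hov : Per w (max (s - 5 * D) b) (min (s + 5 * D) (b + A j)) D :=
      hwin.mono (le_max_left _ _) (min_le_left _ _)
    have hlen : 5 * D ≤ min (s + 5 * D) (b + A j) - max (s - 5 * D) b := by
      rcases max_choice (s - 5 * D) b with h3 | h3 <;>
      rcases min_choice (s + 5 * D) (b + A j) with h4 | h4 <;> rw [h3, h4] <;> omega
    have hdvd := hb3.dvd_of_overlap hD hov (le_max_right _ _) (min_le_right _ _) (by omega)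
    have hle : p j ≤ D := Int.le_of_dvd (by omega) hdvd
    have hperj : Per w (s - 5 * D) (s + 5 * D) (p j) :=
      Per.of_dvd_sub (by omega) hwin (by omega) hdvd
        (hb3.2.1.mono (le_max_right (s - 5 * D) b) (min_le_right (s + 5 * D) (b + A j)))
        (le_max_left _ _) (min_le_left _ _) (by omega)
    exact h.shallow hj0 hjG (hs j hj0 hjG) (hperj.mono (by omega) (by omega))
  · obtain ⟨i, rfl⟩ : ∃ i, j = i + 1 := ⟨j - 1, by omega⟩
    have hi0 : 1 ≤ i := by
      by_contra hcon
      have : i = 0 := by omega
      subst this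
      have : p (0 + 1) = 1 := h.p1
      omega
    have hAi : A i < 5 * D := by
      have := hmn i (by omega)
      omega
    obtain ⟨ε, t, hε, ht1, ht2, hanc⟩ := hs i hi0 (by omega)
    have hst : 0 ≤ A i - A (i - 1) - p i := by
      obtain ⟨i', rfl⟩ : ∃ i', i = i' + 1 := ⟨i - 1, by omega⟩
      have := h.step_le (j := i') (by omega)
      simp only [Nat.add_sub_cancel]
      omega
    have hAi0 := h.A_nonneg (j := i) (by omega)
    -- the first `4D` letters from `x` are symmetric
    have hsymx : ∃ κ', Sym w x (x + 4 * D) D κ' := by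
      rcases hε with rfl | rfl
      · refine ⟨κ - 2 * (s - t) + 2 * x, ?_⟩
        intro u v hu1 hu2 hv1 hv2 hd
        have e1 := hanc (u - x) (by omega) (by omega)
        have e2 := hanc (v - x) (by omega) (by omega)
        have e3 : x + (u - x) = u := by ring
        have e4 : x + (v - x) = v := by ring
        rw [e3] at e1
        rw [e4] at e2
        rw [← e1, ← e2]
        refine hκ _ _ (by omega) (by omega) (by omega) (by omega) ?_
        have e5 : s - 1 * t + 1 * (u - x) + (1 - 1) / 2 + (s - 1 * t + 1 * (v - x) + (1 - 1) / 2)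
            - κ = u + v - (κ - 2 * (s - t) + 2 * x) := by omega
        rw [e5]
        exact hd
      · refine ⟨2 * (s + t) - 2 + 2 * x - κ, ?_⟩
        intro u v hu1 hu2 hv1 hv2 hd
        have e1 := hanc (u - x) (by omega) (by omega)
        have e2 := hanc (v - x) (by omega) (by omega)
        have e3 : x + (u - x) = u := by ring
        have e4 : x + (v - x) = v := by ring
        rw [e3] at e1
        rw [e4] at e2
        rw [← e1, ← e2]
        refine hκ _ _ (by omega) (by omega) (by omega) (by omega) ?_
        have e5 : s - -1 * t + -1 * (u - x) + (-1 - 1) / 2 +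
            (s - -1 * t + -1 * (v - x) + (-1 - 1) / 2) - κ =
            -(u + v - (2 * (s + t) - 2 + 2 * x - κ)) := by omega
        rw [e5]
        exact (dvd_neg).2 hd
    obtain ⟨κ', hκ'⟩ := hsymx
    obtain ⟨l, hl1, hl2, hl3⟩ := exists_rep (c := 3 * D + 1) (i := κ' + 1 - 2 * x)
      (show 0 < D by omega)
    have hpal : Pal w x (x + l) := by
      refine hκ'.pal le_rfl (by omega) ?_
      have : x + (x + l) - 1 - κ' = l - (κ' + 1 - 2 * x) := by ring
      rw [this]
      exact hl3
    have hlA : l ≤ A i := h.gap i (by omega) l hpal (by omega)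
    obtain ⟨b', hb1', hb2', hb3'⟩ := h.block hi0 (by omega) (hs i hi0 (by omega))
    have hperb : Per w b' (b' + A i) D := hwin.mono (by omega) (by omega)
    have hpi := hb3'.2.2 D hD hperb
    have hdvd := hb3'.dvd hD hperb (by omega)
    have hpi1 := hb3'.1
    have hperi : Per w (s - 5 * D) (s + 5 * D) (p i) :=
      Per.of_dvd_sub (by omega) hwin (by omega) hdvd hb3'.2.1 (by omega) (by omega) (by omega)
    exact h.shallow hi0 (by omega) (hs i hi0 (by omega)) (hperi.mono (by omega) (by omega))

/-- descending one level in the same direction -/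
theorem anc_same (h : Chain w n x G p A) {j : ℕ} (h2 : j + 1 ≤ G) {ε a : ℤ}
    (hε : ε = 1 ∨ ε = -1) (ha : Anc w x ε a (A (j + 1) + p (j + 2))) :
    Anc w x ε (a + ε * (A (j + 1) - A j - p (j + 1))) (A j + p (j + 1)) := by
  intro i hi1 hi2
  obtain ⟨m, hm, hmult⟩ := h.mult j h2
  have hp := h.pos (j := j + 1) (by omega) (by omega)
  have hp' := h.pos (j := j + 2) (by omega) (by omega)
  have hm0 : 0 ≤ m * p (j + 1) := mul_nonneg hm (by omega)
  have e1 := ha (m * p (j + 1) + i) (by omega) (by omega)
  have e2 : w (x + i) = w (x + (m * p (j + 1) + i)) := by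
    refine (h.minA (j + 1) (by omega) h2).2.1.mod (by omega) (by omega) (by omega) (by omega)
      (by omega) ?_
    exact ⟨m, by ring⟩
  rw [e2, ← e1]
  congr 1
  rcases hε with rfl | rfl <;> omega

/-- descending one level and changing direction -/
theorem anc_opp (h : Chain w n x G p A) {j : ℕ} (h2 : j + 1 ≤ G) {ε a : ℤ}
    (hε : ε = 1 ∨ ε = -1) (ha : Anc w x ε a (A (j + 1) + p (j + 2))) :
    Anc w x (-ε) (a + ε * A (j + 1)) (A j + p (j + 1)) := by
  intro i hi1 hi2
  have hst := h.step_le h2
  have hp' := h.pos (j := j + 2) (by omega) (by omega)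
  have e1 := ha (A (j + 1) - 1 - i) (by omega) (by omega)
  have e2 := h.palA (j + 1) h2 (x + i) (by omega) (by omega)
  have e4 : x + (x + A (j + 1)) - 1 - (x + i) = x + (A (j + 1) - 1 - i) := by ring
  rw [e4] at e2
  rw [e2, ← e1]
  congr 1
  rcases hε with rfl | rfl <;> omega

/-- the targets below an anchored palindrome of level `j` -/
theorem targets (h : Chain w n x G p A) : ∀ N j : ℕ, j ≤ N → j ≤ G → ∀ ε a : ℤ,
    (ε = 1 ∨ ε = -1) → Anc w x ε a (A j + p (j + 1)) →
    ∃ T : Finset ℤ, 2 ^ ((j + 1) / 2) ≤ T.card ∧ ∀ s ∈ T,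
      (∃ t, 0 ≤ t ∧ t ≤ A j ∧ s = a + ε * t) ∧ ∀ i, 1 ≤ i → i ≤ j → Near w x p A i s := by
  classical
  intro N
  induction N using Nat.strong_induction_on with
  | _ N ih =>
    intro j hjN hjG ε a hε ha
    match j, hjN, hjG, ha with
    | 0, _, _, _ =>
      refine ⟨{a}, by simp, ?_⟩
      intro s hs
      rw [Finset.mem_singleton] at hs
      subst hs
      refine ⟨⟨0, le_rfl, by rw [h.A0], by ring⟩, ?_⟩
      intro i h1 h2
      omega
    | 1, _, hjG, ha =>
      have hst := h.step_le (j := 0) (by omega)
      have hp := h.pos (j := 1) (by omega) (by omega)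
      have hA0 := h.A0
      simp only [zero_add] at hst
      refine ⟨{a + ε * (A 1 - p 1), a + ε * A 1}, ?_, ?_⟩
      · rw [Finset.card_pair]
        · norm_num
        · rcases hε with rfl | rfl <;> omega
      · intro s hs
        have hs' : ∃ t, A 1 - p 1 ≤ t ∧ t ≤ A 1 ∧ s = a + ε * t := by
          rw [Finset.mem_insert, Finset.mem_singleton] at hs
          rcases hs with rfl | rfl
          · exact ⟨_, le_rfl, by omega, rfl⟩
          · exact ⟨_, by omega, le_rfl, rfl⟩
        obtain ⟨t, ht1, ht2, rfl⟩ := hs'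
        refine ⟨⟨t, by omega, ht2, rfl⟩, ?_⟩
        intro i h1 h2
        have : i = 1 := by omega
        subst this
        refine ⟨ε, t, hε, ?_, ht2, ?_⟩
        · simp only [Nat.sub_self]
          omega
        · have e : a + ε * t - ε * t = a := by ring
          rw [e]
          exact ha
    | j + 2, hjN, hjG, ha =>
      have hst1 := h.step_le (j := j + 1) (by omega)
      have hst0 := h.step_le (j := j) (by omega)
      have hp1 := h.pos (j := j + 1) (by omega) (by omega)
      have hp2 := h.pos (j := j + 2) (by omega) (by omega)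
      have hAj := h.A_nonneg (j := j) (by omega)
      have hAlt := h.A_lt (j := j + 1) (by omega) (by omega)
      have e22 : j + 1 + 1 = j + 2 := rfl
      rw [e22] at hst1 hAlt
      have hε' : -ε = 1 ∨ -ε = -1 := by
        rcases hε with rfl | rfl
        · right; rfl
        · left; norm_num
      -- the two children and their direct children
      have hc1 : Anc w x ε (a + ε * (A (j + 2) - A (j + 1) - p (j + 2)))
          (A (j + 1) + p (j + 2)) := h.anc_same (j := j + 1) (by omega) hε ha
      have hc2 : Anc w x (-ε) (a + ε * A (j + 2)) (A (j + 1) + p (j + 2)) :=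
        h.anc_opp (j := j + 1) (by omega) hε ha
      have hd1 := h.anc_same (j := j) (by omega) hε hc1
      have hd2 := h.anc_same (j := j) (by omega) hε' hc2
      obtain ⟨T1, hT1c, hT1⟩ := ih j (by omega) j le_rfl (by omega) ε _ hε hd1
      obtain ⟨T2, hT2c, hT2⟩ := ih j (by omega) j le_rfl (by omega) (-ε) _ hε' hd2
      have hdisj : Disjoint T1 T2 := by
        rw [Finset.disjoint_left]
        intro s hs1 hs2
        obtain ⟨⟨t1, ht1a, ht1b, hst1'⟩, _⟩ := hT1 s hs1
        obtain ⟨⟨t2, ht2a, ht2b, hst2'⟩, _⟩ := hT2 s hs2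
        rw [hst1'] at hst2'
        rcases hε with rfl | rfl <;> omega
      refine ⟨T1 ∪ T2, ?_, ?_⟩
      · rw [Finset.card_union_of_disjoint hdisj]
        have e : (j + 2 + 1) / 2 = (j + 1) / 2 + 1 := by omega
        rw [e, pow_succ]
        omega
      · intro s hs
        rcases Finset.mem_union.1 hs with hs | hs
        · obtain ⟨⟨t, ht1, ht2, rfl⟩, hnear⟩ := hT1 s hs
          refine ⟨⟨(A (j + 2) - A (j + 1) - p (j + 2)) + (A (j + 1) - A j - p (j + 1)) + t,
            by omega, by omega, by ring⟩, ?_⟩
          intro i hi1 hi2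
          rcases Nat.lt_or_ge i (j + 1) with hi | hi
          · exact hnear i hi1 (by omega)
          · rcases Nat.lt_or_ge i (j + 2) with hi' | hi'
            · obtain rfl : i = j + 1 := by omega
              refine ⟨ε, (A (j + 1) - A j - p (j + 1)) + t, hε, ?_, by omega, ?_⟩
              · simp only [Nat.add_sub_cancel]
                omega
              · convert hc1 using 1
                ring
            · obtain rfl : i = j + 2 := by omega
              refine ⟨ε, (A (j + 2) - A (j + 1) - p (j + 2)) +
                (A (j + 1) - A j - p (j + 1)) + t, hε, ?_, by omega, ?_⟩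
              · have : j + 2 - 1 = j + 1 := by omega
                rw [this]
                omega
              · convert ha using 1
                ring
        · obtain ⟨⟨t, ht1, ht2, rfl⟩, hnear⟩ := hT2 s hs
          refine ⟨⟨A (j + 2) - ((A (j + 1) - A j - p (j + 1)) + t),
            by omega, by omega, by ring⟩, ?_⟩
          intro i hi1 hi2
          rcases Nat.lt_or_ge i (j + 1) with hi | hi
          · exact hnear i hi1 (by omega)
          · rcases Nat.lt_or_ge i (j + 2) with hi' | hi'
            · obtain rfl : i = j + 1 := by omega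
              refine ⟨-ε, (A (j + 1) - A j - p (j + 1)) + t, hε', ?_, by omega, ?_⟩
              · simp only [Nat.add_sub_cancel]
                omega
              · convert hc2 using 1
                ring
            · obtain rfl : i = j + 2 := by omega
              refine ⟨ε, A (j + 2) - ((A (j + 1) - A j - p (j + 1)) + t), hε, ?_,
                by omega, ?_⟩
              · have : j + 2 - 1 = j + 1 := by omega
                rw [this]
                omega
              · convert ha using 1
                ring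

end Chain

end Pool.Agent.H173.PL
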