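import Pool.Agent.H173.PLWalk
import Pool.Agent.H173.PLTargets
import Pool.Agent.H173.PLGrowth

/-! Unbounded palindromic length of prefixes. -/

set_option autoImplicit false

namespace Pool.Agent.H173.PL

variable {α : Type*} {w : ℤ → α}

theorem cov_MPs_trivial (n x : ℤ) : Cov (MPs w n x) n.toNat := by
  refine (Cov.interval 1 (n + 1)).mono ?_ (by omega)
  rintro p ⟨b, h1, h2, _, h4⟩
  have := h4.le_length h1
  have := h4.1
  omega

/-- arbitrarily long palindromes starting at `x` have many least periods -/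
theorem not_cov_of_unbounded (hR : ∀ z p : ℤ, 0 < p → ∃ r, z + p ≤ r ∧ w r ≠ w (r - p) ∧
    Per w z r p) {x : ℤ} (hx : ∀ M : ℤ, ∃ b, M < b ∧ Pal w x b) (N : ℕ) :
    ∃ n : ℤ, 1 ≤ n ∧ ¬ Cov (MPs w n x) N := by
  classical
  induction N with
  | zero =>
    refine ⟨1, le_rfl, ?_⟩
    rintro ⟨S, h1, h2⟩
    have h3 : S = ∅ := Finset.card_eq_zero.1 (by omega)
    have h4 := h2 1 ⟨x + 1, by omega, by omega, Pal.single x, le_rfl, Per.of_ge (by omega),
      fun e he _ => he⟩
    rw [h3] at h4
    simp at h4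
  | succ N ih =>
    obtain ⟨n, hn1, hn⟩ := ih
    -- a bound for the breaks of the periods up to `n`
    have hM : ∀ m : ℕ, ∃ M : ℤ, x ≤ M ∧ ∀ p : ℤ, 0 < p → p ≤ m → ∀ b, M < b → ¬ Per w x b p := by
      intro m
      induction m with
      | zero => exact ⟨x, le_rfl, fun p h1 h2 => by omega⟩
      | succ m ihm =>
        obtain ⟨M, hMx, hM⟩ := ihm
        obtain ⟨r, hr1, hr2, _⟩ := hR x ((m : ℤ) + 1) (by omega)
        refine ⟨max M r, hMx.trans (le_max_left _ _), ?_⟩
        intro p hp1 hp2 b hb hper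
        have hb1 : M < b := lt_of_le_of_lt (le_max_left _ _) hb
        have hb2 : r < b := lt_of_le_of_lt (le_max_right _ _) hb
        rcases lt_or_ge (m : ℤ) p with h1 | h1
        · have : p = (m : ℤ) + 1 := by omega
          subst this
          have := Per.le_break hper hr2 hr1
          omega
        · exact hM p hp1 h1 b hb1 hper
    obtain ⟨M, hMx, hM⟩ := hM n.toNat
    obtain ⟨b, hb1, hb2⟩ := hx M
    obtain ⟨e, he1, he2⟩ := MinPer.exists (w := w) (a := x) (b := b) (by omega)
    have hen : n < e := by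
      by_contra hcon
      exact hM e (by have := he1.1; omega) (by omega) b hb1 he1.2.1
    refine ⟨max n (b - x), hn1.trans (le_max_left _ _), ?_⟩
    rintro ⟨S, hS1, hS2⟩
    apply hn
    have heS : e ∈ S := hS2 e ⟨b, by omega, le_max_right _ _, hb2, he1⟩
    refine ⟨S.erase e, ?_, ?_⟩
    · rw [Finset.card_erase_of_mem heS]
      omega
    · intro p hp
      obtain ⟨b', h1, h2, h3, h4⟩ := hp
      refine Finset.mem_erase.2 ⟨?_, hS2 p ⟨b', h1, h2.trans (le_max_left _ _), h3, h4⟩⟩
      have := h4.le_length h1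
      omega

/-- if palindromes from each position are bounded, so are the reachable positions -/
theorem reach_bounded (hb : ∀ x : ℤ, ∃ M : ℤ, ∀ b, Pal w x b → x ≤ b → b ≤ M) (q : ℕ) :
    ∀ a : ℤ, ∃ M : ℤ, ∀ s, Reach w q a s → s ≤ M := by
  classical
  induction q with
  | zero =>
    intro a
    exact ⟨a, fun s hs => le_of_eq (Eq.symm hs)⟩
  | succ q ih =>
    intro a
    obtain ⟨M, hM⟩ := hb a
    choose f hf using ih
    obtain ⟨B, hB⟩ := ((Finset.Icc a M).image f).exists_le
    refine ⟨B, ?_⟩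
    rintro s ⟨c, h1, h2, h3⟩
    have h4 := hM c h2 h1
    exact (hf c s h3).trans (hB (f c) (Finset.mem_image.2 ⟨c, Finset.mem_Icc.2 ⟨h1, h4⟩, rfl⟩))

/-- The main theorem for two-sided sequences without endless periodic stretches, in which
every nonnegative position is reached from `0` in `P` palindromic steps: impossible. -/
theorem main (hR : ∀ z p : ℤ, 0 < p → ∃ r, z + p ≤ r ∧ w r ≠ w (r - p) ∧ Per w z r p)
    (hL : ∀ z p : ℤ, 0 < p → ∃ l, l < z ∧ w l ≠ w (l + p) ∧ Per w (l + 1) (z + p) p)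
    (hneg : ∀ x : ℤ, x < 0 → ∀ b, x + 1 < b → ¬ Pal w x b)
    (P : ℕ) (hreach : ∀ j : ℤ, 0 ≤ j → Reach w P 0 j) : False := by
  classical
  obtain ⟨g0, hg0⟩ := growth (P + P)
  -- many least periods somewhere
  have hunb : ∃ n x : ℤ, 1 ≤ n ∧ ¬ Cov (MPs w n x) (g0 + 2) := by
    by_contra hcon
    have hb : ∀ x : ℤ, ∃ M : ℤ, ∀ b, Pal w x b → x ≤ b → b ≤ M := by
      intro x
      by_contra hx
      have hx' : ∀ M : ℤ, ∃ b, M < b ∧ Pal w x b := by
        intro M
        by_contra hM
        apply hx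
        refine ⟨M, fun b h1 _ => ?_⟩
        by_contra h2
        exact hM ⟨b, by omega, h1⟩
      obtain ⟨n, hn1, hn⟩ := not_cov_of_unbounded hR hx' (g0 + 2)
      exact hcon ⟨n, x, hn1, hn⟩
    obtain ⟨M, hM⟩ := reach_bounded hb P 0
    have := hM (max (M + 1) 0) (hreach _ (le_max_right _ _))
    have := le_max_left (M + 1) 0
    omega
  obtain ⟨n, x0, hn1, hx0⟩ := hunb
  -- the maximal number of least periods
  have hex : ∃ g : ℕ, ∀ z, Cov (MPs w n z) g := ⟨n.toNat, fun z => cov_MPs_trivial n z⟩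
  have hg := Nat.find_spec hex
  have hmn : ∀ m, m < Nat.find hex → ¬ ∀ z, Cov (MPs w n z) m := fun m hm => Nat.find_min hex hm
  set g := Nat.find hex with hgdef
  clear_value g
  have hgbig : g0 + 2 < g := by
    by_contra hcon
    exact hx0 ((hg x0).mono (fun _ h => h) (by omega))
  obtain ⟨x, hx⟩ : ∃ x, ¬ Cov (MPs w n x) (g - 1) := by
    by_contra hcon
    apply hmn (g - 1) (by omega)
    intro z
    by_contra h1
    exact hcon ⟨z, h1⟩
  -- `x` is nonnegative
  have hx0 : 0 ≤ x := by
    by_contra hcon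
    apply hx
    refine (Cov.subsingleton (P := fun p => p = 1) (fun _ _ h1 h2 => h1.trans h2.symm)).mono ?_
      (by omega)
    rintro p ⟨b, h1, h2, h3, h4⟩
    have hb : b ≤ x + 1 := by
      by_contra h5
      exact hneg x (by omega) b (by omega) h3
    have := h4.le_length h1
    have := h4.1
    omega
  have E : Env w n g := ⟨hR, hL, hg⟩
  obtain ⟨p, A, hC⟩ := exists_chain hn1 (g - 1) hx
  have hanc : Anc w x 1 x (A (g - 1) + p (g - 1 + 1)) := by
    intro i _ _
    congr 1
    omega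
  obtain ⟨T, hTc, hT⟩ := hC.targets (g - 1) (g - 1) le_rfl le_rfl 1 x (Or.inl rfl) hanc
  have hcard := card_targets_le E (P + P) x (A (g - 1))
    (by have h1 := hC.len
        have h2 := hC.pos (j := g - 1 + 1) (by omega) le_rfl
        omega) T (by
      intro s hs
      obtain ⟨⟨t, ht1, ht2, rfl⟩, hnear⟩ := hT s hs
      refine ⟨by omega, reach_of_reach (hreach x hx0) (hreach _ (by omega)) (by omega), ?_⟩
      intro D hD1 hD2
      exact hC.not_symDeep hnear hD1 hD2)
  have hlt := hg0 g (by omega)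
  have hg2 : (g - 1 + 1) / 2 = g / 2 := by
    have : g - 1 + 1 = g := by omega
    rw [this]
  rw [hg2] at hTc
  omega

end Pool.Agent.H173.PL
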