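import Pool.Agent.H173.PLBasic

/-! Sliding a turning point of a palindromic walk inside a periodic run. -/

set_option autoImplicit false

namespace Pool.Agent.H173.PL

variable {α : Type*} {w : ℤ → α}

/-- `y` lies deep inside a `D`-periodic stretch -/
def Deep (w : ℤ → α) (y D : ℤ) : Prop := Per w (y - 5 * D) (y + 5 * D) D

/-- `y` lies deep inside a `D`-periodic and `D`-symmetric stretch -/
def SymDeep (w : ℤ → α) (y D : ℤ) : Prop := ∃ κ, Sym w (y - 5 * D) (y + 5 * D) D κ

theorem SymDeep.step {y y' D : ℤ} (hD : 0 < D) (h : SymDeep w y D) (h' : Deep w y' D)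
    (hp : Pal w y y') (hyy : y ≤ y') : SymDeep w y' D := by
  obtain ⟨κ, hκ⟩ := h
  rcases le_or_gt (5 * D) (y' - y) with hl | hl
  · have h1 : Sym w y (y + 5 * D) D κ := hκ.mono (by omega) le_rfl
    have h2 := h1.mirror hp le_rfl (by omega)
    have e1 : y + y' - (y + 5 * D) = y' - 5 * D := by ring
    have e2 : y + y' - y = y' := by ring
    rw [e1, e2] at h2
    exact ⟨_, h2.extend h' hD le_rfl (by omega) (by omega)⟩
  · have h1 : Per w (y - 5 * D) (y + 5 * D) D := hκ.per hD (by omega)
    have h2 : Per w (y - 5 * D) (y' + 5 * D) D := h1.union h' (by omega)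
    exact ⟨κ, (hκ.extend h2 hD le_rfl (by omega) (by omega)).mono (by omega) le_rfl⟩

theorem SymDeep.of_step {u y D : ℤ} (hD : 0 < D) (hp : Pal w u y) (hper : Per w u y D)
    (hl : 5 * D ≤ y - u) (h' : Deep w y D) : SymDeep w y D := by
  have h1 := (Sym.of_pal hp hper hD).mono (a' := y - 5 * D) (b' := y) (by omega) le_rfl
  exact ⟨_, h1.extend h' hD le_rfl (by omega) (by omega)⟩

/-- a walk with palindromic steps -/
def Walk (w : ℤ → α) (q : ℕ) (y : ℕ → ℤ) : Prop :=
  ∀ i, i < q → y i ≤ y (i + 1) ∧ Pal w (y i) (y (i + 1))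

theorem Walk.tail {q : ℕ} {y : ℕ → ℤ} (h : Walk w (q + 1) y) : Walk w q (fun i => y (i + 1)) :=
  fun i hi => h (i + 1) (by omega)

theorem Walk.shift {q k : ℕ} {y : ℕ → ℤ} (h : Walk w (k + q) y) :
    Walk w q (fun i => y (k + i)) := fun i hi => h (k + i) (by omega)

theorem Walk.reach {q : ℕ} : ∀ {y : ℕ → ℤ}, Walk w q y → Reach w q (y 0) (y q) := by
  induction q with
  | zero => intro y _; rfl
  | succ q ih =>
    intro y h
    exact ⟨y 1, (h 0 (by omega)).1, (h 0 (by omega)).2, ih h.tail⟩

theorem Walk.mono {q : ℕ} {y : ℕ → ℤ} (h : Walk w q y) :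
    ∀ j, j ≤ q → ∀ i, i ≤ j → y i ≤ y j := by
  intro j
  induction j with
  | zero => intro _ i hi; rw [Nat.le_zero.1 hi]
  | succ j ih =>
    intro hj i hi
    rcases Nat.lt_or_ge i (j + 1) with h1 | h1
    · exact (ih (by omega) i (by omega)).trans (h j (by omega)).1
    · have : i = j + 1 := by omega
      rw [this]

/-- The sliding lemma: if the first `j+1` turning points are deep in `D`-periodic stretches and
the step after them is a long `D`-periodic palindrome, the first turning point can be moved by
`D` in either direction. -/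
theorem slide {D : ℤ} (hD : 0 < D) (j : ℕ) : ∀ (q : ℕ) (y : ℕ → ℤ) (ε : ℤ), (ε = 1 ∨ ε = -1) →
    Walk w q y → j < q → (∀ i, i ≤ j → Deep w (y i) D) → Per w (y j) (y (j + 1)) D →
    5 * D ≤ y (j + 1) - y j → Reach w q (y 0 + ε * D) (y q) := by
  induction j with
  | zero =>
    intro q y ε hε hw hj hdeep hper hl
    obtain ⟨q, rfl⟩ : ∃ q', q = q' + 1 := ⟨q - 1, by omega⟩
    have h0 := hw 0 (by omega)
    have hd := hdeep 0 le_rfl
    simp only [zero_add] at hper hl h0
    have h1 : Per w (y 0 - 5 * D) (y 1) D := Per.union hd hper (by omega)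
    have hsym := (Sym.of_pal h0.2 hper hD).extend h1 hD (by omega) le_rfl (by omega)
    refine ⟨y 1, ?_, ?_, hw.tail.reach⟩
    · rcases hε with rfl | rfl <;> omega
    · refine hsym.pal ?_ le_rfl ⟨ε, by ring⟩
      rcases hε with rfl | rfl <;> omega
  | succ j ih =>
    intro q y ε hε hw hj hdeep hper hl
    obtain ⟨q, rfl⟩ : ∃ q', q = q' + 1 := ⟨q - 1, by omega⟩
    have h0 := hw 0 (by omega)
    have hd0 := hdeep 0 (by omega)
    have hd1 := hdeep 1 (by omega)
    simp only [zero_add] at h0
    have hε' : -ε = 1 ∨ -ε = -1 := by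
      rcases hε with rfl | rfl
      · right; rfl
      · left; norm_num
    rcases le_or_gt (5 * D) (y 1 - y 0) with h5 | h5
    · have hr := ih q (fun i => y (i + 1)) (-ε) hε' hw.tail (by omega)
        (fun i hi => hdeep (i + 1) (by omega)) hper hl
      refine ⟨y 1 + (-ε) * D, ?_, ?_, hr⟩
      · rcases hε with rfl | rfl <;> omega
      · rcases hε with rfl | rfl
        · have := h0.2.shrink (k := D) hD.le
          have e : y 1 + -1 * D = y 1 - D := by ring
          rw [e, one_mul]
          exact this
        · have := h0.2.grow (d := D) (by omega) (hd0.mono (by omega) (by omega))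
            (hd1.mono (by omega) (by omega))
          have e1 : y 0 + -1 * D = y 0 - D := by ring
          have e2 : y 1 + - -1 * D = y 1 + D := by ring
          rw [e1, e2]
          exact this
    · have hr := ih q (fun i => y (i + 1)) ε hε hw.tail (by omega)
        (fun i hi => hdeep (i + 1) (by omega)) hper hl
      refine ⟨y 1 + ε * D, ?_, ?_, hr⟩
      · have := h0.1
        omega
      · refine h0.2.translate hε hD.le ?_
        have := Per.union hd0 hd1 (by omega)
        exact this.mono (by omega) (by omega)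

/-- a deep point lies at distance at least `5D` before the next break -/
theorem Deep.le_break {y r D : ℤ} (h : Deep w y D) (hD : 0 < D) (hr : w r ≠ w (r - D))
    (hyr : y ≤ r) : y + 5 * D ≤ r := by
  by_contra hcon
  apply hr
  have := h (r - D) (by omega) (by omega)
  rw [this]
  congr 1
  ring

theorem Per.le_break {a b r D : ℤ} (h : Per w a b D) (hr : w r ≠ w (r - D))
    (har : a + D ≤ r) : b ≤ r := by
  by_contra hcon
  apply hr
  have := h (r - D) (by omega) (by omega)
  rw [this]
  congr 1
  ring

/-- the centre of a palindrome leaving a run lies to the right of the end of the run -/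
theorem exit_center {y y' r D : ℤ} (hp : Pal w y y') (hper : Per w y r D) (hr : w r ≠ w (r - D))
    (hD : 0 < D) (hy : y + D ≤ r) (hry : r < y') : 2 * r - D + 1 ≤ y + y' := by
  by_contra hcon
  apply hr
  have e1 := hp r (by omega) hry
  have e2 := hp (r - D) (by omega) (by omega)
  have e3 := hper (y + y' - 1 - r) (by omega) (by omega)
  rw [e1, e2, e3]
  congr 1
  ring

end Pool.Agent.H173.PL
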