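import Pool.Agent.H173.PLCount

/-! Leftmost palindromic walks and the number of their end points. -/

set_option autoImplicit false

namespace Pool.Agent.H173.PL

variable {α : Type*} {w : ℤ → α}

/-- a walk whose every step is as short as possible, given the number of steps left -/
structure MinWalk (w : ℤ → α) (q : ℕ) (s : ℤ) (y : ℕ → ℤ) : Prop where
  walk : Walk w q y
  last : y q = s
  least : ∀ i, i < q → ∀ c, y i ≤ c → Pal w (y i) c → Reach w (q - (i + 1)) c s → y (i + 1) ≤ c

theorem exists_least_int {P : ℤ → Prop} {a : ℤ} (h : ∃ c, P c) (hb : ∀ c, P c → a ≤ c) :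
    ∃ c, P c ∧ ∀ c', P c' → c ≤ c' := by
  classical
  obtain ⟨c0, hc0⟩ := h
  have hex : ∃ m : ℕ, P (a + m) := ⟨(c0 - a).toNat, by
    have h1 := hb c0 hc0
    have : a + ((c0 - a).toNat : ℤ) = c0 := by omega
    rw [this]
    exact hc0⟩
  refine ⟨a + (Nat.find hex : ℕ), Nat.find_spec hex, ?_⟩
  intro c' hc'
  have h1 := hb c' hc'
  have : Nat.find hex ≤ (c' - a).toNat := by
    apply Nat.find_min'
    have : a + ((c' - a).toNat : ℤ) = c' := by omega
    rw [this]
    exact hc'
  omega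

theorem exists_minWalk (q : ℕ) : ∀ (a s : ℤ), Reach w q a s → ∃ y, y 0 = a ∧ MinWalk w q s y := by
  induction q with
  | zero =>
    intro a s h
    refine ⟨fun _ => a, rfl, ?_, h, ?_⟩
    · intro i hi; omega
    · intro i hi; omega
  | succ q ih =>
    intro a s h
    obtain ⟨c, hc, hmin⟩ := exists_least_int (P := fun c => a ≤ c ∧ Pal w a c ∧ Reach w q c s)
      (a := a) h (fun c hc => hc.1)
    obtain ⟨y, hy0, hy⟩ := ih c s hc.2.2
    refine ⟨fun i => match i with
      | 0 => a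
      | i + 1 => y i, rfl, ?_, hy.last, ?_⟩
    · intro i hi
      cases i with
      | zero =>
        show a ≤ y 0 ∧ Pal w a (y 0)
        rw [hy0]
        exact ⟨hc.1, hc.2.1⟩
      | succ i => exact hy.walk i (by omega)
    · intro i hi c' h1 h2 h3
      cases i with
      | zero =>
        show y 0 ≤ c'
        rw [hy0]
        exact hmin c' ⟨h1, h2, h3⟩
      | succ i =>
        refine hy.least i (by omega) c' h1 h2 ?_
        have : q + 1 - (i + 1 + 1) = q - (i + 1) := by omega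
        rw [this] at h3
        exact h3

/-- anchoredness along a leftmost walk, one stage -/
theorem MinWalk.achAux {Q : ℕ} {s : ℤ} {y : ℕ → ℤ} (hw : MinWalk w Q s y) {n D : ℤ}
    (hn : s - y 0 ≤ n) (hD : 0 < D) (hs : ¬ SymDeep w s D) {i : ℕ} (hi : i < Q)
    (hper : Per w (y i) (y (i + 1)) D) (hl : 5 * D ≤ y (i + 1) - y i)
    {prev : ℤ → ℤ → Prop}
    (hprev : ∀ j, j < Q → ∀ p, D < p → MinPer w (y j) (y (j + 1)) p →
      5 * p ≤ y (j + 1) - y j → prev (y (j + 1)) p) :
    AchAux w n prev Q (y (i + 1)) D := by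
  classical
  -- some later turning point is not deep
  have hex : ∃ r, i + 1 ≤ r ∧ r ≤ Q ∧ ¬ Deep w (y r) D := by
    by_contra hcon
    have hcon' : ∀ r, i + 1 ≤ r → r ≤ Q → Deep w (y r) D := by
      intro r h1 h2
      by_contra h3
      exact hcon ⟨r, h1, h2, h3⟩
    have h1 : ∀ j, i + 1 + j ≤ Q → SymDeep w (y (i + 1 + j)) D := by
      intro j
      induction j with
      | zero =>
        intro _
        exact SymDeep.of_step hD (hw.walk i hi).2 hper hl (hcon' (i + 1) le_rfl (by omega))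
      | succ j ih =>
        intro hj
        have h2 := hw.walk (i + 1 + j) (by omega)
        exact (ih (by omega)).step hD (hcon' _ (by omega) (by omega)) h2.2 h2.1
    have h2 := h1 (Q - (i + 1)) (by omega)
    have h3 : i + 1 + (Q - (i + 1)) = Q := by omega
    rw [h3, hw.last] at h2
    exact hs h2
  obtain ⟨hr1, hr2, hr3⟩ := Nat.find_spec hex
  have hmin : ∀ m, m < Nat.find hex → ¬ (i + 1 ≤ m ∧ m ≤ Q ∧ ¬ Deep w (y m) D) :=
    fun m hm => Nat.find_min hex hm
  set r := Nat.find hex with hrdef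
  clear_value r
  have hdeep : ∀ j, i + 1 ≤ j → j < r → Deep w (y j) D := by
    intro j h1 h2
    by_contra h3
    exact hmin j h2 ⟨h1, by omega, h3⟩
  have hstep : ∀ j, i + 1 ≤ j → j < r →
      ¬ (Per w (y j) (y (j + 1)) D ∧ 5 * D ≤ y (j + 1) - y j) := by
    rintro j h1 h2 ⟨h3, h4⟩
    obtain ⟨q, hq⟩ := Nat.exists_eq_add_of_le (show i + 1 ≤ Q by omega)
    obtain ⟨j', rfl⟩ := Nat.exists_eq_add_of_le h1
    have hw' : Walk w q (fun k => y (i + 1 + k)) := by
      have := hw.walk
      rw [hq] at this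
      exact this.shift
    have hsl := slide hD j' q (fun k => y (i + 1 + k)) (-1) (Or.inr rfl) hw' (by omega)
      (fun k hk => hdeep _ (by omega) (by omega)) h3 h4
    have e1 : y (i + 1 + q) = s := by rw [← hq]; exact hw.last
    simp only [add_zero, e1] at hsl
    have hc : Pal w (y i) (y (i + 1) + -1 * D) := by
      have := (hw.walk i hi).2.cut hper hD.le
      have e2 : y (i + 1) + -1 * D = y (i + 1) - D := by ring
      rw [e2]
      exact this
    have := hw.least i hi _ (by omega) hc (by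
      have : Q - (i + 1) = q := by omega
      rw [this]
      exact hsl)
    omega
  have key : ∀ m j, j + m = r → i + 1 ≤ j → AchAux w n prev m (y j) D := by
    intro m
    induction m with
    | zero =>
      intro j hj _
      have : j = r := by omega
      rw [this]
      exact hr3
    | succ m ih =>
      intro j hj hij
      have h1 := hw.walk j (by omega)
      refine Or.inr ⟨y (j + 1), h1.1, ?_, h1.2, hstep j hij (by omega),
        ih (j + 1) (by omega) (by omega), fun p hp1 hp2 hp3 => hprev j (by omega) p hp1 hp2 hp3⟩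
      have h2 := hw.walk.mono j (by omega) 0 (by omega)
      have h3 := hw.walk.mono Q le_rfl (j + 1) (by omega)
      rw [hw.last] at h3
      omega
  exact AchAux.mono (fun _ _ h => h) (r - (i + 1)) Q _ _ (by omega)
    (key (r - (i + 1)) (i + 1) (by omega) le_rfl)

/-- anchoredness along a leftmost walk -/
theorem MinWalk.ach {Q : ℕ} {s : ℤ} {y : ℕ → ℤ} (hw : MinWalk w Q s y) {n H : ℤ}
    (hH : s - y 0 ≤ H) (hn : H ≤ n) (hs : ∀ D, 1 ≤ D → 5 * D ≤ H → ¬ SymDeep w s D) {i : ℕ}
    (hi : i < Q) {D : ℤ} (hper : MinPer w (y i) (y (i + 1)) D)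
    (hl : 5 * D ≤ y (i + 1) - y i) : Ach w n Q Q (y (i + 1)) D := by
  classical
  let cnt : ℤ → Finset ℕ := fun D => (Finset.range Q).filter
    (fun a => ∃ p, D < p ∧ MinPer w (y a) (y (a + 1)) p ∧ 5 * p ≤ y (a + 1) - y a)
  have hlen : ∀ j, j < Q → y (j + 1) - y j ≤ H := by
    intro j hj
    have h2 := hw.walk.mono j (by omega) 0 (by omega)
    have h3 := hw.walk.mono Q le_rfl (j + 1) (by omega)
    rw [hw.last] at h3
    omega
  have hlt : ∀ D p, D < p → ∀ j, j < Q → MinPer w (y j) (y (j + 1)) p →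
      5 * p ≤ y (j + 1) - y j → (cnt p).card < (cnt D).card := by
    intro D p hDp j hj h1 h2
    apply Finset.card_lt_card
    rw [Finset.ssubset_iff_of_subset]
    · refine ⟨j, ?_, ?_⟩
      · simp only [cnt, Finset.mem_filter, Finset.mem_range]
        exact ⟨hj, p, hDp, h1, h2⟩
      · simp only [cnt, Finset.mem_filter, Finset.mem_range]
        rintro ⟨_, p', hp', h3, _⟩
        have := h1.unique h3
        omega
    · intro a ha
      simp only [cnt, Finset.mem_filter, Finset.mem_range] at ha ⊢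
      obtain ⟨h3, p', h4, h5⟩ := ha
      exact ⟨h3, p', by omega, h5⟩
  have main : ∀ t : ℕ, ∀ i, i < Q → ∀ D, MinPer w (y i) (y (i + 1)) D →
      5 * D ≤ y (i + 1) - y i → (cnt D).card ≤ t → Ach w n Q t (y (i + 1)) D := by
    intro t
    induction t with
    | zero =>
      intro i hi D hper hl hc
      have hD : 0 < D := by have := hper.1; omega
      refine hw.achAux (by omega) hD (hs D hper.1 (by have := hlen i hi; omega)) hi hper.2.1 hl ?_
      intro j hj p hp1 hp2 hp3
      have := hlt D p hp1 j hj hp2 hp3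
      omega
    | succ t ih =>
      intro i hi D hper hl hc
      have hD : 0 < D := by have := hper.1; omega
      refine hw.achAux (by omega) hD (hs D hper.1 (by have := hlen i hi; omega)) hi hper.2.1 hl ?_
      intro j hj p hp1 hp2 hp3
      have := hlt D p hp1 j hj hp2 hp3
      exact ih j hj p hp2 hp3 (by omega)
  refine main Q i hi D hper hl ?_
  calc (cnt D).card ≤ (Finset.range Q).card := Finset.card_filter_le _ _
    _ = Q := Finset.card_range Q

/-- admissible single steps -/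
def Next (w : ℤ → α) (n : ℤ) (Q : ℕ) (a b : ℤ) : Prop :=
  (b = a ∨ ∃ p, a < b ∧ b - a ≤ n ∧ Pal w a b ∧ MinPer w a b p ∧ b - a < 5 * p) ∨
  ∃ p, (∃ b', a < b' ∧ b' - a ≤ n ∧ Pal w a b' ∧ MinPer w a b' p) ∧
    (5 * p ≤ b - a ∧ Pal w a b ∧ MinPer w a b p ∧ Ach w n Q Q b p)

theorem cov_next {n : ℤ} {g : ℕ} (E : Env w n g) (Q : ℕ) (a : ℤ) :
    Cov (Next w n Q a) (1 + g * 4 + g * FF g Q Q) := by
  refine ((Cov.subsingleton (P := fun b => b = a) (fun _ _ h1 h2 => h1.trans h2.symm)).or
    (cov_simple E a)).or ((E.few a).bind ?_)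
  rintro p ⟨b0, _, _, _, hb0⟩
  have hp : 0 < p := by have := hb0.1; omega
  obtain ⟨s, hs1, hs2, hs3⟩ := E.brR a p hp
  have h1 := (few_ach E Q Q p s hp hs2).bind (M := 1)
    (R := fun v b => Pal w a b ∧ MinPer w a b p ∧ s - v * p - p + 1 ≤ b ∧
      b < s - v * p - p + 1 + p)
    (by
      intro v _
      refine Cov.subsingleton ?_
      rintro a b ⟨ha1, ha2, ha3, ha4⟩ ⟨hb1, hb2, hb3, hb4⟩
      exact sameper_eq ha1 hb1 ha2 hb2 ha3 ha4 hb3 hb4)
  refine h1.mono ?_ (by omega)
  rintro b ⟨hb1, hb2, hb3, hb4⟩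
  have hbs : b ≤ s := Per.le_break hb3.2.1 hs2 hs1
  have hd := ediv_bounds (a := s - b) hp
  exact ⟨(s - b) / p, ⟨b, hbs, hs3.mono (by omega) le_rfl, hb4, rfl⟩, hb2, hb3,
    by omega, by omega⟩

theorem cov_iter {n : ℤ} {g : ℕ} (E : Env w n g) (Q : ℕ) (x : ℤ) (j : ℕ) :
    Cov (fun b => ∃ y : ℕ → ℤ, y 0 = x ∧ (∀ i, i < j → Next w n Q (y i) (y (i + 1))) ∧ b = y j)
      ((1 + g * 4 + g * FF g Q Q) ^ j) := by
  induction j with
  | zero =>
    refine Cov.subsingleton ?_
    rintro a b ⟨y, h1, _, h2⟩ ⟨y', h1', _, h2'⟩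
    rw [h2, h2', h1, h1']
  | succ j ih =>
    refine (ih.bind (fun v _ => cov_next E Q v)).mono ?_ (by rw [pow_succ])
    rintro b ⟨y, h1, h2, rfl⟩
    exact ⟨y j, ⟨y, h1, fun i hi => h2 i (by omega), rfl⟩, h2 j (by omega)⟩

/-- There are few positions, reached by `Q` palindromic steps from `x`, which are not deep in
symmetric stretches. -/
theorem card_targets_le {n : ℤ} {g : ℕ} (E : Env w n g) (Q : ℕ) (x H : ℤ) (hH : H ≤ n)
    (T : Finset ℤ) (hT : ∀ s ∈ T, s ≤ x + H ∧ Reach w Q x s ∧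
      ∀ D, 1 ≤ D → 5 * D ≤ H → ¬ SymDeep w s D) :
    T.card ≤ (1 + g * 4 + g * FF g Q Q) ^ Q := by
  refine (cov_iter E Q x Q).card_le T ?_
  intro s hs
  obtain ⟨h1, h2, h3⟩ := hT s hs
  obtain ⟨y, hy0, hy⟩ := exists_minWalk Q x s h2
  refine ⟨y, hy0, ?_, hy.last.symm⟩
  intro i hi
  have hlen : y (i + 1) - y i ≤ n := by
    have h4 := hy.walk.mono i (by omega) 0 (by omega)
    have h5 := hy.walk.mono Q le_rfl (i + 1) (by omega)
    rw [hy.last] at h5
    omega
  have hst := hy.walk i hi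
  rcases eq_or_lt_of_le hst.1 with h4 | h4
  · exact Or.inl (Or.inl h4.symm)
  obtain ⟨p, hp1, hp2⟩ := MinPer.exists (w := w) h4
  rcases lt_or_ge (y (i + 1) - y i) (5 * p) with h5 | h5
  · exact Or.inl (Or.inr ⟨p, h4, hlen, hst.2, hp1, h5⟩)
  · refine Or.inr ⟨p, ⟨y (i + 1), h4, hlen, hst.2, hp1⟩, h5, hst.2, hp1, ?_⟩
    exact hy.ach (H := H) (by omega) hH h3 hi hp1 h5

end Pool.Agent.H173.PL
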