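import Pool.Agent.H173.PLMain

/-! From one-sided words and lists to two-sided sequences. -/

set_option autoImplicit false

namespace Pool.Agent.H173.PL

variable {β : Type*}

/-- the two-sided sequence with pairwise distinct new letters on the negative side -/
def ext (w : ℕ → β) : ℤ → β ⊕ ℤ := fun i => if 0 ≤ i then Sum.inl (w i.toNat) else Sum.inr i

theorem ext_neg {w : ℕ → β} {i j : ℤ} (hi : i < 0) (h : ext w i = ext w j) : i = j := by
  unfold ext at h
  rw [if_neg (by omega)] at h
  by_cases hj : 0 ≤ j
  · rw [if_pos hj] at h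
    exact absurd h (by simp)
  · rw [if_neg hj] at h
    exact Sum.inr.inj h

theorem ext_nat (w : ℕ → β) (i : ℕ) : ext w i = Sum.inl (w i) := by
  unfold ext
  rw [if_pos (by omega)]
  simp

theorem ext_R {w : ℕ → β} (h : ¬ ∃ p N : ℕ, 0 < p ∧ ∀ m, N ≤ m → w (m + p) = w m) (z p : ℤ)
    (hp : 0 < p) : ∃ r, z + p ≤ r ∧ ext w r ≠ ext w (r - p) ∧ Per (ext w) z r p := by
  classical
  have hex : ∃ m : ℕ, z.toNat ≤ m ∧ w (m + p.toNat) ≠ w m := by
    by_contra hcon
    apply h
    refine ⟨p.toNat, z.toNat, by omega, ?_⟩
    intro m hm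
    by_contra h1
    exact hcon ⟨m, hm, h1⟩
  obtain ⟨m, hm1, hm2⟩ := hex
  obtain ⟨r, ⟨hr1, hr2⟩, hr3⟩ := exists_least_int'
    (P := fun r : ℤ => z + p ≤ r ∧ ext w r ≠ ext w (r - p)) (a := z + p) ⟨(m : ℤ) + p, by omega, by
      have e1 : (m : ℤ) + p = ((m + p.toNat : ℕ) : ℤ) := by omega
      have e2 : (m : ℤ) + p - p = (m : ℤ) := by ring
      rw [e2, e1, ext_nat, ext_nat]
      intro h2
      exact hm2 (Sum.inl.inj h2)⟩ (fun c hc => hc.1)
  refine ⟨r, hr1, hr2, ?_⟩
  intro i h1 h2
  by_contra h3
  have := hr3 (i + p) ⟨by omega, by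
    have e : i + p - p = i := by ring
    rw [e]
    exact fun h => h3 h.symm⟩
  omega

theorem ext_L (w : ℕ → β) (z p : ℤ) (hp : 0 < p) :
    ∃ l, l < z ∧ ext w l ≠ ext w (l + p) ∧ Per (ext w) (l + 1) (z + p) p := by
  classical
  obtain ⟨r, ⟨hr1, hr2⟩, hr3⟩ := exists_least_int'
    (P := fun r : ℤ => -z < r ∧ ext w (-r) ≠ ext w (-r + p)) (a := -z) ⟨max (-z) 0 + 1, by
      have := le_max_left (-z) 0
      omega, by
      intro h
      have h1 := le_max_right (-z) 0
      have := ext_neg (by omega) h
      omega⟩ (fun c hc => hc.1.le)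
  refine ⟨-r, by omega, hr2, ?_⟩
  intro i h1 h2
  by_contra h3
  have := hr3 (-i) ⟨by omega, by
    rw [neg_neg]
    exact h3⟩
  omega

theorem ext_pal_neg (w : ℕ → β) (x : ℤ) (hx : x < 0) (b : ℤ) (hb : x + 1 < b) :
    ¬ Pal (ext w) x b := by
  intro h
  have := ext_neg hx (h x le_rfl (by omega))
  omega

/-- a product of palindromic lists gives a palindromic walk -/
theorem reach_of_lists {w : ℕ → β} (L : List (List β)) : ∀ (a n : ℕ),
    (∀ x ∈ L, List.Palindrome x) → L.flatten = (List.range' a n).map w →
    Reach (ext w) L.length a ((a + n : ℕ) : ℤ) := by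
  induction L with
  | nil =>
    intro a n _ h
    have hn : n = 0 := by
      have h1 := congrArg List.length h
      simp only [List.flatten_nil, List.length_nil, List.length_map, List.length_range'] at h1
      exact h1.symm
    subst hn
    rfl
  | cons x L ih =>
    intro a n hpal h
    rw [List.flatten_cons] at h
    have hlen : x.length ≤ n := by
      have := congrArg List.length h
      simp only [List.length_append, List.length_map, List.length_range'] at this
      omega
    obtain ⟨m, rfl⟩ := Nat.exists_eq_add_of_le hlen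
    have hsplit : (List.range' a (x.length + m)).map w =
        (List.range' a x.length).map w ++ (List.range' (a + x.length) m).map w := by
      rw [← List.map_append]
      congr 1
      have := List.range'_append (s := a) (m := x.length) (n := m) (step := 1)
      simpa using this.symm
    rw [hsplit] at h
    obtain ⟨hx, hL⟩ := List.append_inj h (by simp)
    have hr := ih (a + x.length) m (fun y hy => hpal y (List.mem_cons_of_mem _ hy)) hL
    have hxp : x.reverse = x := (hpal x List.mem_cons_self).reverse_eq
    refine ⟨((a + x.length : ℕ) : ℤ), by push_cast; omega, ?_, ?_⟩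
    · have hget : ∀ i : ℕ, i < x.length → ext w ((a + i : ℕ) : ℤ) =
          (x[i]?.map Sum.inl).getD (Sum.inr 0) := by
        intro i hi
        have h1 : x[i]? = some (w (a + i)) := by
          conv_lhs => rw [hx]
          rw [List.getElem?_map, List.getElem?_range' hi]
          simp
        rw [h1, ext_nat]
        rfl
      intro i h1 h2
      obtain ⟨j, rfl⟩ : ∃ j : ℕ, i = ((a + j : ℕ) : ℤ) := ⟨(i - a).toNat, by push_cast; omega⟩
      have hj : j < x.length := by push_cast at h2; omega
      have e1 : (a : ℤ) + ((a + x.length : ℕ) : ℤ) - 1 - ((a + j : ℕ) : ℤ) =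
          ((a + (x.length - 1 - j) : ℕ) : ℤ) := by
        push_cast
        omega
      rw [e1, hget j hj, hget (x.length - 1 - j) (by omega)]
      have h3 : x.reverse[x.length - 1 - j]? = x[x.length - 1 - (x.length - 1 - j)]? :=
        List.getElem?_reverse (by omega)
      have h4 : x.length - 1 - (x.length - 1 - j) = j := by omega
      rw [hxp, h4] at h3
      rw [h3]
    · have e : ((a + (x.length + m) : ℕ) : ℤ) = ((a + x.length + m : ℕ) : ℤ) := by
        push_cast; ring
      rw [e]
      exact hr

/-- Palindromic lengths of prefixes are unbounded unless the word is ultimately periodic. -/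
theorem unbounded (w : ℕ → β) (h : ¬ ∃ p N : ℕ, 0 < p ∧ ∀ m, N ≤ m → w (m + p) = w m) (P : ℕ) :
    ∃ n : ℕ, ∀ L : List (List β), (∀ x ∈ L, List.Palindrome x) →
      L.flatten = (List.range n).map w → P < L.length := by
  by_contra hcon
  have hall : ∀ n : ℕ, Reach (ext w) P 0 n := by
    intro n
    by_contra hn
    apply hcon
    refine ⟨n, ?_⟩
    intro L hL1 hL2
    by_contra hlen
    apply hn
    have h1 := reach_of_lists (w := w) L 0 n hL1 (by rw [hL2, List.range_eq_range'])
    have h2 : ((0 + n : ℕ) : ℤ) = n := by push_cast; ring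
    rw [h2] at h1
    exact h1.mono (by omega)
  refine main (w := ext w) (ext_R h) (ext_L w) (ext_pal_neg w) P ?_
  intro j hj
  obtain ⟨n, rfl⟩ := Int.eq_ofNat_of_zero_le hj
  exact hall n

end Pool.Agent.H173.PL
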