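import Pool.Agent.H173.PLWord

/-!
# Prefix palindromic lengths
-/

set_option autoImplicit false

namespace Pool.Agent.H173.PR

section
variable {α : Type} {β : Type} {u : ℕ → α}

/-- the letters at the positions `m, …, n - 1` form a palindrome -/
def PalB (u : ℕ → α) (m n : ℕ) : Prop := ∀ i, m ≤ i → i < n → u i = u (m + n - 1 - i)

/-- the prefix of length `n` is a product of `k` palindromes -/
def Fact (u : ℕ → α) : ℕ → ℕ → Prop
  | 0, n => n = 0
  | k + 1, n => ∃ m, m < n ∧ Fact u k m ∧ PalB u m n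

/-- the prefix palindromic length -/
noncomputable def ppl (u : ℕ → α) (n : ℕ) : ℕ := sInf {k | Fact u k n}

/-- periodic from `s` on -/
def Peri (u : ℕ → α) (s q : ℕ) : Prop := ∀ i, s ≤ i → u (i + q) = u i

lemma fact_self (u : ℕ → α) (n : ℕ) : Fact u n n := by
  induction n with
  | zero => rfl
  | succ n ih =>
    refine ⟨n, Nat.lt_succ_self n, ih, ?_⟩
    intro i h1 h2
    have : i = n + (n + 1) - 1 - i := by omega
    rw [← this]

lemma ppl_spec (u : ℕ → α) (n : ℕ) : Fact u (ppl u n) n :=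
  Nat.sInf_mem (s := {k | Fact u k n}) ⟨n, fact_self u n⟩

lemma ppl_le {k n : ℕ} (h : Fact u k n) : ppl u n ≤ k := Nat.sInf_le h

lemma ppl_pos {n : ℕ} (hn : 0 < n) : 1 ≤ ppl u n := by
  by_contra hcon
  have h0 : ppl u n = 0 := by omega
  have h1 := ppl_spec u n
  rw [h0] at h1
  have : n = 0 := h1
  omega

lemma fact_congr {v : ℕ → β} : ∀ {k n : ℕ}, (∀ i j, i < n → j < n → u i = u j → v i = v j) →
    Fact u k n → Fact v k n := by
  intro k
  induction k with
  | zero => intro n _ h; exact h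
  | succ k ih =>
    rintro n huv ⟨m, hmn, hF, hP⟩
    refine ⟨m, hmn, ih (fun i j hi hj h => huv i j (by omega) (by omega) h) hF, ?_⟩
    intro i h1 h2
    exact huv _ _ h2 (by omega) (hP i h1 h2)

lemma ppl_congr {v : ℕ → β} {n : ℕ} (h : ∀ i j, i < n → j < n → (u i = u j ↔ v i = v j)) :
    ppl u n = ppl v n := by
  apply le_antisymm
  · exact ppl_le (fact_congr (fun i j hi hj => (h i j hi hj).2) (ppl_spec v n))
  · exact ppl_le (fact_congr (fun i j hi hj => (h i j hi hj).1) (ppl_spec u n))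

lemma ext_pal {s q n : ℕ} (hu : Peri u s q) (hP : PalB u s n) (hn : s + q ≤ n) :
    PalB u s (n + q) := by
  intro i h1 h2
  rcases Nat.lt_or_ge i (s + q) with h3 | h3
  · have e1 : s + (n + q) - 1 - i = (s + n - 1 - i) + q := by omega
    rw [e1, hu _ (by omega), hP i h1 (by omega)]
  · obtain ⟨i', rfl⟩ := Nat.exists_eq_add_of_le' (by omega : q ≤ i)
    rw [hu i' (by omega), hP i' (by omega) (by omega)]
    congr 1
    omega

lemma shrink_pal {s q n : ℕ} (hu : Peri u s q) (hP : PalB u s (n + q)) :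
    PalB u s n := by
  intro i h1 h2
  rw [← hu i h1, hP (i + q) (by omega) (by omega)]
  congr 1
  omega

lemma peri_of_pal {N s e q : ℕ} (hu : Peri u N q) (hP : PalB u s e)
    (he : s + (2 * N + 2 * q) ≤ e) : Peri u s q := by
  intro i hi
  rcases Nat.lt_or_ge i N with h | h
  · have h1 := hP i hi (by omega)
    have h2 := hP (i + q) (by omega) (by omega)
    rw [h1, h2]
    have e1 : s + e - 1 - i = (s + e - 1 - (i + q)) + q := by omega
    rw [e1, hu _ (by omega)]
  · exact hu i h

lemma extend {N q : ℕ} (hu : Peri u N q) (hq : 1 ≤ q) : ∀ k n, Fact u (k + 1) n →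
    (k + 1) * (2 * N + 2 * q) ≤ n → Fact u (k + 1) (n + q) := by
  intro k
  induction k with
  | zero =>
    rintro n ⟨m, hmn, hF, hP⟩ hn
    have hm : m = 0 := hF
    subst hm
    exact ⟨0, by omega, rfl, ext_pal (peri_of_pal hu hP (by omega)) hP (by omega)⟩
  | succ k ih =>
    rintro n ⟨m, hmn, hF, hP⟩ hn
    rcases Nat.lt_or_ge n (m + (2 * N + 2 * q)) with h | h
    · have e : (k + 1 + 1) * (2 * N + 2 * q) = (k + 1) * (2 * N + 2 * q) + (2 * N + 2 * q) := by
        ring
      have h1 : (k + 1) * (2 * N + 2 * q) ≤ m := by omega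
      have h2 : 1 * (2 * N + 2 * q) ≤ (k + 1) * (2 * N + 2 * q) :=
        Nat.mul_le_mul_right _ (by omega)
      refine ⟨m + q, by omega, ih m hF h1, ?_⟩
      intro i h3 h4
      obtain ⟨i', rfl⟩ := Nat.exists_eq_add_of_le' (by omega : q ≤ i)
      rw [hu i' (by omega), hP i' (by omega) (by omega)]
      have e1 : m + q + (n + q) - 1 - (i' + q) = (m + n - 1 - i') + q := by omega
      rw [e1, hu _ (by omega)]
    · exact ⟨m, by omega, hF, ext_pal (peri_of_pal hu hP h) hP (by omega)⟩

lemma shrink {N q : ℕ} (hu : Peri u N q) : ∀ k n, Fact u (k + 1) (n + q) →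
    (k + 1) * (2 * N + 3 * q + 1) ≤ n + q → Fact u (k + 1) n := by
  intro k
  induction k with
  | zero =>
    rintro n ⟨m, hmn, hF, hP⟩ hn
    have hm : m = 0 := hF
    subst hm
    exact ⟨0, by omega, rfl, shrink_pal (peri_of_pal hu hP (by omega)) hP⟩
  | succ k ih =>
    rintro n ⟨m, hmn, hF, hP⟩ hn
    rcases Nat.lt_or_ge (n + q) (m + (2 * N + 3 * q + 1)) with h | h
    · have e : (k + 1 + 1) * (2 * N + 3 * q + 1)
          = (k + 1) * (2 * N + 3 * q + 1) + (2 * N + 3 * q + 1) := by ring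
      have h1 : (k + 1) * (2 * N + 3 * q + 1) ≤ m := by omega
      have h2 : 1 * (2 * N + 3 * q + 1) ≤ (k + 1) * (2 * N + 3 * q + 1) :=
        Nat.mul_le_mul_right _ (by omega)
      obtain ⟨m', rfl⟩ := Nat.exists_eq_add_of_le' (by omega : q ≤ m)
      refine ⟨m', by omega, ih m' hF h1, ?_⟩
      intro i h3 h4
      rw [← hu i (by omega), hP (i + q) (by omega) (by omega)]
      have e1 : m' + q + (n + q) - 1 - (i + q) = (m' + n - 1 - i) + q := by omega
      rw [e1, hu _ (by omega)]
    · exact ⟨m, by omega, hF, shrink_pal (peri_of_pal hu hP (by omega)) hP⟩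

/-- a sequence with `g (n + p) ≤ g n` for large `n` is ultimately periodic -/
lemma ult_periodic {g : ℕ → ℕ} {p N1 : ℕ} (h : ∀ n, N1 ≤ n → g (n + p) ≤ g n) :
    ∃ N, N1 ≤ N ∧ ∀ n, N ≤ n → g (n + p) = g n := by
  classical
  let S : ℕ → ℕ := fun n => ∑ i ∈ Finset.range p, g (n + i)
  have hS : ∀ n, S (n + 1) + g n = S n + g (n + p) := by
    intro n
    have h1 : ∑ i ∈ Finset.range (p + 1), g (n + i) = S n + g (n + p) :=
      Finset.sum_range_succ _ _
    have h2 : ∑ i ∈ Finset.range (p + 1), g (n + i) = S (n + 1) + g n := by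
      rw [Finset.sum_range_succ']
      simp only [S]
      congr 1
      refine Finset.sum_congr rfl fun i _ => ?_
      congr 1
      ring
    omega
  -- choose the minimum of `S` on `[N1, ∞)`
  have hex : ∃ v, ∃ n, N1 ≤ n ∧ S n = v := ⟨S N1, N1, le_rfl, rfl⟩
  obtain ⟨N, hN1, hN⟩ := Nat.find_spec hex
  have hmin : ∀ n, N1 ≤ n → S N ≤ S n := by
    intro n hn
    rw [hN]
    exact Nat.find_min' hex ⟨n, hn, rfl⟩
  have hmono : ∀ n, N1 ≤ n → S (n + 1) ≤ S n := by
    intro n hn
    have := hS n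
    have := h n hn
    omega
  have hle : ∀ k, S (N + k) ≤ S N := by
    intro k
    induction k with
    | zero => exact le_rfl
    | succ k ih => exact (hmono (N + k) (by omega)).trans ih
  refine ⟨N, hN1, ?_⟩
  intro n hn
  obtain ⟨k, rfl⟩ := Nat.exists_eq_add_of_le hn
  have h1 := hle k
  have h2 := hmin (N + k + 1) (by omega)
  have h3 := hS (N + k)
  have h4 := h (N + k) (by omega)
  omega

end

end Pool.Agent.H173.PR
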