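import Pool.Agent.H173.PRBasic

/-!
# Bounded prefix palindromic length functions
-/

set_option autoImplicit false

namespace Pool.Agent.H173.PR

section
variable {α : Type} {u : ℕ → α}

lemma block_pal {m n : ℕ} (h : PalB u m n) :
    List.Palindrome ((List.range' m (n - m)).map u) := by
  apply List.Palindrome.of_reverse_eq
  apply List.ext_getElem
  · simp
  · intro i h1 h2
    simp only [List.length_map, List.length_range'] at h2
    rw [List.getElem_reverse, List.getElem_map, List.getElem_map, List.getElem_range',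
      List.getElem_range']
    simp only [List.length_map, List.length_range']
    rw [h (m + 1 * i) (by omega) (by omega)]
    congr 1
    omega

lemma fact_lists : ∀ {k n : ℕ}, Fact u k n → ∃ L : List (List α), L.length = k ∧
    (∀ x ∈ L, List.Palindrome x) ∧ L.flatten = (List.range n).map u := by
  intro k
  induction k with
  | zero =>
    intro n h
    have : n = 0 := h
    subst this
    exact ⟨[], rfl, by simp, by simp⟩
  | succ k ih =>
    rintro n ⟨m, hmn, hF, hP⟩
    obtain ⟨L, h1, h2, h3⟩ := ih hF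
    refine ⟨L ++ [(List.range' m (n - m)).map u], by simp [h1], ?_, ?_⟩
    · intro x hx
      rw [List.mem_append, List.mem_singleton] at hx
      rcases hx with hx | rfl
      · exact h2 x hx
      · exact block_pal hP
    · rw [List.flatten_append, h3]
      simp only [List.flatten_cons, List.flatten_nil, List.append_nil]
      rw [← List.map_append]
      congr 1
      rw [List.range_eq_range', List.range_eq_range']
      have e := List.range'_append (s := 0) (m := m) (n := n - m) (step := 1)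
      rw [Nat.one_mul, Nat.zero_add] at e
      rw [e]
      congr 1
      omega

/-- a word with bounded prefix palindromic length is ultimately periodic -/
lemma ult_of_bounded {K : ℕ} (h : ∀ n, ppl u n ≤ K) : ∃ p N, 0 < p ∧ Peri u N p := by
  by_contra hcon
  obtain ⟨n, hn⟩ := Pool.Agent.H173.PL.unbounded u hcon K
  obtain ⟨L, h1, h2, h3⟩ := fact_lists (ppl_spec u n)
  have h4 := hn L h2 h3
  have h5 := h n
  omega

lemma ppl_add_le {K s q m : ℕ} (hu : Peri u s q) (hq : 1 ≤ q) (hm : K * (2 * s + 2 * q) ≤ m)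
    (hm0 : 1 ≤ m) (hK : ppl u m ≤ K) : ppl u (m + q) ≤ ppl u m := by
  have h1 := ppl_pos (u := u) hm0
  obtain ⟨k, hk⟩ := Nat.exists_eq_add_of_le' h1
  have h2 := ppl_spec u m
  rw [hk] at h2 hK ⊢
  refine ppl_le (extend hu hq k m h2 ?_)
  exact (Nat.mul_le_mul_right _ hK).trans hm

lemma ppl_le_add {K s q m : ℕ} (hu : Peri u s q) (hm : K * (2 * s + 3 * q + 1) ≤ m + q)
    (hm0 : 1 ≤ m) (hK : ppl u (m + q) ≤ K) : ppl u m ≤ ppl u (m + q) := by
  have h1 := ppl_pos (u := u) (by omega : 0 < m + q)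
  obtain ⟨k, hk⟩ := Nat.exists_eq_add_of_le' h1
  have h2 := ppl_spec u (m + q)
  rw [hk] at h2 hK ⊢
  refine ppl_le (shrink hu k m h2 ?_)
  exact (Nat.mul_le_mul_right _ hK).trans hm

/-- a bounded prefix palindromic length is ultimately periodic -/
theorem ppl_ult {K : ℕ} (h : ∀ n, ppl u n ≤ K) : ∃ p N, 1 ≤ p ∧ 1 ≤ N ∧ Peri u N p ∧
    ∀ n, N ≤ n → ppl u (n + p) = ppl u n := by
  obtain ⟨p, N0, hp, hu⟩ := ult_of_bounded h
  obtain ⟨N, hN, hN'⟩ := ult_periodic (g := ppl u) (p := p)
    (N1 := K * (2 * N0 + 2 * p) + 1 + N0) (fun n hn => ppl_add_le hu hp (by omega) (by omega) (h n))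
  exact ⟨p, N, hp, by omega, fun i hi => hu i (by omega), hN'⟩

/-- the length of the words to be checked -/
def bound (K M P : ℕ) : ℕ := M + P + (K * (2 * M + 3 * (M * P) + 1) + M) * P

section fin
variable {f : ℕ → ℕ} {K M P : ℕ}

lemma f_add (hf : ∀ n, M ≤ n → f (n + P) = f n) (j : ℕ) : ∀ n, M ≤ n → f (n + j * P) = f n := by
  induction j with
  | zero => intro n _; rw [Nat.zero_mul, Nat.add_zero]
  | succ j ih =>
    intro n hn
    have e : n + (j + 1) * P = (n + j * P) + P := by ring
    rw [e, hf _ (by omega), ih n hn]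

lemma f_red (hP : 1 ≤ P) (hf : ∀ n, M ≤ n → f (n + P) = f n) : ∀ n, M ≤ n →
    ∃ n', M ≤ n' ∧ n' < M + P ∧ f n = f n' := by
  intro n
  induction n using Nat.strong_induction_on with
  | _ n ih =>
    intro hn
    rcases Nat.lt_or_ge n (M + P) with h | h
    · exact ⟨n, hn, h, rfl⟩
    · obtain ⟨n', h1, h2, h3⟩ := ih (n - P) (by omega) (by omega)
      refine ⟨n', h1, h2, ?_⟩
      rw [← h3, ← hf (n - P) (by omega), Nat.sub_add_cancel (by omega)]

/-- a word whose first prefix palindromic lengths agree with `f` has a period -/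
lemma find_period (hM : 1 ≤ M) (hP : 1 ≤ P) (hf : ∀ n, M ≤ n → f (n + P) = f n) {w : ℕ → α}
    (J : ℕ) (hw : ∀ n, n ≤ M + P + (J + M) * P → ppl w n = f n) :
    ∃ s q n, s < M ∧ 1 ≤ q ∧ q ≤ M * P ∧ (∃ j, q = j * P) ∧ J ≤ n ∧ M ≤ n ∧
      n + q ≤ M + P + (J + M) * P ∧ ∀ i, s ≤ i → i < n → w (i + q) = w i := by
  classical
  obtain ⟨n0, hn0, hmin⟩ := Finset.exists_min_image (Finset.Ico M (M + P)) f
    ⟨M, Finset.mem_Ico.2 ⟨le_rfl, by omega⟩⟩
  rw [Finset.mem_Ico] at hn0
  have hmin' : ∀ n, M ≤ n → f n0 ≤ f n := by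
    intro n hn
    obtain ⟨n', h1, h2, h3⟩ := f_red hP hf n hn
    rw [h3]
    exact hmin n' (Finset.mem_Ico.2 ⟨h1, h2⟩)
  have hval : ∀ j, f (n0 + j * P) = f n0 := fun j => f_add hf j n0 hn0.1
  have hlen : ∀ j, j ≤ M → n0 + (J + j) * P < M + P + (J + M) * P := by
    intro j hj
    have := Nat.mul_le_mul_right P (by omega : J + j ≤ J + M)
    omega
  -- the last palindromes
  have hlast : ∀ j : Fin (M + 1), ∃ s : Fin M, PalB w s.1 (n0 + (J + j.1) * P) ∧
      s.1 < n0 + (J + j.1) * P := by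
    intro j
    have hj := hlen j.1 (by have := j.2; omega)
    have h1 := hw _ hj.le
    rw [hval] at h1
    have h2 := ppl_pos (u := w) (by omega : 0 < n0 + (J + j.1) * P)
    obtain ⟨k, hk⟩ := Nat.exists_eq_add_of_le' h2
    have h3 := ppl_spec w (n0 + (J + j.1) * P)
    rw [hk] at h3
    obtain ⟨s, hs1, hs2, hs3⟩ := h3
    have hsM : s < M := by
      by_contra hcon
      have h4 := ppl_le hs2
      have h5 := hw s (by omega)
      have h6 := hmin' s (by omega)
      omega
    exact ⟨⟨s, hsM⟩, hs3, hs1⟩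
  choose s hs using hlast
  have key : ∃ j j' : ℕ, j < j' ∧ j' ≤ M ∧ ∃ s < M, PalB w s (n0 + (J + j) * P) ∧
      PalB w s (n0 + (J + j') * P) := by
    obtain ⟨a, b, hab, he⟩ := Fintype.exists_ne_map_eq_of_card_lt s
      (by rw [Fintype.card_fin, Fintype.card_fin]; omega)
    have hab' : a.1 ≠ b.1 := fun h => hab (Fin.ext h)
    rcases Nat.lt_or_gt_of_ne hab' with h | h
    · refine ⟨a.1, b.1, h, by have := b.2; omega, (s a).1, (s a).2, (hs a).1, ?_⟩
      rw [he]; exact (hs b).1
    · refine ⟨b.1, a.1, h, by have := a.2; omega, (s b).1, (s b).2, (hs b).1, ?_⟩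
      rw [← he]; exact (hs a).1
  obtain ⟨j, j', hjj, hj'M, s, hsM, hp1, hp2⟩ := key
  obtain ⟨d, rfl⟩ := Nat.exists_eq_add_of_le hjj.le
  have e : n0 + (J + (j + d)) * P = (n0 + (J + j) * P) + d * P := by ring
  rw [e] at hp2
  have hd : 1 ≤ d := by omega
  have hJ : J * 1 ≤ (J + j) * P := Nat.mul_le_mul (by omega) hP
  refine ⟨s, d * P, n0 + (J + j) * P, hsM, Nat.mul_pos hd hP, Nat.mul_le_mul_right _ (by omega),
    ⟨d, rfl⟩, by omega, by omega, ?_, ?_⟩
  · rw [← e]; exact (hlen _ hj'M).le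
  · intro i h1 h2
    rw [hp2 (i + d * P) (by omega) (by omega), hp1 i h1 h2]
    congr 1
    omega

/-- a finite initial segment of the right length decides -/
theorem finite_check (hM : 1 ≤ M) (hP : 1 ≤ P) (hK : ∀ n, f n ≤ K)
    (hf : ∀ n, M ≤ n → f (n + P) = f n) {w : ℕ → α}
    (hw : ∀ n, n ≤ bound K M P → ppl w n = f n) :
    ∃ s q, s < M ∧ 1 ≤ q ∧ q ≤ M * P ∧
      ∀ n, ppl (fun i => w (if i < s then i else s + (i - s) % q)) n = f n := by
  obtain ⟨s, q, n, hs, hq1, hq2, ⟨j, hj⟩, hJn, hMn, hnb, hper⟩ :=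
    find_period hM hP hf (K * (2 * M + 3 * (M * P) + 1)) hw
  refine ⟨s, q, hs, hq1, hq2, ?_⟩
  set v : ℕ → α := fun i => w (if i < s then i else s + (i - s) % q) with hv
  have hvP : Peri v s q := by
    intro i hi
    simp only [hv]
    rw [if_neg (by omega), if_neg (by omega)]
    have e : i + q - s = (i - s) + q := by omega
    rw [e, Nat.add_mod_right]
  have hvw : ∀ i, i < n + q → v i = w i := by
    intro i
    induction i using Nat.strong_induction_on with
    | _ i ih =>
      intro hi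
      rcases Nat.lt_or_ge i s with h | h
      · simp only [hv]; rw [if_pos h]
      · rcases Nat.lt_or_ge i (s + q) with h' | h'
        · simp only [hv]
          rw [if_neg (by omega), Nat.mod_eq_of_lt (by omega), Nat.add_sub_cancel' h]
        · obtain ⟨i', rfl⟩ := Nat.exists_eq_add_of_le' (by omega : q ≤ i)
          rw [hvP i' (by omega), ih i' (by omega) (by omega), hper i' (by omega) (by omega)]
  have hsmall : ∀ m, m ≤ n + q → ppl v m = f m := by
    intro m hm
    rw [← hw m (hm.trans hnb)]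
    exact ppl_congr fun a b ha hb => by rw [hvw a (by omega), hvw b (by omega)]
  intro m
  induction m using Nat.strong_induction_on with
  | _ m ih =>
    rcases Nat.lt_or_ge (n + q) m with h | h
    · obtain ⟨m', rfl⟩ := Nat.exists_eq_add_of_le' (by omega : q ≤ m)
      have h1 := ih m' (by omega)
      have h2 : f (m' + q) = f m' := by rw [hj]; exact f_add hf j m' (by omega)
      have hb : K * (2 * s + 3 * q + 1) ≤ m' := by
        refine le_trans (Nat.mul_le_mul_left _ ?_) (hJn.trans (by omega))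
        omega
      have hb' : K * (2 * s + 2 * q) ≤ K * (2 * s + 3 * q + 1) := Nat.mul_le_mul_left _ (by omega)
      have h3 := ppl_add_le hvP hq1 (hb'.trans hb) (by omega) (by rw [h1]; exact hK m')
      have h4 := ppl_le_add (K := K) (m := m') hvP (by omega) (by omega)
        (h3.trans (by rw [h1]; exact hK m'))
      rw [h2, ← h1]
      exact le_antisymm h3 h4
    · exact hsmall m h

/-- all words with prefix palindromic length `f` are periodic from a position less than `M` on,
with a period at most `M * P` -/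
theorem all_period (hM : 1 ≤ M) (hP : 1 ≤ P) (hf : ∀ n, M ≤ n → f (n + P) = f n) {w : ℕ → α}
    (hw : ∀ n, ppl w n = f n) : ∃ s q, s < M ∧ 1 ≤ q ∧ q ≤ M * P ∧ Peri w s q := by
  classical
  by_contra hcon
  have hex : ∀ a : Fin M × Fin (M * P + 1), ∃ i, 1 ≤ a.2.1 → a.1.1 ≤ i ∧
      w (i + a.2.1) ≠ w i := by
    intro a
    by_cases h : 1 ≤ a.2.1
    · have h1 : ¬ Peri w a.1.1 a.2.1 := fun h2 =>
        hcon ⟨a.1.1, a.2.1, a.1.2, h, by have := a.2.2; omega, h2⟩
      unfold Peri at h1
      push Not at h1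
      obtain ⟨i, hi1, hi2⟩ := h1
      exact ⟨i, fun _ => ⟨hi1, hi2⟩⟩
    · exact ⟨0, fun h' => absurd h' h⟩
  choose g hg using hex
  obtain ⟨B, hB⟩ := ((Finset.univ : Finset (Fin M × Fin (M * P + 1))).image g).exists_le
  obtain ⟨s, q, n, hs, hq1, hq2, _, hJn, _, _, hper⟩ :=
    find_period hM hP hf (B + 1) (w := w) (fun n _ => hw n)
  have h1 := hg (⟨s, hs⟩, ⟨q, by omega⟩) hq1
  have h2 := hB (g (⟨s, hs⟩, ⟨q, by omega⟩)) (Finset.mem_image_of_mem g (Finset.mem_univ _))
  exact h1.2 (hper _ h1.1 (by omega))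

end fin

end

end Pool.Agent.H173.PR
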