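import Mathlib

/-!
# The two-letter automaton behind the lower bound for the triple rendezvous time

States are the natural numbers below `3 * m + k`, in three blocks:
`A_i = i` for `i < m`, `B_j = m + j` for `j < 2 * m`, `Z_l = 3 * m + l` for `l < k`.
-/

set_option autoImplicit false

namespace Pool.Agent.H173.Rdv

/-- first letter: a cycle on the `A` block, a cycle on the `B` block, identity on the rest -/
def fa (m x : ℕ) : ℕ :=
  if x < m then (if x + 1 = m then 0 else x + 1)
  else if x < 3 * m then (if x + 1 = 3 * m then m else x + 1)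
  else x

/-- second letter -/
def fb (m k x : ℕ) : ℕ :=
  if x < m then
    (if x + 1 = m then 3 * m - 1 else if x + 2 = m then m else x + 1)
  else if x < 3 * m then
    (if x + 2 = 2 * m then m
     else if x + 2 = 3 * m then (if k = 0 then 2 * m - 1 else 3 * m)
     else if x + 1 = 3 * m then m - 1
     else x + 1)
  else (if x + 1 = 3 * m + k then 2 * m - 1 else x + 1)

/-- lower bound for the merging time of the pair `x < y` -/
def h (m e x y : ℕ) : ℕ :=
  if y < m then 2 * m
  else if x < m then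
    (if y < 3 * m then
      (if y = x + m then (if x + 1 = m then 2 * m else m - 1 - x)
       else if y = 2 * m + x then 2 * m - 1 - x
       else 5 * m - 1 + e - y)
     else 2 * m + 1 + e)
  else if x < 3 * m then 5 * m - 1 + e - x
  else 2 * m + 1

/-- lower bound for the merging time of a pair -/
def g (m e x y : ℕ) : ℕ := if x < y then h m e x y else h m e y x

lemma g_comm (m e x y : ℕ) : g m e x y = g m e y x := by
  unfold g
  rcases lt_trichotomy x y with hxy | hxy | hxy
  · rw [if_pos hxy, if_neg (by omega)]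
  · subst hxy; rfl
  · rw [if_neg (by omega), if_pos hxy]

lemma fa_lt {m k x : ℕ} (hm : 2 ≤ m) (hx : x < 3 * m + k) : fa m x < 3 * m + k := by
  unfold fa; split_ifs <;> omega

lemma fb_lt {m k x : ℕ} (hm : 2 ≤ m) (hx : x < 3 * m + k) : fb m k x < 3 * m + k := by
  unfold fb; split_ifs <;> omega

lemma fa_inj {m x y : ℕ} (hm : 2 ≤ m) (hxy : fa m x = fa m y) : x = y := by
  unfold fa at hxy; split_ifs at hxy <;> omega

lemma fb_eq {m k x y : ℕ} (hm : 2 ≤ m) (hx : x < 3 * m + k) (hy : y < 3 * m + k)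
    (hne : x ≠ y) (hxy : fb m k x = fb m k y) :
    (x + 2 = m ∧ y + 2 = 2 * m) ∨ (y + 2 = m ∧ x + 2 = 2 * m) := by
  unfold fb at hxy; split_ifs at hxy <;> omega

lemma fb_ne_zero {m k x : ℕ} (hm : 2 ≤ m) : fb m k x ≠ 0 := by
  unfold fb; split_ifs <;> omega

/-- the values of `h` as a disjunction of linear conditions -/
def HS (m e x y r : ℕ) : Prop :=
  (y < m ∧ r = 2 * m) ∨
  (x + 1 = m ∧ y = x + m ∧ r = 2 * m) ∨
  (x + 1 < m ∧ y = x + m ∧ r + 1 + x = m) ∨
  (x < m ∧ y = 2 * m + x ∧ r + 1 + x = 2 * m) ∨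
  (x < m ∧ m ≤ y ∧ y < 3 * m ∧ y ≠ x + m ∧ y ≠ 2 * m + x ∧ r + y + 1 = 5 * m + e) ∨
  (x < m ∧ 3 * m ≤ y ∧ r = 2 * m + 1 + e) ∨
  (m ≤ x ∧ x < 3 * m ∧ r + x + 1 = 5 * m + e) ∨
  (3 * m ≤ x ∧ r = 2 * m + 1)

lemma h_spec {m e x y : ℕ} (hm : 2 ≤ m) (hxy : x < y) : HS m e x y (h m e x y) := by
  unfold HS h; split_ifs <;> omega

lemma g_spec {m e x y : ℕ} (hm : 2 ≤ m) (hxy : x ≠ y) :
    (x < y ∧ HS m e x y (g m e x y)) ∨ (y < x ∧ HS m e y x (g m e x y)) := by
  rcases lt_or_gt_of_ne hxy with hlt | hlt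
  · left; refine ⟨hlt, ?_⟩; unfold g; rw [if_pos hlt]; exact h_spec hm hlt
  · right; refine ⟨hlt, ?_⟩; unfold g; rw [if_neg (by omega)]; exact h_spec hm hlt

/-- the values of `fb` as a disjunction -/
def BS (m k x u : ℕ) : Prop :=
  (x + 2 < m ∧ u = x + 1) ∨ (x + 2 = m ∧ u = m) ∨
  (x + 1 = m ∧ u + 1 = 3 * m) ∨
  (m ≤ x ∧ x + 2 < 3 * m ∧ x + 2 ≠ 2 * m ∧ u = x + 1) ∨
  (x + 2 = 2 * m ∧ u = m) ∨
  (x + 2 = 3 * m ∧ k = 0 ∧ u + 1 = 2 * m) ∨
  (x + 2 = 3 * m ∧ k ≠ 0 ∧ u = 3 * m) ∨
  (x + 1 = 3 * m ∧ u + 1 = m) ∨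
  (3 * m ≤ x ∧ x + 1 < 3 * m + k ∧ u = x + 1) ∨
  (3 * m ≤ x ∧ x + 1 = 3 * m + k ∧ u + 1 = 2 * m)

set_option maxHeartbeats 4000000 in
lemma fb_spec {m k x : ℕ} (hm : 2 ≤ m) (hx : x < 3 * m + k) : BS m k x (fb m k x) := by
  unfold BS fb; split_ifs <;> omega

/-- the values of `fa` as a disjunction -/
def AS (m x u : ℕ) : Prop :=
  (x + 1 < m ∧ u = x + 1) ∨ (x + 1 = m ∧ u = 0) ∨
  (m ≤ x ∧ x + 1 < 3 * m ∧ u = x + 1) ∨ (x + 1 = 3 * m ∧ u = m) ∨
  (3 * m ≤ x ∧ u = x)

lemma fa_spec {m x : ℕ} (hm : 2 ≤ m) : AS m x (fa m x) := by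
  unfold AS fa; split_ifs <;> omega

set_option maxHeartbeats 4000000 in
lemma step_a_aux {m e x y u v r s : ℕ} (hm : 2 ≤ m) (he : e ≤ 1)
    (hxy : x < y) (_huv : u ≠ v) (bx : AS m x u) (bv : AS m y v)
    (hr : HS m e x y r) (hs : (u < v ∧ HS m e u v s) ∨ (v < u ∧ HS m e v u s)) :
    r ≤ 1 + s := by
  unfold AS HS at *
  rcases bx with bx | bx | bx | bx | bx
  · omega
  · omega
  · omega
  · omega
  · omega

set_option maxHeartbeats 4000000 in
lemma step_b_aux {m k e x y u v r s : ℕ} (hm : 2 ≤ m) (he : e ≤ 1) (hk : k = 0 → e = 0)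
    (hy : y < 3 * m + k) (hxy : x < y) (bx : BS m k x u) (bv : BS m k y v)
    (hr : HS m e x y r) (hs : (u < v ∧ HS m e u v s) ∨ (v < u ∧ HS m e v u s)) :
    r ≤ 1 + s := by
  unfold BS HS at *
  rcases bx with bx | bx | bx | bx | bx | bx | bx | bx | bx | bx
  · omega
  · omega
  · omega
  · omega
  · omega
  · omega
  · omega
  · omega
  · omega
  · omega

lemma step_a {m e x y : ℕ} (hm : 2 ≤ m) (he : e ≤ 1) (hxy : x ≠ y) :
    g m e x y ≤ 1 + g m e (fa m x) (fa m y) := by
  have hne : fa m x ≠ fa m y := fun hh => hxy (fa_inj hm hh)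
  rcases g_spec (e := e) hm hxy with ⟨hlt, hr⟩ | ⟨hlt, hr⟩
  · exact step_a_aux hm he hlt hne (fa_spec hm) (fa_spec hm) hr (g_spec hm hne)
  · have := g_spec (e := e) hm hne
    exact step_a_aux hm he hlt hne.symm (fa_spec hm) (fa_spec hm) hr this.symm

lemma step_b {m k e x y : ℕ} (hm : 2 ≤ m) (he : e ≤ 1) (hk : k = 0 → e = 0)
    (hx : x < 3 * m + k) (hy : y < 3 * m + k) (hne : fb m k x ≠ fb m k y) :
    g m e x y ≤ 1 + g m e (fb m k x) (fb m k y) := by
  have hxy : x ≠ y := fun hh => hne (by rw [hh])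
  rcases g_spec (e := e) hm hxy with ⟨hlt, hr⟩ | ⟨hlt, hr⟩
  · exact step_b_aux hm he hk hy hlt (fb_spec hm hx) (fb_spec hm hy) hr (g_spec hm hne)
  · have := g_spec (e := e) hm hne
    exact step_b_aux hm he hk hx hlt (fb_spec hm hy) (fb_spec hm hx) hr this.symm

lemma g_merged {m k e x y : ℕ} (hm : 2 ≤ m) (hx : x < 3 * m + k) (hy : y < 3 * m + k)
    (hne : x ≠ y) (hxy : fb m k x = fb m k y) : g m e x y ≤ 1 := by
  have hh := fb_eq hm hx hy hne hxy
  have hs := g_spec (e := e) hm hne
  unfold HS at hs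
  omega

lemma g_top {m e q : ℕ} (hm : 2 ≤ m) (hq : q ≠ m) (hq0 : q ≠ 0) :
    4 * m + e ≤ 1 + g m e m q := by
  have hs := g_spec (e := e) hm hq.symm
  unfold HS at hs
  omega

/-- one letter: `0` acts by `fa`, `1` acts by `fb` -/
def step (m k : ℕ) (c : Fin 2) (x : ℕ) : ℕ := if c = 0 then fa m x else fb m k x

/-- the action of a word, the last letter acting first -/
def run (m k : ℕ) : List (Fin 2) → ℕ → ℕ
  | [], x => x
  | c :: w, x => step m k c (run m k w x)

lemma run_append (m k : ℕ) (u w : List (Fin 2)) (x : ℕ) :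
    run m k (u ++ w) x = run m k u (run m k w x) := by
  induction u with
  | nil => rfl
  | cons c u ih => simp [run, ih]

lemma step_lt {m k x : ℕ} (hm : 2 ≤ m) (c : Fin 2) (hx : x < 3 * m + k) :
    step m k c x < 3 * m + k := by
  unfold step; split_ifs
  · exact fa_lt hm hx
  · exact fb_lt hm hx

lemma run_lt {m k : ℕ} (hm : 2 ≤ m) (w : List (Fin 2)) {x : ℕ} (hx : x < 3 * m + k) :
    run m k w x < 3 * m + k := by
  induction w with
  | nil => exact hx
  | cons c w ih => exact step_lt hm c ih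

lemma pair_bound {m k e : ℕ} (hm : 2 ≤ m) (he : e ≤ 1) (hk : k = 0 → e = 0)
    (w : List (Fin 2)) : ∀ x y : ℕ, x < 3 * m + k → y < 3 * m + k → x ≠ y →
      run m k w x = run m k w y → g m e x y ≤ w.length := by
  induction w using List.reverseRecOn with
  | nil => intro x y _ _ hne h; exact absurd h hne
  | append_singleton w c ih =>
    intro x y hx hy hne h
    rw [run_append, run_append] at h
    change run m k w (step m k c x) = run m k w (step m k c y) at h
    rw [List.length_append, List.length_singleton]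
    by_cases hc : c = 0
    · have e1 : step m k c x = fa m x := by unfold step; rw [if_pos hc]
      have e2 : step m k c y = fa m y := by unfold step; rw [if_pos hc]
      rw [e1, e2] at h
      have := ih _ _ (fa_lt hm hx) (fa_lt hm hy) (fun hh => hne (fa_inj hm hh)) h
      have := step_a (e := e) hm he hne
      omega
    · have e1 : step m k c x = fb m k x := by unfold step; rw [if_neg hc]
      have e2 : step m k c y = fb m k y := by unfold step; rw [if_neg hc]
      rw [e1, e2] at h
      by_cases hb : fb m k x = fb m k y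
      · have := g_merged (e := e) hm hx hy hne hb
        omega
      · have := ih _ _ (fb_lt hm hx) (fb_lt hm hy) hb h
        have := step_b (e := e) hm he hk hx hy hb
        omega

lemma triple_bound {m k e : ℕ} (hm : 2 ≤ m) (he : e ≤ 1) (hk : k = 0 → e = 0)
    (w : List (Fin 2)) : ∀ x y z : ℕ, x < 3 * m + k → y < 3 * m + k → z < 3 * m + k →
      x ≠ y → x ≠ z → y ≠ z →
      run m k w x = run m k w y → run m k w x = run m k w z → 4 * m + e ≤ w.length := by
  induction w using List.reverseRecOn with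
  | nil => intro x y z _ _ _ hne _ _ h; exact absurd h hne
  | append_singleton w c ih =>
    -- two of the three states are merged by the first letter
    have main : ∀ x y z : ℕ, x < 3 * m + k → y < 3 * m + k → z < 3 * m + k →
        x ≠ y → x ≠ z → y ≠ z → fb m k x = fb m k y →
        run m k w (fb m k x) = run m k w (fb m k z) → 4 * m + e ≤ w.length + 1 := by
      intro x y z hx hy hz hxy hxz hyz hb h
      have hxm : fb m k x = m := by
        have h1 := fb_eq hm hx hy hxy hb
        have h2 := fb_spec (k := k) hm hx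
        unfold BS at h2
        omega
      have hz0 : fb m k z ≠ 0 := fb_ne_zero hm
      have hzm : fb m k z ≠ m := by
        intro hh
        have h1 := fb_eq hm hx hy hxy hb
        have h2 := fb_eq hm hx hz hxz (by rw [hxm, hh])
        omega
      rw [hxm] at h
      have h3 := pair_bound hm he hk w m (fb m k z) (by omega) (fb_lt hm hz) hzm.symm h
      have h4 := g_top (e := e) hm hzm hz0
      omega
    intro x y z hx hy hz hxy hxz hyz h h'
    rw [run_append, run_append] at h h'
    change run m k w (step m k c x) = run m k w (step m k c y) at h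
    change run m k w (step m k c x) = run m k w (step m k c z) at h'
    rw [List.length_append, List.length_singleton]
    by_cases hc : c = 0
    · have es : ∀ t, step m k c t = fa m t := by intro t; unfold step; rw [if_pos hc]
      rw [es, es] at h h'
      have := ih _ _ _ (fa_lt hm hx) (fa_lt hm hy) (fa_lt hm hz)
        (fun hh => hxy (fa_inj hm hh)) (fun hh => hxz (fa_inj hm hh))
        (fun hh => hyz (fa_inj hm hh)) h h'
      omega
    · have es : ∀ t, step m k c t = fb m k t := by intro t; unfold step; rw [if_neg hc]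
      rw [es, es] at h h'
      by_cases h1 : fb m k x = fb m k y
      · exact main x y z hx hy hz hxy hxz hyz h1 h'
      · by_cases h2 : fb m k x = fb m k z
        · exact main x z y hx hz hy hxz hxy hyz.symm h2 h
        · by_cases h3 : fb m k y = fb m k z
          · exact main y z x hy hz hx hyz hxy.symm hxz.symm h3 h.symm
          · have := ih _ _ _ (fb_lt hm hx) (fb_lt hm hy) (fb_lt hm hz) h1 h2 h3 h h'
            omega

end Pool.Agent.H173.Rdv
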