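import Pool.Agent.H173.RdvCore

/-!
# The automaton is synchronizing
-/

set_option autoImplicit false

namespace Pool.Agent.H173.Rdv

/-- `x` and `y` can be merged -/
def M (m k x y : ℕ) : Prop := ∃ w : List (Fin 2), run m k w x = run m k w y

lemma M.symm {m k x y : ℕ} (h : M m k x y) : M m k y x := by
  obtain ⟨w, hw⟩ := h; exact ⟨w, hw.symm⟩

lemma M.refl (m k x : ℕ) : M m k x x := ⟨[], rfl⟩

lemma M.of_a {m k x y : ℕ} (h : M m k (fa m x) (fa m y)) : M m k x y := by
  obtain ⟨w, hw⟩ := h
  refine ⟨w ++ [0], ?_⟩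
  rw [run_append, run_append]
  exact hw

lemma M.of_b {m k x y : ℕ} (h : M m k (fb m k x) (fb m k y)) : M m k x y := by
  obtain ⟨w, hw⟩ := h
  refine ⟨w ++ [1], ?_⟩
  rw [run_append, run_append]
  exact hw

lemma M.of_b' {m k x y u v : ℕ} (hu : fb m k x = u) (hv : fb m k y = v) (h : M m k u v) :
    M m k x y := by
  subst hu hv; exact h.of_b

lemma M.of_a' {m k x y u v : ℕ} (hu : fa m x = u) (hv : fa m y = v) (h : M m k u v) :
    M m k x y := by
  subst hu hv; exact h.of_a

lemma M.of_iter {m k x y : ℕ} (t : ℕ) (h : M m k ((fa m)^[t] x) ((fa m)^[t] y)) :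
    M m k x y := by
  induction t generalizing x y with
  | zero => exact h
  | succ t ih =>
    rw [Function.iterate_succ_apply, Function.iterate_succ_apply] at h
    exact (ih h).of_a

lemma iter_A {m i : ℕ} (hm : 2 ≤ m) (hi : i < m) (t : ℕ) : (fa m)^[t] i = (i + t) % m := by
  induction t with
  | zero => simp [Nat.mod_eq_of_lt hi]
  | succ t ih =>
    rw [Function.iterate_succ_apply', ih]
    have h1 : (i + t) % m < m := Nat.mod_lt _ (by omega)
    have h2 : (i + (t + 1)) % m = ((i + t) % m + 1) % m := by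
      rw [Nat.mod_add_mod]; rfl
    rw [h2]
    unfold fa
    rw [if_pos h1]
    generalize (i + t) % m = r at h1
    split_ifs with h3
    · rw [h3, Nat.mod_self]
    · rw [Nat.mod_eq_of_lt (by omega)]

lemma iter_B {m j : ℕ} (hm : 2 ≤ m) (hj : j < 2 * m) (t : ℕ) :
    (fa m)^[t] (m + j) = m + (j + t) % (2 * m) := by
  induction t with
  | zero => simp [Nat.mod_eq_of_lt hj]
  | succ t ih =>
    rw [Function.iterate_succ_apply', ih]
    have h1 : (j + t) % (2 * m) < 2 * m := Nat.mod_lt _ (by omega)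
    have h2 : (j + (t + 1)) % (2 * m) = ((j + t) % (2 * m) + 1) % (2 * m) := by
      rw [Nat.mod_add_mod]; rfl
    rw [h2]
    generalize (j + t) % (2 * m) = r at h1
    unfold fa
    rw [if_neg (by omega), if_pos (by omega)]
    split_ifs with h3
    · have : r + 1 = 2 * m := by omega
      rw [this, Nat.mod_self]; rfl
    · rw [Nat.mod_eq_of_lt (by omega)]; rfl

lemma iter_Z {m z : ℕ} (hz : 3 * m ≤ z) (t : ℕ) : (fa m)^[t] z = z := by
  induction t with
  | zero => rfl
  | succ t ih =>
    rw [Function.iterate_succ_apply', ih]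
    unfold fa
    rw [if_neg (by omega), if_neg (by omega)]

/-- shift inside a cycle of length `L` -/
lemma exists_shift {L i p : ℕ} (hi : i < L) (hp : p < L) :
    (i + (p + L - i)) % L = p := by
  have : i + (p + L - i) = p + L := by omega
  rw [this, Nat.add_mod_right, Nat.mod_eq_of_lt hp]

section
variable {m k : ℕ}

lemma M_AB_same (hm : 2 ≤ m) : ∀ d, d + 2 ≤ m → M m k (m - 2 - d) (m + (m - 2 - d)) := by
  intro d
  induction d with
  | zero =>
    intro _
    refine M.of_b' (u := m) (v := m) ?_ ?_ (M.refl _ _ _)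
    · unfold fb; split_ifs <;> omega
    · unfold fb; split_ifs <;> omega
  | succ d ih =>
    intro hd
    refine M.of_a' (u := m - 2 - d) (v := m + (m - 2 - d)) ?_ ?_ (ih (by omega))
    · unfold fa; split_ifs <;> omega
    · unfold fa; split_ifs <;> omega

lemma M_A0B0 (hm : 2 ≤ m) : M m k 0 m := by
  have := M_AB_same (k := k) hm (m - 2) (by omega)
  have e1 : m - 2 - (m - 2) = 0 := by omega
  rw [e1] at this
  exact this

lemma M_AB_diag (hm : 2 ≤ m) : ∀ d, d + 1 ≤ m → M m k (m - 1 - d) (2 * m + (m - 1 - d)) := by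
  intro d
  induction d with
  | zero =>
    intro _
    refine M.of_a' (u := 0) (v := m) ?_ ?_ (M_A0B0 hm)
    · unfold fa; split_ifs <;> omega
    · unfold fa; split_ifs <;> omega
  | succ d ih =>
    intro hd
    refine M.of_a' (u := m - 1 - d) (v := 2 * m + (m - 1 - d)) ?_ ?_ (ih (by omega))
    · unfold fa; split_ifs <;> omega
    · unfold fa; split_ifs <;> omega

lemma M_last (hm : 2 ≤ m) : M m k (m - 1) (2 * m - 1) := by
  have := M_AB_diag (k := k) hm (m - 1) (by omega)
  have e1 : m - 1 - (m - 1) = 0 := by omega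
  rw [e1] at this
  refine M.of_a' (u := 0) (v := 2 * m + 0) ?_ ?_ this
  · unfold fa; split_ifs <;> omega
  · unfold fa; split_ifs <;> omega

/-- rotation of pairs in the `B` block -/
lemma M_rotBB (hm : 2 ≤ m) {p d i : ℕ} (hp : p + d < 2 * m) (hi : i < 2 * m)
    (h : M m k (m + p) (m + (p + d))) : M m k (m + i) (m + (i + d) % (2 * m)) := by
  have hd : (i + d) % (2 * m) < 2 * m := Nat.mod_lt _ (by omega)
  refine M.of_iter (p + 2 * m - i) ?_
  rw [iter_B hm hi, iter_B hm hd, exists_shift hi (by omega : p < 2 * m)]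
  have : ((i + d) % (2 * m) + (p + 2 * m - i)) % (2 * m) = p + d := by
    rw [Nat.mod_add_mod]
    have : i + d + (p + 2 * m - i) = p + d + 2 * m := by omega
    rw [this, Nat.add_mod_right, Nat.mod_eq_of_lt hp]
  rw [this]
  exact h

/-- all pairs of the `B` block at distance `d` can be merged -/
def D (m k d : ℕ) : Prop := ∀ i, i + d < 2 * m → M m k (m + i) (m + (i + d))

lemma D_of (hm : 2 ≤ m) {p d : ℕ} (hp : p + d < 2 * m)
    (h : M m k (m + p) (m + (p + d))) : D m k d := by
  intro i hi
  have := M_rotBB hm hp (by omega : i < 2 * m) h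
  rwa [Nat.mod_eq_of_lt hi] at this

lemma D_compl (hm : 2 ≤ m) {d : ℕ} (hd1 : 1 ≤ d) (hd : d < 2 * m) (h : D m k d) :
    D m k (2 * m - d) := by
  have h0 := h 0 (by omega)
  have h1 := M_rotBB hm (by omega : 0 + d < 2 * m) (by omega : 2 * m - d < 2 * m) h0
  have e1 : (2 * m - d + d) % (2 * m) = 0 := by
    have : 2 * m - d + d = 2 * m := by omega
    rw [this, Nat.mod_self]
  rw [e1] at h1
  refine D_of hm (p := 0) (by omega) ?_
  have := h1.symm
  simpa using this

lemma fb_B (hm : 2 ≤ m) {j : ℕ} (hj : j + 2 < 2 * m) (hj' : j + 2 ≠ m) :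
    fb m k (m + j) = m + (j + 1) := by
  unfold fb; split_ifs <;> omega

lemma fb_Bq (hm : 2 ≤ m) : fb m k (m + (m - 2)) = m := by
  unfold fb; split_ifs <;> omega

/-- the case without extra states -/
lemma D_small_zero (hm : 2 ≤ m) : ∀ d, 1 ≤ d → d + 1 ≤ m → D m 0 d := by
  have h1 : D m 0 1 := by
    refine D_of hm (p := 2 * m - 2) (by omega) ?_
    refine M.of_b' (u := 2 * m - 1) (v := m - 1) ?_ ?_ (M_last hm).symm
    · unfold fb; split_ifs <;> omega
    · unfold fb; split_ifs <;> omega
  have h2 : ∀ d, 1 ≤ d → d + 1 ≤ m → D m 0 d → D m 0 (m - d) := by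
    intro d hd1 hd hD
    refine D_of hm (p := m + d - 2) (by omega) ?_
    refine M.of_b' (u := m + (m - 1 + d)) (v := m + (m - 1)) ?_ ?_ ?_
    · unfold fb; split_ifs <;> omega
    · unfold fb; split_ifs <;> omega
    · exact (hD (m - 1) (by omega)).symm
  have h3 : ∀ d, 1 ≤ d → d + 2 ≤ m → D m 0 d → D m 0 (m - 1 - d) := by
    intro d hd1 hd hD
    refine D_of hm (p := d - 1) (by omega) ?_
    refine M.of_b' (u := m + (0 + d)) (v := m + 0) ?_ ?_ ?_
    · unfold fb; split_ifs <;> omega
    · unfold fb; split_ifs <;> omega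
    · exact (hD 0 (by omega)).symm
  intro d hd1
  induction d, hd1 using Nat.le_induction with
  | base => intro _; exact h1
  | succ d hd1 ih =>
    intro hd
    have h4 := h3 d hd1 (by omega) (ih (by omega))
    have h5 := h2 (m - 1 - d) (by omega) (by omega) h4
    have e1 : m - (m - 1 - d) = d + 1 := by omega
    rwa [e1] at h5

/-- pairs of an extra state and a state of the `B` block -/
lemma M_ZB (hm : 2 ≤ m) : ∀ d, d < k → ∀ j, j < 2 * m → M m k (3 * m + (k - 1 - d)) (m + j) := by
  intro d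
  induction d with
  | zero =>
    intro hk j hj
    refine M.of_iter (2 * m - 1 + 2 * m - j) ?_
    rw [iter_Z (by omega), iter_B hm hj, exists_shift hj (by omega)]
    refine M.of_b' (u := 2 * m - 1) (v := m - 1) ?_ ?_ (M_last hm).symm
    · unfold fb; split_ifs <;> omega
    · unfold fb; split_ifs <;> omega
  | succ d ih =>
    intro hk j hj
    refine M.of_iter (m - 1 + 2 * m - j) ?_
    rw [iter_Z (by omega), iter_B hm hj, exists_shift hj (by omega)]
    refine M.of_b' (u := 3 * m + (k - 1 - d)) (v := m + m) ?_ ?_ (ih (by omega) m (by omega))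
    · unfold fb; split_ifs <;> omega
    · unfold fb; split_ifs <;> omega

lemma M_ZB' (hm : 2 ≤ m) {l j : ℕ} (hl : l < k) (hj : j < 2 * m) :
    M m k (3 * m + l) (m + j) := by
  have := M_ZB (k := k) hm (k - 1 - l) (by omega) j hj
  have e1 : k - 1 - (k - 1 - l) = l := by omega
  rwa [e1] at this

lemma D_small (hm : 2 ≤ m) : ∀ d, 1 ≤ d → d + 1 ≤ m → D m k d := by
  rcases Nat.eq_zero_or_pos k with hk | hk
  · subst hk; exact D_small_zero hm
  · intro d hd1 hd
    refine D_of hm (p := 2 * m - 2 - d) (by omega) ?_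
    refine M.of_b' (u := m + (2 * m - 1 - d)) (v := 3 * m + 0) ?_ ?_
      (M_ZB' hm hk (by omega)).symm
    · unfold fb; split_ifs <;> omega
    · unfold fb; split_ifs <;> omega

lemma D_m (hm : 2 ≤ m) : D m k m := by
  refine D_of hm (p := m - 2) (by omega) ?_
  rcases Nat.eq_zero_or_pos k with hk | hk
  · refine M.of_b' (u := m + 0) (v := m + (0 + (m - 1))) ?_ ?_
      (D_small (k := k) hm (m - 1) (by omega) (by omega) 0 (by omega))
    · unfold fb; split_ifs <;> omega
    · unfold fb; split_ifs <;> omega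
  · refine M.of_b' (u := m + 0) (v := 3 * m + 0) ?_ ?_ (M_ZB' hm hk (by omega)).symm
    · unfold fb; split_ifs <;> omega
    · unfold fb; split_ifs <;> omega

lemma D_all (hm : 2 ≤ m) {d : ℕ} (hd1 : 1 ≤ d) (hd : d < 2 * m) : D m k d := by
  rcases lt_trichotomy d m with h | h | h
  · exact D_small hm d hd1 (by omega)
  · subst h; exact D_m hm
  · have := D_compl hm (by omega : 1 ≤ 2 * m - d) (by omega) (D_small (k := k) hm (2 * m - d)
      (by omega) (by omega))
    have e1 : 2 * m - (2 * m - d) = d := by omega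
    rwa [e1] at this

lemma M_BB (hm : 2 ≤ m) {i j : ℕ} (hi : i < 2 * m) (hj : j < 2 * m) :
    M m k (m + i) (m + j) := by
  rcases lt_trichotomy i j with h | h | h
  · have := D_all (k := k) hm (d := j - i) (by omega) (by omega) i (by omega)
    have e1 : i + (j - i) = j := by omega
    rwa [e1] at this
  · subst h; exact M.refl _ _ _
  · have := D_all (k := k) hm (d := i - j) (by omega) (by omega) j (by omega)
    have e1 : j + (i - j) = i := by omega
    rw [e1] at this
    exact this.symm

lemma M_AB_top (hm : 2 ≤ m) {j : ℕ} (hj : j + 1 < 2 * m) : M m k (m - 2) (m + j) := by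
  have e0 : fb m k (m - 2) = m + 0 := by unfold fb; split_ifs <;> omega
  by_cases h1 : j + 2 = m
  · refine M.of_b' (u := m + 0) (v := m + 0) e0 ?_ (M.refl _ _ _)
    unfold fb; split_ifs <;> omega
  · by_cases h2 : j + 2 = 2 * m
    · rcases Nat.eq_zero_or_pos k with hk | hk
      · refine M.of_b' (u := m + 0) (v := m + (m - 1)) e0 ?_ (M_BB hm (by omega) (by omega))
        unfold fb; split_ifs <;> omega
      · refine M.of_b' (u := m + 0) (v := 3 * m + 0) e0 ?_ (M_ZB' hm hk (by omega)).symm
        unfold fb; split_ifs <;> omega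
    · refine M.of_b' (u := m + 0) (v := m + (j + 1)) e0 ?_ (M_BB hm (by omega) (by omega))
      unfold fb; split_ifs <;> omega

lemma M_AB (hm : 2 ≤ m) {i j : ℕ} (hi : i < m) (hj : j < 2 * m) : M m k i (m + j) := by
  have hl : (j + (m - 2 + m - i)) % (2 * m) < 2 * m := Nat.mod_lt _ (by omega)
  by_cases h1 : (j + (m - 2 + m - i)) % (2 * m) + 1 < 2 * m
  · refine M.of_iter (m - 2 + m - i) ?_
    rw [iter_A hm hi, iter_B hm hj, exists_shift hi (by omega : m - 2 < m)]
    exact M_AB_top hm h1
  · refine M.of_iter (m - 2 + m - i + m) ?_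
    rw [iter_A hm hi, iter_B hm hj, ← Nat.add_assoc i, Nat.add_mod_right,
      exists_shift hi (by omega : m - 2 < m)]
    have e1 : (j + (m - 2 + m - i + m)) % (2 * m) = m - 1 := by
      have h2 : (j + (m - 2 + m - i)) % (2 * m) = 2 * m - 1 := by omega
      have h3 : (j + (m - 2 + m - i + m)) % (2 * m)
          = ((j + (m - 2 + m - i)) % (2 * m) + m) % (2 * m) := by
        rw [Nat.mod_add_mod]; congr 1; omega
      rw [h3, h2]
      have h4 : 2 * m - 1 + m = m - 1 + 2 * m := by omega
      rw [h4, Nat.add_mod_right, Nat.mod_eq_of_lt (by omega)]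
    rw [e1]
    exact M_AB_top hm (by omega)

lemma M_ZA (hm : 2 ≤ m) {l i : ℕ} (hl : l < k) (hi : i < m) : M m k (3 * m + l) i := by
  refine M.of_iter (m - 2 + m - i) ?_
  rw [iter_Z (by omega), iter_A hm hi, exists_shift hi (by omega : m - 2 < m)]
  have e0 : fb m k (m - 2) = m + 0 := by unfold fb; split_ifs <;> omega
  by_cases h1 : l + 1 = k
  · refine M.of_b' (u := m + (m - 1)) (v := m + 0) ?_ e0 (M_BB hm (by omega) (by omega))
    unfold fb; split_ifs <;> omega
  · refine M.of_b' (u := 3 * m + (l + 1)) (v := m + 0) ?_ e0 (M_ZB' hm (by omega) (by omega))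
    unfold fb; split_ifs <;> omega

lemma M_AA (hm : 2 ≤ m) {i j : ℕ} (hi : i < m) (hj : j < m) : M m k i j := by
  refine M.of_iter (m - 2 + m - j) ?_
  rw [iter_A hm hi, iter_A hm hj, exists_shift hj (by omega : m - 2 < m)]
  have hlt : (i + (m - 2 + m - j)) % m < m := Nat.mod_lt _ (by omega)
  generalize (i + (m - 2 + m - j)) % m = p at hlt
  have e0 : fb m k (m - 2) = m + 0 := by unfold fb; split_ifs <;> omega
  by_cases h1 : p + 2 = m
  · have : p = m - 2 := by omega
    rw [this]; exact M.refl _ _ _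
  · by_cases h2 : p + 1 = m
    · refine M.of_b' (u := m + (2 * m - 1)) (v := m + 0) ?_ e0 (M_BB hm (by omega) (by omega))
      unfold fb; split_ifs <;> omega
    · refine M.of_b' (u := p + 1) (v := m + 0) ?_ e0 (M_AB hm (by omega) (by omega))
      unfold fb; split_ifs <;> omega

lemma M_ZZ (hm : 2 ≤ m) : ∀ d, d < k → ∀ l, l < k → M m k (3 * m + l) (3 * m + (k - 1 - d)) := by
  intro d
  induction d with
  | zero =>
    intro hk l hl
    by_cases h1 : l + 1 = k
    · have : k - 1 - 0 = l := by omega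
      rw [this]; exact M.refl _ _ _
    · refine M.of_b' (u := 3 * m + (l + 1)) (v := m + (m - 1)) ?_ ?_
        (M_ZB' hm (by omega) (by omega))
      · unfold fb; split_ifs <;> omega
      · unfold fb; split_ifs <;> omega
  | succ d ih =>
    intro hk l hl
    by_cases h1 : l + 1 = k
    · refine M.of_b' (u := m + (m - 1)) (v := 3 * m + (k - 1 - d)) ?_ ?_
        (M_ZB' hm (by omega) (by omega)).symm
      · unfold fb; split_ifs <;> omega
      · unfold fb; split_ifs <;> omega
    · refine M.of_b' (u := 3 * m + (l + 1)) (v := 3 * m + (k - 1 - d)) ?_ ?_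
        (ih (by omega) (l + 1) (by omega))
      · unfold fb; split_ifs <;> omega
      · unfold fb; split_ifs <;> omega

lemma M_all (hm : 2 ≤ m) {x y : ℕ} (hx : x < 3 * m + k) (hy : y < 3 * m + k) : M m k x y := by
  have tri : ∀ z, z < 3 * m + k → (z < m ∨ (∃ j, j < 2 * m ∧ z = m + j) ∨
      (∃ l, l < k ∧ z = 3 * m + l)) := by
    intro z hz
    by_cases h1 : z < m
    · exact Or.inl h1
    · by_cases h2 : z < 3 * m
      · exact Or.inr (Or.inl ⟨z - m, by omega, by omega⟩)
      · exact Or.inr (Or.inr ⟨z - 3 * m, by omega, by omega⟩)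
  rcases tri x hx with h1 | ⟨i, hi, rfl⟩ | ⟨l, hl, rfl⟩ <;>
  rcases tri y hy with h2 | ⟨j, hj, rfl⟩ | ⟨l', hl', rfl⟩
  · exact M_AA hm h1 h2
  · exact M_AB hm h1 hj
  · exact (M_ZA hm hl' h1).symm
  · exact (M_AB hm h2 hi).symm
  · exact M_BB hm hi hj
  · exact (M_ZB' hm hl' hi).symm
  · exact M_ZA hm hl h2
  · exact M_ZB' hm hl hj
  · have := M_ZZ (k := k) hm (k - 1 - l') (by omega) l hl
    have e1 : k - 1 - (k - 1 - l') = l' := by omega
    rwa [e1] at this

/-- the automaton has a reset word -/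
lemma exists_reset (hm : 2 ≤ m) :
    ∃ w : List (Fin 2), ∃ q, ∀ x, x < 3 * m + k → run m k w x = q := by
  have main : ∀ N, N ≤ 3 * m + k → 1 ≤ N →
      ∃ w : List (Fin 2), ∃ q, ∀ x, x < N → run m k w x = q := by
    intro N
    induction N with
    | zero => intro _ h; omega
    | succ N ih =>
      intro hN _
      rcases Nat.eq_zero_or_pos N with h0 | h0
      · subst h0
        exact ⟨[], 0, fun x hx => by simp [run]; omega⟩
      · obtain ⟨w, q, hw⟩ := ih (by omega) h0
        have hq : q < 3 * m + k := by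
          rw [← hw 0 h0]; exact run_lt hm w (by omega)
        have hN' : run m k w N < 3 * m + k := run_lt hm w (by omega)
        obtain ⟨u, hu⟩ := M_all (k := k) hm hq hN'
        refine ⟨u ++ w, run m k u q, ?_⟩
        intro x hx
        rw [run_append]
        by_cases hxN : x = N
        · rw [hxN]; exact hu.symm
        · rw [hw x (by omega)]
  exact main (3 * m + k) le_rfl (by omega)

end

end Pool.Agent.H173.Rdv
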