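import Pool.Agent.H173.TRMain

/-!
# A linear bound when all states are doubled by words of bounded total defect
-/

set_option autoImplicit false

namespace Pool.Agent.H173.TL

open Finset Pool.Agent.H173.TR

section
variable {V : Type} [Fintype V] [DecidableEq V] {Ω : Set (V → V)}

/-- the map of a word, the last letter acts first -/
def act (w : List (V → V)) : V → V := w.foldr (· ∘ ·) id

/-- the sum of the defects of the letters -/
def cost (w : List (V → V)) : ℕ := (w.map fun c => (E c).card).sum

omit [Fintype V] [DecidableEq V] in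
lemma act_nil : act ([] : List (V → V)) = id := rfl

omit [Fintype V] [DecidableEq V] in
lemma act_cons (c : V → V) (w : List (V → V)) : act (c :: w) = c ∘ act w := rfl

omit [Fintype V] [DecidableEq V] in
lemma act_append (u w : List (V → V)) : act (u ++ w) = act u ∘ act w := by
  induction u with
  | nil => rfl
  | cons c u ih => rw [List.cons_append, act_cons, ih, act_cons]; rfl

lemma cost_cons (c : V → V) (w : List (V → V)) : cost (c :: w) = (E c).card + cost w := by
  simp [cost]

lemma cost_append (u w : List (V → V)) : cost (u ++ w) = cost u + cost w := by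
  simp [cost]

omit [Fintype V] [DecidableEq V] in
lemma act_mem {w : List (V → V)} (hw : ∀ f ∈ w, f ∈ Ω) : act w ∈ W Ω w.length := by
  induction w with
  | nil => exact rfl
  | cons c w ih =>
    have h1 : c ∈ Ω := hw c List.mem_cons_self
    have h2 := letter_comp h1 (ih fun f hf => hw f (List.mem_cons_of_mem _ hf))
    exact h2

lemma E_comp_le (c f : V → V) : (E (c ∘ f)).card ≤ (E c).card + (E f).card := by
  classical
  have h : E (c ∘ f) ⊆ E c ∪ (E f).image c := by
    intro w hw
    rw [Finset.mem_union, Finset.mem_image]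
    by_cases h1 : w ∈ E c
    · exact Or.inl h1
    · right
      rw [mem_E] at h1
      push Not at h1
      obtain ⟨z, hz⟩ := h1
      refine ⟨z, ?_, hz⟩
      rw [mem_E]
      intro v hv
      exact mem_E.1 hw v (by rw [Function.comp_apply, hv, hz])
  exact (Finset.card_le_card h).trans
    ((Finset.card_union_le _ _).trans (Nat.add_le_add_left Finset.card_image_le _))

lemma E_bij {c : V → V} (hc : Function.Surjective c) : (E c).card = 0 := by
  rw [Finset.card_eq_zero]
  ext w
  simp only [mem_E, Finset.notMem_empty, iff_false]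
  push Not
  exact hc w

lemma E_act_le (w : List (V → V)) : (E (act w)).card ≤ cost w := by
  induction w with
  | nil => rw [act_nil, E_bij Function.surjective_id]; exact Nat.zero_le _
  | cons c w ih =>
    rw [act_cons, cost_cons]
    exact (E_comp_le c (act w)).trans (Nat.add_le_add_left ih _)

/-- cutting out cycles -/
lemma shorten (p : V) : ∀ (L : ℕ) (w : List (V → V)), w.length = L →
    ∃ u : List (V → V), (∀ c ∈ u, c ∈ w) ∧ u.length + 1 ≤ Fintype.card V ∧
      act u p = act w p ∧ cost u ≤ cost w := by
  intro L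
  induction L using Nat.strong_induction_on with
  | _ L ih =>
    intro w hwL
    by_cases hL : w.length + 1 ≤ Fintype.card V
    · exact ⟨w, fun c hc => hc, hL, rfl, le_rfl⟩
    · have hcard : Fintype.card V < Fintype.card (Fin (w.length + 1)) := by
        rw [Fintype.card_fin]; omega
      have key : ∃ i j : ℕ, i < j ∧ j ≤ w.length ∧ act (w.drop i) p = act (w.drop j) p := by
        obtain ⟨i, j, hij, he⟩ := Fintype.exists_ne_map_eq_of_card_lt
          (fun i : Fin (w.length + 1) => act (w.drop i) p) hcard
        have hij' : i.1 ≠ j.1 := fun h => hij (Fin.ext h)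
        rcases Nat.lt_or_gt_of_ne hij' with h | h
        · exact ⟨i, j, h, by have := j.2; omega, he⟩
        · exact ⟨j, i, h, by have := i.2; omega, he.symm⟩
      obtain ⟨i, j, hij, hj, he⟩ := key
      have hlen : (w.take i ++ w.drop j).length < L := by
        rw [List.length_append, List.length_take, List.length_drop]
        omega
      obtain ⟨u, h1, h2, h3, h4⟩ := ih _ hlen (w.take i ++ w.drop j) rfl
      refine ⟨u, ?_, h2, ?_, ?_⟩
      · intro c hc
        have := h1 c hc
        rw [List.mem_append] at this
        rcases this with h | h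
        · exact List.mem_of_mem_take h
        · exact List.mem_of_mem_drop h
      · rw [h3, act_append, Function.comp_apply, ← he, ← Function.comp_apply (f := act _),
          ← act_append, List.take_append_drop]
      · refine h4.trans ?_
        have e1 : cost w = cost (w.take j) + cost (w.drop j) := by
          rw [← cost_append, List.take_append_drop]
        have e2 : w.take i = (w.take j).take i := by
          rw [List.take_take, min_eq_left hij.le]
        have e3 : cost (w.take j) = cost ((w.take j).take i) + cost ((w.take j).drop i) := by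
          rw [← cost_append, List.take_append_drop]
        rw [cost_append, e1, e2]
        omega

omit [Fintype V] [DecidableEq V] in
/-- the letter which merges two states -/
lemma merge_letter : ∀ (w : List (V → V)) (x y : V), x ≠ y → act w x = act w y →
    ∃ u c v, w = u ++ c :: v ∧ act v x ≠ act v y ∧ c (act v x) = c (act v y) := by
  intro w
  induction w with
  | nil => intro x y hxy h; exact absurd h hxy
  | cons c w ih =>
    intro x y hxy h
    by_cases h1 : act w x = act w y
    · obtain ⟨u, c', v, h2, h3, h4⟩ := ih x y hxy h1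
      exact ⟨c :: u, c', v, by rw [h2]; rfl, h3, h4⟩
    · exact ⟨[], c, w, rfl, h1, h⟩

/-- doubling a state by a short word -/
lemma doubling {w : List (V → V)} (hw : ∀ c ∈ w, c ∈ Ω) {x y q : V} (hxy : x ≠ y)
    (hx : act w x = q) (hy : act w y = q) :
    ∃ f ∈ W Ω (Fintype.card V), (∃ x y, x ≠ y ∧ f x = q ∧ f y = q) ∧ (E f).card ≤ cost w := by
  obtain ⟨u, c, v, h1, h2, h3⟩ := merge_letter w x y hxy (by rw [hx, hy])
  have hq : act u (c (act v x)) = q := by
    rw [← hx, h1, act_append, act_cons]; rfl
  obtain ⟨u', h4, h5, h6, h7⟩ := shorten (c (act v x)) _ u rfl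
  have hmem : ∀ d ∈ u' ++ [c], d ∈ Ω := by
    intro d hd
    apply hw
    rw [h1]
    rw [List.mem_append, List.mem_singleton] at hd
    rw [List.mem_append, List.mem_cons]
    rcases hd with hd | hd
    · exact Or.inl (h4 d hd)
    · exact Or.inr (Or.inl hd)
  refine ⟨act (u' ++ [c]), ?_, ⟨act v x, act v y, h2, ?_, ?_⟩, ?_⟩
  · refine W_mono Ω ?_ (act_mem hmem)
    rw [List.length_append, List.length_singleton]; exact h5
  · rw [act_append, Function.comp_apply]
    change act u' (c (act v x)) = q
    rw [h6, hq]
  · rw [act_append, Function.comp_apply]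
    change act u' (c (act v y)) = q
    rw [← h3, h6, hq]
  · refine (E_act_le _).trans ?_
    rw [cost_append, h1, cost_append, cost_cons, cost_cons]
    have : cost ([] : List (V → V)) = 0 := rfl
    omega

end

section
variable {V : Type} [Fintype V] [DecidableEq V] {Ω : Set (V → V)}

/-- reduction to the sink component -/
lemma reduce (hV : 3 ≤ Fintype.card V) (hs : Sync Ω) : (¬ TF Ω (Fintype.card V)) ∨
    ∃ S : Finset V, 3 ≤ S.card ∧ Sync (res Ω S) ∧ (∀ N, TF Ω N → TF (res Ω S) N) ∧
      ∀ q ∈ S, ∀ p, ∃ t, ∃ f ∈ W Ω t, f p = q := by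
  classical
  have hne : Nonempty V := Fintype.card_pos_iff.1 (by omega)
  -- a minimal closed set
  let 𝒮 : Finset (Finset V) := univ.filter (fun S => S.Nonempty ∧ Closed Ω S)
  have h𝒮 : 𝒮.Nonempty := ⟨univ, by
    simp only [𝒮, Finset.mem_filter, Finset.mem_univ, true_and]
    exact ⟨Finset.univ_nonempty, fun c _ v _ => Finset.mem_univ _⟩⟩
  obtain ⟨S, hS, hmin⟩ := Finset.exists_min_image 𝒮 (fun S => S.card) h𝒮
  simp only [𝒮, Finset.mem_filter, Finset.mem_univ, true_and] at hS hmin
  obtain ⟨hSne, hScl⟩ := hS
  obtain ⟨t0, f0, hf0, hconst⟩ := hs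
  by_cases hS3 : 3 ≤ S.card
  · right
    refine ⟨S, hS3, ?_⟩
    have hcard : Fintype.card S = S.card := Fintype.card_coe S
    have hsync : Sync (res Ω S) := by
      obtain ⟨g, hg, h⟩ := res_down hScl t0 f0 hf0
      exact ⟨t0, g, hg, fun v w => Subtype.ext (by rw [h, h]; exact hconst _ _)⟩
    have hTF : ∀ N, TF Ω N → TF (res Ω S) N := by
      intro N hT g hg q
      obtain ⟨f, hf, h⟩ := res_lift N g hg
      have h1 := hT f hf q.1
      have h2 : ((fib g q).image Subtype.val) ⊆ fib f q.1 := by
        intro v hv
        rw [Finset.mem_image] at hv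
        obtain ⟨w, hw, rfl⟩ := hv
        rw [mem_fib] at hw ⊢
        rw [← h, hw]
      have h3 := Finset.card_le_card h2
      rw [Finset.card_image_of_injective _ Subtype.val_injective] at h3
      omega
    refine ⟨hsync, hTF, ?_⟩
    intro q hq p
    let S' : Finset V := univ.filter (fun v => ∃ t, ∃ f ∈ W Ω t, f (f0 p) = v)
    obtain ⟨s0, hs0⟩ := hSne
    have hp0 : f0 p ∈ S := by rw [hconst p s0]; exact hScl.word t0 f0 hf0 s0 hs0
    have h1 : S' ⊆ S := by
      intro v hv
      simp only [S', Finset.mem_filter, Finset.mem_univ, true_and] at hv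
      obtain ⟨t, f, hf, rfl⟩ := hv
      exact hScl.word t f hf _ hp0
    have h2 : S'.Nonempty ∧ Closed Ω S' := by
      refine ⟨⟨f0 p, ?_⟩, ?_⟩
      · simp only [S', Finset.mem_filter, Finset.mem_univ, true_and]
        exact ⟨0, id, rfl, rfl⟩
      · intro c hc v hv
        simp only [S', Finset.mem_filter, Finset.mem_univ, true_and] at hv ⊢
        obtain ⟨t, f, hf, rfl⟩ := hv
        exact ⟨t + 1, c ∘ f, letter_comp hc hf, rfl⟩
    have h3 : S' = S := Finset.eq_of_subset_of_card_le h1 (hmin S' h2)
    have h4 : q ∈ S' := by rw [h3]; exact hq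
    simp only [S', Finset.mem_filter, Finset.mem_univ, true_and] at h4
    obtain ⟨t, f, hf, hfq⟩ := h4
    exact ⟨t + t0, f ∘ f0, comp_mem hf hf0, hfq⟩
  · left
    have hkey : ¬ TF Ω (Fintype.card V) := by
      intro hTn
      have hmerge : ∀ (P : V → V → Prop), (∀ c ∈ Ω, ∀ v w, P v w → P (c v) (c w)) →
          ∀ t, ∀ f ∈ W Ω t, ∀ v w, P v w → P (f v) (f w) := by
        intro P hP t
        induction t with
        | zero => intro f hf v w h; have : f = id := hf; rw [this]; exact h
        | succ t ih =>
          intro f hf v w h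
          rcases hf with hf | ⟨g, hg, c, hc, rfl⟩
          · exact ih f hf v w h
          · exact ih g hg _ _ (hP c hc v w h)
      obtain ⟨q, hq⟩ := hSne
      have hnS : Fintype.card V - 1 + 1 = Fintype.card V := by omega
      by_cases h1 : S.card = 1
      · -- a sink state
        obtain ⟨q', hq'⟩ := Finset.card_eq_one.1 h1
        have hqq : q = q' := by rw [hq', Finset.mem_singleton] at hq; exact hq
        subst hqq
        have hfix : ∀ t, ∀ f ∈ W Ω t, f q = q := by
          intro t f hf
          have := hScl.word t f hf q (by rw [hq']; exact Finset.mem_singleton_self q)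
          rw [hq', Finset.mem_singleton] at this
          exact this
        have h2 : ∃ c ∈ Ω, ∃ p, p ≠ q ∧ c p = q := by
          by_contra hcon
          push Not at hcon
          obtain ⟨p, hp⟩ := Fintype.exists_ne_of_one_lt_card (by omega : 1 < Fintype.card V) q
          have h3 := hmerge (fun v w => v ≠ q ∧ w = w) (fun c hc v w h => ⟨hcon c hc v h.1, rfl⟩)
            t0 f0 hf0 p p ⟨hp, rfl⟩
          exact h3.1 (by rw [hconst p q]; exact hfix t0 f0 hf0)
        obtain ⟨c, hc, p, hp, hcp⟩ := h2
        have h3 : ∃ r, r ≠ q ∧ r ≠ p := by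
          by_contra hcon
          push Not at hcon
          have h4 : (univ : Finset V) ⊆ {q, p} := by
            intro r _
            rw [Finset.mem_insert, Finset.mem_singleton]
            by_cases hr : r = q
            · exact Or.inl hr
            · exact Or.inr (hcon r hr)
          have h5 := Finset.card_le_card h4
          have h6 : ({q, p} : Finset V).card ≤ 2 := Finset.card_le_two
          rw [Finset.card_univ] at h5
          omega
        obtain ⟨r, hr1, hr2⟩ := h3
        have h4 : q ∈ reach Ω t0 (c r) := by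
          rw [mem_reach]
          exact ⟨f0, hf0, by rw [hconst (c r) q]; exact hfix t0 f0 hf0⟩
        have h5 := reach_stable (c r) t0 h4
        rw [mem_reach] at h5
        obtain ⟨g, hg, hgq⟩ := h5
        have h6 := hTn (g ∘ c) (by have := comp_letter hg hc; rwa [hnS] at this) q
        have h7 : ({q, p, r} : Finset V) ⊆ fib (g ∘ c) q := by
          intro v hv
          simp only [Finset.mem_insert, Finset.mem_singleton] at hv
          rw [mem_fib]
          have hcq : c q = q := hfix 1 c (letter_mem hc)
          rcases hv with rfl | rfl | rfl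
          · rw [Function.comp_apply, hcq]; exact hfix _ g hg
          · rw [Function.comp_apply, hcp]; exact hfix _ g hg
          · exact hgq
        have h8 : ({q, p, r} : Finset V).card = 3 := by
          rw [Finset.card_eq_three]
          exact ⟨q, p, r, hp.symm, hr1.symm, hr2.symm, rfl⟩
        have := Finset.card_le_card h7
        omega
      · -- two states
        have hpos := Finset.card_pos.2 ⟨q, hq⟩
        obtain ⟨q1, q2, hq12, hSq⟩ := Finset.card_eq_two.1 (by omega : S.card = 2)
        have hm1 : q1 ∈ S := by rw [hSq]; simp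
        have hm2 : q2 ∈ S := by rw [hSq]; simp
        have h2 : ∃ c ∈ Ω, c q1 = c q2 := by
          by_contra hcon
          push Not at hcon
          have h3 := hmerge (fun v w => v ∈ S ∧ w ∈ S ∧ v ≠ w) (by
            rintro c hc v w ⟨hv, hw, hvw⟩
            refine ⟨hScl c hc v hv, hScl c hc w hw, ?_⟩
            rw [hSq, Finset.mem_insert, Finset.mem_singleton] at hv hw
            rcases hv with rfl | rfl <;> rcases hw with rfl | rfl
            · exact absurd rfl hvw
            · exact hcon c hc
            · exact (hcon c hc).symm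
            · exact absurd rfl hvw) t0 f0 hf0 q1 q2 ⟨hm1, hm2, hq12⟩
          exact h3.2.2 (hconst q1 q2)
        obtain ⟨c, hc, hcq⟩ := h2
        have h3 : ∃ p, p ∉ S := by
          by_contra hcon
          push Not at hcon
          have h4 : (univ : Finset V) ⊆ S := fun r _ => hcon r
          have h5 := Finset.card_le_card h4
          rw [Finset.card_univ] at h5
          omega
        obtain ⟨p, hp⟩ := h3
        have h4 : f0 q1 ∈ reach Ω t0 p := by
          rw [mem_reach]; exact ⟨f0, hf0, hconst p q1⟩
        have h5 := reach_stable p t0 h4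
        rw [mem_reach] at h5
        obtain ⟨g, hg, hgq⟩ := h5
        have hcS : ∀ v ∈ S, c v = c q1 := by
          intro v hv
          rw [hSq, Finset.mem_insert, Finset.mem_singleton] at hv
          rcases hv with rfl | rfl
          · rfl
          · exact hcq.symm
        have h6 := hTn (c ∘ g) (by have := letter_comp hc hg; rwa [hnS] at this) (c q1)
        have h7 : ({p, q1, q2} : Finset V) ⊆ fib (c ∘ g) (c q1) := by
          intro v hv
          simp only [Finset.mem_insert, Finset.mem_singleton] at hv
          rw [mem_fib]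
          rcases hv with rfl | rfl | rfl
          · exact hcS _ (by rw [hgq]; exact hScl.word t0 f0 hf0 q1 hm1)
          · exact hcS _ (hScl.word _ g hg _ hm1)
          · exact hcS _ (hScl.word _ g hg _ hm2)
        have h8 : ({p, q1, q2} : Finset V).card = 3 := by
          rw [Finset.card_eq_three]
          exact ⟨p, q1, q2, fun h => hp (by rw [h]; exact hm1), fun h => hp (by rw [h]; exact hm2),
            hq12, rfl⟩
        have := Finset.card_le_card h7
        omega
    exact hkey

/-- the linear bound -/
theorem lin_bound (hV : 3 ≤ Fintype.card V) (hs : Sync Ω) {D N : ℕ}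
    (hD : ∀ q, (∀ p, ∃ t, ∃ f ∈ W Ω t, f p = q) →
      ∃ f ∈ W Ω (Fintype.card V), (∃ x y, x ≠ y ∧ f x = q ∧ f y = q) ∧ (E f).card ≤ D)
    (hT : TF Ω N) : 2 * N ≤ 2 * Fintype.card V + Fintype.card V * D := by
  classical
  rcases Nat.lt_or_ge N (Fintype.card V) with hN | hN
  · have := Nat.zero_le (Fintype.card V * D)
    omega
  rcases reduce hV hs with h | ⟨S, hS3, hsync, hTF, hreach⟩
  · exact absurd (TF_mono hN hT) h
  have hcard : Fintype.card S = S.card := Fintype.card_coe S
  obtain ⟨t, rfl⟩ := Nat.exists_eq_add_of_le hN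
  have h1 := Rs_card_ge (by omega) hsync (hTF _ hT) t (by omega)
  have h2 : (Rs (res Ω S) t).card ≤ D * ((Rs (res Ω S) t).image Prod.fst).card := by
    refine Finset.card_le_mul_card_image _ _ ?_
    intro v _
    obtain ⟨f, hf, ⟨x, y, hxy, hx, hy⟩, hE⟩ := hD v.1 (hreach v.1 v.2)
    refine le_trans ?_ hE
    refine Finset.card_le_card_of_injOn (fun p => p.2.1) ?_ ?_
    · rintro ⟨v', w⟩ hp
      rw [Finset.mem_coe, Finset.mem_filter, mem_Rs] at hp
      obtain ⟨⟨hne, g, hg, hvw⟩, hv'⟩ := hp
      change v' = v at hv'
      subst hv'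
      obtain ⟨g', hg', hgg⟩ := res_lift t g hg
      have h3 : R Ω t v'.1 w.1 := ⟨fun h => hne (Subtype.ext h), g', hg', by
        rw [← hgg, ← hgg]; exact congrArg Subtype.val hvw⟩
      exact nbr_mem_E hT (by omega) hf hxy hx hy h3
    · rintro ⟨v', w⟩ hp ⟨v'', w'⟩ hp' h
      rw [Finset.mem_coe, Finset.mem_filter] at hp hp'
      have e1 : v' = v := hp.2
      have e2 : v'' = v := hp'.2
      have e3 : w = w' := Subtype.ext h
      rw [e1, e2, e3]
  have h3 : ((Rs (res Ω S) t).image Prod.fst).card ≤ Fintype.card V :=
    (Finset.card_le_univ _).trans (by rw [hcard]; exact Finset.card_le_univ S)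
  have h4 : D * ((Rs (res Ω S) t).image Prod.fst).card ≤ D * Fintype.card V :=
    Nat.mul_le_mul_left _ h3
  have h5 : D * Fintype.card V = Fintype.card V * D := Nat.mul_comm _ _
  omega

end

section
variable {V : Type} [Fintype V] [DecidableEq V] {Ω : Set (V → V)}

/-- states which are doubled by a word of total defect at most `d` -/
def Dbl (Ω : Set (V → V)) (d : ℕ) (v : V) : Prop :=
  ∃ w : List (V → V), (∀ c ∈ w, c ∈ Ω) ∧ cost w ≤ d ∧ ∃ x y, x ≠ y ∧ act w x = v ∧ act w y = v

/-- states which can be reached from all states -/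
def Snk (Ω : Set (V → V)) (v : V) : Prop :=
  ∀ p, ∃ w : List (V → V), (∀ c ∈ w, c ∈ Ω) ∧ act w p = v

omit [Fintype V] [DecidableEq V] in
lemma Snk.letter {v : V} (h : Snk Ω v) {c : V → V} (hc : c ∈ Ω) : Snk Ω (c v) := by
  intro p
  obtain ⟨w, h1, h2⟩ := h p
  refine ⟨c :: w, ?_, by rw [act_cons, Function.comp_apply, h2]⟩
  intro d hd
  rcases List.mem_cons.1 hd with rfl | hd
  · exact hc
  · exact h1 d hd

lemma Dbl.mono {d e : ℕ} (hde : d ≤ e) {v : V} (h : Dbl Ω d v) : Dbl Ω e v := by
  obtain ⟨w, h1, h2, h3⟩ := h
  exact ⟨w, h1, h2.trans hde, h3⟩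

lemma Dbl.letter {d δ : ℕ} {v : V} (h : Dbl Ω d v) {c : V → V} (hc : c ∈ Ω)
    (hδ : (E c).card ≤ δ) : Dbl Ω (d + δ) (c v) := by
  obtain ⟨w, h1, h2, x, y, hxy, hx, hy⟩ := h
  refine ⟨c :: w, ?_, by rw [cost_cons]; omega, x, y, hxy, by rw [act_cons, Function.comp_apply, hx],
    by rw [act_cons, Function.comp_apply, hy]⟩
  intro d hd
  rcases List.mem_cons.1 hd with rfl | hd
  · exact hc
  · exact h1 d hd

lemma Dbl.bij {d : ℕ} : ∀ (w : List (V → V)), (∀ c ∈ w, c ∈ Ω ∧ Function.Bijective c) →
    ∀ {v : V}, Dbl Ω d v → Dbl Ω d (act w v) := by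
  intro w
  induction w with
  | nil => intro _ v h; exact h
  | cons c w ih =>
    intro hw v h
    have h1 := ih (fun c hc => hw c (List.mem_cons_of_mem _ hc)) h
    have h2 := h1.letter (hw c List.mem_cons_self).1 (E_bij (hw c List.mem_cons_self).2.2).le
    exact h2

/-- few orbits and small defects -/
theorem orbits_doubling {r δ : ℕ} {κ : V → Fin r} (hV : 2 ≤ Fintype.card V)
    (hκ : ∀ p q, κ p = κ q → ∃ w : List (V → V), (∀ c ∈ w, c ∈ Ω ∧ Function.Bijective c) ∧
      act w p = q) (hδ : ∀ c ∈ Ω, (E c).card ≤ δ)
    {w0 : List (V → V)} (hw0 : ∀ c ∈ w0, c ∈ Ω) (hconst : ∀ v w, act w0 v = act w0 w)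
    {q : V} (hq : Snk Ω q) : Dbl Ω (r * δ) q := by
  classical
  -- a doubled state in the sink component
  have hp0 : ∃ p0, Snk Ω p0 ∧ Dbl Ω (1 * δ) p0 := by
    obtain ⟨y, hy⟩ := Fintype.exists_ne_of_one_lt_card (by omega : 1 < Fintype.card V) q
    obtain ⟨u, c, v, h1, h2, h3⟩ := merge_letter w0 q y hy.symm (hconst q y)
    have hv : ∀ v : List (V → V), (∀ c ∈ v, c ∈ Ω) → Snk Ω (act v q) := by
      intro v
      induction v with
      | nil => intro _; exact hq
      | cons c v ih =>
        intro hv
        exact (ih fun c hc => hv c (List.mem_cons_of_mem _ hc)).letter (hv c List.mem_cons_self)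
    have hc : c ∈ Ω := hw0 c (by rw [h1]; simp)
    have h4 := hv v (fun d hd => hw0 d (by rw [h1]; simp [hd]))
    refine ⟨c (act v q), h4.letter hc, [c], ?_, ?_, act v q, act v y, h2, rfl, h3.symm⟩
    · intro d hd
      rw [List.mem_singleton] at hd
      rw [hd]; exact hc
    · rw [cost_cons, one_mul]; exact hδ c hc
  obtain ⟨p0, hp0s, hp0d⟩ := hp0
  let A : ℕ → Finset V := fun j => univ.filter (fun v => Snk Ω v ∧ Dbl Ω (j * δ) v)
  have hA : ∀ j v, v ∈ A j ↔ Snk Ω v ∧ Dbl Ω (j * δ) v := by
    intro j v
    simp only [A, Finset.mem_filter, Finset.mem_univ, true_and]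
  have claim : ∀ j, (∀ v, Snk Ω v → Dbl Ω ((j + 1) * δ) v) ∨ j + 1 ≤ ((A (j + 1)).image κ).card := by
    intro j
    induction j with
    | zero =>
      right
      exact Finset.card_pos.2 ⟨κ p0, Finset.mem_image_of_mem _ ((hA _ _).2 ⟨hp0s, hp0d⟩)⟩
    | succ j ih =>
      have hle : (j + 1) * δ ≤ (j + 1 + 1) * δ := Nat.mul_le_mul_right _ (by omega)
      rcases ih with h | h
      · exact Or.inl fun v hv => (h v hv).mono hle
      · by_cases hall : ∀ v, Snk Ω v → Dbl Ω ((j + 1) * δ) v
        · exact Or.inl fun v hv => (hall v hv).mono hle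
        right
        push Not at hall
        obtain ⟨v1, hv1, hv1'⟩ := hall
        have hex : ∃ v ∈ A (j + 1), ∃ c ∈ Ω, c v ∉ A (j + 1) := by
          by_contra hcon
          push Not at hcon
          obtain ⟨w, hw, hwp⟩ := hv1 p0
          have hind : ∀ w : List (V → V), (∀ c ∈ w, c ∈ Ω) → act w p0 ∈ A (j + 1) := by
            intro w
            induction w with
            | nil =>
              intro _
              exact (hA _ _).2 ⟨hp0s, hp0d.mono (Nat.mul_le_mul_right _ (by omega))⟩
            | cons c w ihw =>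
              intro hw
              exact hcon _ (ihw fun c hc => hw c (List.mem_cons_of_mem _ hc)) c
                (hw c List.mem_cons_self)
          have h1 := hind w hw
          rw [hwp, hA] at h1
          exact hv1' h1.2
        obtain ⟨v, hv, c, hc, hcv⟩ := hex
        have hv' := (hA _ _).1 hv
        have hcv2 : c v ∈ A (j + 1 + 1) := by
          rw [hA]
          refine ⟨hv'.1.letter hc, ?_⟩
          have h1 := hv'.2.letter hc (hδ c hc)
          have e : (j + 1 + 1) * δ = (j + 1) * δ + δ := by ring
          rw [e]; exact h1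
        have hnew : κ (c v) ∉ (A (j + 1)).image κ := by
          intro hcon
          rw [Finset.mem_image] at hcon
          obtain ⟨u, hu, huc⟩ := hcon
          obtain ⟨w, hw, hwu⟩ := hκ u (c v) huc
          have h1 := Dbl.bij w hw ((hA _ _).1 hu).2
          rw [hwu] at h1
          exact hcv ((hA _ _).2 ⟨hv'.1.letter hc, h1⟩)
        have hsub : insert (κ (c v)) ((A (j + 1)).image κ) ⊆ (A (j + 1 + 1)).image κ := by
          intro z hz
          rw [Finset.mem_insert] at hz
          rcases hz with rfl | hz
          · exact Finset.mem_image_of_mem _ hcv2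
          · refine Finset.image_subset_image ?_ hz
            intro u hu
            rw [hA] at hu ⊢
            exact ⟨hu.1, hu.2.mono hle⟩
        have h1 := Finset.card_le_card hsub
        rw [Finset.card_insert_of_notMem hnew] at h1
        omega
  have hr : 1 ≤ r := by
    have := (κ q).2
    omega
  obtain ⟨s, rfl⟩ := Nat.exists_eq_add_of_le' hr
  rcases claim s with h | h
  · exact h q hq
  · have h1 : (A (s + 1)).image κ = univ := by
      rw [← Finset.card_eq_iff_eq_univ, Fintype.card_fin]
      refine le_antisymm ?_ h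
      refine (Finset.card_le_univ _).trans ?_
      rw [Fintype.card_fin]
    have h2 : κ q ∈ (A (s + 1)).image κ := by rw [h1]; exact Finset.mem_univ _
    rw [Finset.mem_image] at h2
    obtain ⟨u, hu, huq⟩ := h2
    obtain ⟨w, hw, hwu⟩ := hκ u q huq
    have h3 := Dbl.bij w hw ((hA _ _).1 hu).2
    rw [hwu] at h3
    exact h3

/-- the linear bound, in terms of words -/
theorem dbl_bound (hV : 3 ≤ Fintype.card V) (hs : Sync Ω) {D N : ℕ}
    (hD : ∀ q, Snk Ω q → Dbl Ω D q) (hT : TF Ω N) :
    2 * N ≤ 2 * Fintype.card V + Fintype.card V * D := by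
  refine lin_bound hV hs (fun q hq => ?_) hT
  have h1 : Snk Ω q := by
    intro p
    obtain ⟨t, f, hf, hfq⟩ := hq p
    have hex : ∀ t, ∀ f ∈ W Ω t, ∃ w : List (V → V), (∀ c ∈ w, c ∈ Ω) ∧ act w = f := by
      intro t
      induction t with
      | zero => intro f hf; exact ⟨[], by simp, (show f = id from hf).symm⟩
      | succ t ih =>
        intro f hf
        rcases hf with hf | ⟨g, hg, c, hc, rfl⟩
        · exact ih f hf
        · obtain ⟨w, h1, h3⟩ := ih g hg
          refine ⟨w ++ [c], ?_, by rw [act_append, h3]; rfl⟩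
          intro f hf
          rw [List.mem_append, List.mem_singleton] at hf
          rcases hf with hf | rfl
          · exact h1 f hf
          · exact hc
    obtain ⟨w, hw, rfl⟩ := hex t f hf
    exact ⟨w, hw, hfq⟩
  obtain ⟨w, hw, hcost, x, y, hxy, hx, hy⟩ := hD q h1
  obtain ⟨f, hf, h2, h3⟩ := doubling hw hxy hx hy
  exact ⟨f, hf, h2, h3.trans hcost⟩

end

end Pool.Agent.H173.TL
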