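import Mathlib

/-!
# The arithmetic of a shrinking lattice polygon
-/

set_option autoImplicit false

namespace Pool.Agent.H173.TP

open Finset

/-- the support function of a shrinking polygon in the directions `(b, 1)` -/
structure Poly (n t0 : ℕ) where
  w : ℕ → ℕ → ℤ
  h : ℕ → ℕ → ℤ
  anti : ∀ b t : ℕ, t0 ≤ t → w b (t + 1) ≤ w b t
  nonneg : ∀ b t : ℕ, t0 ≤ t → 0 ≤ w b t
  conv1 : ∀ b t : ℕ, t0 ≤ t → h b t ≤ w (b + 1) t - w b t
  conv2 : ∀ b t : ℕ, t0 ≤ t → w (b + 1) t - w b t ≤ h (b + 1) t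
  u0 : ∀ b t : ℕ, t0 ≤ t → w b t ≤ b * h b t
  u1 : ∀ b t : ℕ, t0 ≤ t → (b : ℤ) * h b t - w b t ≤ n
  wle : ∀ b t : ℕ, t0 ≤ t → w b t ≤ b * n
  step : ∀ b t : ℕ, t0 ≤ t → w b (t + 1) = w b t → 0 < w b t → h b t + 1 ≤ h b (t + 1)

variable {n t0 : ℕ} (P : Poly n t0)

lemma anti_le (b t s : ℕ) (ht : t0 ≤ t) : P.w b (t + s) ≤ P.w b t := by
  induction s with
  | zero => exact le_rfl
  | succ s ih => exact (P.anti b (t + s) (by omega)).trans ih

lemma pos_up {B b t : ℕ} (ht : t0 ≤ t) (hB : B ≤ b) (hw : 0 < P.w B t) : 0 < P.w b t := by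
  induction b, hB using Nat.le_induction with
  | base => exact hw
  | succ b _ ih =>
    have h1 := P.u0 b t ht
    have h2 : 0 < P.h b t := by
      by_contra hcon
      push Not at hcon
      have : (b : ℤ) * P.h b t ≤ 0 := mul_nonpos_of_nonneg_of_nonpos (Int.natCast_nonneg _) hcon
      linarith
    have h3 := P.conv1 b t ht
    linarith

lemma h_grow {b t : ℕ} (ht : t0 ≤ t) (s : ℕ) (heq : P.w b (t + s) = P.w b t)
    (hpos : 0 < P.w b t) : P.h b t + s ≤ P.h b (t + s) := by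
  induction s with
  | zero => simp
  | succ s ih =>
    have h1 := P.anti b (t + s) (by omega)
    have h2 := anti_le P b t s ht
    have h3 : P.w b (t + s) = P.w b t := by
      have : t + (s + 1) = t + s + 1 := rfl
      rw [this] at heq
      linarith
    have h4 := ih h3
    have h5 := P.step b (t + s) (by omega) (by
      have : t + (s + 1) = t + s + 1 := rfl
      rw [this] at heq
      linarith) (by linarith)
    have : t + (s + 1) = t + s + 1 := rfl
    rw [this]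
    push_cast
    linarith

/-- the second difference -/
def dd (t b : ℕ) : ℤ := P.w (b + 1) t - 2 * P.w b t + P.w (b - 1) t

lemma dd_nonneg {t b : ℕ} (ht : t0 ≤ t) (hb : 1 ≤ b) : 0 ≤ dd P t b := by
  obtain ⟨a, rfl⟩ := Nat.exists_eq_add_of_le' hb
  unfold dd
  have h1 := P.conv1 (a + 1) t ht
  have h2 := P.conv2 a t ht
  simp only [Nat.add_sub_cancel]
  linarith

lemma dd_ge {t b s : ℕ} (ht : t0 ≤ t) (hb : 1 ≤ b) (h1 : P.w b (t + s) = P.w b t)
    (h2 : P.w (b + 1) (t + s) = P.w (b + 1) t) (hpos : 0 < P.w b t) : (s : ℤ) ≤ dd P t b := by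
  obtain ⟨a, rfl⟩ := Nat.exists_eq_add_of_le' hb
  unfold dd
  have h3 := h_grow P ht s h1 hpos
  have h4 := P.conv1 (a + 1) (t + s) (by omega)
  have h5 := P.conv2 a t ht
  simp only [Nat.add_sub_cancel]
  linarith

lemma dd_sum (t a c : ℕ) :
    ∑ b ∈ Finset.Ioc a (a + c), (b : ℤ) * dd P t b
      = ((a + c : ℕ) : ℤ) * P.w (a + c + 1) t - ((a + c : ℕ) + 1) * P.w (a + c) t
        - (a * P.w (a + 1) t - (a + 1) * P.w a t) := by
  induction c with
  | zero => simp
  | succ c ih =>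
    have e : Finset.Ioc a (a + (c + 1)) = insert (a + c + 1) (Finset.Ioc a (a + c)) := by
      ext x; simp only [Finset.mem_Ioc, Finset.mem_insert]; omega
    rw [e, Finset.sum_insert (by simp), ih]
    unfold dd
    have e1 : a + (c + 1) = a + c + 1 := rfl
    rw [e1, Nat.add_sub_cancel]
    push_cast
    ring

lemma dd_sum_le {t : ℕ} (ht : t0 ≤ t) (a c : ℕ) :
    ∑ b ∈ Finset.Ioc a (a + c), (b : ℤ) * dd P t b ≤ n := by
  rw [dd_sum P t a c]
  have h1 := P.conv2 (a + c) t ht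
  have h2 := P.u1 (a + c + 1) t ht
  have h3 := P.conv1 a t ht
  have h4 := P.u0 a t ht
  have h5 : ((a + c : ℕ) + 1 : ℤ) * (P.w (a + c + 1) t - P.w (a + c) t) ≤
      ((a + c : ℕ) + 1) * P.h (a + c + 1) t :=
    mul_le_mul_of_nonneg_left h1 (by positivity)
  have h6 : (a : ℤ) * P.h a t ≤ a * (P.w (a + 1) t - P.w a t) :=
    mul_le_mul_of_nonneg_left h3 (Int.natCast_nonneg _)
  push_cast at h2 h5 ⊢
  nlinarith

/-- the potential -/
def S (B t : ℕ) : ℤ := ∑ b ∈ Finset.Ioc B (2 * B + 1), P.w b t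

lemma window {B t τ : ℕ} (ht : t0 ≤ t) (hτ : 1 ≤ τ) (hB : 1 ≤ B)
    (hBn : 2 * n ≤ (B + 1) * B * τ) (hpos : 0 < P.w (B + 1) (t + τ)) :
    (B : ℤ) ≤ 4 * (S P B t - S P B (t + τ)) := by
  classical
  -- positivity at time `t`
  have hpos' : ∀ b, B + 1 ≤ b → 0 < P.w b t := fun b hb =>
    pos_up P ht hb (lt_of_lt_of_le hpos (anti_le P _ _ _ ht))
  let A := (Finset.Ioc B (2 * B)).filter
    (fun b => P.w b (t + τ) = P.w b t ∧ P.w (b + 1) (t + τ) = P.w (b + 1) t)
  -- `A` is small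
  have hA1 : (A.card : ℤ) * ((B + 1) * τ) ≤ n := by
    have h1 : ∑ b ∈ A, (((B : ℤ) + 1) * τ) ≤ ∑ b ∈ A, (b : ℤ) * dd P t b := by
      refine Finset.sum_le_sum fun b hb => ?_
      simp only [A, Finset.mem_filter, Finset.mem_Ioc] at hb
      obtain ⟨⟨hb1, hb2⟩, hb3, hb4⟩ := hb
      have h2 := dd_ge P ht (by omega : 1 ≤ b) hb3 hb4 (hpos' b (by omega))
      have h3 : ((B : ℤ) + 1) ≤ b := by exact_mod_cast hb1
      exact mul_le_mul h3 h2 (Int.natCast_nonneg _) (Int.natCast_nonneg _)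
    have h2 : ∑ b ∈ A, (b : ℤ) * dd P t b ≤ ∑ b ∈ Finset.Ioc B (2 * B), (b : ℤ) * dd P t b := by
      refine Finset.sum_le_sum_of_subset_of_nonneg (Finset.filter_subset _ _) fun b hb _ => ?_
      rw [Finset.mem_Ioc] at hb
      exact mul_nonneg (Int.natCast_nonneg _) (dd_nonneg P ht (by omega))
    have h3 := dd_sum_le P ht B B
    rw [← two_mul] at h3
    rw [Finset.sum_const, nsmul_eq_mul] at h1
    linarith
  have hA2 : 2 * (A.card : ℤ) ≤ B := by
    have h1 : (2 * n : ℤ) ≤ (B + 1) * B * τ := by exact_mod_cast hBn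
    have h2 : (0 : ℤ) < (B + 1) * τ := by
      have : (1 : ℤ) ≤ τ := by exact_mod_cast hτ
      positivity
    by_contra hcon
    push Not at hcon
    have h3 : ((B : ℤ) + 1) * ((B + 1) * τ) ≤ 2 * (A.card : ℤ) * ((B + 1) * τ) :=
      mul_le_mul_of_nonneg_right (by omega) h2.le
    nlinarith
  -- the decreases
  have hdec : ∀ b, 0 ≤ P.w b t - P.w b (t + τ) := fun b => by
    have := anti_le P b t τ ht; linarith
  have h1 : ((Finset.Ioc B (2 * B)).card : ℤ) - A.card ≤
      ∑ b ∈ Finset.Ioc B (2 * B), ((P.w b t - P.w b (t + τ))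
        + (P.w (b + 1) t - P.w (b + 1) (t + τ))) := by
    have h2 : ∀ b ∈ Finset.Ioc B (2 * B), (1 : ℤ) - (if b ∈ A then 1 else 0) ≤
        (P.w b t - P.w b (t + τ)) + (P.w (b + 1) t - P.w (b + 1) (t + τ)) := by
      intro b hb
      have h3 := hdec b
      have h4 := hdec (b + 1)
      split_ifs with h
      · linarith
      · have h5 : ¬ (P.w b (t + τ) = P.w b t ∧ P.w (b + 1) (t + τ) = P.w (b + 1) t) := by
          intro h6
          exact h (Finset.mem_filter.2 ⟨hb, h6⟩)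
        by_contra hcon
        push Not at hcon
        exact h5 ⟨by omega, by omega⟩
    have h3 := Finset.sum_le_sum h2
    rw [Finset.sum_sub_distrib, Finset.sum_const, nsmul_eq_mul, mul_one, Finset.sum_ite_mem,
      Finset.sum_const, nsmul_eq_mul, mul_one] at h3
    have h4 : Finset.Ioc B (2 * B) ∩ A = A :=
      Finset.inter_eq_right.2 (Finset.filter_subset _ _)
    rw [h4] at h3
    exact h3
  have hc : ((Finset.Ioc B (2 * B)).card : ℤ) = B := by
    rw [Nat.card_Ioc]; omega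
  rw [hc, Finset.sum_add_distrib] at h1
  have h2 : ∑ b ∈ Finset.Ioc B (2 * B), (P.w b t - P.w b (t + τ)) ≤ S P B t - S P B (t + τ) := by
    unfold S
    rw [← Finset.sum_sub_distrib]
    exact Finset.sum_le_sum_of_subset_of_nonneg
      (fun x hx => by rw [Finset.mem_Ioc] at hx ⊢; omega) fun b _ _ => hdec b
  have h3 : ∑ b ∈ Finset.Ioc B (2 * B), (P.w (b + 1) t - P.w (b + 1) (t + τ))
      ≤ S P B t - S P B (t + τ) := by
    unfold S
    rw [← Finset.sum_sub_distrib]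
    have e : ∑ b ∈ Finset.Ioc B (2 * B), (P.w (b + 1) t - P.w (b + 1) (t + τ))
        = ∑ b ∈ (Finset.Ioc B (2 * B)).image (· + 1), (P.w b t - P.w b (t + τ)) := by
      rw [Finset.sum_image]
      intro a _ b _ hab
      exact Nat.succ_injective hab
    rw [e]
    refine Finset.sum_le_sum_of_subset_of_nonneg (fun x hx => ?_) fun b _ _ => hdec b
    rw [Finset.mem_image] at hx
    obtain ⟨y, hy, rfl⟩ := hx
    rw [Finset.mem_Ioc] at hy ⊢
    omega
  linarith

lemma iterate {B τ : ℕ} (hτ : 1 ≤ τ) (hB : 1 ≤ B) (hBn : 2 * n ≤ (B + 1) * B * τ) :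
    ∀ m : ℕ, 0 < P.w (B + 1) (t0 + m * τ) →
      (m : ℤ) * B ≤ 4 * (S P B t0 - S P B (t0 + m * τ)) := by
  intro m
  induction m with
  | zero => intro _; simp
  | succ m ih =>
    intro h
    have e : t0 + (m + 1) * τ = t0 + m * τ + τ := by ring
    rw [e] at h ⊢
    have h1 := ih (lt_of_lt_of_le h (anti_le P _ _ _ (by omega)))
    have h2 := window P (by omega : t0 ≤ t0 + m * τ) hτ hB hBn h
    push_cast
    linarith

lemma S_nonneg {B t : ℕ} (ht : t0 ≤ t) : 0 ≤ S P B t :=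
  Finset.sum_nonneg fun b _ => P.nonneg b t ht

lemma sum_Ioc_id (B : ℕ) : ∀ c : ℕ, 2 * ∑ b ∈ Finset.Ioc B (B + c), (b : ℤ)
    = c * (2 * B + c + 1) := by
  intro c
  induction c with
  | zero => simp
  | succ c ih =>
    have e : Finset.Ioc B (B + (c + 1)) = insert (B + c + 1) (Finset.Ioc B (B + c)) := by
      ext x; simp only [Finset.mem_Ioc, Finset.mem_insert]; omega
    rw [e, Finset.sum_insert (by simp), mul_add, ih]
    push_cast
    ring

lemma S_le {B t : ℕ} (ht : t0 ≤ t) : 2 * S P B t ≤ (B + 1) * (3 * B + 2) * n := by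
  have h1 : S P B t ≤ ∑ b ∈ Finset.Ioc B (2 * B + 1), (b : ℤ) * n :=
    Finset.sum_le_sum fun b _ => P.wle b t ht
  rw [← Finset.sum_mul] at h1
  have h2 := sum_Ioc_id B (B + 1)
  have e : B + (B + 1) = 2 * B + 1 := by ring
  rw [e] at h2
  have h3 : 2 * ((∑ b ∈ Finset.Ioc B (2 * B + 1), (b : ℤ)) * n)
      = (B + 1) * (3 * B + 2) * n := by
    rw [← mul_assoc, h2]; push_cast; ring
  linarith

/-- the polygon disappears in direction `B + 1` -/
theorem vanish {B : ℕ} (hB : 1 ≤ B) (hn : 1 ≤ n) (hBn : n ≤ B * B + 2 * B) :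
    P.w (B + 1) (t0 + 3 * ((6 * B + 14) * n)) = 0 := by
  by_contra hne
  have hpos : 0 < P.w (B + 1) (t0 + 3 * ((6 * B + 14) * n)) :=
    lt_of_le_of_ne (P.nonneg _ _ (by omega)) (Ne.symm hne)
  have e : t0 + 3 * ((6 * B + 14) * n) = t0 + ((6 * B + 14) * n) * 3 := by ring
  rw [e] at hpos
  have h1 := iterate P (τ := 3) (by norm_num) hB (by nlinarith) _ hpos
  have h2 := S_nonneg P (B := B) (by omega : t0 ≤ t0 + ((6 * B + 14) * n) * 3)
  have h3 := S_le P (B := B) (le_refl t0)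
  have hB' : (1 : ℤ) ≤ B := by exact_mod_cast hB
  have hn' : (1 : ℤ) ≤ n := by exact_mod_cast hn
  push_cast at h1
  have h4 : ((6 * (B : ℤ) + 14) * n) * B ≤ 2 * ((B + 1) * (3 * B + 2) * n) := by linarith
  have h5 : (4 * (B : ℤ) - 4) * n ≤ 0 := by nlinarith
  -- equality only for B = 1; strictness from the w
  have h6 : (B : ℤ) = 1 := by nlinarith
  have h7 : B = 1 := by exact_mod_cast h6
  subst h7
  push_cast at h1 h3
  -- S at the end is positive
  have h8 : 0 < S P 1 (t0 + ((6 * 1 + 14) * n) * 3) := by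
    unfold S
    refine Finset.sum_pos' (fun b _ => P.nonneg b _ (by omega)) ⟨2, by simp, hpos⟩
  push_cast at h8
  nlinarith

end Pool.Agent.H173.TP
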