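import Pool.Agent.H173.TRMain
import Pool.Agent.H173.TPArith

/-!
# The deficiency of the merge graph when the bijective letters act transitively
-/

set_option autoImplicit false

namespace Pool.Agent.H173.TP

open Finset Pool.Agent.H173.TR

section
variable {V : Type} [Fintype V] [DecidableEq V] {Ω : Set (V → V)}

/-- the bijective letters -/
def Pm (Ω : Set (V → V)) : Set (V → V) := {c | c ∈ Ω ∧ Function.Bijective c}

omit [Fintype V] [DecidableEq V] in
lemma W_Pm_sub : ∀ t, W (Pm Ω) t ⊆ W Ω t := by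
  intro t
  induction t with
  | zero => exact le_rfl
  | succ t ih =>
    rintro f (hf | ⟨g, hg, c, hc, rfl⟩)
    · exact W_succ Ω t (ih hf)
    · exact comp_letter (ih hg) hc.1

omit [Fintype V] [DecidableEq V] in
lemma W_Pm_bij : ∀ t, ∀ f ∈ W (Pm Ω) t, Function.Bijective f := by
  intro t
  induction t with
  | zero => intro f hf; have : f = id := hf; rw [this]; exact Function.bijective_id
  | succ t ih =>
    rintro f (hf | ⟨g, hg, c, hc, rfl⟩)
    · exact ih f hf
    · exact (ih g hg).comp hc.2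

/-- the deficiency -/
noncomputable def df (Ω : Set (V → V)) (t : ℕ) (S : Finset V) : ℤ :=
  (S.card : ℤ) - (Nb (R Ω t) S).card

omit [DecidableEq V] in
lemma df_anti (t : ℕ) (S : Finset V) : df Ω (t + 1) S ≤ df Ω t S := by
  have h : Nb (R Ω t) S ⊆ Nb (R Ω (t + 1)) S := by
    intro w hw
    rw [mem_Nb] at hw ⊢
    obtain ⟨v, hv, h⟩ := hw
    exact ⟨v, hv, R_mono (Nat.le_succ t) h⟩
  have := Finset.card_le_card h
  unfold df
  omega

lemma df_image {c : V → V} (hc : c ∈ Pm Ω) (t : ℕ) (S : Finset V) :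
    df Ω (t + 1) S ≤ df Ω t (S.image c) := by
  have h : Nb (R Ω t) (S.image c) ⊆ (Nb (R Ω (t + 1)) S).image c := by
    intro w hw
    rw [mem_Nb] at hw
    obtain ⟨v, hv, hne, f, hf, hvw⟩ := hw
    rw [Finset.mem_image] at hv
    obtain ⟨v', hv', rfl⟩ := hv
    obtain ⟨w', rfl⟩ := hc.2.2 w
    refine Finset.mem_image.2 ⟨w', mem_Nb.2 ⟨v', hv', ?_, f ∘ c, comp_letter hf hc.1, hvw⟩, rfl⟩
    intro h; exact hne (by rw [h])
  have h1 := Finset.card_le_card h
  rw [Finset.card_image_of_injective _ hc.2.1] at h1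
  unfold df
  rw [Finset.card_image_of_injective _ hc.2.1]
  omega

lemma df_super (t : ℕ) (S T : Finset V) :
    df Ω t S + df Ω t T ≤ df Ω t (S ∪ T) + df Ω t (S ∩ T) := by
  have h1 : Nb (R Ω t) (S ∪ T) ⊆ Nb (R Ω t) S ∪ Nb (R Ω t) T := by
    intro w hw
    rw [mem_Nb] at hw
    obtain ⟨v, hv, h⟩ := hw
    rw [Finset.mem_union] at hv ⊢
    rcases hv with hv | hv
    · exact Or.inl (mem_Nb.2 ⟨v, hv, h⟩)
    · exact Or.inr (mem_Nb.2 ⟨v, hv, h⟩)
  have h2 : Nb (R Ω t) (S ∩ T) ⊆ Nb (R Ω t) S ∩ Nb (R Ω t) T := by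
    intro w hw
    rw [mem_Nb] at hw
    obtain ⟨v, hv, h⟩ := hw
    rw [Finset.mem_inter] at hv ⊢
    exact ⟨mem_Nb.2 ⟨v, hv.1, h⟩, mem_Nb.2 ⟨v, hv.2, h⟩⟩
  have h3 := Finset.card_le_card h1
  have h4 := Finset.card_le_card h2
  have h5 := Finset.card_union_add_card_inter S T
  have h6 := Finset.card_union_add_card_inter (Nb (R Ω t) S) (Nb (R Ω t) T)
  unfold df
  omega

/-- the weighted functional -/
noncomputable def val (Ω : Set (V → V)) (b t : ℕ) (S : Finset V) : ℤ :=
  b * df Ω t S + S.card - Fintype.card V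

lemma val_super (b t : ℕ) (S T : Finset V) :
    val Ω b t S + val Ω b t T ≤ val Ω b t (S ∪ T) + val Ω b t (S ∩ T) := by
  have h1 := df_super (Ω := Ω) t S T
  have h2 := Finset.card_union_add_card_inter S T
  have h3 : (b : ℤ) * (df Ω t S + df Ω t T) ≤ b * (df Ω t (S ∪ T) + df Ω t (S ∩ T)) :=
    mul_le_mul_of_nonneg_left h1 (Int.natCast_nonneg _)
  unfold val
  have h4 : ((S ∪ T).card : ℤ) + (S ∩ T).card = S.card + T.card := by exact_mod_cast h2
  linarith

lemma exists_I (Ω : Set (V → V)) (b t : ℕ) : ∃ I : Finset V, (∀ S, val Ω b t S ≤ val Ω b t I) ∧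
    ∀ S, val Ω b t S = val Ω b t I → S ⊆ I := by
  classical
  obtain ⟨I, _, hI⟩ := Finset.exists_max_image (univ : Finset (Finset V))
    (fun S => ((Fintype.card V : ℤ) + 1) * val Ω b t S + S.card) ⟨∅, Finset.mem_univ _⟩
  have hmax : ∀ S, val Ω b t S ≤ val Ω b t I := by
    intro S
    by_contra hcon
    push Not at hcon
    have h1 := hI S (Finset.mem_univ _)
    have h2 : (I.card : ℤ) ≤ Fintype.card V := by exact_mod_cast Finset.card_le_univ I
    have h3 : (0 : ℤ) ≤ S.card := Int.natCast_nonneg _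
    have h4 : ((Fintype.card V : ℤ) + 1) * (val Ω b t I + 1)
        ≤ ((Fintype.card V : ℤ) + 1) * val Ω b t S :=
      mul_le_mul_of_nonneg_left hcon (by positivity)
    linarith
  refine ⟨I, hmax, fun S hS => ?_⟩
  have h1 := val_super (Ω := Ω) b t S I
  have h2 := hmax (S ∩ I)
  have h3 := hmax (S ∪ I)
  have h4 : val Ω b t (S ∪ I) = val Ω b t I := by linarith
  have h5 := hI (S ∪ I) (Finset.mem_univ _)
  rw [h4] at h5
  have h6 : (S ∪ I).card ≤ I.card := by
    have : ((S ∪ I).card : ℤ) ≤ I.card := by linarith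
    exact_mod_cast this
  have h7 : I = S ∪ I := Finset.eq_of_subset_of_card_le Finset.subset_union_right h6
  rw [h7]; exact Finset.subset_union_left

/-- the largest maximizer -/
noncomputable def I (Ω : Set (V → V)) (b t : ℕ) : Finset V := (exists_I Ω b t).choose

lemma I_max (b t : ℕ) (S : Finset V) : val Ω b t S ≤ val Ω b t (I Ω b t) :=
  (exists_I Ω b t).choose_spec.1 S

lemma I_sub (b t : ℕ) {S : Finset V} (h : val Ω b t S = val Ω b t (I Ω b t)) :
    S ⊆ I Ω b t := (exists_I Ω b t).choose_spec.2 S h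

omit [DecidableEq V] in
lemma df_univ {t : ℕ} (h : ∀ v, ∃ w, R Ω t v w) : df Ω t univ = 0 := by
  have : Nb (R Ω t) univ = univ := by
    ext w
    simp only [Finset.mem_univ, iff_true]
    obtain ⟨v, hv⟩ := h w
    exact mem_Nb.2 ⟨v, Finset.mem_univ _, R_symm hv⟩
  unfold df
  rw [this]; ring

lemma val_univ {b t : ℕ} (h : ∀ v, ∃ w, R Ω t v w) : val Ω b t univ = 0 := by
  unfold val
  rw [df_univ h, Finset.card_univ]; ring

omit [DecidableEq V] in
lemma df_le (t : ℕ) (S : Finset V) : df Ω t S ≤ S.card := by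
  unfold df
  have : (0 : ℤ) ≤ (Nb (R Ω t) S).card := Int.natCast_nonneg _
  linarith

/-- the key step -/
lemma key_step (htr : SC (Pm Ω)) {b t : ℕ} (hcov : ∀ v, ∃ w, R Ω t v w)
    (heq : val Ω b (t + 1) (I Ω b (t + 1)) = val Ω b t (I Ω b t))
    (hpos : 0 < val Ω b t (I Ω b t)) :
    (I Ω b (t + 1)).card < (I Ω b t).card := by
  classical
  set J := I Ω b (t + 1) with hJ
  have hb : ∀ S, val Ω b (t + 1) S ≤ val Ω b t S := by
    intro S
    unfold val
    have := mul_le_mul_of_nonneg_left (df_anti (Ω := Ω) t S) (Int.natCast_nonneg b)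
    linarith
  have h1 : J ⊆ I Ω b t := by
    apply I_sub
    have h2 := hb J
    have h3 := I_max (Ω := Ω) b t J
    linarith
  have h2 : ∀ c ∈ Pm Ω, J.image c ⊆ I Ω b t := by
    intro c hc
    apply I_sub
    have h3 := I_max (Ω := Ω) b t (J.image c)
    have h4 : val Ω b (t + 1) J ≤ val Ω b t (J.image c) := by
      unfold val
      rw [Finset.card_image_of_injective _ hc.2.1]
      have := mul_le_mul_of_nonneg_left (df_image hc t J) (Int.natCast_nonneg b)
      linarith
    linarith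
  by_contra hcon
  push Not at hcon
  have h3 : J = I Ω b t := Finset.eq_of_subset_of_card_le h1 hcon
  rw [← h3] at h2
  -- `J` is invariant
  have h4 : ∀ s, ∀ f ∈ W (Pm Ω) s, ∀ v ∈ J, f v ∈ J := by
    intro s
    induction s with
    | zero => intro f hf v hv; have : f = id := hf; rw [this]; exact hv
    | succ s ih =>
      rintro f (hf | ⟨g, hg, c, hc, rfl⟩) v hv
      · exact ih f hf v hv
      · exact ih g hg _ (h2 c hc (Finset.mem_image_of_mem c hv))
  rcases J.eq_empty_or_nonempty with he | ⟨v, hv⟩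
  · rw [← h3, he] at hpos
    unfold val at hpos
    have h5 := df_le (Ω := Ω) t ∅
    rw [Finset.card_empty] at h5 hpos
    have h6 : (b : ℤ) * df Ω t ∅ ≤ 0 :=
      mul_nonpos_of_nonneg_of_nonpos (Int.natCast_nonneg _) (by simpa using h5)
    have h7 : (0 : ℤ) ≤ Fintype.card V := Int.natCast_nonneg _
    push_cast at hpos
    linarith
  · have h5 : J = univ := by
      ext q
      simp only [Finset.mem_univ, iff_true]
      obtain ⟨s, f, hf, hfq⟩ := htr v q
      rw [← hfq]; exact h4 s f hf v hv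
    rw [← h3, h5, val_univ hcov] at hpos
    exact lt_irrefl _ hpos

/-- the polygon of the merge graphs -/
noncomputable def poly (htr : SC (Pm Ω)) {t0 : ℕ}
    (hcov : ∀ t, t0 ≤ t → ∀ v, ∃ w, R Ω t v w) : Poly (Fintype.card V) t0 where
  w b t := val Ω b t (I Ω b t)
  h b t := df Ω t (I Ω b t)
  anti b t _ := by
    have h1 := I_max (Ω := Ω) b t (I Ω b (t + 1))
    refine le_trans ?_ h1
    unfold val
    have := mul_le_mul_of_nonneg_left (df_anti (Ω := Ω) t (I Ω b (t + 1))) (Int.natCast_nonneg b)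
    linarith
  nonneg b t ht := by
    have := I_max (Ω := Ω) b t univ
    rw [val_univ (hcov t ht)] at this
    exact this
  conv1 b t _ := by
    have h1 := I_max (Ω := Ω) (b + 1) t (I Ω b t)
    have h2 : val Ω (b + 1) t (I Ω b t) = val Ω b t (I Ω b t) + df Ω t (I Ω b t) := by
      unfold val; push_cast; ring
    linarith
  conv2 b t _ := by
    have h1 := I_max (Ω := Ω) b t (I Ω (b + 1) t)
    have h2 : val Ω (b + 1) t (I Ω (b + 1) t)
        = val Ω b t (I Ω (b + 1) t) + df Ω t (I Ω (b + 1) t) := by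
      unfold val; push_cast; ring
    linarith
  u0 b t _ := by
    have h1 : ((I Ω b t).card : ℤ) ≤ Fintype.card V := by exact_mod_cast Finset.card_le_univ _
    unfold val
    linarith
  u1 b t _ := by
    have h1 : (0 : ℤ) ≤ (I Ω b t).card := Int.natCast_nonneg _
    unfold val
    linarith
  wle b t _ := by
    have h1 : ((I Ω b t).card : ℤ) ≤ Fintype.card V := by exact_mod_cast Finset.card_le_univ _
    have h2 := df_le (Ω := Ω) t (I Ω b t)
    have h3 : (b : ℤ) * df Ω t (I Ω b t) ≤ b * Fintype.card V :=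
      mul_le_mul_of_nonneg_left (h2.trans h1) (Int.natCast_nonneg _)
    unfold val
    linarith
  step b t ht heq hpos := by
    have h1 := key_step htr (hcov t ht) heq hpos
    unfold val at heq
    have h2 : ((I Ω b (t + 1)).card : ℤ) < (I Ω b t).card := by exact_mod_cast h1
    have h3 : 0 < (b : ℤ) * (df Ω (t + 1) (I Ω b (t + 1)) - df Ω t (I Ω b t)) := by
      linarith
    by_contra hcon
    have h4 : df Ω (t + 1) (I Ω b (t + 1)) - df Ω t (I Ω b t) ≤ 0 := by omega
    have := mul_nonpos_of_nonneg_of_nonpos (Int.natCast_nonneg b) h4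
    linarith

end

end Pool.Agent.H173.TP
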