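import Pool.Agent.H173.TPGroup

/-!
# The bound for automata with a transitive group of permutations
-/

set_option autoImplicit false

namespace Pool.Agent.H173.TP

open Finset Pool.Agent.H173.TR

section
variable {V : Type} [Fintype V] [DecidableEq V] {Ω : Set (V → V)}

omit [Fintype V] [DecidableEq V] in
lemma exists_merging_letter {x0 y0 : V} (hxy0 : x0 ≠ y0) (hs : Sync Ω) :
    ∃ c ∈ Ω, ∃ x y, x ≠ y ∧ c x = c y := by
  by_contra hcon
  push Not at hcon
  have h2 : ∀ t, ∀ f ∈ W Ω t, ∀ x y, x ≠ y → f x ≠ f y := by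
    intro t
    induction t with
    | zero => intro f hf x y hxy; have : f = id := hf; rw [this]; exact hxy
    | succ t ih =>
      intro f hf x y hxy
      rcases hf with hf | ⟨g, hg, c, hc, rfl⟩
      · exact ih f hf x y hxy
      · exact ih g hg _ _ (hcon c hc x y hxy)
  obtain ⟨t, f, hf, hconst⟩ := hs
  exact h2 t f hf _ _ hxy0 (hconst _ _)

lemma cover (hV : 2 ≤ Fintype.card V) (hs : Sync Ω) (htr : SC (Pm Ω)) :
    ∀ t, Fintype.card V ≤ t → ∀ v, ∃ w, R Ω t v w := by
  intro t ht v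
  obtain ⟨x0, y0, hxy0⟩ := Fintype.exists_pair_of_one_lt_card (by omega : 1 < Fintype.card V)
  obtain ⟨c, hc, x, y, hxy, hcxy⟩ := exists_merging_letter hxy0 hs
  obtain ⟨s, f, hf, hfx⟩ := htr v x
  have h1 := reach_stable (Ω := Pm Ω) v s (mem_reach.2 ⟨f, hf, hfx⟩)
  rw [mem_reach] at h1
  obtain ⟨g, hg, hgx⟩ := h1
  obtain ⟨w, hw⟩ := (W_Pm_bij _ g hg).2 y
  refine ⟨w, ?_, c ∘ g, ?_, ?_⟩
  · rintro rfl; exact hxy (by rw [← hgx, ← hw])
  · have := letter_comp hc (W_Pm_sub _ hg)
    rw [Nat.sub_add_cancel (by omega)] at this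
    exact W_mono Ω ht this
  · simp [hgx, hw, hcxy]

/-- the optimum comes from a set of maximal deficiency -/
lemma exists_opt' {t : ℕ} (hT : TF Ω t) : ∃ (o : Opt Ω t) (S : Finset V),
    S.card = (Nb (R Ω t) S).card + o.d := by
  classical
  obtain ⟨d, S, L, m, hS, hL, hm, hinj⟩ := exists_deficiency (R Ω t)
  refine ⟨⟨d, L, m, hL, hm, hinj, ?_⟩, S, hS⟩
  let x : V → ℝ := fun v => ((if v ∈ S then 1 else 0) + (if v ∈ Nb (R Ω t) S then 0 else 1)) / 2
  have hx1 : ∀ v, x v ≤ 1 := by
    intro v; simp only [x]; split_ifs <;> norm_num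
  have hx0 : ∀ v, 0 ≤ x v := by
    intro v; simp only [x]; split_ifs <;> norm_num
  have hx2 : ∀ v w, R Ω t v w → x v + x w ≤ 1 := by
    intro v w hvw
    have h1 : v ∈ S → w ∈ Nb (R Ω t) S := fun h => mem_Nb.2 ⟨v, h, hvw⟩
    have h2 : w ∈ S → v ∈ Nb (R Ω t) S := fun h => mem_Nb.2 ⟨w, h, R_symm hvw⟩
    simp only [x]
    split_ifs with a b c e <;> first | (exfalso; tauto) | norm_num
  refine ⟨x, ⟨hx0, fun f hf q => ?_⟩, ?_⟩
  · have hc := hT f hf q
    rcases Nat.lt_or_ge 1 (fib f q).card with h | h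
    · obtain ⟨v, w, hne, hvw⟩ := Finset.card_eq_two.1 (by omega : (fib f q).card = 2)
      rw [hvw, Finset.sum_pair hne]
      apply hx2
      refine ⟨hne, f, hf, ?_⟩
      have e1 : v ∈ fib f q := by rw [hvw]; simp
      have e2 : w ∈ fib f q := by rw [hvw]; simp
      rw [mem_fib.1 e1, mem_fib.1 e2]
    · rcases Nat.lt_or_ge 0 (fib f q).card with h' | h'
      · obtain ⟨v, hv⟩ := Finset.card_eq_one.1 (by omega : (fib f q).card = 1)
        rw [hv, Finset.sum_singleton]; exact hx1 v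
      · rw [Finset.card_eq_zero.1 (by omega : (fib f q).card = 0)]; simp
  · have e1 : ∑ v : V, (if v ∈ S then (1 : ℝ) else 0) = S.card := by
      rw [Finset.sum_ite_mem, Finset.univ_inter, Finset.sum_const, nsmul_eq_mul, mul_one]
    have e2 : ∑ v : V, (if v ∈ Nb (R Ω t) S then (0 : ℝ) else 1)
        = Fintype.card V - (Nb (R Ω t) S).card := by
      have : ∀ v : V, (if v ∈ Nb (R Ω t) S then (0 : ℝ) else 1)
          = 1 - (if v ∈ Nb (R Ω t) S then (1 : ℝ) else 0) := by
        intro v; split_ifs <;> norm_num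
      rw [Finset.sum_congr rfl fun v _ => this v, Finset.sum_sub_distrib, Finset.sum_ite_mem,
        Finset.univ_inter, Finset.sum_const, Finset.sum_const, nsmul_eq_mul, nsmul_eq_mul,
        mul_one, mul_one, Finset.card_univ]
    have e3 : tot x = (∑ v : V, (if v ∈ S then (1 : ℝ) else 0)
        + ∑ v : V, (if v ∈ Nb (R Ω t) S then (0 : ℝ) else 1)) / 2 := by
      unfold tot
      rw [← Finset.sum_add_distrib, Finset.sum_div]
    rw [e3, e1, e2, hS]
    push_cast
    ring

/-- the bound for automata whose bijective letters act transitively -/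
theorem perm_bound (hV : 3 ≤ Fintype.card V) (hs : Sync Ω) (htr : SC (Pm Ω)) :
    ¬ TF Ω ((19 * Nat.sqrt (Fintype.card V) + 44) * Fintype.card V) := by
  intro hT
  set n := Fintype.card V with hn
  set B := Nat.sqrt n with hB
  have hB1 : 1 ≤ B := by rw [hB, Nat.le_sqrt]; omega
  have hB2 : B * B ≤ n := Nat.sqrt_le n
  have hB3 : n < (B + 1) * (B + 1) := Nat.lt_succ_sqrt n
  have hB4 : n ≤ B * B + 2 * B := by
    have e : (B + 1) * (B + 1) = B * B + 2 * B + 1 := by ring
    omega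
  have hcov := cover (Ω := Ω) (by omega) hs htr
  rw [← hn] at hcov
  set P := poly htr hcov with hP
  have h1 : P.w (B + 1) (n + 3 * ((6 * B + 14) * n)) = 0 :=
    vanish P hB1 (by omega) (by rw [← hn]; exact hB4)
  set t1 := n + 3 * ((6 * B + 14) * n) with ht1
  have hle : t1 ≤ (19 * B + 44) * n := by
    have : (19 * B + 44) * n = t1 + (B + 1) * n := by rw [ht1]; ring
    omega
  obtain ⟨s, hsN⟩ := Nat.exists_eq_add_of_le hle
  have hs1 : s = (B + 1) * n := by
    have : (19 * B + 44) * n = t1 + (B + 1) * n := by rw [ht1]; ring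
    omega
  obtain ⟨o, S, hS⟩ := exists_opt' (TF_mono hle hT)
  -- the deficiency is small
  have hd : o.d ≤ B := by
    have h2 := I_max (Ω := Ω) (B + 1) t1 S
    have h3 : val Ω (B + 1) t1 (I Ω (B + 1) t1) = 0 := h1
    rw [h3] at h2
    unfold val df at h2
    have h4 : (S.card : ℤ) = (Nb (R Ω t1) S).card + o.d := by exact_mod_cast hS
    have h5 : (0 : ℤ) ≤ S.card := Int.natCast_nonneg _
    have h6 : ((B + 1 : ℕ) : ℤ) * o.d ≤ n := by
      have h7 : ((S.card : ℤ) - (Nb (R Ω t1) S).card) = o.d := by linarith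
      rw [h7] at h2
      rw [hn]
      linarith
    by_contra hcon
    push Not at hcon
    have h7 : (B + 1) * (B + 1) ≤ (B + 1) * o.d := Nat.mul_le_mul_left _ hcon
    have h8 : (B + 1) * o.d ≤ n := by exact_mod_cast h6
    omega
  -- the last part
  rw [hsN] at hT
  obtain ⟨o'⟩ := exists_opt hT
  have h2 := pot_iter hV hs hT o s le_rfl o'
  have h3 := one_le_finrank_B (by omega) o'
  have h4 := finrank_B_le (by omega) o
  have h5 : s + 1 ≤ ∑ δ ∈ Finset.range (o.d + 1), (1 + (n - δ) / 2) := by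
    rw [Finset.sum_range_succ]
    unfold pot at h2
    rw [← hn] at h2 h4
    omega
  have h6 : ∑ δ ∈ Finset.range (o.d + 1), (1 + (n - δ) / 2) ≤ (o.d + 1) * n := by
    have := Finset.sum_le_card_nsmul (Finset.range (o.d + 1)) (fun δ => 1 + (n - δ) / 2) n
      (fun δ _ => by omega)
    rw [Finset.card_range, smul_eq_mul] at this
    exact this
  have h7 : (o.d + 1) * n ≤ (B + 1) * n := Nat.mul_le_mul_right _ (by omega)
  omega

end

end Pool.Agent.H173.TP
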