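import Pool.Agent.H173.TQOrbit

/-!
# The bound in terms of the number of orbits of the bijective letters
-/

set_option autoImplicit false

namespace Pool.Agent.H173.TQ

open Finset Pool.Agent.H173.TR Pool.Agent.H173.TP

section
variable {V : Type} [Fintype V] [DecidableEq V] {Ω : Set (V → V)} {r : ℕ}

/-- the deficiency of any set is at most the optimum -/
lemma df_le_d {t : ℕ} (o : Opt Ω t) (S : Finset V) : df Ω t S ≤ o.d := by
  have h1 : (S ∩ o.L).image o.m ⊆ Nb (R Ω t) S := by
    intro w hw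
    rw [Finset.mem_image] at hw
    obtain ⟨v, hv, rfl⟩ := hw
    rw [Finset.mem_inter] at hv
    exact mem_Nb.2 ⟨v, hv.1, o.hm v hv.2⟩
  have h2 : ((S ∩ o.L).image o.m).card = (S ∩ o.L).card :=
    Finset.card_image_of_injOn fun a ha b hb hab =>
      o.hinj (Finset.mem_of_mem_inter_right ha) (Finset.mem_of_mem_inter_right hb) hab
  have h3 := Finset.card_le_card h1
  have h4 := Finset.card_inter_add_card_sdiff S o.L
  have h5 : (S \ o.L).card ≤ (univ \ o.L).card :=
    Finset.card_le_card (Finset.sdiff_subset_sdiff (Finset.subset_univ _) le_rfl)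
  have h6 := Finset.card_sdiff_add_card_eq_card (Finset.subset_univ o.L)
  rw [Finset.card_univ] at h6
  have h7 := o.hL
  unfold df
  omega

/-- on a phase in which `Ms` does not change a triple is merged -/
theorem phase (hV : 3 ≤ Fintype.card V) (hs : Sync Ω) {κ : V → Fin r} (hκ : Orb Ω κ) {t1 : ℕ}
    (hM : Ms Ω κ t1 =
      Ms Ω κ (t1 + ((19 * Nat.sqrt (Fintype.card V) + 44) * Fintype.card V - 1)))
    (hT : TF Ω (t1 + ((19 * Nat.sqrt (Fintype.card V) + 44) * Fintype.card V - 1))) : False := by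
  set n := Fintype.card V with hn
  set B := Nat.sqrt n with hB
  set t2 := t1 + ((19 * B + 44) * n - 1) with ht2
  have hB1 : 1 ≤ B := by rw [hB, Nat.le_sqrt]; omega
  have hB2 : B * B ≤ n := Nat.sqrt_le n
  have hB3 : n < (B + 1) * (B + 1) := Nat.lt_succ_sqrt n
  have hB4 : n ≤ B * B + 2 * B := by
    have e : (B + 1) * (B + 1) = B * B + 2 * B + 1 := by ring
    omega
  set t' := t1 + (n - 1) + 3 * ((6 * B + 14) * n) with ht'
  have e1 : (19 * B + 44) * n = n + 3 * ((6 * B + 14) * n) + (B + 1) * n := by ring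
  have hs1 : t2 = t' + (B + 1) * n := by omega
  obtain ⟨b, hb, h1⟩ := vanish (poly hκ hM) hB1 (by omega) hB4 (by
    have : t' ≤ t2 := by omega
    exact this)
  have h1' : val Ω b t' (I Ω b t') = val Ω b (t1 + (n - 1)) (XI Ω b (t1 + (n - 1))) := h1
  set X1 := XI Ω b (t1 + (n - 1)) with hX1
  have hX1i : Inv Ω X1 := XI_inv b _
  obtain ⟨o, S, hS⟩ := exists_opt' (TF_mono (by omega : t' ≤ t2) hT)
  rw [hs1] at hT
  obtain ⟨o', S', hS'⟩ := exists_opt' hT
  have hN := static hκ hM hX1i (by omega : t1 + (n - 1) ≤ t1 + (n - 1)) (by omega)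
  have hN1 := static hκ hM hX1i (t := t') (by omega) (by omega)
  have hN2 := static hκ hM hX1i (t := t' + (B + 1) * n) (by omega) (by omega)
  -- the deficiency of `X1`
  set k1 : ℤ := (X1.card : ℤ) - (Nb (R Ω (t1 + (n - 1))) X1).card with hk1
  -- the deficiency at time `t'` is at most `k1 + B`
  have hd : (o.d : ℤ) ≤ k1 + B := by
    have h2 := I_max (Ω := Ω) b t' S
    rw [h1'] at h2
    unfold TP.val df at h2
    rw [← hk1] at h2
    have h4 : (S.card : ℤ) = (Nb (R Ω t') S).card + o.d := by exact_mod_cast hS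
    have h5 : (0 : ℤ) ≤ S.card := Int.natCast_nonneg _
    have h6 : (X1.card : ℤ) ≤ n := by exact_mod_cast Finset.card_le_univ X1
    have h7 : ((S.card : ℤ) - (Nb (R Ω t') S).card) = o.d := by linarith
    rw [h7] at h2
    by_contra hcon
    push Not at hcon
    have h8 : (b : ℤ) * (o.d - k1) ≤ n := by rw [hn]; rw [hn] at h6; linarith
    have h9 : ((B : ℤ) + 1) * (B + 1) ≤ b * (o.d - k1) :=
      mul_le_mul (by exact_mod_cast hb) (by linarith) (by positivity) (Int.natCast_nonneg _)
    have h10 : (n : ℤ) < (B + 1) * (B + 1) := by exact_mod_cast hB3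
    linarith
  -- the deficiency at the end is at least `k1`
  have hd' : k1 ≤ (o'.d : ℤ) := by
    have h2 := df_le_d o' X1
    unfold df at h2
    rw [hN2] at h2
    exact h2
  -- the last part
  have h2 := pot_iter hV hs hT o ((B + 1) * n) le_rfl o'
  have h3 := one_le_finrank_B (by omega) o'
  have h4 := finrank_B_le (by omega) o
  have h5 : ∀ c : ℕ, ∑ δ ∈ Finset.range (o'.d + c), (1 + (n - δ) / 2)
      ≤ ∑ δ ∈ Finset.range o'.d, (1 + (n - δ) / 2) + c * n := by
    intro c
    induction c with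
    | zero => simp
    | succ c ih =>
      have e : o'.d + (c + 1) = o'.d + c + 1 := rfl
      rw [e, Finset.sum_range_succ]
      have : (c + 1) * n = c * n + n := by ring
      omega
  have h6 : o.d ≤ o'.d + B := by
    have : (o.d : ℤ) ≤ o'.d + B := by linarith
    exact_mod_cast this
  have h7 : ∑ δ ∈ Finset.range o.d, (1 + (n - δ) / 2)
      ≤ ∑ δ ∈ Finset.range (o'.d + B), (1 + (n - δ) / 2) :=
    Finset.sum_le_sum_of_subset (Finset.range_mono h6)
  have h8 := h5 B
  have h9 : (B + 1) * n = B * n + n := by ring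
  unfold pot at h2
  rw [← hn] at h2 h4
  omega

/-- the bound in terms of the number `r` of orbits of the bijective letters -/
theorem orbit_bound (hV : 3 ≤ Fintype.card V) (hs : Sync Ω) {κ : V → Fin r} (hκ : Orb Ω κ) :
    ¬ TF Ω ((r + 1).choose 2 * ((19 * Nat.sqrt (Fintype.card V) + 44) * Fintype.card V)) := by
  classical
  intro hT
  set n := Fintype.card V with hn
  set L := (19 * Nat.sqrt n + 44) * n with hL
  set K := (r + 1).choose 2 with hK
  have hne : Nonempty V := Fintype.card_pos_iff.1 (by omega)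
  obtain ⟨v0⟩ := hne
  have hr : 1 ≤ r := by
    have := (κ v0).2
    omega
  have hK1 : 1 ≤ K := by
    rw [hK]
    exact Nat.choose_pos (by omega)
  have hL1 : 1 ≤ L := by
    rw [hL]
    exact Nat.mul_pos (by omega) (by omega)
  -- at time one there is a merged pair
  have h1 : 1 ≤ (Ms Ω κ 1).card := by
    obtain ⟨x0, y0, hxy0⟩ := Fintype.exists_pair_of_one_lt_card (by omega : 1 < Fintype.card V)
    obtain ⟨c, hc, x, y, hxy, hcxy⟩ := exists_merging_letter hxy0 hs
    refine Finset.card_pos.2 ⟨s(κ x, κ y), mem_Ms.2 ⟨x, y, ⟨hxy, c, letter_mem hc, hcxy⟩, rfl⟩⟩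
  have h2 : ∀ k, k ≤ K → k + 1 ≤ (Ms Ω κ (1 + k * (L - 1))).card := by
    intro k
    induction k with
    | zero => intro _; simpa using h1
    | succ k ih =>
      intro hk
      have h3 := ih (by omega)
      have e : 1 + (k + 1) * (L - 1) = 1 + k * (L - 1) + (L - 1) := by ring
      have h4 : Ms Ω κ (1 + k * (L - 1)) ⊆ Ms Ω κ (1 + (k + 1) * (L - 1)) :=
        Ms_mono (by rw [e]; omega)
      have h5 : Ms Ω κ (1 + k * (L - 1)) ≠ Ms Ω κ (1 + (k + 1) * (L - 1)) := by
        intro heq
        rw [e] at heq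
        refine phase hV hs hκ heq (TF_mono ?_ hT)
        have h6 : (k + 1) * (L - 1) ≤ K * (L - 1) := Nat.mul_le_mul_right _ hk
        have h7 : K * (L - 1) + K = K * L := by
          obtain ⟨L', hL'⟩ := Nat.exists_eq_add_of_le' hL1
          rw [hL']
          simp only [Nat.add_sub_cancel]
          ring
        rw [← hL, ← e]
        omega
      have h6 := Finset.card_lt_card (lt_of_le_of_ne h4 h5)
      omega
  have h3 := h2 K le_rfl
  have h4 : (Ms Ω κ (1 + K * (L - 1))).card ≤ Fintype.card (Sym2 (Fin r)) :=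
    Finset.card_le_univ _
  rw [Sym2.card, Fintype.card_fin, ← hK] at h4
  omega

end

end Pool.Agent.H173.TQ
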