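import Pool.Agent.H173.TPMain
import Pool.Agent.H173.TQArith

/-!
# Orbits of the group of permutations
-/

set_option autoImplicit false

namespace Pool.Agent.H173.TQ

open Finset Pool.Agent.H173.TR Pool.Agent.H173.TP

section
variable {V : Type} [Fintype V] [DecidableEq V] {Ω : Set (V → V)} {r : ℕ}

/-- `κ` is a colouring whose classes are the orbits of the bijective letters -/
def Orb (Ω : Set (V → V)) (κ : V → Fin r) : Prop :=
  ∀ p q, κ p = κ q ↔ ∃ t, ∃ f ∈ W (Pm Ω) t, f p = q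

/-- sets invariant under the bijective letters -/
def Inv (Ω : Set (V → V)) (X : Finset V) : Prop := ∀ c ∈ Pm Ω, ∀ v ∈ X, c v ∈ X

omit [Fintype V] [DecidableEq V] in
lemma Inv.word {X : Finset V} (hX : Inv Ω X) : ∀ s, ∀ f ∈ W (Pm Ω) s, ∀ v ∈ X, f v ∈ X := by
  intro s
  induction s with
  | zero => intro f hf v hv; have : f = id := hf; rw [this]; exact hv
  | succ s ih =>
    rintro f (hf | ⟨g, hg, c, hc, rfl⟩) v hv
    · exact ih f hf v hv
    · exact ih g hg _ (hX c hc v hv)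

omit [Fintype V] [DecidableEq V] in
lemma Inv.col {κ : V → Fin r} (hκ : Orb Ω κ) {X : Finset V} (hX : Inv Ω X) {v w : V} (hv : v ∈ X)
    (h : κ v = κ w) : w ∈ X := by
  obtain ⟨t, f, hf, rfl⟩ := (hκ v w).1 h
  exact hX.word t f hf v hv

open Classical in
/-- the pairs of orbits between which there is a merged pair -/
noncomputable def Ms (Ω : Set (V → V)) (κ : V → Fin r) (t : ℕ) : Finset (Sym2 (Fin r)) :=
  univ.filter (fun z => ∃ v w, R Ω t v w ∧ z = s(κ v, κ w))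

lemma mem_Ms {κ : V → Fin r} {t : ℕ} {z : Sym2 (Fin r)} :
    z ∈ Ms Ω κ t ↔ ∃ v w, R Ω t v w ∧ z = s(κ v, κ w) := by
  simp [Ms]

lemma Ms_mono {κ : V → Fin r} {s t : ℕ} (h : s ≤ t) : Ms Ω κ s ⊆ Ms Ω κ t := by
  intro z hz
  rw [mem_Ms] at hz ⊢
  obtain ⟨v, w, h1, h2⟩ := hz
  exact ⟨v, w, R_mono h h1, h2⟩

omit [DecidableEq V] in
lemma Nb_mono {s t : ℕ} (h : s ≤ t) (X : Finset V) : Nb (R Ω s) X ⊆ Nb (R Ω t) X := by
  intro w hw
  rw [mem_Nb] at hw ⊢
  obtain ⟨v, hv, h1⟩ := hw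
  exact ⟨v, hv, R_mono h h1⟩

/-- neighbourhoods of invariant sets do not change as long as `Ms` does not change -/
lemma static {κ : V → Fin r} (hκ : Orb Ω κ) {t1 t2 : ℕ} (hM : Ms Ω κ t1 = Ms Ω κ t2)
    {X : Finset V} (hX : Inv Ω X) {t : ℕ} (h1 : t1 + (Fintype.card V - 1) ≤ t) (h2 : t ≤ t2) :
    Nb (R Ω t) X = Nb (R Ω (t1 + (Fintype.card V - 1))) X := by
  refine Finset.Subset.antisymm ?_ (Nb_mono h1 X)
  intro w hw
  rw [mem_Nb] at hw
  obtain ⟨v, hv, hvw⟩ := hw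
  have h3 : s(κ v, κ w) ∈ Ms Ω κ t1 := by
    rw [hM, mem_Ms]
    exact ⟨v, w, R_mono h2 hvw, rfl⟩
  rw [mem_Ms] at h3
  -- a merged pair at time `t1` with the right colours
  have h4 : ∃ v0 w0, R Ω t1 v0 w0 ∧ κ v = κ v0 ∧ κ w = κ w0 := by
    obtain ⟨v0, w0, h5, h6⟩ := h3
    rw [Sym2.eq_iff] at h6
    rcases h6 with ⟨ha, hb⟩ | ⟨ha, hb⟩
    · exact ⟨v0, w0, h5, ha, hb⟩
    · exact ⟨w0, v0, R_symm h5, ha, hb⟩
  obtain ⟨v0, w0, ⟨hne, f, hf, hf2⟩, hcv, hcw⟩ := h4
  obtain ⟨s, g0, hg0, hgw0⟩ := (hκ w w0).1 hcw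
  have h5 := reach_stable (Ω := Pm Ω) w s (mem_reach.2 ⟨g0, hg0, hgw0⟩)
  rw [mem_reach] at h5
  obtain ⟨g, hg, hgw⟩ := h5
  obtain ⟨v', hv'⟩ := (W_Pm_bij _ g hg).2 v0
  have h6 : κ v' = κ v0 := (hκ v' v0).2 ⟨_, g, hg, hv'⟩
  have h7 : v' ∈ X := hX.col hκ hv (hcv.trans h6.symm)
  refine mem_Nb.2 ⟨v', h7, ?_, f ∘ g, comp_mem hf (W_Pm_sub _ hg), ?_⟩
  · rintro rfl; exact hne (by rw [← hv', ← hgw])
  · simp [hv', hgw, hf2]

omit [DecidableEq V] in
/-- the best invariant set in direction `b` at time `t` -/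
lemma exists_X (Ω : Set (V → V)) (b t : ℕ) : ∃ X : Finset V, Inv Ω X ∧
    ∀ Y : Finset V, Inv Ω Y → val Ω b t Y ≤ val Ω b t X := by
  classical
  obtain ⟨X, hX, hmax⟩ := Finset.exists_max_image ((univ : Finset (Finset V)).filter (Inv Ω))
    (fun X => val Ω b t X) ⟨∅, by simp [Inv]⟩
  rw [Finset.mem_filter] at hX
  exact ⟨X, hX.2, fun Y hY => hmax Y (by simp [hY])⟩

noncomputable def XI (Ω : Set (V → V)) (b t : ℕ) : Finset V := (exists_X Ω b t).choose

omit [DecidableEq V] in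
lemma XI_inv (b t : ℕ) : Inv Ω (XI Ω b t) := (exists_X Ω b t).choose_spec.1

omit [DecidableEq V] in
lemma XI_max (b t : ℕ) {Y : Finset V} (hY : Inv Ω Y) : val Ω b t Y ≤ val Ω b t (XI Ω b t) :=
  (exists_X Ω b t).choose_spec.2 Y hY

lemma static_val {κ : V → Fin r} (hκ : Orb Ω κ) {t1 t2 : ℕ} (hM : Ms Ω κ t1 = Ms Ω κ t2)
    {X : Finset V} (hX : Inv Ω X) {t : ℕ} (h1 : t1 + (Fintype.card V - 1) ≤ t) (h2 : t ≤ t2)
    (b : ℕ) : val Ω b t X = val Ω b (t1 + (Fintype.card V - 1)) X := by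
  unfold TP.val df
  rw [static hκ hM hX h1 h2]

omit [DecidableEq V] in
lemma val_univ_nonneg (b t : ℕ) : 0 ≤ val Ω b t univ := by
  have h1 : (Nb (R Ω t) univ).card ≤ Fintype.card V := Finset.card_le_univ _
  unfold TP.val df
  rw [Finset.card_univ]
  have h2 : (0 : ℤ) ≤ (Fintype.card V : ℤ) - (Nb (R Ω t) univ).card := by
    have : ((Nb (R Ω t) univ).card : ℤ) ≤ Fintype.card V := by exact_mod_cast h1
    linarith
  have h3 := mul_nonneg (Int.natCast_nonneg b) h2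
  linarith

/-- the key step -/
lemma key_step {κ : V → Fin r} (hκ : Orb Ω κ) {t1 t2 : ℕ} (hM : Ms Ω κ t1 = Ms Ω κ t2)
    {b t : ℕ} (h1 : t1 + (Fintype.card V - 1) ≤ t) (h2 : t + 1 ≤ t2)
    (heq : val Ω b (t + 1) (I Ω b (t + 1)) = val Ω b t (I Ω b t))
    (hpos : val Ω b (t1 + (Fintype.card V - 1)) (XI Ω b (t1 + (Fintype.card V - 1)))
      < val Ω b t (I Ω b t)) :
    (I Ω b (t + 1)).card < (I Ω b t).card := by
  classical
  set J := I Ω b (t + 1) with hJ
  have hb : ∀ S, val Ω b (t + 1) S ≤ val Ω b t S := by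
    intro S
    unfold TP.val
    have := mul_le_mul_of_nonneg_left (df_anti (Ω := Ω) t S) (Int.natCast_nonneg b)
    linarith
  have h3 : J ⊆ I Ω b t := by
    apply I_sub
    have h4 := hb J
    have h5 := I_max (Ω := Ω) b t J
    linarith
  have h4 : ∀ c ∈ Pm Ω, J.image c ⊆ I Ω b t := by
    intro c hc
    apply I_sub
    have h5 := I_max (Ω := Ω) b t (J.image c)
    have h6 : val Ω b (t + 1) J ≤ val Ω b t (J.image c) := by
      unfold TP.val
      rw [Finset.card_image_of_injective _ hc.2.1]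
      have := mul_le_mul_of_nonneg_left (df_image hc t J) (Int.natCast_nonneg b)
      linarith
    linarith
  by_contra hcon
  push Not at hcon
  have h5 : J = I Ω b t := Finset.eq_of_subset_of_card_le h3 hcon
  rw [← h5] at h4
  have h6 : Inv Ω J := fun c hc v hv => h4 c hc (Finset.mem_image_of_mem c hv)
  have h7 := static_val hκ hM h6 h1 (by omega) b
  have h8 := XI_max (Ω := Ω) b (t1 + (Fintype.card V - 1)) h6
  rw [← h5, h7] at hpos
  linarith

/-- the polygon of the merge graphs -/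
noncomputable def poly {κ : V → Fin r} (hκ : Orb Ω κ) {t1 t2 : ℕ}
    (hM : Ms Ω κ t1 = Ms Ω κ t2) :
    Poly (Fintype.card V) (t1 + (Fintype.card V - 1)) t2 where
  w b t := val Ω b t (I Ω b t)
  h b t := df Ω t (I Ω b t)
  fl b := val Ω b (t1 + (Fintype.card V - 1)) (XI Ω b (t1 + (Fintype.card V - 1)))
  anti b t := by
    have h1 := I_max (Ω := Ω) b t (I Ω b (t + 1))
    refine le_trans ?_ h1
    unfold TP.val
    have := mul_le_mul_of_nonneg_left (df_anti (Ω := Ω) t (I Ω b (t + 1))) (Int.natCast_nonneg b)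
    linarith
  flle b t h1 h2 := by
    rw [← static_val hκ hM (XI_inv b _) h1 h2 b]
    exact I_max b t _
  fl0 b := (val_univ_nonneg b _).trans (XI_max b _ fun c _ v _ => Finset.mem_univ _)
  conv1 b t := by
    have h1 := I_max (Ω := Ω) (b + 1) t (I Ω b t)
    have h2 : val Ω (b + 1) t (I Ω b t) = val Ω b t (I Ω b t) + df Ω t (I Ω b t) := by
      unfold TP.val; push_cast; ring
    linarith
  conv2 b t := by
    have h1 := I_max (Ω := Ω) b t (I Ω (b + 1) t)
    have h2 : val Ω (b + 1) t (I Ω (b + 1) t)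
        = val Ω b t (I Ω (b + 1) t) + df Ω t (I Ω (b + 1) t) := by
      unfold TP.val; push_cast; ring
    linarith
  u0 b t := by
    have h1 : ((I Ω b t).card : ℤ) ≤ Fintype.card V := by exact_mod_cast Finset.card_le_univ _
    unfold TP.val
    linarith
  u1 b t := by
    have h1 : (0 : ℤ) ≤ (I Ω b t).card := Int.natCast_nonneg _
    unfold TP.val
    linarith
  wle b t := by
    have h1 : ((I Ω b t).card : ℤ) ≤ Fintype.card V := by exact_mod_cast Finset.card_le_univ _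
    have h2 := df_le (Ω := Ω) t (I Ω b t)
    have h3 : (b : ℤ) * df Ω t (I Ω b t) ≤ b * Fintype.card V :=
      mul_le_mul_of_nonneg_left (h2.trans h1) (Int.natCast_nonneg _)
    unfold TP.val
    linarith
  step b t h1 h2 heq hpos := by
    have h3 := key_step hκ hM h1 h2 heq hpos
    unfold TP.val at heq
    have h4 : ((I Ω b (t + 1)).card : ℤ) < (I Ω b t).card := by exact_mod_cast h3
    have h5 : 0 < (b : ℤ) * (df Ω (t + 1) (I Ω b (t + 1)) - df Ω t (I Ω b t)) := by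
      linarith
    by_contra hcon
    have h6 : df Ω (t + 1) (I Ω b (t + 1)) - df Ω t (I Ω b t) ≤ 0 := by omega
    have := mul_nonpos_of_nonneg_of_nonpos (Int.natCast_nonneg b) h6
    linarith

end

end Pool.Agent.H173.TQ
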