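import Mathlib

/-!
# Words, fibres and merged pairs
-/

set_option autoImplicit false

namespace Pool.Agent.H173.TR

open Finset

section defs
variable {V : Type}

/-- maps of the words of length at most `t` over the set `Ω` of maps -/
def W (Ω : Set (V → V)) : ℕ → Set (V → V)
  | 0 => {id}
  | t + 1 => W Ω t ∪ {g | ∃ f ∈ W Ω t, ∃ c ∈ Ω, g = f ∘ c}

lemma W_succ (Ω : Set (V → V)) (t : ℕ) : W Ω t ⊆ W Ω (t + 1) := Set.subset_union_left

lemma W_mono (Ω : Set (V → V)) {s t : ℕ} (h : s ≤ t) : W Ω s ⊆ W Ω t := by
  induction t, h using Nat.le_induction with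
  | base => exact le_rfl
  | succ t _ ih => exact ih.trans (W_succ Ω t)

lemma comp_letter {Ω : Set (V → V)} {t : ℕ} {f c : V → V} (hf : f ∈ W Ω t) (hc : c ∈ Ω) :
    f ∘ c ∈ W Ω (t + 1) := Or.inr ⟨f, hf, c, hc, rfl⟩

lemma id_mem (Ω : Set (V → V)) (t : ℕ) : id ∈ W Ω t :=
  W_mono Ω (Nat.zero_le t) rfl

lemma letter_mem {Ω : Set (V → V)} {c : V → V} (hc : c ∈ Ω) : c ∈ W Ω 1 := by
  have := comp_letter (f := id) (id_mem Ω 0) hc
  exact this

lemma comp_mem {Ω : Set (V → V)} {s t : ℕ} {f g : V → V} (hf : f ∈ W Ω s) (hg : g ∈ W Ω t) :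
    f ∘ g ∈ W Ω (s + t) := by
  induction t generalizing g with
  | zero =>
    have : g = id := hg
    rw [this]; exact hf
  | succ t ih =>
    rcases hg with hg | ⟨g', hg', c, hc, rfl⟩
    · exact W_succ Ω (s + t) (ih hg)
    · have h1 := ih hg'
      have h2 := comp_letter h1 hc
      exact h2

/-- `v ≠ w` are merged by a word of length at most `t` -/
def R (Ω : Set (V → V)) (t : ℕ) (v w : V) : Prop := v ≠ w ∧ ∃ f ∈ W Ω t, f v = f w

lemma R_symm {Ω : Set (V → V)} {t : ℕ} {v w : V} (h : R Ω t v w) : R Ω t w v := by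
  obtain ⟨h1, f, hf, h2⟩ := h
  exact ⟨h1.symm, f, hf, h2.symm⟩

lemma R_mono {Ω : Set (V → V)} {s t : ℕ} (hst : s ≤ t) {v w : V} (h : R Ω s v w) :
    R Ω t v w := by
  obtain ⟨h1, f, hf, h2⟩ := h
  exact ⟨h1, f, W_mono Ω hst hf, h2⟩

/-- there is a reset word -/
def Sync (Ω : Set (V → V)) : Prop := ∃ t, ∃ f ∈ W Ω t, ∀ v w, f v = f w

/-- all states can be reached from all states -/
def SC (Ω : Set (V → V)) : Prop := ∀ p q : V, ∃ t, ∃ f ∈ W Ω t, f p = q

end defs

section fin
variable {V : Type} [Fintype V] [DecidableEq V]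

/-- the fibre of `f` over `q` -/
def fib (f : V → V) (q : V) : Finset V := univ.filter (fun v => f v = q)

omit [DecidableEq V] in
lemma mem_fib [DecidableEq V] {f : V → V} {q v : V} : v ∈ fib f q ↔ f v = q := by
  simp [fib]

/-- no word of length at most `N` merges three states -/
def TF (Ω : Set (V → V)) (N : ℕ) : Prop := ∀ f ∈ W Ω N, ∀ q, (fib f q).card ≤ 2

lemma TF_mono {Ω : Set (V → V)} {s t : ℕ} (hst : s ≤ t) (h : TF Ω t) : TF Ω s :=
  fun f hf q => h f (W_mono Ω hst hf) q

/-- the states without a preimage -/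
def E (f : V → V) : Finset V := univ.filter (fun w => ∀ v, f v ≠ w)

lemma mem_E {f : V → V} {w : V} : w ∈ E f ↔ ∀ v, f v ≠ w := by simp [E]

/-- the states which `f` merges with another state -/
def Mset (f : V → V) : Finset V := univ.filter (fun v => ∃ w, w ≠ v ∧ f w = f v)

lemma mem_Mset {f : V → V} {v : V} : v ∈ Mset f ↔ ∃ w, w ≠ v ∧ f w = f v := by simp [Mset]

lemma E_card (f : V → V) : (E f).card + (univ.image f).card = Fintype.card V := by
  have h1 : E f = univ \ univ.image f := by
    ext w; simp [mem_E]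
  rw [h1]
  have := Finset.card_sdiff_add_card_eq_card (Finset.subset_univ (univ.image f))
  rw [this, Finset.card_univ]

/-- if all fibres have at most two elements, twice the defect is the number of merged states -/
lemma two_E_card {f : V → V} (h : ∀ q, (fib f q).card ≤ 2) :
    2 * (E f).card = (Mset f).card := by
  classical
  -- n = ∑ over q of |fib q|
  have h1 : Fintype.card V = ∑ q : V, (fib f q).card := by
    rw [← Finset.card_univ]
    exact Finset.card_eq_sum_card_fiberwise (fun v _ => Finset.mem_coe.2 (Finset.mem_univ (f v)))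
  have h2 : (Mset f).card = ∑ q : V, ((Mset f).filter (fun v => f v = q)).card :=
    Finset.card_eq_sum_card_fiberwise (fun v _ => Finset.mem_coe.2 (Finset.mem_univ (f v)))
  have h3 : (E f).card = ∑ q : V, (if q ∈ E f then 1 else 0) := by
    rw [Finset.sum_ite_mem, Finset.univ_inter, Finset.sum_const, smul_eq_mul, mul_one]
  -- pointwise
  have key : ∀ q : V, ((Mset f).filter (fun v => f v = q)).card + 2 =
      2 * (fib f q).card + 2 * (if q ∈ E f then 1 else 0) := by
    intro q
    have hq := h q
    by_cases hE : q ∈ E f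
    · have e1 : fib f q = ∅ := by
        ext v; simp [mem_fib, mem_E.1 hE v]
      have e2 : (Mset f).filter (fun v => f v = q) = ∅ := by
        ext v; simp [mem_E.1 hE v]
      rw [e1, e2, if_pos hE]; simp
    · rw [if_neg hE]
      have hne : (fib f q).Nonempty := by
        rw [mem_E] at hE; push Not at hE
        obtain ⟨v, hv⟩ := hE
        exact ⟨v, mem_fib.2 hv⟩
      have hpos := Finset.card_pos.2 hne
      rcases Nat.lt_or_ge 1 (fib f q).card with h4 | h4
      · -- two elements
        have h5 : (fib f q).card = 2 := by omega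
        have e2 : (Mset f).filter (fun v => f v = q) = fib f q := by
          ext v
          rw [Finset.mem_filter, mem_fib, mem_Mset]
          constructor
          · exact fun hh => hh.2
          · intro hv
            refine ⟨?_, hv⟩
            obtain ⟨w, hw1, hw2⟩ := Finset.exists_mem_ne (by omega : 1 < (fib f q).card) v
            exact ⟨w, hw2, by rw [hv, mem_fib.1 hw1]⟩
        rw [e2, h5]
      · have h5 : (fib f q).card = 1 := by omega
        have e2 : (Mset f).filter (fun v => f v = q) = ∅ := by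
          ext v
          simp only [Finset.mem_filter, mem_Mset, Finset.notMem_empty, iff_false, not_and]
          rintro ⟨w, hw1, hw2⟩ hv
          obtain ⟨x, hx⟩ := Finset.card_eq_one.1 h5
          have e3 : v ∈ fib f q := mem_fib.2 hv
          have e4 : w ∈ fib f q := mem_fib.2 (by rw [hw2, hv])
          rw [hx, Finset.mem_singleton] at e3 e4
          exact hw1 (by rw [e3, e4])
        rw [e2, h5]; simp
  have hsum : ∑ q : V, (((Mset f).filter (fun v => f v = q)).card + 2) =
      ∑ q : V, (2 * (fib f q).card + 2 * (if q ∈ E f then 1 else 0)) :=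
    Finset.sum_congr rfl (fun q _ => key q)
  rw [Finset.sum_add_distrib, Finset.sum_add_distrib, ← Finset.mul_sum, ← Finset.mul_sum,
    ← h1, ← h2, ← h3, Finset.sum_const, Finset.card_univ, smul_eq_mul] at hsum
  omega

end fin

end Pool.Agent.H173.TR
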