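import Pool.Agent.H173.TRRank

/-!
# The number of merged pairs
-/

set_option autoImplicit false

namespace Pool.Agent.H173.TR

open Finset

section
variable {V : Type} [Fintype V] [DecidableEq V] {Ω : Set (V → V)}

/-- states reachable from `p` by words of length at most `t` -/
noncomputable def reach (Ω : Set (V → V)) (t : ℕ) (p : V) : Finset V := by
  classical exact univ.filter (fun q => ∃ f ∈ W Ω t, f p = q)

lemma mem_reach {t : ℕ} {p q : V} : q ∈ reach Ω t p ↔ ∃ f ∈ W Ω t, f p = q := by
  simp [reach]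

lemma reach_mono {s t : ℕ} (h : s ≤ t) (p : V) : reach Ω s p ⊆ reach Ω t p := by
  intro q hq
  rw [mem_reach] at hq ⊢
  obtain ⟨f, hf, h2⟩ := hq
  exact ⟨f, W_mono Ω h hf, h2⟩

/-- words can also be extended at the other end -/
lemma letter_comp {V : Type} {Ω : Set (V → V)} {t : ℕ} {f c : V → V} (hc : c ∈ Ω)
    (hf : f ∈ W Ω t) : c ∘ f ∈ W Ω (t + 1) := by
  have := comp_mem (letter_mem hc) hf
  rwa [Nat.add_comm] at this

lemma succ_cases {V : Type} {Ω : Set (V → V)} : ∀ {t : ℕ} {f : V → V}, f ∈ W Ω (t + 1) →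
    f ∈ W Ω t ∨ ∃ c ∈ Ω, ∃ g ∈ W Ω t, f = c ∘ g := by
  intro t
  induction t with
  | zero =>
    intro f hf
    rcases hf with hf | ⟨g, hg, c, hc, rfl⟩
    · exact Or.inl hf
    · right
      have : g = id := hg
      subst this
      exact ⟨c, hc, id, id_mem Ω 0, rfl⟩
  | succ t ih =>
    intro f hf
    rcases hf with hf | ⟨g, hg, c, hc, rfl⟩
    · exact Or.inl hf
    · rcases ih hg with h | ⟨c', hc', g', hg', rfl⟩
      · left; exact comp_letter h hc
      · right; exact ⟨c', hc', g' ∘ c, comp_letter hg' hc, rfl⟩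

/-- everything reachable is reachable by a word of length at most `n - 1` -/
lemma reach_stable (p : V) (t : ℕ) : reach Ω t p ⊆ reach Ω (Fintype.card V - 1) p := by
  classical
  -- either stable at some s ≤ n - 1 or too large
  have h1 : ∀ s, (∃ r ≤ s, reach Ω (r + 1) p = reach Ω r p) ∨ s + 1 ≤ (reach Ω s p).card := by
    intro s
    induction s with
    | zero =>
      right
      have : p ∈ reach Ω 0 p := mem_reach.2 ⟨id, rfl, rfl⟩
      exact Finset.card_pos.2 ⟨p, this⟩
    | succ s ih =>
      rcases ih with ⟨r, hr, h⟩ | h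
      · exact Or.inl ⟨r, by omega, h⟩
      · by_cases h2 : reach Ω (s + 1) p = reach Ω s p
        · exact Or.inl ⟨s, by omega, h2⟩
        · right
          have h3 : reach Ω s p ⊂ reach Ω (s + 1) p :=
            lt_of_le_of_ne (reach_mono (Nat.le_succ s) p) (Ne.symm h2)
          have := Finset.card_lt_card h3
          omega
  have h2 : ∀ r, reach Ω (r + 1) p = reach Ω r p → ∀ s, reach Ω (r + s) p = reach Ω r p := by
    intro r hr s
    induction s with
    | zero => rfl
    | succ s ih =>
      refine Finset.Subset.antisymm ?_ (reach_mono (by omega) p)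
      intro q hq
      rw [mem_reach] at hq
      obtain ⟨f, hf, hfq⟩ := hq
      rcases succ_cases (t := r + s) hf with hf | ⟨c, hc, g, hg, rfl⟩
      · rw [← ih]; exact mem_reach.2 ⟨f, hf, hfq⟩
      · have h3 : g p ∈ reach Ω (r + s) p := mem_reach.2 ⟨g, hg, rfl⟩
        rw [ih, mem_reach] at h3
        obtain ⟨g', hg', hgg⟩ := h3
        rw [← hr, mem_reach]
        exact ⟨c ∘ g', letter_comp hc hg', by rw [← hfq]; simp [hgg]⟩
  have hle : ∀ s, (reach Ω s p).card ≤ Fintype.card V := fun s => Finset.card_le_univ _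
  have hpos : 0 < Fintype.card V := Fintype.card_pos_iff.2 ⟨p⟩
  rcases h1 (Fintype.card V - 1) with ⟨r, hr, h⟩ | h
  · rcases Nat.le_total t r with h3 | h3
    · exact reach_mono (by omega) p
    · obtain ⟨s, rfl⟩ := Nat.exists_eq_add_of_le h3
      rw [h2 r h s]
      exact reach_mono hr p
  · have : reach Ω (Fintype.card V - 1) p = univ := by
      rw [← Finset.card_eq_iff_eq_univ]
      have := hle (Fintype.card V - 1)
      omega
    rw [this]; exact Finset.subset_univ _

/-- each state is doubled by a word of length at most `n` -/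
lemma exists_doubling (hV : 2 ≤ Fintype.card V) (hs : Sync Ω) (hsc : SC Ω) (v : V) :
    ∃ f ∈ W Ω (Fintype.card V), ∃ x y, x ≠ y ∧ f x = v ∧ f y = v := by
  -- a letter which is not injective
  have h1 : ∃ c ∈ Ω, ∃ x y, x ≠ y ∧ c x = c y := by
    by_contra hcon
    push Not at hcon
    have h2 : ∀ t, ∀ f ∈ W Ω t, ∀ x y, x ≠ y → f x ≠ f y := by
      intro t
      induction t with
      | zero => intro f hf x y hxy; have : f = id := hf; rw [this]; exact hxy
      | succ t ih =>
        intro f hf x y hxy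
        rcases hf with hf | ⟨g, hg, c, hc, rfl⟩
        · exact ih f hf x y hxy
        · exact ih g hg _ _ (hcon c hc x y hxy)
    obtain ⟨t, f, hf, hconst⟩ := hs
    obtain ⟨x, y, hxy⟩ := Fintype.exists_pair_of_one_lt_card (by omega : 1 < Fintype.card V)
    exact h2 t f hf x y hxy (hconst x y)
  obtain ⟨c, hc, x, y, hxy, hcxy⟩ := h1
  obtain ⟨t, g, hg, hgv⟩ := hsc (c x) v
  have h3 := reach_stable (Ω := Ω) (c x) t (mem_reach.2 ⟨g, hg, hgv⟩)
  rw [mem_reach] at h3
  obtain ⟨g', hg', hg'v⟩ := h3
  refine ⟨g' ∘ c, ?_, x, y, hxy, hg'v, by simp [← hcxy, hg'v]⟩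
  have := comp_letter hg' hc
  rwa [Nat.sub_add_cancel (by omega)] at this

/-- the ordered merged pairs -/
noncomputable def Rs (Ω : Set (V → V)) (t : ℕ) : Finset (V × V) := by
  classical exact univ.filter (fun p => R Ω t p.1 p.2)

omit [DecidableEq V] in
lemma mem_Rs {t : ℕ} {p : V × V} : p ∈ Rs Ω t ↔ R Ω t p.1 p.2 := by
  simp [Rs]

lemma Rs_card_ge (hV : 3 ≤ Fintype.card V) (hs : Sync Ω) {N : ℕ} (hT : TF Ω N) :
    ∀ t ≤ N, 2 * t ≤ (Rs Ω t).card := by
  classical
  have hsub : ∀ t, Rs Ω t ⊆ Rs Ω (t + 1) := fun t p hp => by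
    rw [mem_Rs] at hp ⊢; exact R_mono (Nat.le_succ t) hp
  -- stability
  have hstab : ∀ t, Rs Ω (t + 1) = Rs Ω t → ∀ s, Rs Ω (t + s) = Rs Ω t := by
    intro t ht s
    induction s with
    | zero => rfl
    | succ s ih =>
      refine Finset.Subset.antisymm ?_ ?_
      · rintro ⟨v, w⟩ hp
        rw [mem_Rs] at hp
        obtain ⟨hne, f, hf, hvw⟩ := hp
        rcases hf with hf | ⟨g, hg, c, hc, rfl⟩
        · rw [← ih, mem_Rs]; exact ⟨hne, f, hf, hvw⟩
        · by_cases hcvw : c v = c w
          · rw [← ht, mem_Rs]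
            exact ⟨hne, c, W_mono Ω (by omega) (letter_mem hc), hcvw⟩
          · have h1 : (c v, c w) ∈ Rs Ω (t + s) := mem_Rs.2 ⟨hcvw, g, hg, hvw⟩
            rw [ih, mem_Rs] at h1
            obtain ⟨_, g', hg', h2⟩ := h1
            rw [← ht, mem_Rs]
            exact ⟨hne, g' ∘ c, comp_letter hg' hc, h2⟩
      · intro p hp
        rw [mem_Rs] at hp ⊢
        exact R_mono (by omega) hp
  intro t
  induction t with
  | zero => intro _; simp
  | succ t ih =>
    intro ht
    have h1 := ih (by omega)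
    by_cases h2 : Rs Ω (t + 1) = Rs Ω t
    · exfalso
      -- all pairs are merged
      obtain ⟨s, f, hf, hconst⟩ := hs
      have hall : ∀ v w, v ≠ w → R Ω t v w := by
        intro v w hvw
        have h3 : (v, w) ∈ Rs Ω (t + s) :=
          mem_Rs.2 ⟨hvw, f, W_mono Ω (by omega) hf, hconst v w⟩
        rw [hstab t h2 s, mem_Rs] at h3
        exact h3
      -- some letter merges two states
      have h4 : ∃ c ∈ Ω, ∃ x y, x ≠ y ∧ c x = c y := by
        by_contra hcon
        push Not at hcon
        have h5 : ∀ t, ∀ f ∈ W Ω t, ∀ x y, x ≠ y → f x ≠ f y := by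
          intro t
          induction t with
          | zero => intro f hf x y hxy; have : f = id := hf; rw [this]; exact hxy
          | succ t ih =>
            intro f hf x y hxy
            rcases hf with hf | ⟨g, hg, c, hc, rfl⟩
            · exact ih f hf x y hxy
            · exact ih g hg _ _ (hcon c hc x y hxy)
        obtain ⟨x, y, hxy⟩ := Fintype.exists_pair_of_one_lt_card (by omega : 1 < Fintype.card V)
        exact h5 s f hf x y hxy (hconst x y)
      obtain ⟨c, hc, x, y, hxy, hcxy⟩ := h4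
      -- a third state with another image
      have h6 : ∃ z, c z ≠ c x := by
        by_contra hcon
        push Not at hcon
        have h7 := TF_mono (by omega : 1 ≤ N) hT c (letter_mem hc) (c x)
        have h8 : fib c (c x) = univ := by ext u; simp [mem_fib, hcon u]
        rw [h8, Finset.card_univ] at h7
        omega
      obtain ⟨z, hz⟩ := h6
      obtain ⟨_, g, hg, hg2⟩ := hall (c x) (c z) (Ne.symm hz)
      have h7 := TF_mono ht hT (g ∘ c) (comp_letter hg hc) (g (c x))
      have h8 : ({x, y, z} : Finset V) ⊆ fib (g ∘ c) (g (c x)) := by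
        intro u hu
        simp only [Finset.mem_insert, Finset.mem_singleton] at hu
        rw [mem_fib]
        rcases hu with rfl | rfl | rfl
        · rfl
        · simp [hcxy]
        · simp [hg2]
      have h9 : ({x, y, z} : Finset V).card = 3 := by
        rw [Finset.card_eq_three]
        exact ⟨x, y, z, hxy, fun h => hz (by rw [h]), fun h => hz (by rw [hcxy, h]), rfl⟩
      have := Finset.card_le_card h8
      omega
    · have h3 : ∃ p ∈ Rs Ω (t + 1), p ∉ Rs Ω t := by
        by_contra hcon
        push Not at hcon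
        exact h2 (Finset.Subset.antisymm hcon (hsub t))
      obtain ⟨⟨v, w⟩, hp1, hp2⟩ := h3
      have hq1 : (w, v) ∈ Rs Ω (t + 1) := by
        rw [mem_Rs] at hp1 ⊢; exact R_symm hp1
      have hq2 : (w, v) ∉ Rs Ω t := by
        rw [mem_Rs] at hp2 ⊢; exact fun h => hp2 (R_symm h)
      have hne : (v, w) ≠ (w, v) := by
        intro h
        rw [mem_Rs] at hp1
        exact hp1.1 (congrArg Prod.fst h)
      have h4 : insert (v, w) (insert (w, v) (Rs Ω t)) ⊆ Rs Ω (t + 1) := by
        intro p hp
        rw [Finset.mem_insert, Finset.mem_insert] at hp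
        rcases hp with rfl | rfl | hp
        · exact hp1
        · exact hq1
        · exact hsub t hp
      have h5 := Finset.card_le_card h4
      rw [Finset.card_insert_of_notMem, Finset.card_insert_of_notMem hq2] at h5
      · omega
      · rw [Finset.mem_insert]
        rintro (h | h)
        · exact hne h
        · exact hp2 h

/-- neighbours of a doubled state have no preimage -/
lemma nbr_mem_E {N s t : ℕ} (hT : TF Ω N) (hst : t + s ≤ N) {f : V → V} (hf : f ∈ W Ω s)
    {v x y : V} (hxy : x ≠ y) (hx : f x = v) (hy : f y = v) {w : V} (h : R Ω t v w) :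
    w ∈ E f := by
  rw [mem_E]
  intro z hz
  obtain ⟨hne, g, hg, hvw⟩ := h
  have h1 := TF_mono hst hT (g ∘ f) (comp_mem hg hf) (g v)
  have h2 : ({x, y, z} : Finset V) ⊆ fib (g ∘ f) (g v) := by
    intro u hu
    simp only [Finset.mem_insert, Finset.mem_singleton] at hu
    rw [mem_fib]
    rcases hu with rfl | rfl | rfl
    · simp [hx]
    · simp [hy]
    · simp [hz, hvw]
  have h3 : ({x, y, z} : Finset V).card = 3 := by
    rw [Finset.card_eq_three]
    refine ⟨x, y, z, hxy, ?_, ?_, rfl⟩
    · rintro rfl; exact hne (by rw [← hx, hz])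
    · rintro rfl; exact hne (by rw [← hy, hz])
  have := Finset.card_le_card h2
  omega

/-- the defect of a composition -/
lemma E_comp_card (u s : V → V) : (E u).card + (E s \ Mset u).card ≤ (E (u ∘ s)).card := by
  classical
  have h1 : (E u) ∪ (E s \ Mset u).image u ⊆ E (u ∘ s) := by
    intro w hw
    rw [Finset.mem_union, Finset.mem_image] at hw
    rw [mem_E]
    intro v hv
    rcases hw with hw | ⟨z, hz, rfl⟩
    · exact mem_E.1 hw _ hv
    · rw [Finset.mem_sdiff, mem_Mset] at hz
      have h2 : s v ≠ z := mem_E.1 hz.1 v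
      exact hz.2 ⟨s v, h2, hv⟩
  have h2 : Disjoint (E u) ((E s \ Mset u).image u) := by
    rw [Finset.disjoint_left]
    intro w hw hw'
    rw [Finset.mem_image] at hw'
    obtain ⟨z, _, rfl⟩ := hw'
    exact mem_E.1 hw z rfl
  have h3 : ((E s \ Mset u).image u).card = (E s \ Mset u).card := by
    refine Finset.card_image_of_injOn ?_
    intro a ha b hb hab
    by_contra hne
    rw [Finset.mem_coe, Finset.mem_sdiff, mem_Mset] at ha
    exact ha.2 ⟨b, Ne.symm hne, hab.symm⟩
  have h4 := Finset.card_le_card h1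
  rw [Finset.card_union_of_disjoint h2, h3] at h4
  exact h4

/-- the largest defect of a word of length at most `t` -/
noncomputable def K (Ω : Set (V → V)) (t : ℕ) : ℕ := by
  classical exact ((univ : Finset (V → V)).filter (fun f => f ∈ W Ω t)).sup (fun f => (E f).card)

lemma le_K {t : ℕ} {f : V → V} (hf : f ∈ W Ω t) : (E f).card ≤ K Ω t := by
  classical
  unfold K
  exact Finset.le_sup (f := fun f => (E f).card) (by simp [hf])

lemma exists_K (Ω : Set (V → V)) (t : ℕ) : ∃ f ∈ W Ω t, (E f).card = K Ω t := by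
  classical
  unfold K
  obtain ⟨f, hf, h⟩ := Finset.exists_mem_eq_sup
    ((univ : Finset (V → V)).filter (fun f => f ∈ W Ω t)) ⟨id, by simp [id_mem Ω t]⟩
    (fun f => (E f).card)
  rw [Finset.mem_filter] at hf
  exact ⟨f, hf.2, h.symm⟩

lemma K_mono {s t : ℕ} (h : s ≤ t) : K Ω s ≤ K Ω t := by
  obtain ⟨f, hf, h1⟩ := exists_K Ω s
  rw [← h1]; exact le_K (W_mono Ω h hf)

lemma two_K_le {t : ℕ} (hT : TF Ω t) : 2 * K Ω t ≤ Fintype.card V := by
  obtain ⟨f, hf, h1⟩ := exists_K Ω t
  rw [← h1, two_E_card (hT f hf)]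
  exact Finset.card_le_univ _

/-- the bound for the number of merged pairs -/
lemma edge_bound (hV : 3 ≤ Fintype.card V) (hs : Sync Ω) (hsc : SC Ω) {N ℓ : ℕ} (hT : TF Ω N)
    (hN : Fintype.card V ≤ N) (hℓ : ℓ + Fintype.card V ≤ N) :
    N - Fintype.card V ≤ K Ω ℓ * K Ω (Fintype.card V)
      + Fintype.card V * (K Ω (ℓ + Fintype.card V) - K Ω ℓ) := by
  classical
  set n := Fintype.card V with hn
  set t := N - n with ht
  obtain ⟨u, hu, hu2⟩ := exists_K Ω ℓ
  set g := K Ω (ℓ + n) - K Ω ℓ with hg
  -- neighbourhoods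
  let nb : V → Finset V := fun v => univ.filter (fun w => R Ω t v w)
  have hnb : ∀ v, ∃ s ∈ W Ω n, nb v ⊆ E s := by
    intro v
    obtain ⟨s, hs1, x, y, hxy, hx, hy⟩ := exists_doubling (by omega) hs hsc v
    refine ⟨s, hs1, fun w hw => ?_⟩
    exact nbr_mem_E (t := t) hT (by omega) hs1 hxy hx hy (by simpa [nb] using hw)
  have hdeg : ∀ v, (nb v).card ≤ K Ω n := by
    intro v
    obtain ⟨s, hs1, hs2⟩ := hnb v
    exact (Finset.card_le_card hs2).trans (le_K hs1)
  have hout : ∀ v, (nb v \ Mset u).card ≤ g := by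
    intro v
    obtain ⟨s, hs1, hs2⟩ := hnb v
    have h1 := E_comp_card u s
    have h2 : (E (u ∘ s)).card ≤ K Ω (ℓ + n) := le_K (comp_mem hu hs1)
    have h3 : (nb v \ Mset u).card ≤ (E s \ Mset u).card :=
      Finset.card_le_card (Finset.sdiff_subset_sdiff hs2 le_rfl)
    rw [hu2] at h1
    omega
  -- counting
  have hcount : (Rs Ω t).card = ∑ v : V, (nb v).card := by
    have h1 : (Rs Ω t).card = ∑ v : V, ((Rs Ω t).filter (fun p => p.1 = v)).card :=
      Finset.card_eq_sum_card_fiberwise (fun p _ => Finset.mem_coe.2 (Finset.mem_univ p.1))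
    rw [h1]
    refine Finset.sum_congr rfl fun v _ => ?_
    have h2 : (Rs Ω t).filter (fun p => p.1 = v) = (nb v).image (fun w => (v, w)) := by
      ext ⟨a, b⟩
      simp only [Finset.mem_filter, mem_Rs, Finset.mem_image, nb, Finset.mem_univ, true_and,
        Prod.mk.injEq]
      constructor
      · rintro ⟨h, rfl⟩; exact ⟨b, h, rfl, rfl⟩
      · rintro ⟨w, h, rfl, rfl⟩; exact ⟨h, rfl⟩
    rw [h2, Finset.card_image_of_injective]
    intro a b hab
    exact (Prod.mk.inj hab).2
  -- split the neighbourhoods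
  have hsplit : ∀ v, (nb v).card = (nb v ∩ Mset u).card + (nb v \ Mset u).card := by
    intro v
    exact (Finset.card_inter_add_card_sdiff (nb v) (Mset u)).symm
  have hM : (Mset u).card = 2 * K Ω ℓ := by
    rw [← hu2]; exact (two_E_card (TF_mono (by omega : ℓ ≤ N) hT u hu)).symm
  have h1 : ∑ v ∈ Mset u, (nb v ∩ Mset u).card ≤ 2 * K Ω ℓ * K Ω n := by
    have := Finset.sum_le_card_nsmul (Mset u) (fun v => (nb v ∩ Mset u).card) (K Ω n)
      (fun v _ => (Finset.card_le_card Finset.inter_subset_left).trans (hdeg v))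
    rw [smul_eq_mul, hM] at this
    exact this
  have h2 : ∑ v : V, (nb v \ Mset u).card ≤ n * g := by
    have := Finset.sum_le_card_nsmul (univ : Finset V) (fun v => (nb v \ Mset u).card) g
      (fun v _ => hout v)
    rw [smul_eq_mul, Finset.card_univ] at this
    exact this
  have h3 : ∑ v ∈ univ \ Mset u, (nb v ∩ Mset u).card ≤ n * g := by
    have e1 : ∑ v ∈ univ \ Mset u, (nb v ∩ Mset u).card
        = ∑ v ∈ Mset u, (nb v \ Mset u).card := by
      have e2 : ∀ v, (nb v ∩ Mset u).card = ∑ w ∈ Mset u, (if R Ω t v w then 1 else 0) := by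
        intro v
        rw [← Finset.sum_filter, Finset.sum_const, smul_eq_mul, mul_one]
        congr 1
        ext w; simp [nb, and_comm]
      have e3 : ∀ v, (nb v \ Mset u).card
          = ∑ w ∈ univ \ Mset u, (if R Ω t v w then 1 else 0) := by
        intro v
        rw [← Finset.sum_filter, Finset.sum_const, smul_eq_mul, mul_one]
        congr 1
        ext w; simp [nb, and_comm]
      rw [Finset.sum_congr rfl fun v _ => e2 v, Finset.sum_congr rfl fun v _ => e3 v,
        Finset.sum_comm]
      refine Finset.sum_congr rfl fun v _ => Finset.sum_congr rfl fun w _ => ?_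
      by_cases h : R Ω t v w
      · rw [if_pos h, if_pos (R_symm h)]
      · rw [if_neg h, if_neg fun h' => h (R_symm h')]
    rw [e1]
    exact (Finset.sum_le_univ_sum_of_nonneg fun v => Nat.zero_le _).trans h2
  have h4 : ∑ v : V, (nb v).card = ∑ v ∈ univ \ Mset u, (nb v ∩ Mset u).card
      + ∑ v ∈ Mset u, (nb v ∩ Mset u).card + ∑ v : V, (nb v \ Mset u).card := by
    rw [Finset.sum_sdiff (Finset.subset_univ (Mset u)), ← Finset.sum_add_distrib]
    exact Finset.sum_congr rfl fun v _ => hsplit v
  have h5 := Rs_card_ge hV hs hT t (by omega)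
  rw [hcount, h4] at h5
  nlinarith

end

end Pool.Agent.H173.TR
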