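import Pool.Agent.H173.TRBasic

/-!
# The fractional stable set polytope of the merge graph
-/

set_option autoImplicit false

namespace Pool.Agent.H173.TR

open Finset

section hall
variable {V : Type} [Fintype V] [DecidableEq V]

/-- neighbours of a set -/
noncomputable def Nb (G : V → V → Prop) (S : Finset V) : Finset V := by
  classical exact univ.filter (fun w => ∃ v ∈ S, G v w)

omit [DecidableEq V] in
lemma mem_Nb {G : V → V → Prop} {S : Finset V} {w : V} : w ∈ Nb G S ↔ ∃ v ∈ S, G v w := by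
  simp [Nb]

/-- Hall's theorem with deficiency -/
lemma exists_deficiency (G : V → V → Prop) :
    ∃ (δ : ℕ) (S L : Finset V) (m : V → V), S.card = (Nb G S).card + δ ∧
      Fintype.card V ≤ L.card + δ ∧ (∀ v ∈ L, G v (m v)) ∧ Set.InjOn m (L : Set V) := by
  classical
  obtain ⟨S, _, hS⟩ := Finset.exists_max_image (univ : Finset (Finset V))
    (fun S => (S.card : ℤ) - (Nb G S).card) ⟨∅, Finset.mem_univ _⟩
  have h0 : (0 : ℤ) ≤ (S.card : ℤ) - (Nb G S).card := by
    have := hS ∅ (Finset.mem_univ _)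
    have e : Nb G (∅ : Finset V) = ∅ := by ext w; simp [mem_Nb]
    simp only [e, Finset.card_empty] at this
    simpa using this
  obtain ⟨δ, hδ⟩ := Int.eq_ofNat_of_zero_le h0
  have hS' : S.card = (Nb G S).card + δ := by omega
  have hmax : ∀ T : Finset V, T.card ≤ (Nb G T).card + δ := by
    intro T
    have := hS T (Finset.mem_univ _)
    omega
  -- Hall
  let t : V → Finset (V ⊕ Fin δ) := fun v =>
    (Nb G {v}).map ⟨Sum.inl, Sum.inl_injective⟩ ∪ univ.map ⟨Sum.inr, Sum.inr_injective⟩
  have hall : ∀ T : Finset V, T.card ≤ (T.biUnion t).card := by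
    intro T
    rcases T.eq_empty_or_nonempty with rfl | ⟨v0, hv0⟩
    · simp
    · have hsub : (Nb G T).map ⟨Sum.inl, Sum.inl_injective⟩ ∪
          (univ : Finset (Fin δ)).map ⟨Sum.inr, Sum.inr_injective⟩ ⊆ T.biUnion t := by
        intro z hz
        rw [Finset.mem_union] at hz
        rw [Finset.mem_biUnion]
        rcases hz with hz | hz
        · rw [Finset.mem_map] at hz
          obtain ⟨w, hw, rfl⟩ := hz
          rw [mem_Nb] at hw
          obtain ⟨v, hv, hvw⟩ := hw
          refine ⟨v, hv, ?_⟩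
          rw [Finset.mem_union, Finset.mem_map]
          exact Or.inl ⟨w, mem_Nb.2 ⟨v, Finset.mem_singleton_self v, hvw⟩, rfl⟩
        · exact ⟨v0, hv0, Finset.mem_union_right _ hz⟩
      have hdisj : Disjoint ((Nb G T).map ⟨Sum.inl, Sum.inl_injective⟩)
          ((univ : Finset (Fin δ)).map ⟨(Sum.inr : Fin δ → V ⊕ Fin δ), Sum.inr_injective⟩) := by
        rw [Finset.disjoint_left]
        intro z hz hz'
        rw [Finset.mem_map] at hz hz'
        obtain ⟨w, _, rfl⟩ := hz
        obtain ⟨w', _, hw'⟩ := hz'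
        exact absurd hw' (by simp)
      have := Finset.card_le_card hsub
      rw [Finset.card_union_of_disjoint hdisj, Finset.card_map, Finset.card_map,
        Finset.card_univ, Fintype.card_fin] at this
      exact (hmax T).trans this
  obtain ⟨φ, hφ, hφ'⟩ := (Finset.all_card_le_biUnion_card_iff_exists_injective t).1 hall
  have hL : ∀ v, (∃ w, φ v = Sum.inl w ∧ G v w) ∨ (∃ i, φ v = Sum.inr i) := by
    intro v
    have := hφ' v
    rw [Finset.mem_union, Finset.mem_map, Finset.mem_map] at this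
    rcases this with ⟨w, hw, hw'⟩ | ⟨i, _, hi⟩
    · left
      rw [mem_Nb] at hw
      obtain ⟨v', hv', hvw⟩ := hw
      rw [Finset.mem_singleton] at hv'
      subst hv'
      exact ⟨w, hw'.symm, hvw⟩
    · exact Or.inr ⟨i, hi.symm⟩
  let L : Finset V := univ.filter (fun v => ∃ w, φ v = Sum.inl w ∧ G v w)
  let m : V → V := fun v => if h : ∃ w, φ v = Sum.inl w ∧ G v w then h.choose else v
  have hm : ∀ v ∈ L, φ v = Sum.inl (m v) ∧ G v (m v) := by
    intro v hv
    have h : ∃ w, φ v = Sum.inl w ∧ G v w := by simpa [L] using hv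
    have e : m v = h.choose := by simp only [m]; rw [dif_pos h]
    rw [e]; exact h.choose_spec
  refine ⟨δ, S, L, m, hS', ?_, fun v hv => (hm v hv).2, ?_⟩
  · have h1 : (univ \ L).card ≤ δ := by
      have h2 : ∀ v ∈ univ \ L, ∃ i, φ v = Sum.inr i := by
        intro v hv
        rw [Finset.mem_sdiff] at hv
        rcases hL v with h | h
        · exact absurd (by simpa [L] using h) hv.2
        · exact h
      have h3 : ((univ \ L).image φ).card = (univ \ L).card :=
        Finset.card_image_of_injective _ hφ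
      have h4 : (univ \ L).image φ ⊆
          (univ : Finset (Fin δ)).map ⟨(Sum.inr : Fin δ → V ⊕ Fin δ), Sum.inr_injective⟩ := by
        intro z hz
        rw [Finset.mem_image] at hz
        obtain ⟨v, hv, rfl⟩ := hz
        obtain ⟨i, hi⟩ := h2 v hv
        rw [hi, Finset.mem_map]
        exact ⟨i, Finset.mem_univ _, rfl⟩
      have h5 := Finset.card_le_card h4
      rw [h3, Finset.card_map, Finset.card_univ, Fintype.card_fin] at h5
      exact h5
    have h6 := Finset.card_sdiff_add_card_eq_card (Finset.subset_univ L)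
    rw [Finset.card_univ] at h6
    omega
  · intro v hv w hw hvw
    apply hφ
    rw [(hm v hv).1, (hm w hw).1, hvw]

end hall

section lp
variable {V : Type} [Fintype V] [DecidableEq V]

/-- total mass -/
def tot (x : V → ℝ) : ℝ := ∑ v, x v

/-- nonnegative vectors with mass at most one on each fibre of a word of length at most `t` -/
def X (Ω : Set (V → V)) (t : ℕ) : Set (V → ℝ) :=
  {x | (∀ v, 0 ≤ x v) ∧ ∀ f ∈ W Ω t, ∀ q, ∑ v ∈ fib f q, x v ≤ 1}

/-- push forward -/
def push (c : V → V) : (V → ℝ) →ₗ[ℝ] (V → ℝ) where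
  toFun x := fun q => ∑ v ∈ fib c q, x v
  map_add' x y := by ext q; simp [Finset.sum_add_distrib]
  map_smul' a x := by ext q; simp [Finset.mul_sum]

lemma push_apply (c : V → V) (x : V → ℝ) (q : V) : push c x q = ∑ v ∈ fib c q, x v := rfl

lemma sum_fib_push (f c : V → V) (x : V → ℝ) (q : V) :
    ∑ p ∈ fib f q, push c x p = ∑ v ∈ fib (f ∘ c) q, x v := by
  simp only [push_apply]
  have h1 : ∀ v ∈ fib (f ∘ c) q, c v ∈ fib f q := fun v hv => by
    rw [mem_fib] at hv ⊢; exact hv
  rw [← Finset.sum_fiberwise_of_maps_to h1]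
  refine Finset.sum_congr rfl fun p hp => Finset.sum_congr ?_ fun _ _ => rfl
  ext v
  simp only [mem_fib, Finset.mem_filter, Function.comp_apply]
  rw [mem_fib] at hp
  constructor
  · intro h; exact ⟨by rw [h]; exact hp, h⟩
  · exact fun h => h.2

lemma tot_push (c : V → V) (x : V → ℝ) : tot (push c x) = tot x := by
  unfold tot
  exact Finset.sum_fiberwise univ c x

lemma push_mem {Ω : Set (V → V)} {t : ℕ} {c : V → V} (hc : c ∈ Ω) {x : V → ℝ}
    (hx : x ∈ X Ω (t + 1)) : push c x ∈ X Ω t := by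
  refine ⟨fun q => Finset.sum_nonneg fun v _ => hx.1 v, fun f hf q => ?_⟩
  rw [sum_fib_push]
  exact hx.2 _ (comp_letter hf hc) q

lemma X_mono {Ω : Set (V → V)} {s t : ℕ} (h : s ≤ t) : X Ω t ⊆ X Ω s :=
  fun _ hx => ⟨hx.1, fun f hf q => hx.2 f (W_mono Ω h hf) q⟩

lemma X_le_one {Ω : Set (V → V)} {t : ℕ} {x : V → ℝ} (hx : x ∈ X Ω t) (v : V) : x v ≤ 1 := by
  have := hx.2 id (id_mem Ω t) v
  have e : fib id v = {v} := by ext w; simp [mem_fib]
  rw [e, Finset.sum_singleton] at this
  exact this

lemma X_pair {Ω : Set (V → V)} {t : ℕ} {x : V → ℝ} (hx : x ∈ X Ω t) {v w : V}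
    (h : R Ω t v w) : x v + x w ≤ 1 := by
  obtain ⟨hne, f, hf, hvw⟩ := h
  have h1 := hx.2 f hf (f v)
  have h2 : ({v, w} : Finset V) ⊆ fib f (f v) := by
    intro z hz
    rw [Finset.mem_insert, Finset.mem_singleton] at hz
    rcases hz with rfl | rfl
    · exact mem_fib.2 rfl
    · exact mem_fib.2 hvw.symm
  have h3 := Finset.sum_le_sum_of_subset_of_nonneg h2 (f := x) fun v _ _ => hx.1 v
  rw [Finset.sum_pair hne] at h3
  linarith

/-- the data of an optimal solution at time `t` -/
structure Opt (Ω : Set (V → V)) (t : ℕ) where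
  d : ℕ
  L : Finset V
  m : V → V
  hL : Fintype.card V ≤ L.card + d
  hm : ∀ v ∈ L, R Ω t v (m v)
  hinj : Set.InjOn m (L : Set V)
  hex : ∃ x ∈ X Ω t, 2 * tot x = Fintype.card V + d

lemma exists_opt {Ω : Set (V → V)} {t : ℕ} (hT : TF Ω t) : Nonempty (Opt Ω t) := by
  classical
  obtain ⟨d, S, L, m, hS, hL, hm, hinj⟩ := exists_deficiency (R Ω t)
  refine ⟨⟨d, L, m, hL, hm, hinj, ?_⟩⟩
  let x : V → ℝ := fun v => ((if v ∈ S then 1 else 0) + (if v ∈ Nb (R Ω t) S then 0 else 1)) / 2
  have hx1 : ∀ v, x v ≤ 1 := by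
    intro v; simp only [x]; split_ifs <;> norm_num
  have hx0 : ∀ v, 0 ≤ x v := by
    intro v; simp only [x]; split_ifs <;> norm_num
  have hx2 : ∀ v w, R Ω t v w → x v + x w ≤ 1 := by
    intro v w hvw
    have h1 : v ∈ S → w ∈ Nb (R Ω t) S := fun h => mem_Nb.2 ⟨v, h, hvw⟩
    have h2 : w ∈ S → v ∈ Nb (R Ω t) S := fun h => mem_Nb.2 ⟨w, h, R_symm hvw⟩
    simp only [x]
    split_ifs with a b c e <;> first | (exfalso; tauto) | norm_num
  refine ⟨x, ⟨hx0, fun f hf q => ?_⟩, ?_⟩
  · have hc := hT f hf q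
    rcases Nat.lt_or_ge 1 (fib f q).card with h | h
    · obtain ⟨v, w, hne, hvw⟩ := Finset.card_eq_two.1 (by omega : (fib f q).card = 2)
      rw [hvw, Finset.sum_pair hne]
      apply hx2
      refine ⟨hne, f, hf, ?_⟩
      have e1 : v ∈ fib f q := by rw [hvw]; simp
      have e2 : w ∈ fib f q := by rw [hvw]; simp
      rw [mem_fib.1 e1, mem_fib.1 e2]
    · rcases Nat.lt_or_ge 0 (fib f q).card with h' | h'
      · obtain ⟨v, hv⟩ := Finset.card_eq_one.1 (by omega : (fib f q).card = 1)
        rw [hv, Finset.sum_singleton]; exact hx1 v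
      · rw [Finset.card_eq_zero.1 (by omega : (fib f q).card = 0)]; simp
  · have e1 : ∑ v : V, (if v ∈ S then (1 : ℝ) else 0) = S.card := by
      rw [Finset.sum_ite_mem, Finset.univ_inter, Finset.sum_const, nsmul_eq_mul, mul_one]
    have e2 : ∑ v : V, (if v ∈ Nb (R Ω t) S then (0 : ℝ) else 1)
        = Fintype.card V - (Nb (R Ω t) S).card := by
      have : ∀ v : V, (if v ∈ Nb (R Ω t) S then (0 : ℝ) else 1)
          = 1 - (if v ∈ Nb (R Ω t) S then (1 : ℝ) else 0) := by
        intro v; split_ifs <;> norm_num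
      rw [Finset.sum_congr rfl fun v _ => this v, Finset.sum_sub_distrib, Finset.sum_ite_mem,
        Finset.univ_inter, Finset.sum_const, Finset.sum_const, nsmul_eq_mul, nsmul_eq_mul,
        mul_one, mul_one, Finset.card_univ]
    have e3 : tot x = (∑ v : V, (if v ∈ S then (1 : ℝ) else 0)
        + ∑ v : V, (if v ∈ Nb (R Ω t) S then (0 : ℝ) else 1)) / 2 := by
      unfold tot
      rw [← Finset.sum_add_distrib, Finset.sum_div]
    rw [e3, e1, e2, hS]
    push_cast
    ring

variable {Ω : Set (V → V)} {t : ℕ}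

/-- the sum over `L` is large -/
lemma Opt.sum_ge (o : Opt Ω t) {x : V → ℝ} (hx : x ∈ X Ω t) :
    2 * tot x - 2 * (Fintype.card V - o.L.card) ≤ ∑ v ∈ o.L, (x v + x (o.m v)) := by
  classical
  have h1 : tot x - (Fintype.card V - o.L.card) ≤ ∑ v ∈ o.L, x v := by
    have e := Finset.sum_sdiff (f := x) (Finset.subset_univ o.L)
    have e2 : ∑ v ∈ univ \ o.L, x v ≤ ((univ \ o.L).card : ℝ) := by
      have := Finset.sum_le_card_nsmul (univ \ o.L) x 1 fun v _ => X_le_one hx v
      simpa using this
    have e3 : ((univ \ o.L).card : ℝ) = Fintype.card V - o.L.card := by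
      have := Finset.card_sdiff_add_card_eq_card (Finset.subset_univ o.L)
      rw [Finset.card_univ] at this
      rw [← this]; push_cast; ring
    unfold tot; linarith
  have h2 : tot x - (Fintype.card V - o.L.card) ≤ ∑ v ∈ o.L, x (o.m v) := by
    have e0 : ∑ v ∈ o.L, x (o.m v) = ∑ w ∈ o.L.image o.m, x w := by
      rw [Finset.sum_image]; exact o.hinj
    have ec : (o.L.image o.m).card = o.L.card := Finset.card_image_of_injOn o.hinj
    have e := Finset.sum_sdiff (f := x) (Finset.subset_univ (o.L.image o.m))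
    have e2 : ∑ v ∈ univ \ (o.L.image o.m), x v ≤ ((univ \ (o.L.image o.m)).card : ℝ) := by
      have := Finset.sum_le_card_nsmul (univ \ (o.L.image o.m)) x 1 fun v _ => X_le_one hx v
      simpa using this
    have e3 : ((univ \ (o.L.image o.m)).card : ℝ) = Fintype.card V - o.L.card := by
      have := Finset.card_sdiff_add_card_eq_card (Finset.subset_univ (o.L.image o.m))
      rw [Finset.card_univ, ec] at this
      rw [← this]; push_cast; ring
    unfold tot; rw [e0]; linarith
  rw [Finset.sum_add_distrib]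
  linarith

lemma Opt.sum_le (o : Opt Ω t) {x : V → ℝ} (hx : x ∈ X Ω t) :
    ∑ v ∈ o.L, (x v + x (o.m v)) ≤ o.L.card := by
  have := Finset.sum_le_card_nsmul o.L (fun v => x v + x (o.m v)) 1
    fun v hv => X_pair hx (o.hm v hv)
  simpa using this

lemma Opt.tot_le (o : Opt Ω t) {x : V → ℝ} (hx : x ∈ X Ω t) :
    2 * tot x ≤ Fintype.card V + o.d := by
  have h1 := o.sum_ge hx
  have h2 := o.sum_le hx
  have h3 : (Fintype.card V : ℝ) ≤ o.L.card + o.d := by exact_mod_cast o.hL
  linarith

/-- complementary slackness -/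
lemma Opt.slack (o : Opt Ω t) {x : V → ℝ} (hx : x ∈ X Ω t)
    (htot : 2 * tot x = Fintype.card V + o.d) :
    (∀ v ∈ o.L, x v + x (o.m v) = 1) ∧ (∀ v, v ∉ o.L → x v = 1) ∧
      o.L.card + o.d = Fintype.card V := by
  classical
  have h1 := o.sum_ge hx
  have h2 := o.sum_le hx
  have h3 : (Fintype.card V : ℝ) ≤ o.L.card + o.d := by exact_mod_cast o.hL
  have h4 : ∑ v ∈ o.L, (x v + x (o.m v)) = o.L.card := by linarith
  have h5 : (o.L.card : ℝ) + o.d = Fintype.card V := by linarith
  refine ⟨?_, ?_, by exact_mod_cast h5⟩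
  · intro v hv
    by_contra hne
    have hlt : x v + x (o.m v) < 1 := lt_of_le_of_ne (X_pair hx (o.hm v hv)) hne
    have := Finset.sum_lt_sum (s := o.L) (f := fun v => x v + x (o.m v)) (g := fun _ => (1 : ℝ))
      (fun w hw => X_pair hx (o.hm w hw)) ⟨v, hv, hlt⟩
    simp only [Finset.sum_const, nsmul_eq_mul, mul_one] at this
    linarith
  · intro v hv
    by_contra hne
    have hlt : x v < 1 := lt_of_le_of_ne (X_le_one hx v) hne
    -- redo the first estimate strictly
    have e := Finset.sum_sdiff (f := x) (Finset.subset_univ o.L)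
    have e2 : ∑ v ∈ univ \ o.L, x v < ((univ \ o.L).card : ℝ) := by
      have := Finset.sum_lt_sum (s := univ \ o.L) (f := x) (g := fun _ => (1 : ℝ))
        (fun w _ => X_le_one hx w) ⟨v, by simp [hv], hlt⟩
      simpa using this
    have e3 : ((univ \ o.L).card : ℝ) = Fintype.card V - o.L.card := by
      have := Finset.card_sdiff_add_card_eq_card (Finset.subset_univ o.L)
      rw [Finset.card_univ] at this
      rw [← this]; push_cast; ring
    have e0 : ∑ v ∈ o.L, x (o.m v) = ∑ w ∈ o.L.image o.m, x w := by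
      rw [Finset.sum_image]; exact o.hinj
    have ec : (o.L.image o.m).card = o.L.card := Finset.card_image_of_injOn o.hinj
    have f1 := Finset.sum_sdiff (f := x) (Finset.subset_univ (o.L.image o.m))
    have f2 : ∑ v ∈ univ \ (o.L.image o.m), x v ≤ ((univ \ (o.L.image o.m)).card : ℝ) := by
      have := Finset.sum_le_card_nsmul (univ \ (o.L.image o.m)) x 1 fun v _ => X_le_one hx v
      simpa using this
    have f3 : ((univ \ (o.L.image o.m)).card : ℝ) = Fintype.card V - o.L.card := by
      have := Finset.card_sdiff_add_card_eq_card (Finset.subset_univ (o.L.image o.m))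
      rw [Finset.card_univ, ec] at this
      rw [← this]; push_cast; ring
    rw [Finset.sum_add_distrib, e0] at h4
    unfold tot at htot
    linarith

end lp

end Pool.Agent.H173.TR
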