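import Pool.Agent.H173.TRGraph

/-!
# The upper bound
-/

set_option autoImplicit false

namespace Pool.Agent.H173.TR

open Finset

section sc
variable {V : Type} [Fintype V] [DecidableEq V] {Ω : Set (V → V)}

lemma exists_window {N J : ℕ} (hT : TF Ω N) (hJ : (J + 1) * Fintype.card V ≤ N) (hJ1 : 1 ≤ J) :
    ∃ j, 1 ≤ j ∧ j ≤ J ∧ 2 * J * (K Ω (j * Fintype.card V + Fintype.card V)
      - K Ω (j * Fintype.card V)) ≤ Fintype.card V := by
  by_contra hcon
  push Not at hcon
  set n := Fintype.card V with hn
  have h1 : ∀ i, i ≤ J → i * (n + 1) ≤ 2 * J * K Ω (i * n + n) := by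
    intro i
    induction i with
    | zero => intro _; simp
    | succ i ih =>
      intro hi
      have h2 := ih (by omega)
      have h3 := hcon (i + 1) (by omega) hi
      have h4 : K Ω ((i + 1) * n) ≤ K Ω ((i + 1) * n + n) := K_mono (by omega)
      have e1 : (i + 1) * n = i * n + n := by ring
      rw [e1] at h3 h4 ⊢
      obtain ⟨r, hr⟩ := Nat.exists_eq_add_of_le h4
      rw [hr] at h3 ⊢
      rw [Nat.add_sub_cancel_left] at h3
      have e2 : 2 * J * (K Ω (i * n + n) + r) = 2 * J * K Ω (i * n + n) + 2 * J * r := by ring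
      rw [e2]
      have e3 : (i + 1) * (n + 1) = i * (n + 1) + (n + 1) := by ring
      rw [e3]
      omega
  have h2 := h1 J le_rfl
  have h3 : 2 * K Ω (J * n + n) ≤ n :=
    two_K_le (TF_mono (by rw [← Nat.succ_mul]; exact hJ) hT)
  have h4 : J * (n + 1) ≤ J * n := by
    calc J * (n + 1) ≤ 2 * J * K Ω (J * n + n) := h2
      _ = J * (2 * K Ω (J * n + n)) := by ring
      _ ≤ J * n := Nat.mul_le_mul_left _ h3
  have h5 : J * (n + 1) = J * n + J := by ring
  omega

/-- the bound for strongly connected automata -/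
theorem sc_bound (hV : 3 ≤ Fintype.card V) (hs : Sync Ω) (hsc : SC Ω) {N : ℕ} (hT : TF Ω N) :
    8 * N ≤ Fintype.card V ^ 2 + 6 * Fintype.card V * Nat.sqrt (Fintype.card V)
      + 13 * Fintype.card V + 4 := by
  set n := Fintype.card V with hn
  set J := Nat.sqrt n with hJ
  have hJ1 : 1 ≤ J := by
    rw [hJ, Nat.le_sqrt]; omega
  have hJ2 : J * J ≤ n := Nat.sqrt_le n
  have hJ3 : n ≤ J * J + 2 * J := by
    have h := Nat.lt_succ_sqrt n
    have e : (J + 1) * (J + 1) = J * J + 2 * J + 1 := by ring
    have h' : n < (J + 1) * (J + 1) := h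
    omega
  by_cases hN : (J + 1) * n ≤ N
  · obtain ⟨j, hj1, hj2, hj3⟩ := exists_window hT hN hJ1
    rw [← hn] at hj3
    set k := K Ω (j * n) with hk
    set g := K Ω (j * n + n) - k with hg
    have hjn : j * n + n ≤ N := by
      calc j * n + n = (j + 1) * n := by ring
        _ ≤ (J + 1) * n := Nat.mul_le_mul_right _ (by omega)
        _ ≤ N := hN
    have h1 := edge_bound hV hs hsc hT (by rw [← hn]; nlinarith) (ℓ := j * n)
      (by rw [← hn]; exact hjn)
    rw [← hn, ← hk, ← hg] at h1
    have hKn : K Ω n ≤ k := K_mono (by nlinarith)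
    obtain ⟨f, hf, hfk⟩ := exists_K Ω (j * n)
    have h2 := plateau_bound hV hs hT (by omega : j * n ≤ N) hf
    rw [← hn, hfk, ← hk] at h2
    have h3 : k * K Ω n ≤ k * k := Nat.mul_le_mul_left _ hKn
    have hnN : n ≤ N := by omega
    -- to integers
    have e1 : ((N - n : ℕ) : ℤ) = (N : ℤ) - n := by omega
    have h4 : (N : ℤ) - n ≤ (k : ℤ) * k + n * g := by
      have : ((N - n : ℕ) : ℤ) ≤ ((k * k + n * g : ℕ) : ℤ) := by
        exact_mod_cast h1.trans (Nat.add_le_add_right h3 _)
      rw [e1] at this
      push_cast at this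
      exact this
    have h5 : 2 * (J : ℤ) * g ≤ n := by exact_mod_cast hj3
    have h6 : 4 * ((N : ℤ) - j * n) ≤ (n + 1 - 2 * k) * (n + 4 + 2 * k) := by
      have := h2
      push_cast at this
      exact this
    have hn0 : (0 : ℤ) ≤ n := Int.natCast_nonneg _
    have hk0 : (0 : ℤ) ≤ k := Int.natCast_nonneg _
    have hJ0 : (1 : ℤ) ≤ J := by exact_mod_cast hJ1
    have hjJ : (j : ℤ) ≤ J := by exact_mod_cast hj2
    have hJ3' : (n : ℤ) ≤ J * J + 2 * J := by exact_mod_cast hJ3
    -- 4 * J * (N - n) ≤ 4 * J * k^2 + 2 n^2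
    have h7 : 4 * (J : ℤ) * ((N : ℤ) - n) ≤ 4 * J * (k * k) + 2 * n * n := by
      have h8 : 4 * (J : ℤ) * ((N : ℤ) - n) ≤ 4 * J * (k * k + n * g) :=
        mul_le_mul_of_nonneg_left h4 (by linarith)
      have h9 : 2 * (n : ℤ) * (2 * J * g) ≤ 2 * n * n := mul_le_mul_of_nonneg_left h5 (by linarith)
      nlinarith
    have h8 : 4 * (J : ℤ) * ((N : ℤ) - J * n) ≤ J * (n * n + 5 * n + 4 - 4 * (k * k)) := by
      have h9 : 4 * ((N : ℤ) - J * n) ≤ n * n + 5 * n + 4 - 4 * (k * k) := by
        have : (j : ℤ) * n ≤ J * n := mul_le_mul_of_nonneg_right hjJ hn0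
        nlinarith
      have := mul_le_mul_of_nonneg_left h9 (by linarith : (0 : ℤ) ≤ J)
      linarith
    have h9 : 2 * (n : ℤ) * n ≤ 2 * n * (J * J + 2 * J) :=
      mul_le_mul_of_nonneg_left hJ3' (by linarith)
    have h10 : (J : ℤ) * (8 * N) ≤ J * (n ^ 2 + 6 * n * J + 13 * n + 4) := by
      nlinarith
    have h11 : (8 : ℤ) * N ≤ n ^ 2 + 6 * n * J + 13 * n + 4 :=
      le_of_mul_le_mul_left h10 (by linarith)
    exact_mod_cast h11
  · push Not at hN
    have h1 : (J + 1) * n = J * n + n := by ring
    have h2 : 2 * J ≤ n + 1 := by nlinarith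
    have h3 : 2 * J * n ≤ (n + 1) * n := Nat.mul_le_mul_right _ h2
    nlinarith

end sc

section sink
variable {V : Type} [Fintype V] [DecidableEq V] {Ω : Set (V → V)}

/-- closed sets -/
def Closed (Ω : Set (V → V)) (S : Finset V) : Prop := ∀ c ∈ Ω, ∀ v ∈ S, c v ∈ S

omit [Fintype V] [DecidableEq V] in
lemma Closed.word {S : Finset V} (h : Closed Ω S) : ∀ t, ∀ f ∈ W Ω t, ∀ v ∈ S, f v ∈ S := by
  intro t
  induction t with
  | zero => intro f hf v hv; have : f = id := hf; rw [this]; exact hv
  | succ t ih =>
    intro f hf v hv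
    rcases hf with hf | ⟨g, hg, c, hc, rfl⟩
    · exact ih f hf v hv
    · exact ih g hg _ (h c hc v hv)

/-- the automaton restricted to a closed set -/
def res (Ω : Set (V → V)) (S : Finset V) : Set (S → S) :=
  {g | ∃ c ∈ Ω, ∀ v : S, (g v).1 = c v.1}

omit [Fintype V] [DecidableEq V] in
lemma res_lift {S : Finset V} : ∀ t, ∀ g ∈ W (res Ω S) t, ∃ f ∈ W Ω t, ∀ v : S, (g v).1 = f v.1 := by
  intro t
  induction t with
  | zero =>
    intro g hg
    have : g = id := hg
    exact ⟨id, rfl, fun v => by rw [this]; rfl⟩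
  | succ t ih =>
    intro g hg
    rcases hg with hg | ⟨g', hg', c', ⟨c, hc, hcc⟩, rfl⟩
    · obtain ⟨f, hf, h⟩ := ih g hg
      exact ⟨f, W_succ Ω t hf, h⟩
    · obtain ⟨f, hf, h⟩ := ih g' hg'
      exact ⟨f ∘ c, comp_letter hf hc, fun v => by
        rw [Function.comp_apply, h, hcc, Function.comp_apply]⟩

omit [Fintype V] [DecidableEq V] in
lemma res_down {S : Finset V} (hS : Closed Ω S) : ∀ t, ∀ f ∈ W Ω t,
    ∃ g ∈ W (res Ω S) t, ∀ v : S, (g v).1 = f v.1 := by
  intro t
  induction t with
  | zero =>
    intro f hf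
    have : f = id := hf
    exact ⟨id, rfl, fun v => by rw [this]; rfl⟩
  | succ t ih =>
    intro f hf
    rcases hf with hf | ⟨f', hf', c, hc, rfl⟩
    · obtain ⟨g, hg, h⟩ := ih f hf
      exact ⟨g, W_succ _ t hg, h⟩
    · obtain ⟨g, hg, h⟩ := ih f' hf'
      let c' : S → S := fun v => ⟨c v.1, hS c hc v.1 v.2⟩
      have hc' : c' ∈ res Ω S := ⟨c, hc, fun v => rfl⟩
      exact ⟨g ∘ c', comp_letter hg hc', fun v => by
        rw [Function.comp_apply, h]; rfl⟩

/-- the bound for all synchronizing automata -/
theorem main_bound (hV : 3 ≤ Fintype.card V) (hs : Sync Ω) {N : ℕ} (hT : TF Ω N) :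
    8 * N ≤ Fintype.card V ^ 2 + 6 * Fintype.card V * Nat.sqrt (Fintype.card V)
      + 13 * Fintype.card V + 4 := by
  classical
  have hne : Nonempty V := Fintype.card_pos_iff.1 (by omega)
  -- a minimal closed set
  let 𝒮 : Finset (Finset V) := univ.filter (fun S => S.Nonempty ∧ Closed Ω S)
  have h𝒮 : 𝒮.Nonempty := ⟨univ, by
    simp only [𝒮, Finset.mem_filter, Finset.mem_univ, true_and]
    exact ⟨Finset.univ_nonempty, fun c _ v _ => Finset.mem_univ _⟩⟩
  obtain ⟨S, hS, hmin⟩ := Finset.exists_min_image 𝒮 (fun S => S.card) h𝒮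
  simp only [𝒮, Finset.mem_filter, Finset.mem_univ, true_and] at hS hmin
  obtain ⟨hSne, hScl⟩ := hS
  obtain ⟨t0, f0, hf0, hconst⟩ := hs
  -- injective letters on a set cannot merge
  by_cases hS3 : 3 ≤ S.card
  · -- restrict to `S`
    have hcard : Fintype.card S = S.card := Fintype.card_coe S
    have hsync : Sync (res Ω S) := by
      obtain ⟨g, hg, h⟩ := res_down hScl t0 f0 hf0
      exact ⟨t0, g, hg, fun v w => Subtype.ext (by rw [h, h]; exact hconst _ _)⟩
    have hsc : SC (res Ω S) := by
      intro p q
      let S' : Finset V := univ.filter (fun v => ∃ t, ∃ f ∈ W Ω t, f p.1 = v)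
      have h1 : S' ⊆ S := by
        intro v hv
        simp only [S', Finset.mem_filter, Finset.mem_univ, true_and] at hv
        obtain ⟨t, f, hf, rfl⟩ := hv
        exact hScl.word t f hf p.1 p.2
      have h2 : S'.Nonempty ∧ Closed Ω S' := by
        refine ⟨⟨p.1, ?_⟩, ?_⟩
        · simp only [S', Finset.mem_filter, Finset.mem_univ, true_and]
          exact ⟨0, id, rfl, rfl⟩
        · intro c hc v hv
          simp only [S', Finset.mem_filter, Finset.mem_univ, true_and] at hv ⊢
          obtain ⟨t, f, hf, rfl⟩ := hv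
          exact ⟨t + 1, c ∘ f, letter_comp hc hf, rfl⟩
      have h3 : S' = S := Finset.eq_of_subset_of_card_le h1 (hmin S' h2)
      have h4 : q.1 ∈ S' := by rw [h3]; exact q.2
      simp only [S', Finset.mem_filter, Finset.mem_univ, true_and] at h4
      obtain ⟨t, f, hf, hfq⟩ := h4
      obtain ⟨g, hg, h⟩ := res_down hScl t f hf
      exact ⟨t, g, hg, Subtype.ext (by rw [h]; exact hfq)⟩
    have hTF : TF (res Ω S) N := by
      intro g hg q
      obtain ⟨f, hf, h⟩ := res_lift N g hg
      have h1 := hT f hf q.1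
      have h2 : ((fib g q).image Subtype.val) ⊆ fib f q.1 := by
        intro v hv
        rw [Finset.mem_image] at hv
        obtain ⟨w, hw, rfl⟩ := hv
        rw [mem_fib] at hw ⊢
        rw [← h, hw]
      have h3 := Finset.card_le_card h2
      rw [Finset.card_image_of_injective _ Subtype.val_injective] at h3
      omega
    have h1 := sc_bound (by omega) hsync hsc hTF
    rw [hcard] at h1
    have h2 : S.card ≤ Fintype.card V := Finset.card_le_univ S
    have h3 : Nat.sqrt S.card ≤ Nat.sqrt (Fintype.card V) := Nat.sqrt_le_sqrt h2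
    have h4 : S.card ^ 2 ≤ Fintype.card V ^ 2 := Nat.pow_le_pow_left h2 2
    have h5 : 6 * S.card * Nat.sqrt S.card ≤ 6 * Fintype.card V * Nat.sqrt (Fintype.card V) :=
      Nat.mul_le_mul (Nat.mul_le_mul_left _ h2) h3
    omega
  · -- small sink component
    have hkey : ¬ TF Ω (Fintype.card V) := by
      intro hTn
      have hmerge : ∀ (P : V → V → Prop), (∀ c ∈ Ω, ∀ v w, P v w → P (c v) (c w)) →
          ∀ t, ∀ f ∈ W Ω t, ∀ v w, P v w → P (f v) (f w) := by
        intro P hP t
        induction t with
        | zero => intro f hf v w h; have : f = id := hf; rw [this]; exact h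
        | succ t ih =>
          intro f hf v w h
          rcases hf with hf | ⟨g, hg, c, hc, rfl⟩
          · exact ih f hf v w h
          · exact ih g hg _ _ (hP c hc v w h)
      obtain ⟨q, hq⟩ := hSne
      have hnS : Fintype.card V - 1 + 1 = Fintype.card V := by omega
      by_cases h1 : S.card = 1
      · -- a sink state
        obtain ⟨q', hq'⟩ := Finset.card_eq_one.1 h1
        have hqq : q = q' := by rw [hq', Finset.mem_singleton] at hq; exact hq
        subst hqq
        have hfix : ∀ t, ∀ f ∈ W Ω t, f q = q := by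
          intro t f hf
          have := hScl.word t f hf q (by rw [hq']; exact Finset.mem_singleton_self q)
          rw [hq', Finset.mem_singleton] at this
          exact this
        have h2 : ∃ c ∈ Ω, ∃ p, p ≠ q ∧ c p = q := by
          by_contra hcon
          push Not at hcon
          obtain ⟨p, hp⟩ := Fintype.exists_ne_of_one_lt_card (by omega : 1 < Fintype.card V) q
          have h3 := hmerge (fun v w => v ≠ q ∧ w = w) (fun c hc v w h => ⟨hcon c hc v h.1, rfl⟩)
            t0 f0 hf0 p p ⟨hp, rfl⟩
          exact h3.1 (by rw [hconst p q]; exact hfix t0 f0 hf0)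
        obtain ⟨c, hc, p, hp, hcp⟩ := h2
        have h3 : ∃ r, r ≠ q ∧ r ≠ p := by
          by_contra hcon
          push Not at hcon
          have h4 : (univ : Finset V) ⊆ {q, p} := by
            intro r _
            rw [Finset.mem_insert, Finset.mem_singleton]
            by_cases hr : r = q
            · exact Or.inl hr
            · exact Or.inr (hcon r hr)
          have h5 := Finset.card_le_card h4
          have h6 : ({q, p} : Finset V).card ≤ 2 := Finset.card_le_two
          rw [Finset.card_univ] at h5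
          omega
        obtain ⟨r, hr1, hr2⟩ := h3
        have h4 : q ∈ reach Ω t0 (c r) := by
          rw [mem_reach]
          exact ⟨f0, hf0, by rw [hconst (c r) q]; exact hfix t0 f0 hf0⟩
        have h5 := reach_stable (c r) t0 h4
        rw [mem_reach] at h5
        obtain ⟨g, hg, hgq⟩ := h5
        have h6 := hTn (g ∘ c) (by have := comp_letter hg hc; rwa [hnS] at this) q
        have h7 : ({q, p, r} : Finset V) ⊆ fib (g ∘ c) q := by
          intro v hv
          simp only [Finset.mem_insert, Finset.mem_singleton] at hv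
          rw [mem_fib]
          have hcq : c q = q := hfix 1 c (letter_mem hc)
          rcases hv with rfl | rfl | rfl
          · rw [Function.comp_apply, hcq]; exact hfix _ g hg
          · rw [Function.comp_apply, hcp]; exact hfix _ g hg
          · exact hgq
        have h8 : ({q, p, r} : Finset V).card = 3 := by
          rw [Finset.card_eq_three]
          exact ⟨q, p, r, hp.symm, hr1.symm, hr2.symm, rfl⟩
        have := Finset.card_le_card h7
        omega
      · -- two states
        have hpos := Finset.card_pos.2 ⟨q, hq⟩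
        obtain ⟨q1, q2, hq12, hSq⟩ := Finset.card_eq_two.1 (by omega : S.card = 2)
        have hm1 : q1 ∈ S := by rw [hSq]; simp
        have hm2 : q2 ∈ S := by rw [hSq]; simp
        have h2 : ∃ c ∈ Ω, c q1 = c q2 := by
          by_contra hcon
          push Not at hcon
          have h3 := hmerge (fun v w => v ∈ S ∧ w ∈ S ∧ v ≠ w) (by
            rintro c hc v w ⟨hv, hw, hvw⟩
            refine ⟨hScl c hc v hv, hScl c hc w hw, ?_⟩
            rw [hSq, Finset.mem_insert, Finset.mem_singleton] at hv hw
            rcases hv with rfl | rfl <;> rcases hw with rfl | rfl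
            · exact absurd rfl hvw
            · exact hcon c hc
            · exact (hcon c hc).symm
            · exact absurd rfl hvw) t0 f0 hf0 q1 q2 ⟨hm1, hm2, hq12⟩
          exact h3.2.2 (hconst q1 q2)
        obtain ⟨c, hc, hcq⟩ := h2
        have h3 : ∃ p, p ∉ S := by
          by_contra hcon
          push Not at hcon
          have h4 : (univ : Finset V) ⊆ S := fun r _ => hcon r
          have h5 := Finset.card_le_card h4
          rw [Finset.card_univ] at h5
          omega
        obtain ⟨p, hp⟩ := h3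
        have h4 : f0 q1 ∈ reach Ω t0 p := by
          rw [mem_reach]; exact ⟨f0, hf0, hconst p q1⟩
        have h5 := reach_stable p t0 h4
        rw [mem_reach] at h5
        obtain ⟨g, hg, hgq⟩ := h5
        have hcS : ∀ v ∈ S, c v = c q1 := by
          intro v hv
          rw [hSq, Finset.mem_insert, Finset.mem_singleton] at hv
          rcases hv with rfl | rfl
          · rfl
          · exact hcq.symm
        have h6 := hTn (c ∘ g) (by have := letter_comp hc hg; rwa [hnS] at this) (c q1)
        have h7 : ({p, q1, q2} : Finset V) ⊆ fib (c ∘ g) (c q1) := by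
          intro v hv
          simp only [Finset.mem_insert, Finset.mem_singleton] at hv
          rw [mem_fib]
          rcases hv with rfl | rfl | rfl
          · exact hcS _ (by rw [hgq]; exact hScl.word t0 f0 hf0 q1 hm1)
          · exact hcS _ (hScl.word _ g hg _ hm1)
          · exact hcS _ (hScl.word _ g hg _ hm2)
        have h8 : ({p, q1, q2} : Finset V).card = 3 := by
          rw [Finset.card_eq_three]
          exact ⟨p, q1, q2, fun h => hp (by rw [h]; exact hm1), fun h => hp (by rw [h]; exact hm2),
            hq12, rfl⟩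
        have := Finset.card_le_card h7
        omega
    have hN : N < Fintype.card V := by
      by_contra hcon
      push Not at hcon
      exact hkey (TF_mono hcon hT)
    nlinarith

end sink

end Pool.Agent.H173.TR
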