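import Pool.Agent.H173.TRLP

/-!
# The dimension of the optimal face drops as long as the optimum does not change
-/

set_option autoImplicit false

namespace Pool.Agent.H173.TR

open Finset

section
variable {V : Type} [Fintype V] [DecidableEq V]

omit [Fintype V] in
lemma exists_reps (m : V → V) : ∀ (n : ℕ) (L : Finset V), L.card = n → (∀ v ∈ L, m v ≠ v) →
    ∃ T : Finset V, 2 * T.card ≤ L.card ∧ ∀ z : V → ℝ, (∀ v, v ∉ L → z v = 0) →
      (∀ v ∈ L, z v + z (m v) = 0) → (∀ v ∈ T, z v = 0) → z = 0 := by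
  intro n
  induction n using Nat.strong_induction_on with
  | _ n ih =>
    intro L hL hm
    rcases L.eq_empty_or_nonempty with rfl | ⟨v, hv⟩
    · refine ⟨∅, by simp, fun z hz _ _ => ?_⟩
      ext v; exact hz v (Finset.notMem_empty v)
    · by_cases hmv : m v ∈ L
      · let L' := (L.erase v).erase (m v)
        have hmv' : m v ∈ L.erase v := Finset.mem_erase.2 ⟨hm v hv, hmv⟩
        have hc1 : L'.card + 2 = L.card := by
          have h1 := Finset.card_erase_add_one hv
          have h2 := Finset.card_erase_add_one hmv'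
          simp only [L']; omega
        have hsub : ∀ w ∈ L', w ∈ L := fun w hw =>
          Finset.mem_of_mem_erase (Finset.mem_of_mem_erase hw)
        obtain ⟨T, hT, hT'⟩ := ih L'.card (by omega) L' rfl (fun w hw => hm w (hsub w hw))
        refine ⟨insert v T, ?_, fun z hz1 hz2 hz3 => ?_⟩
        · have := Finset.card_insert_le v T
          omega
        · have hzv : z v = 0 := hz3 v (Finset.mem_insert_self v T)
          have hzmv : z (m v) = 0 := by have := hz2 v hv; linarith
          refine hT' z (fun w hw => ?_) (fun w hw => hz2 w (hsub w hw))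
            (fun w hw => hz3 w (Finset.mem_insert_of_mem hw))
          by_cases h1 : w = v
          · rw [h1]; exact hzv
          · by_cases h2 : w = m v
            · rw [h2]; exact hzmv
            · refine hz1 w fun h => hw ?_
              exact Finset.mem_erase.2 ⟨h2, Finset.mem_erase.2 ⟨h1, h⟩⟩
      · obtain ⟨T, hT, hT'⟩ := ih (L.erase v).card
          (by rw [← hL]; exact Finset.card_erase_lt_of_mem hv) (L.erase v) rfl
          (fun w hw => hm w (Finset.mem_of_mem_erase hw))
        refine ⟨T, ?_, fun z hz1 hz2 hz3 => ?_⟩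
        · have := Finset.card_erase_add_one hv; omega
        · have hzv : z v = 0 := by
            have h1 := hz2 v hv
            have h2 := hz1 _ hmv
            linarith
          refine hT' z (fun w hw => ?_) (fun w hw => hz2 w (Finset.mem_of_mem_erase hw)) hz3
          by_cases h1 : w = v
          · rw [h1]; exact hzv
          · exact hz1 w fun h => hw (Finset.mem_erase.2 ⟨h1, h⟩)

/-- the optimal face -/
def F (Ω : Set (V → V)) (t d : ℕ) : Set (V → ℝ) :=
  {x | x ∈ X Ω t ∧ 2 * tot x = Fintype.card V + d}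

/-- the linear span of the optimal face -/
noncomputable def B (Ω : Set (V → V)) (t d : ℕ) : Submodule ℝ (V → ℝ) :=
  Submodule.span ℝ (F Ω t d)

/-- the space of solutions of the homogeneous system of tight constraints -/
def Hs {Ω : Set (V → V)} {t : ℕ} (o : Opt Ω t) : Submodule ℝ (V → ℝ) where
  carrier := {z | (∀ v ∈ o.L, ((Fintype.card V : ℝ) + o.d) * (z v + z (o.m v)) = 2 * tot z) ∧
    ∀ v, v ∉ o.L → ((Fintype.card V : ℝ) + o.d) * z v = 2 * tot z}
  add_mem' := by
    rintro x y ⟨hx1, hx2⟩ ⟨hy1, hy2⟩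
    have ht : tot (x + y) = tot x + tot y := by
      unfold tot; simp [Finset.sum_add_distrib]
    refine ⟨fun v hv => ?_, fun v hv => ?_⟩
    · rw [ht, Pi.add_apply, Pi.add_apply]; linear_combination hx1 v hv + hy1 v hv
    · rw [ht, Pi.add_apply]; linear_combination hx2 v hv + hy2 v hv
  zero_mem' := by
    have ht : tot (0 : V → ℝ) = 0 := by unfold tot; simp
    refine ⟨fun v hv => ?_, fun v hv => ?_⟩
    · simp [ht]
    · simp [ht]
  smul_mem' := by
    rintro a x ⟨hx1, hx2⟩
    have ht : tot (a • x) = a * tot x := by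
      unfold tot; simp [Finset.mul_sum]
    refine ⟨fun v hv => ?_, fun v hv => ?_⟩
    · rw [ht, Pi.smul_apply, Pi.smul_apply, smul_eq_mul, smul_eq_mul]
      linear_combination a * hx1 v hv
    · rw [ht, Pi.smul_apply, smul_eq_mul]
      linear_combination a * hx2 v hv

variable {Ω : Set (V → V)} {t : ℕ}

lemma B_le_Hs (o : Opt Ω t) : B Ω t o.d ≤ Hs o := by
  refine Submodule.span_le.2 ?_
  rintro x ⟨hx, htot⟩
  obtain ⟨h1, h2, _⟩ := o.slack hx htot
  refine ⟨fun v hv => ?_, fun v hv => ?_⟩
  · rw [h1 v hv, htot, mul_one]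
  · rw [h2 v hv, htot, mul_one]

lemma finrank_B_le (hV : 1 ≤ Fintype.card V) (o : Opt Ω t) :
    Module.finrank ℝ (B Ω t o.d) ≤ 1 + (Fintype.card V - o.d) / 2 := by
  have hne : ∀ v ∈ o.L, o.m v ≠ v := fun v hv h => (o.hm v hv).1 h.symm
  obtain ⟨T, hT, hT'⟩ := exists_reps o.m _ o.L rfl hne
  have hpos : (0 : ℝ) < (Fintype.card V : ℝ) + o.d := by
    have : (1 : ℝ) ≤ Fintype.card V := by exact_mod_cast hV
    positivity
  -- the restriction map
  let φ : Hs o →ₗ[ℝ] (ℝ × (T → ℝ)) :=
    { toFun := fun z => (tot z.1, fun v => z.1 v.1)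
      map_add' := by
        intro x y
        refine Prod.ext ?_ ?_
        · simp [tot, Finset.sum_add_distrib]
        · ext v; simp
      map_smul' := by
        intro a x
        refine Prod.ext ?_ ?_
        · simp [tot, Finset.mul_sum]
        · ext v; simp }
  have hφ : Function.Injective φ := by
    rw [← LinearMap.ker_eq_bot, LinearMap.ker_eq_bot']
    intro z hz
    have h1 : tot z.1 = 0 := congrArg Prod.fst hz
    have h2 : ∀ v ∈ T, z.1 v = 0 := fun v hv => congrFun (congrArg Prod.snd hz) ⟨v, hv⟩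
    obtain ⟨h3, h4⟩ := z.2
    refine Subtype.ext (hT' z.1 (fun v hv => ?_) (fun v hv => ?_) h2)
    · have := h4 v hv
      rw [h1, mul_zero] at this
      rcases mul_eq_zero.1 this with h | h
      · exact absurd h hpos.ne'
      · exact h
    · have := h3 v hv
      rw [h1, mul_zero] at this
      rcases mul_eq_zero.1 this with h | h
      · exact absurd h hpos.ne'
      · exact h
  have h1 := LinearMap.finrank_le_finrank_of_injective hφ
  have h2 : Module.finrank ℝ (ℝ × (T → ℝ)) = 1 + T.card := by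
    rw [Module.finrank_prod, Module.finrank_self, Module.finrank_fintype_fun_eq_card,
      Fintype.card_coe]
  have h3 := Submodule.finrank_mono (B_le_Hs o)
  obtain ⟨x, hx, htot⟩ := o.hex
  have h4 := (o.slack hx htot).2.2
  omega

lemma one_le_finrank_B (hV : 1 ≤ Fintype.card V) (o : Opt Ω t) :
    1 ≤ Module.finrank ℝ (B Ω t o.d) := by
  obtain ⟨x, hx, htot⟩ := o.hex
  have hmem : x ∈ B Ω t o.d := Submodule.subset_span ⟨hx, htot⟩
  have hne : x ≠ 0 := by
    rintro rfl
    have : tot (0 : V → ℝ) = 0 := by unfold tot; simp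
    rw [this] at htot
    have h1 : (1 : ℝ) ≤ Fintype.card V := by exact_mod_cast hV
    have h2 : (0 : ℝ) ≤ (o.d : ℝ) := Nat.cast_nonneg _
    linarith
  have : Nontrivial (B Ω t o.d) := ⟨⟨⟨x, hmem⟩, 0, fun h => hne (congrArg Subtype.val h)⟩⟩
  exact Module.finrank_pos

lemma push_comp (f c : V → V) (x : V → ℝ) : push (f ∘ c) x = push f (push c x) := by
  ext q
  rw [push_apply, push_apply, sum_fib_push]

lemma push_id (x : V → ℝ) : push id x = x := by
  ext q
  rw [push_apply]
  have e : fib id q = {q} := by ext w; simp [mem_fib]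
  rw [e, Finset.sum_singleton]

/-- the key step: the dimension drops on plateaus -/
lemma finrank_lt (hV : 3 ≤ Fintype.card V) (hs : Sync Ω) (o : Opt Ω t) (o' : Opt Ω (t + 1))
    (hd : o'.d = o.d) :
    Module.finrank ℝ (B Ω (t + 1) o'.d) < Module.finrank ℝ (B Ω t o.d) := by
  have hsub : F Ω (t + 1) o'.d ⊆ F Ω t o.d := fun x hx =>
    ⟨X_mono (Nat.le_succ t) hx.1, by rw [hx.2, hd]⟩
  have hle : B Ω (t + 1) o'.d ≤ B Ω t o.d := Submodule.span_mono hsub
  refine Submodule.finrank_lt_finrank_of_lt (lt_of_le_of_ne hle fun heq => ?_)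
  -- the space is invariant
  have hinv : ∀ c ∈ Ω, ∀ z ∈ B Ω t o.d, push c z ∈ B Ω t o.d := by
    intro c hc z hz
    rw [← heq] at hz
    have h1 : B Ω (t + 1) o'.d ≤ (B Ω t o.d).comap (push c) := by
      refine Submodule.span_le.2 ?_
      intro x hx
      refine Submodule.subset_span ⟨push_mem hc hx.1, ?_⟩
      rw [tot_push, hx.2, hd]
    exact h1 hz
  have hinv' : ∀ s, ∀ f ∈ W Ω s, ∀ z ∈ B Ω t o.d, push f z ∈ B Ω t o.d := by
    intro s
    induction s with
    | zero =>
      intro f hf z hz
      have : f = id := hf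
      rw [this, push_id]; exact hz
    | succ s ih =>
      intro f hf z hz
      rcases hf with hf | ⟨f', hf', c, hc, rfl⟩
      · exact ih f hf z hz
      · rw [push_comp]
        exact ih f' hf' _ (hinv c hc z hz)
  obtain ⟨s, f, hf, hconst⟩ := hs
  obtain ⟨x, hx, htot⟩ := o.hex
  have hy := B_le_Hs o (hinv' s f hf x (Submodule.subset_span ⟨hx, htot⟩))
  obtain ⟨h1, h2⟩ := hy
  rw [tot_push, htot] at h1 h2
  have hcard : (3 : ℝ) ≤ (Fintype.card V : ℝ) + o.d := by
    have h1 : (3 : ℝ) ≤ Fintype.card V := by exact_mod_cast hV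
    have h2 : (0 : ℝ) ≤ (o.d : ℝ) := Nat.cast_nonneg _
    linarith
  have hne : Nonempty V := Fintype.card_pos_iff.1 (by omega)
  obtain ⟨v0⟩ := hne
  have hval : ∀ w, push f x w = if w = f v0 then tot x else 0 := by
    intro w
    rw [push_apply]
    split_ifs with h
    · have : fib f w = univ := by
        ext u; simp [mem_fib, h, hconst u v0]
      rw [this]; rfl
    · have : fib f w = ∅ := by
        ext u; simp only [mem_fib, Finset.notMem_empty, iff_false]
        intro h3; exact h (by rw [← h3]; exact hconst u v0)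
      rw [this]; simp
  by_cases hv : v0 ∈ o.L
  · have h3 := h1 v0 hv
    have h4 : push f x v0 + push f x (o.m v0) = 1 := by
      have : ((Fintype.card V : ℝ) + o.d) * (push f x v0 + push f x (o.m v0))
          = ((Fintype.card V : ℝ) + o.d) * 1 := by rw [h3, mul_one]
      exact mul_left_cancel₀ (by linarith) this
    have hne' : v0 ≠ o.m v0 := (o.hm v0 hv).1
    rw [hval, hval] at h4
    by_cases ha : v0 = f v0
    · rw [if_pos ha, if_neg (fun h => hne' (ha.trans h.symm))] at h4
      linarith
    · rw [if_neg ha] at h4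
      by_cases hb : o.m v0 = f v0
      · rw [if_pos hb] at h4; linarith
      · rw [if_neg hb] at h4; linarith
  · have h3 := h2 v0 hv
    have h4 : push f x v0 = 1 := by
      have : ((Fintype.card V : ℝ) + o.d) * (push f x v0)
          = ((Fintype.card V : ℝ) + o.d) * 1 := by rw [h3, mul_one]
      exact mul_left_cancel₀ (by linarith) this
    rw [hval] at h4
    by_cases ha : v0 = f v0
    · rw [if_pos ha] at h4; linarith
    · rw [if_neg ha] at h4; linarith

/-- the potential -/
noncomputable def pot (Ω : Set (V → V)) (t d : ℕ) : ℕ :=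
  ∑ δ ∈ Finset.range d, (1 + (Fintype.card V - δ) / 2) + Module.finrank ℝ (B Ω t d)

lemma d_mono (o : Opt Ω t) (o' : Opt Ω (t + 1)) : o'.d ≤ o.d := by
  obtain ⟨x, hx, htot⟩ := o'.hex
  have := o.tot_le (X_mono (Nat.le_succ t) hx)
  rw [htot] at this
  have : (o'.d : ℝ) ≤ o.d := by linarith
  exact_mod_cast this

lemma pot_step (hV : 3 ≤ Fintype.card V) (hs : Sync Ω) (o : Opt Ω t) (o' : Opt Ω (t + 1)) :
    pot Ω (t + 1) o'.d + 1 ≤ pot Ω t o.d := by
  rcases Nat.eq_or_lt_of_le (d_mono o o') with h | h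
  · have := finrank_lt hV hs o o' h
    unfold pot
    rw [h] at this ⊢
    omega
  · have h1 := finrank_B_le (by omega) o'
    have h2 := one_le_finrank_B (by omega) o
    have h3 : ∑ δ ∈ Finset.range (o'.d + 1), (1 + (Fintype.card V - δ) / 2)
        ≤ ∑ δ ∈ Finset.range o.d, (1 + (Fintype.card V - δ) / 2) :=
      Finset.sum_le_sum_of_subset (Finset.range_mono h)
    rw [Finset.sum_range_succ] at h3
    unfold pot
    omega

lemma pot_iter (hV : 3 ≤ Fintype.card V) (hs : Sync Ω) {N t0 : ℕ} (hT : TF Ω N)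
    (o : Opt Ω t0) : ∀ s, t0 + s ≤ N → ∀ o' : Opt Ω (t0 + s), pot Ω (t0 + s) o'.d + s
      ≤ pot Ω t0 o.d := by
  intro s
  induction s with
  | zero =>
    intro _ o'
    have h1 : o'.d = o.d := by
      obtain ⟨x, hx, htot⟩ := o'.hex
      obtain ⟨y, hy, htot'⟩ := o.hex
      have h1 := o.tot_le hx
      have h2 := o'.tot_le hy
      rw [htot] at h1; rw [htot'] at h2
      have h3 : (o'.d : ℝ) ≤ o.d := by linarith
      have h4 : (o.d : ℝ) ≤ o'.d := by linarith
      have h5 : o'.d ≤ o.d := by exact_mod_cast h3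
      have h6 : o.d ≤ o'.d := by exact_mod_cast h4
      omega
    rw [h1]; simp
  | succ s ih =>
    intro hN o'
    obtain ⟨o1⟩ := exists_opt (TF_mono (by omega : t0 + s ≤ N) hT)
    have h1 := ih (by omega) o1
    have h2 := pot_step hV hs o1 (t := t0 + s) o'
    have h3 : pot Ω (t0 + (s + 1)) o'.d = pot Ω (t0 + s + 1) o'.d := rfl
    rw [h3]
    omega

/-- the bound from the plateaus: if some word of length at most `t0` has defect `K`, then
`4 (N - t0) ≤ (n + 1 - 2 K) (n + 4 + 2 K)` -/
lemma plateau_bound (hV : 3 ≤ Fintype.card V) (hs : Sync Ω) {N t0 : ℕ} (hT : TF Ω N)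
    (ht0 : t0 ≤ N) {f : V → V} (hf : f ∈ W Ω t0) :
    4 * ((N : ℤ) - t0) ≤ (Fintype.card V + 1 - 2 * (E f).card) *
      (Fintype.card V + 4 + 2 * (E f).card) := by
  obtain ⟨o⟩ := exists_opt (TF_mono ht0 hT)
  obtain ⟨s, rfl⟩ := Nat.exists_eq_add_of_le ht0
  obtain ⟨o'⟩ := exists_opt (TF_mono (by omega : t0 + s ≤ t0 + s) hT)
  have h1 := pot_iter hV hs hT o s le_rfl o'
  have h2 := one_le_finrank_B (by omega) o'
  have h3 := finrank_B_le (by omega) o
  -- s + 1 ≤ sum over range (o.d + 1)
  have h4 : s + 1 ≤ ∑ δ ∈ Finset.range (o.d + 1), (1 + (Fintype.card V - δ) / 2) := by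
    rw [Finset.sum_range_succ]
    unfold pot at h1
    omega
  -- the deficiency is at most n - 2K
  have h5 : o.d + 2 * (E f).card ≤ Fintype.card V := by
    obtain ⟨x, hx, htot⟩ := o.hex
    have h6 : tot x ≤ ((univ.image f).card : ℝ) := by
      have e1 : tot x = ∑ q ∈ univ.image f, ∑ v ∈ fib f q, x v := by
        unfold tot
        exact (Finset.sum_fiberwise_of_maps_to (s := univ) (t := univ.image f) (g := f)
          (fun v hv => Finset.mem_image_of_mem f hv) x).symm
      rw [e1]
      have := Finset.sum_le_card_nsmul (univ.image f) (fun q => ∑ v ∈ fib f q, x v) 1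
        (fun q _ => hx.2 f hf q)
      simpa using this
    have h7 := E_card f
    have h8 : ((E f).card : ℝ) + (univ.image f).card = Fintype.card V := by exact_mod_cast h7
    have h9 : (o.d : ℝ) + 2 * (E f).card ≤ Fintype.card V := by linarith
    exact_mod_cast h9
  have h6 : ∀ k : ℕ, k ≤ Fintype.card V + 1 →
      4 * ((∑ δ ∈ Finset.range k, (1 + (Fintype.card V - δ) / 2) : ℕ) : ℤ)
        ≤ k * (2 * Fintype.card V + 5 - k) := by
    intro k
    induction k with
    | zero => intro _; simp
    | succ k ih =>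
      intro hk
      have h7 := ih (by omega)
      rw [Finset.sum_range_succ, Nat.cast_add, mul_add]
      have h8 : 4 * (((1 + (Fintype.card V - k) / 2 : ℕ)) : ℤ)
          ≤ 4 + 2 * (Fintype.card V - k) := by
        omega
      push_cast at h7 h8 ⊢
      nlinarith
  have h7 := h6 (Fintype.card V - 2 * (E f).card + 1) (by omega)
  have h8 : ∑ δ ∈ Finset.range (o.d + 1), (1 + (Fintype.card V - δ) / 2) ≤
      ∑ δ ∈ Finset.range (Fintype.card V - 2 * (E f).card + 1),
        (1 + (Fintype.card V - δ) / 2) :=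
    Finset.sum_le_sum_of_subset (Finset.range_mono (by omega))
  have h9 : (s : ℤ) + 1 ≤ ((∑ δ ∈ Finset.range (Fintype.card V - 2 * (E f).card + 1),
      (1 + (Fintype.card V - δ) / 2) : ℕ) : ℤ) := by exact_mod_cast h4.trans h8
  have h10 : ((Fintype.card V - 2 * (E f).card + 1 : ℕ) : ℤ)
      = Fintype.card V - 2 * (E f).card + 1 := by omega
  rw [h10] at h7
  push_cast
  push_cast at h7 h9
  nlinarith

end

end Pool.Agent.H173.TR
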