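import Mathlib

/-!
# The arithmetic of a shrinking lattice polygon with a fixed part
-/

set_option autoImplicit false

namespace Pool.Agent.H173.TS

open Finset

/-- the support function `w` of a polygon which shrinks in the time interval `[t0, t2]`; `fl` is
the support function of the fixed part -/
structure Poly (n t0 t2 : ℕ) where
  w : ℕ → ℕ → ℤ
  h : ℕ → ℕ → ℤ
  fl : ℕ → ℤ
  kf : ℕ → ℤ
  anti : ∀ b t : ℕ, w b (t + 1) ≤ w b t
  flle : ∀ b t : ℕ, t0 ≤ t → t ≤ t2 → fl b ≤ w b t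
  fl0 : ∀ b : ℕ, 0 ≤ fl b
  kf0 : ∀ b : ℕ, fl b ≤ b * kf b
  kf1 : ∀ b c : ℕ, fl b + c * kf b ≤ fl (b + c)
  conv1 : ∀ b t : ℕ, h b t ≤ w (b + 1) t - w b t
  conv2 : ∀ b t : ℕ, w (b + 1) t - w b t ≤ h (b + 1) t
  u0 : ∀ b t : ℕ, w b t ≤ b * h b t
  u1 : ∀ b t : ℕ, (b : ℤ) * h b t - w b t ≤ n
  wle : ∀ b t : ℕ, w b t ≤ b * n
  step : ∀ b t : ℕ, t0 ≤ t → t + 1 ≤ t2 → w b (t + 1) = w b t → fl b < w b t →
    h b t + 1 ≤ h b (t + 1)

variable {n t0 t2 : ℕ} (P : Poly n t0 t2)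

lemma anti_le (b t s : ℕ) : P.w b (t + s) ≤ P.w b t := by
  induction s with
  | zero => exact le_rfl
  | succ s ih => exact (P.anti b (t + s)).trans ih

lemma h_grow {b t : ℕ} (ht : t0 ≤ t) (s : ℕ) (hs : t + s ≤ t2) (heq : P.w b (t + s) = P.w b t)
    (hpos : P.fl b < P.w b t) : P.h b t + s ≤ P.h b (t + s) := by
  induction s with
  | zero => simp
  | succ s ih =>
    have h1 := P.anti b (t + s)
    have h2 := anti_le P b t s
    have e : t + (s + 1) = t + s + 1 := rfl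
    rw [e] at heq
    have h3 : P.w b (t + s) = P.w b t := by linarith
    have h4 := ih (by omega) h3
    have h5 := P.step b (t + s) (by omega) (by omega) (by linarith) (by linarith)
    rw [e]
    push_cast
    linarith

/-- the second difference -/
def dd (t b : ℕ) : ℤ := P.w (b + 1) t - 2 * P.w b t + P.w (b - 1) t

lemma dd_nonneg {t b : ℕ} (hb : 1 ≤ b) : 0 ≤ dd P t b := by
  obtain ⟨a, rfl⟩ := Nat.exists_eq_add_of_le' hb
  unfold dd
  have h1 := P.conv1 (a + 1) t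
  have h2 := P.conv2 a t
  simp only [Nat.add_sub_cancel]
  linarith

lemma dd_ge {t b s : ℕ} (ht : t0 ≤ t) (hs : t + s ≤ t2) (hb : 1 ≤ b)
    (h1 : P.w b (t + s) = P.w b t) (h2 : P.w (b + 1) (t + s) = P.w (b + 1) t)
    (hpos : P.fl b < P.w b t) : (s : ℤ) ≤ dd P t b := by
  obtain ⟨a, rfl⟩ := Nat.exists_eq_add_of_le' hb
  unfold dd
  have h3 := h_grow P ht s hs h1 hpos
  have h4 := P.conv1 (a + 1) (t + s)
  have h5 := P.conv2 a t
  simp only [Nat.add_sub_cancel]
  linarith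

lemma dd_sum (t a c : ℕ) :
    ∑ b ∈ Finset.Ioc a (a + c), (b : ℤ) * dd P t b
      = ((a + c : ℕ) : ℤ) * P.w (a + c + 1) t - ((a + c : ℕ) + 1) * P.w (a + c) t
        - (a * P.w (a + 1) t - (a + 1) * P.w a t) := by
  induction c with
  | zero => simp
  | succ c ih =>
    have e : Finset.Ioc a (a + (c + 1)) = insert (a + c + 1) (Finset.Ioc a (a + c)) := by
      ext x; simp only [Finset.mem_Ioc, Finset.mem_insert]; omega
    rw [e, Finset.sum_insert (by simp), ih]
    unfold dd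
    have e1 : a + (c + 1) = a + c + 1 := rfl
    rw [e1, Nat.add_sub_cancel]
    push_cast
    ring

lemma dd_sum_le (t a c : ℕ) :
    ∑ b ∈ Finset.Ioc a (a + c), (b : ℤ) * dd P t b ≤ n := by
  rw [dd_sum P t a c]
  have h1 := P.conv2 (a + c) t
  have h2 := P.u1 (a + c + 1) t
  have h3 := P.conv1 a t
  have h4 := P.u0 a t
  have h5 : ((a + c : ℕ) + 1 : ℤ) * (P.w (a + c + 1) t - P.w (a + c) t) ≤
      ((a + c : ℕ) + 1) * P.h (a + c + 1) t :=
    mul_le_mul_of_nonneg_left h1 (by positivity)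
  have h6 : (a : ℤ) * P.h a t ≤ a * (P.w (a + 1) t - P.w a t) :=
    mul_le_mul_of_nonneg_left h3 (Int.natCast_nonneg _)
  push_cast at h2 h5 ⊢
  nlinarith

/-- the potential -/
def S (B t : ℕ) : ℤ := ∑ b ∈ Finset.Ioc B (2 * B + 1), P.w b t

lemma window {B t τ : ℕ} (ht : t0 ≤ t) (ht2 : t + τ ≤ t2) (hτ : 1 ≤ τ)
    (hBn : 2 * n ≤ (B + 1) * B * τ)
    (hpos : ∀ b ∈ Finset.Ioc B (2 * B), P.fl b < P.w b (t + τ)) :
    (B : ℤ) ≤ 4 * (S P B t - S P B (t + τ)) := by
  classical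
  have hpos' : ∀ b ∈ Finset.Ioc B (2 * B), P.fl b < P.w b t := fun b hb =>
    lt_of_lt_of_le (hpos b hb) (anti_le P _ _ _)
  let A := (Finset.Ioc B (2 * B)).filter
    (fun b => P.w b (t + τ) = P.w b t ∧ P.w (b + 1) (t + τ) = P.w (b + 1) t)
  -- `A` is small
  have hA1 : (A.card : ℤ) * ((B + 1) * τ) ≤ n := by
    have h1 : ∑ b ∈ A, (((B : ℤ) + 1) * τ) ≤ ∑ b ∈ A, (b : ℤ) * dd P t b := by
      refine Finset.sum_le_sum fun b hb => ?_
      have hb0 := (Finset.mem_filter.1 hb).1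
      simp only [A, Finset.mem_filter, Finset.mem_Ioc] at hb
      obtain ⟨⟨hb1, hb2⟩, hb3, hb4⟩ := hb
      have h2 := dd_ge P ht ht2 (by omega : 1 ≤ b) hb3 hb4 (hpos' b hb0)
      have h3 : ((B : ℤ) + 1) ≤ b := by exact_mod_cast hb1
      exact mul_le_mul h3 h2 (Int.natCast_nonneg _) (Int.natCast_nonneg _)
    have h2 : ∑ b ∈ A, (b : ℤ) * dd P t b ≤ ∑ b ∈ Finset.Ioc B (2 * B), (b : ℤ) * dd P t b := by
      refine Finset.sum_le_sum_of_subset_of_nonneg (Finset.filter_subset _ _) fun b hb _ => ?_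
      rw [Finset.mem_Ioc] at hb
      exact mul_nonneg (Int.natCast_nonneg _) (dd_nonneg P (by omega))
    have h3 := dd_sum_le P t B B
    rw [← two_mul] at h3
    rw [Finset.sum_const, nsmul_eq_mul] at h1
    linarith
  have hA2 : 2 * (A.card : ℤ) ≤ B := by
    have h1 : (2 * n : ℤ) ≤ (B + 1) * B * τ := by exact_mod_cast hBn
    have h2 : (0 : ℤ) < (B + 1) * τ := by
      have : (1 : ℤ) ≤ τ := by exact_mod_cast hτ
      positivity
    by_contra hcon
    push Not at hcon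
    have h3 : ((B : ℤ) + 1) * ((B + 1) * τ) ≤ 2 * (A.card : ℤ) * ((B + 1) * τ) :=
      mul_le_mul_of_nonneg_right (by omega) h2.le
    nlinarith
  -- the decreases
  have hdec : ∀ b, 0 ≤ P.w b t - P.w b (t + τ) := fun b => by
    have := anti_le P b t τ; linarith
  have h1 : ((Finset.Ioc B (2 * B)).card : ℤ) - A.card ≤
      ∑ b ∈ Finset.Ioc B (2 * B), ((P.w b t - P.w b (t + τ))
        + (P.w (b + 1) t - P.w (b + 1) (t + τ))) := by
    have h2 : ∀ b ∈ Finset.Ioc B (2 * B), (1 : ℤ) - (if b ∈ A then 1 else 0) ≤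
        (P.w b t - P.w b (t + τ)) + (P.w (b + 1) t - P.w (b + 1) (t + τ)) := by
      intro b hb
      have h3 := hdec b
      have h4 := hdec (b + 1)
      split_ifs with h
      · linarith
      · have h5 : ¬ (P.w b (t + τ) = P.w b t ∧ P.w (b + 1) (t + τ) = P.w (b + 1) t) := by
          intro h6
          exact h (Finset.mem_filter.2 ⟨hb, h6⟩)
        by_contra hcon
        push Not at hcon
        exact h5 ⟨by omega, by omega⟩
    have h3 := Finset.sum_le_sum h2
    rw [Finset.sum_sub_distrib, Finset.sum_const, nsmul_eq_mul, mul_one, Finset.sum_ite_mem,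
      Finset.sum_const, nsmul_eq_mul, mul_one] at h3
    have h4 : Finset.Ioc B (2 * B) ∩ A = A :=
      Finset.inter_eq_right.2 (Finset.filter_subset _ _)
    rw [h4] at h3
    exact h3
  have hc : ((Finset.Ioc B (2 * B)).card : ℤ) = B := by
    rw [Nat.card_Ioc]; omega
  rw [hc, Finset.sum_add_distrib] at h1
  have h2 : ∑ b ∈ Finset.Ioc B (2 * B), (P.w b t - P.w b (t + τ)) ≤ S P B t - S P B (t + τ) := by
    unfold S
    rw [← Finset.sum_sub_distrib]
    exact Finset.sum_le_sum_of_subset_of_nonneg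
      (fun x hx => by rw [Finset.mem_Ioc] at hx ⊢; omega) fun b _ _ => hdec b
  have h3 : ∑ b ∈ Finset.Ioc B (2 * B), (P.w (b + 1) t - P.w (b + 1) (t + τ))
      ≤ S P B t - S P B (t + τ) := by
    unfold S
    rw [← Finset.sum_sub_distrib]
    have e : ∑ b ∈ Finset.Ioc B (2 * B), (P.w (b + 1) t - P.w (b + 1) (t + τ))
        = ∑ b ∈ (Finset.Ioc B (2 * B)).image (· + 1), (P.w b t - P.w b (t + τ)) := by
      rw [Finset.sum_image]
      intro a _ b _ hab
      exact Nat.succ_injective hab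
    rw [e]
    refine Finset.sum_le_sum_of_subset_of_nonneg (fun x hx => ?_) fun b _ _ => hdec b
    rw [Finset.mem_image] at hx
    obtain ⟨y, hy, rfl⟩ := hx
    rw [Finset.mem_Ioc] at hy ⊢
    omega
  linarith

lemma iterate {B τ : ℕ} (hτ : 1 ≤ τ) (hBn : 2 * n ≤ (B + 1) * B * τ) {s : ℕ} (hs : t0 ≤ s) :
    ∀ m : ℕ, s + m * τ ≤ t2 → (∀ b ∈ Finset.Ioc B (2 * B), P.fl b < P.w b (s + m * τ)) →
      (m : ℤ) * B ≤ 4 * (S P B s - S P B (s + m * τ)) := by
  intro m
  induction m with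
  | zero => intro _ _; simp
  | succ m ih =>
    intro hm h
    have e : s + (m + 1) * τ = s + m * τ + τ := by ring
    rw [e] at h hm ⊢
    have h1 := ih (by omega) fun b hb => lt_of_lt_of_le (h b hb) (anti_le P _ _ _)
    have h2 := window P (by omega : t0 ≤ s + m * τ) hm hτ hBn h
    push_cast
    linarith

lemma sum_Ioc_id (B : ℕ) : ∀ c : ℕ, 2 * ∑ b ∈ Finset.Ioc B (B + c), (b : ℤ)
    = c * (2 * B + c + 1) := by
  intro c
  induction c with
  | zero => simp
  | succ c ih =>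
    have e : Finset.Ioc B (B + (c + 1)) = insert (B + c + 1) (Finset.Ioc B (B + c)) := by
      ext x; simp only [Finset.mem_Ioc, Finset.mem_insert]; omega
    rw [e, Finset.sum_insert (by simp), mul_add, ih]
    push_cast
    ring

lemma S_le (B t : ℕ) : 2 * S P B t ≤ (B + 1) * (3 * B + 2) * n := by
  have h1 : S P B t ≤ ∑ b ∈ Finset.Ioc B (2 * B + 1), (b : ℤ) * n :=
    Finset.sum_le_sum fun b _ => P.wle b t
  rw [← Finset.sum_mul] at h1
  have h2 := sum_Ioc_id B (B + 1)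
  have e : B + (B + 1) = 2 * B + 1 := by ring
  rw [e] at h2
  have h3 : 2 * ((∑ b ∈ Finset.Ioc B (2 * B + 1), (b : ℤ)) * n)
      = (B + 1) * (3 * B + 2) * n := by
    rw [← mul_assoc, h2]; push_cast; ring
  linarith

lemma h_mono (t b : ℕ) : ∀ c, P.h b t ≤ P.h (b + c) t := by
  intro c
  induction c with
  | zero => exact le_rfl
  | succ c ih =>
    have h1 := P.conv1 (b + c) t
    have h2 := P.conv2 (b + c) t
    have e : b + (c + 1) = b + c + 1 := rfl
    rw [e]; linarith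

lemma w_le (t b : ℕ) : ∀ c : ℕ, P.w (b + c) t ≤ P.w b t + c * P.h (b + c) t := by
  intro c
  induction c with
  | zero => simp
  | succ c ih =>
    have h1 := P.conv2 (b + c) t
    have h2 := h_mono P t (b + c) 1
    have e : b + (c + 1) = b + c + 1 := rfl
    rw [e]
    have h3 : (c : ℤ) * P.h (b + c) t ≤ c * P.h (b + c + 1) t :=
      mul_le_mul_of_nonneg_left h2 (Int.natCast_nonneg _)
    push_cast
    linarith

/-- if the floor is reached in direction `b`, the excess in the directions `≤ 5 b` is small -/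
lemma excess {t b c : ℕ} (hb : 1 ≤ b) (hc : c ≤ 4 * b) (hfl : P.w b t = P.fl b) :
    P.w (b + c) t - P.fl (b + c) ≤ 4 * n := by
  have h1 := w_le P t b c
  have h2 := P.kf1 b c
  have h3 := P.kf0 b
  have h4 := P.u1 (b + c) t
  set x : ℤ := P.h (b + c) t - P.kf b with hx
  have h5 : P.w (b + c) t - P.fl (b + c) ≤ c * x := by
    have : (c : ℤ) * x = c * P.h (b + c) t - c * P.kf b := by rw [hx]; ring
    rw [this]; linarith
  have h6 : (b : ℤ) * x ≤ n := by
    have : (b : ℤ) * x = b * P.h (b + c) t - b * P.kf b := by rw [hx]; ring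
    rw [this]
    push_cast at h4
    nlinarith
  have hn : (0 : ℤ) ≤ n := Int.natCast_nonneg _
  have hb' : (1 : ℤ) ≤ b := by exact_mod_cast hb
  have hc' : (c : ℤ) ≤ 4 * b := by exact_mod_cast hc
  have hc0 : (0 : ℤ) ≤ c := Int.natCast_nonneg _
  by_cases hx0 : x ≤ 0
  · have := mul_nonpos_of_nonneg_of_nonpos hc0 hx0
    linarith
  · push Not at hx0
    have h7 : (c : ℤ) * x ≤ 4 * b * x := mul_le_mul_of_nonneg_right hc' hx0.le
    nlinarith

/-- passing to directions twice as steep costs `24 n` steps -/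
lemma scale {t b : ℕ} (ht : t0 ≤ t) (ht2 : t + 24 * n ≤ t2) (hb : 2 ≤ b) (hn : 1 ≤ n)
    (hbn : 2 * n ≤ (2 * b + 1) * (2 * b)) (hfl : P.w b t = P.fl b) :
    ∃ c, 2 * b < c ∧ P.w c (t + 24 * n) = P.fl c := by
  by_contra hne
  push Not at hne
  have hpos : ∀ c ∈ Finset.Ioc (2 * b) (2 * (2 * b)), P.fl c < P.w c (t + (24 * n) * 1) := by
    intro c hc
    rw [Finset.mem_Ioc] at hc
    rw [mul_one]
    exact lt_of_le_of_ne (P.flle _ _ (by omega) ht2) (Ne.symm (hne c hc.1))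
  have h1 := iterate P (B := 2 * b) (τ := 1) (by norm_num) (by rw [mul_one]; exact hbn) ht
    (24 * n) (by rw [mul_one]; exact ht2) hpos
  rw [mul_one] at h1
  have h2 : S P (2 * b) t - S P (2 * b) (t + 24 * n) ≤ (2 * b + 1) * (4 * n) := by
    unfold S
    rw [← Finset.sum_sub_distrib]
    have h3 : ∀ c ∈ Finset.Ioc (2 * b) (2 * (2 * b) + 1),
        P.w c t - P.w c (t + 24 * n) ≤ 4 * n := by
      intro c hc
      rw [Finset.mem_Ioc] at hc
      obtain ⟨e, rfl⟩ := Nat.exists_eq_add_of_le (by omega : b ≤ c)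
      have h4 := excess P (t := t) (by omega : 1 ≤ b) (by omega : e ≤ 4 * b) hfl
      have h5 := P.flle (b + e) (t + 24 * n) (by omega) ht2
      linarith
    have h4 := Finset.sum_le_card_nsmul _ _ _ h3
    rw [Nat.card_Ioc, nsmul_eq_mul] at h4
    have e : ((2 * (2 * b) + 1 - 2 * b : ℕ) : ℤ) = 2 * b + 1 := by omega
    rw [e] at h4
    exact h4
  have hb' : (2 : ℤ) ≤ b := by exact_mod_cast hb
  have hn' : (1 : ℤ) ≤ n := by exact_mod_cast hn
  push_cast at h1
  nlinarith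

lemma tail {t b : ℕ} (ht : t0 ≤ t) (hb : 2 ≤ b) (hn : 1 ≤ n)
    (hbn : 2 * n ≤ (2 * b + 1) * (2 * b)) (hfl : P.w b t = P.fl b) :
    ∀ j : ℕ, t + 24 * n * j ≤ t2 → ∃ c, 2 ^ j * b ≤ c ∧ P.w c (t + 24 * n * j) = P.fl c := by
  intro j
  induction j with
  | zero => intro _; exact ⟨b, by simp, by simpa using hfl⟩
  | succ j ih =>
    intro hj
    have e : t + 24 * n * (j + 1) = t + 24 * n * j + 24 * n := by ring
    rw [e] at hj ⊢
    obtain ⟨c, hc, hc2⟩ := ih (by omega)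
    have hcb : b ≤ c := by
      have : 1 * b ≤ 2 ^ j * b := Nat.mul_le_mul_right _ Nat.one_le_two_pow
      omega
    obtain ⟨c', hc', hc2'⟩ := scale P (by omega : t0 ≤ t + 24 * n * j) hj (by omega) hn
      (hbn.trans (Nat.mul_le_mul (by omega) (by omega))) hc2
    refine ⟨c', ?_, hc2'⟩
    have : 2 ^ (j + 1) * b = 2 * (2 ^ j * b) := by ring
    omega

end Pool.Agent.H173.TS
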