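import Pool.Agent.H173.TQMain
import Pool.Agent.H173.TSArith

/-!
# The bound `O(n^{3/2} + r² n log n)` for `r` orbits of the bijective letters
-/

set_option autoImplicit false

namespace Pool.Agent.H173.TS

open Finset Pool.Agent.H173.TR Pool.Agent.H173.TP Pool.Agent.H173.TQ

section
variable {V : Type} [Fintype V] [DecidableEq V] {Ω : Set (V → V)} {r : ℕ}

/-- the polygon of the merge graphs -/
noncomputable def poly {κ : V → Fin r} (hκ : Orb Ω κ) {t1 t2 : ℕ}
    (hM : Ms Ω κ t1 = Ms Ω κ t2) :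
    TS.Poly (Fintype.card V) (t1 + (Fintype.card V - 1)) t2 where
  w b t := TP.val Ω b t (I Ω b t)
  h b t := df Ω t (I Ω b t)
  fl b := TP.val Ω b (t1 + (Fintype.card V - 1)) (XI Ω b (t1 + (Fintype.card V - 1)))
  kf b := df Ω (t1 + (Fintype.card V - 1)) (XI Ω b (t1 + (Fintype.card V - 1)))
  anti := (TQ.poly hκ hM).anti
  flle := (TQ.poly hκ hM).flle
  fl0 := (TQ.poly hκ hM).fl0
  kf0 b := by
    have h1 : ((XI Ω b (t1 + (Fintype.card V - 1))).card : ℤ) ≤ Fintype.card V := by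
      exact_mod_cast Finset.card_le_univ _
    unfold TP.val
    linarith
  kf1 b c := by
    have h1 := XI_max (Ω := Ω) (b + c) (t1 + (Fintype.card V - 1))
      (XI_inv b (t1 + (Fintype.card V - 1)))
    refine le_trans (le_of_eq ?_) h1
    unfold TP.val
    push_cast
    ring
  conv1 := (TQ.poly hκ hM).conv1
  conv2 := (TQ.poly hκ hM).conv2
  u0 := (TQ.poly hκ hM).u0
  u1 := (TQ.poly hκ hM).u1
  wle := (TQ.poly hκ hM).wle
  step := (TQ.poly hκ hM).step

/-- the potential of the merge graph -/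
noncomputable def SB (Ω : Set (V → V)) (B t : ℕ) : ℤ :=
  ∑ b ∈ Finset.Ioc B (2 * B + 1), TP.val Ω b t (I Ω b t)

lemma SB_anti (B t s : ℕ) : SB Ω B (t + s) ≤ SB Ω B t := by
  refine Finset.sum_le_sum fun b _ => ?_
  induction s with
  | zero => exact le_rfl
  | succ s ih =>
    refine le_trans ?_ ih
    have h1 := I_max (Ω := Ω) b (t + s) (I Ω b (t + s + 1))
    refine le_trans ?_ h1
    unfold TP.val
    have := mul_le_mul_of_nonneg_left (df_anti (Ω := Ω) (t + s) (I Ω b (t + s + 1)))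
      (Int.natCast_nonneg b)
    have e : t + (s + 1) = t + s + 1 := rfl
    rw [e]
    linarith

lemma SB_nonneg (B t : ℕ) : 0 ≤ SB Ω B t :=
  Finset.sum_nonneg fun b _ => (val_univ_nonneg b t).trans (I_max b t _)

/-- in a block in which `Ms` does not change the potential drops -/
theorem block (hV : 3 ≤ Fintype.card V) (hs : Sync Ω) {κ : V → Fin r} (hκ : Orb Ω κ)
    {s ℓ m0 Λ : ℕ} (hℓ : Fintype.card V < 2 ^ ℓ)
    (hΛ : Λ = (Fintype.card V - 1) + m0 * 3 + 24 * Fintype.card V * ℓ + Fintype.card V)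
    (hM : Ms Ω κ s = Ms Ω κ (s + Λ)) (hT : TF Ω (s + Λ)) :
    (m0 : ℤ) * Nat.sqrt (Fintype.card V) ≤
      4 * (SB Ω (Nat.sqrt (Fintype.card V)) s - SB Ω (Nat.sqrt (Fintype.card V)) (s + Λ)) := by
  set n := Fintype.card V with hn
  set B := Nat.sqrt n with hB
  have hB1 : 1 ≤ B := by rw [hB, Nat.le_sqrt]; omega
  have hB3 : n < (B + 1) * (B + 1) := Nat.lt_succ_sqrt n
  have hB4 : n ≤ B * B + 2 * B := by
    have e : (B + 1) * (B + 1) = B * B + 2 * B + 1 := by ring
    omega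
  set t' := s + (n - 1) with ht'
  set P := poly hκ hM with hP
  -- the floor is not reached before the end of the windows
  have hnot : ∀ t, t' ≤ t → t ≤ t' + m0 * 3 → ∀ b, B < b → P.w b t ≠ P.fl b := by
    intro t h1 h2 b hb heq
    have hbn : 2 * n ≤ (2 * b + 1) * (2 * b) := by
      have h3 : (B + 1) * (B + 1) ≤ b * b := Nat.mul_le_mul hb hb
      nlinarith
    obtain ⟨c, hc1, hc2⟩ := tail P h1 (by omega) (by omega) hbn heq ℓ (by
      have : t + 24 * n * ℓ ≤ s + Λ := by omega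
      exact this)
    have hcn : n < c := by
      have h3 : 2 ^ ℓ * 1 ≤ 2 ^ ℓ * b := Nat.mul_le_mul_left _ (by omega)
      omega
    set t3 := t + 24 * n * ℓ with ht3
    have hc2' : TP.val Ω c t3 (I Ω c t3) = TP.val Ω c t' (XI Ω c t') := hc2
    set X1 := XI Ω c t' with hX1
    have hX1i : Inv Ω X1 := XI_inv c _
    obtain ⟨o, S, hS⟩ := exists_opt' (TF_mono (by omega : t3 ≤ s + Λ) hT)
    have hT' : TF Ω (t3 + n) := TF_mono (by omega) hT
    obtain ⟨o', S', hS'⟩ := exists_opt' hT'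
    have hN2 := static hκ hM hX1i (t := t3 + n) (by omega) (by omega)
    set k1 : ℤ := (X1.card : ℤ) - (Nb (R Ω t') X1).card with hk1
    have hd : (o.d : ℤ) ≤ k1 := by
      have h4 := I_max (Ω := Ω) c t3 S
      rw [hc2'] at h4
      unfold TP.val df at h4
      rw [← hk1] at h4
      have h5 : (S.card : ℤ) = (Nb (R Ω t3) S).card + o.d := by exact_mod_cast hS
      have h6 : (0 : ℤ) ≤ S.card := Int.natCast_nonneg _
      have h7 : (X1.card : ℤ) ≤ n := by exact_mod_cast Finset.card_le_univ X1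
      have h8 : ((S.card : ℤ) - (Nb (R Ω t3) S).card) = o.d := by linarith
      rw [h8] at h4
      by_contra hcon
      push Not at hcon
      have h9 : (c : ℤ) * (o.d - k1) ≤ n := by rw [hn]; rw [hn] at h7; linarith
      have h10 : (c : ℤ) * 1 ≤ c * (o.d - k1) :=
        mul_le_mul_of_nonneg_left (by linarith) (Int.natCast_nonneg _)
      have h11 : (n : ℤ) < c := by exact_mod_cast hcn
      linarith
    have hd' : k1 ≤ (o'.d : ℤ) := by
      have h4 := df_le_d o' X1
      unfold df at h4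
      rw [hN2] at h4
      exact h4
    have h4 := pot_iter hV hs hT' o n le_rfl o'
    have h5 := one_le_finrank_B (by omega) o'
    have h6 := finrank_B_le (by omega) o
    have h7 : o.d ≤ o'.d := by
      have : (o.d : ℤ) ≤ o'.d := by linarith
      exact_mod_cast this
    have h8 : ∑ δ ∈ Finset.range o.d, (1 + (n - δ) / 2)
        ≤ ∑ δ ∈ Finset.range o'.d, (1 + (n - δ) / 2) :=
      Finset.sum_le_sum_of_subset (Finset.range_mono h7)
    unfold pot at h4
    rw [← hn] at h4 h6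
    omega
  have hle : t' + m0 * 3 ≤ s + Λ := by omega
  have h1 := iterate P (B := B) (τ := 3) (by norm_num) (by nlinarith) (le_refl t') m0 hle (by
    intro b hb
    rw [Finset.mem_Ioc] at hb
    exact lt_of_le_of_ne (P.flle _ _ (by omega) hle)
      (Ne.symm (hnot _ (by omega) le_rfl b hb.1)))
  have h2 : S P B t' ≤ SB Ω B s := SB_anti B s (n - 1)
  have h3 : SB Ω B (s + Λ) ≤ S P B (t' + m0 * 3) := by
    have e : s + Λ = (t' + m0 * 3) + (24 * n * ℓ + n) := by omega
    have h4 : SB Ω B ((t' + m0 * 3) + (24 * n * ℓ + n)) ≤ SB Ω B (t' + m0 * 3) :=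
      SB_anti B _ _
    rw [← e] at h4
    exact h4
  linarith

/-- the bound in terms of the number `r` of orbits of the bijective letters -/
theorem orbit_bound (hV : 3 ≤ Fintype.card V) (hs : Sync Ω) {κ : V → Fin r} (hκ : Orb Ω κ) :
    ¬ TF Ω (Fintype.card V * (((r + 1).choose 2 + 1) *
      (48 * (Nat.log 2 (Fintype.card V) + 1) + 2) + 38 * Nat.sqrt (Fintype.card V) + 88)) := by
  classical
  intro hT
  set n := Fintype.card V with hn
  set B := Nat.sqrt n with hB
  set ℓ := Nat.log 2 n + 1 with hℓ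
  set K := (r + 1).choose 2 with hK
  have hB1 : 1 ≤ B := by rw [hB, Nat.le_sqrt]; omega
  have hℓ1 : n < 2 ^ ℓ := Nat.lt_pow_succ_log_self (by norm_num) n
  set m0 := 8 * ℓ * n with hm0
  set Λ := (n - 1) + m0 * 3 + 24 * n * ℓ + n with hΛ
  have hΛ1 : Λ + 1 = n * (48 * ℓ + 2) := by
    have : n * (48 * ℓ + 2) = m0 * 3 + 24 * n * ℓ + 2 * n := by rw [hm0]; ring
    omega
  set q := (3 * B + 7) / (4 * ℓ) with hq
  have hq1 : q * (4 * ℓ) ≤ 3 * B + 7 := Nat.div_mul_le_self _ _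
  have hq2 : 3 * B + 7 < (q + 1) * (4 * ℓ) := by
    have h1 := Nat.div_add_mod (3 * B + 7) (4 * ℓ)
    have h2 := Nat.mod_lt (3 * B + 7) (by omega : 4 * ℓ > 0)
    have h3 : (q + 1) * (4 * ℓ) = 4 * ℓ * q + 4 * ℓ := by ring
    rw [← hq] at h1
    omega
  set m := K + 1 + q with hm
  have hM : m * Λ ≤ n * ((K + 1) * (48 * ℓ + 2) + 38 * B + 88) := by
    have h1 : m * Λ ≤ m * (n * (48 * ℓ + 2)) := Nat.mul_le_mul_left _ (by omega)
    have h2 : m * (n * (48 * ℓ + 2)) = n * ((K + 1) * (48 * ℓ + 2)) + n * (q * (48 * ℓ + 2)) := by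
      rw [hm]; ring
    have h3 : q * (48 * ℓ + 2) ≤ 38 * B + 88 := by
      have h4 : 2 * (q * (48 * ℓ + 2)) ≤ 25 * (q * (4 * ℓ)) := by nlinarith
      omega
    have h5 := Nat.mul_le_mul_left n h3
    have h6 : n * ((K + 1) * (48 * ℓ + 2) + 38 * B + 88)
        = n * ((K + 1) * (48 * ℓ + 2)) + n * (38 * B + 88) := by ring
    omega
  set D : ℤ := (m0 : ℤ) * B with hD
  have hD0 : 0 ≤ D := by positivity
  have key : ∀ k : ℕ, k ≤ m → (k : ℤ) * D - 4 * SB Ω B 0 ≤
      D * (Ms Ω κ (k * Λ)).card - 4 * SB Ω B (k * Λ) := by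
    intro k
    induction k with
    | zero =>
      intro _
      have : (0 : ℤ) ≤ D * (Ms Ω κ (0 * Λ)).card := by positivity
      simp only [Nat.cast_zero, zero_mul] at this ⊢
      linarith
    | succ k ih =>
      intro hk
      have h1 := ih (by omega)
      have e : (k + 1) * Λ = k * Λ + Λ := by ring
      rw [e]
      have h2 : Ms Ω κ (k * Λ) ⊆ Ms Ω κ (k * Λ + Λ) := Ms_mono (by omega)
      have h3 := SB_anti (Ω := Ω) B (k * Λ) Λ
      by_cases h4 : Ms Ω κ (k * Λ) = Ms Ω κ (k * Λ + Λ)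
      · have h5 : k * Λ + Λ ≤ m * Λ := by
          rw [← e]; exact Nat.mul_le_mul_right _ hk
        have h6 := block hV hs hκ hℓ1 (by rw [← hn]) h4 (TF_mono (h5.trans hM) hT)
        rw [← hn, ← hB, ← hD] at h6
        rw [← h4]
        push_cast
        linarith
      · have h5 := Finset.card_lt_card (lt_of_le_of_ne h2 h4)
        have h6 : ((Ms Ω κ (k * Λ)).card : ℤ) + 1 ≤ (Ms Ω κ (k * Λ + Λ)).card := by
          exact_mod_cast h5
        have h7 := mul_le_mul_of_nonneg_left h6 hD0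
        push_cast
        linarith
  have h1 := key m le_rfl
  have h2 : (Ms Ω κ (m * Λ)).card ≤ Fintype.card (Sym2 (Fin r)) := Finset.card_le_univ _
  rw [Sym2.card, Fintype.card_fin, ← hK] at h2
  have h3 : D * (Ms Ω κ (m * Λ)).card ≤ D * K :=
    mul_le_mul_of_nonneg_left (by exact_mod_cast h2) hD0
  have h4 := SB_nonneg (Ω := Ω) B (m * Λ)
  have h5 : 2 * SB Ω B 0 ≤ (B + 1) * (3 * B + 2) * n :=
    S_le (poly hκ (t1 := 0) (t2 := 0) rfl) B 0
  have h6 : ((m : ℤ)) * D ≤ D * K + 2 * ((B + 1) * (3 * B + 2) * n) := by linarith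
  have h7 : (m : ℤ) = K + 1 + q := by rw [hm]; push_cast; ring
  rw [h7] at h6
  have h8 : ((q : ℤ) + 1) * D ≤ 2 * ((B + 1) * (3 * B + 2) * n) := by linarith
  have h9 : ((q : ℤ) + 1) * (8 * ℓ * n * B) ≤ 2 * ((B + 1) * (3 * B + 2) * n) := by
    have : D = 8 * ℓ * n * B := by rw [hD, hm0]; push_cast; ring
    rw [this] at h8; exact h8
  have h10 : (3 * (B : ℤ) + 8) ≤ (q + 1) * (4 * ℓ) := by exact_mod_cast hq2
  have hnpos : (0 : ℤ) < n := by
    have : 0 < n := by omega
    exact_mod_cast this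
  have hB' : (1 : ℤ) ≤ B := by exact_mod_cast hB1
  have h11 : (3 * (B : ℤ) + 8) * (2 * n * B) ≤ (q + 1) * (4 * ℓ) * (2 * n * B) :=
    mul_le_mul_of_nonneg_right h10 (by positivity)
  have h12 : (3 * (B : ℤ) + 8) * (2 * n * B) ≤ 2 * ((B + 1) * (3 * B + 2) * n) := by
    calc (3 * (B : ℤ) + 8) * (2 * n * B) ≤ (q + 1) * (4 * ℓ) * (2 * n * B) := h11
      _ = (q + 1) * (8 * ℓ * n * B) := by ring
      _ ≤ _ := h9
  have h13 : (2 * (n : ℤ)) * (3 * B) ≤ 2 * n * 2 := by nlinarith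
  have h14 : (3 * (B : ℤ)) ≤ 2 := le_of_mul_le_mul_left h13 (by linarith)
  linarith

end

end Pool.Agent.H173.TS
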